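import Pool.Agent.Helper48_Loc.Half

/-!
# The Gaussian law of the potential, and the probability that the form bound fails
-/

set_option autoImplicit false
set_option linter.unusedSectionVars false

open MeasureTheory ProbabilityTheory Function

open scoped ENNReal BigOperators NNReal

noncomputable section

namespace Pool.Agent.Loc

open Pool.Agent.Anderson

variable {d : ℕ}

/-- the law of `σ ξ`, with `ξ` a standard Gaussian variable -/
def gl (σ : ℝ) : Measure ℝ := γ1.map fun t => σ * t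

instance (σ : ℝ) : IsProbabilityMeasure (gl σ) :=
  Measure.isProbabilityMeasure_map (by fun_prop)

theorem bddDens_gl {σ : ℝ} (hσ : σ ≠ 0) : BddDens (gl σ) (1 / |σ|) := by
  refine ⟨by positivity, fun a b => ?_⟩
  have h1 : gl σ = gaussianReal 0 (.mk (σ ^ 2) (sq_nonneg _)) := by
    unfold gl γ1
    rw [gaussianReal_map_const_mul, mul_zero, mul_one]
  have hv : (NNReal.mk (σ ^ 2) (sq_nonneg _)) ≠ 0 := by
    intro h
    have : σ ^ 2 = 0 := congrArg NNReal.toReal h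
    exact hσ (by simpa using this)
  rw [h1, gaussianReal_apply _ hv]
  calc ∫⁻ x in Set.Icc a b, gaussianPDF 0 (.mk (σ ^ 2) (sq_nonneg _)) x
      ≤ ∫⁻ _x in Set.Icc a b, ENNReal.ofReal (1 / |σ|) := by
        apply setLIntegral_mono measurable_const
        intro x _
        unfold gaussianPDF
        apply ENNReal.ofReal_le_ofReal
        unfold gaussianPDFReal
        have e1 : Real.exp (-(x - 0) ^ 2 / (2 * ((NNReal.mk (σ ^ 2) (sq_nonneg _) : ℝ≥0) : ℝ))) ≤
            1 := by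
          rw [Real.exp_le_one_iff]
          have : 0 ≤ (x - 0) ^ 2 / (2 * σ ^ 2) := by positivity
          change -(x - 0) ^ 2 / (2 * σ ^ 2) ≤ 0
          rw [neg_div]
          linarith
        have e2 : (√(2 * Real.pi * ((NNReal.mk (σ ^ 2) (sq_nonneg _) : ℝ≥0) : ℝ)))⁻¹ ≤
            1 / |σ| := by
          rw [← one_div]
          apply one_div_le_one_div_of_le (by positivity)
          rw [← Real.sqrt_sq_eq_abs]
          apply Real.sqrt_le_sqrt
          change σ ^ 2 ≤ 2 * Real.pi * σ ^ 2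
          have := Real.pi_gt_three
          nlinarith [sq_nonneg σ]
        calc _ ≤ 1 / |σ| * 1 := mul_le_mul e2 e1 (Real.exp_pos _).le (by positivity)
          _ = _ := mul_one _
    _ = ENNReal.ofReal (1 / |σ|) * ENNReal.ofReal (b - a) := by
        rw [setLIntegral_const, Real.volume_Icc]
    _ = ENNReal.ofReal (1 / |σ| * (b - a)) := (ENNReal.ofReal_mul (by positivity)).symm

theorem PL_gl (σ : ℝ) (Λ : Finset (Site d)) {S : Set (Site d → ℝ)} (hS : MeasurableSet S) :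
    PL (gl σ) Λ S = γn Λ {ξ | updateFinset (0 : Site d → ℝ) Λ (fun z => σ * ξ z) ∈ S} := by
  have h1 : (Measure.pi fun _ : Λ => gl σ) = (γn Λ).map fun ξ z => σ * ξ z := by
    unfold gl
    exact (Measure.pi_map_pi (μ := fun _ : Λ => γ1) (f := fun _ t => σ * t)
      (fun _ => by fun_prop)).symm
  have hm1 : Measurable fun (ξ : Λ → ℝ) z => σ * ξ z := by fun_prop
  have hm2 : Measurable (updateFinset (0 : Site d → ℝ) Λ) := measurable_updateFinset
  unfold PL
  rw [h1, Measure.map_map hm2 hm1, Measure.map_apply (hm2.comp hm1) hS]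
  rfl

/-- The probability that the form bound fails. -/
theorem bad_prob {Λ : Finset (Site d)} {a g κ₂ σ : ℝ} (ha : 0 < a) (hg : 0 < g) (hκ : 0 < κ₂)
    (hdiag : ∀ x, gr 0 Λ (2 * d + a) x x ≤ g)
    (hsq : ∀ x, ∑ y ∈ Λ, gr 0 Λ (2 * d + a) x y ^ 2 ≤ κ₂)
    (hσ : σ ≠ 0) (hag : a * g ≤ 1)
    (hq1 : 1 / 2 ≤ σ ^ 2 * g / a) (hq : σ ^ 2 * g / a ≤ 1) {p : ℕ} (hp : 2 ≤ p)
    (hsmall : 1440 * (p : ℝ) ^ 3 * √(σ ^ 2 * κ₂) ≤ 1) {θ : ℝ} (hθ : 0 < θ) :
    PL (gl σ) Λ {V | ¬ GE V Λ a θ} ≤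
      ENNReal.ofReal (4 * Λ.card * (σ ^ 2 * g / a / θ ^ 2) ^ p) := by
  obtain ⟨C, hC, hform⟩ := exists_C Λ ha hg hκ.le hdiag hsq
  have hS : MeasurableSet {V : Site d → ℝ | ¬ GE V Λ a θ} := (measurableSet_GE Λ a θ).compl
  rw [PL_gl σ Λ hS]
  have h1 := tail_bound hC hκ hσ hag hq1 hq hp hsmall hθ
  rw [Fintype.card_coe] at h1
  refine (measure_mono ?_).trans h1
  intro ξ hξ
  simp only [Set.mem_ofPred_eq] at hξ ⊢
  by_contra hcon
  push Not at hcon
  apply hξ
  apply hform σ θ ξ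
  · intro x
    simp [updateFinset]
  · intro v
    exact form_le_of_trace (MM_symm hC.symm σ ξ) (by omega) hθ.le hcon.le v

/-- a cruder bound, for large disorder -/
theorem GE_of_sup {Λ : Finset (Site d)} {a : ℝ} {V : Site d → ℝ}
    (h : ∀ y ∈ Λ, |V y| ≤ a / 2) : GE V Λ a (1 / 2) := by
  intro u
  have h1 := le_abs_self (hf Λ u)
  have h2 := abs_hf_le Λ u
  have h3 : |∑ y ∈ Λ, V y * u y ^ 2| ≤ a / 2 * ∑ y ∈ Λ, u y ^ 2 := by
    rw [Finset.mul_sum]
    refine (Finset.abs_sum_le_sum_abs _ _).trans (Finset.sum_le_sum fun y hy => ?_)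
    rw [abs_mul, abs_of_nonneg (sq_nonneg (u y))]
    exact mul_le_mul_of_nonneg_right (h y hy) (sq_nonneg _)
  linarith

/-- Gaussian tail -/
theorem gauss_tail {t : ℝ} (ht : 0 ≤ t) : γ1 {s | t < |s|} ≤
    ENNReal.ofReal (2 * Real.exp (-t ^ 2 / 2)) := by
  have hint : ∀ c : ℝ, Integrable (fun x : ℝ => Real.exp (c * x)) γ1 :=
    fun c => integrable_exp_mul_gaussianReal c
  have e1 : Real.exp (-t * t) * Real.exp (t ^ 2 / 2) = Real.exp (-t ^ 2 / 2) := by
    rw [← Real.exp_add]; congr 1; ring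
  have h1 : γ1.real {s : ℝ | t ≤ s} ≤ Real.exp (-t ^ 2 / 2) := by
    have := measure_ge_le_exp_mul_mgf (μ := γ1) (X := fun x => x) t ht (hint t)
    rw [mgf_fun_id_gaussianReal] at this
    refine this.trans (le_of_eq ?_)
    rw [← e1]
    simp
  have h2 : γ1.real {s : ℝ | s ≤ -t} ≤ Real.exp (-t ^ 2 / 2) := by
    have := measure_le_le_exp_mul_mgf (μ := γ1) (X := fun x => x) (-t) (neg_nonpos.2 ht)
      (hint (-t))
    rw [mgf_fun_id_gaussianReal] at this
    refine this.trans (le_of_eq ?_)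
    rw [← e1]
    simp
  have h3 : {s : ℝ | t < |s|} ⊆ {s : ℝ | t ≤ s} ∪ {s : ℝ | s ≤ -t} := by
    intro s hs
    simp only [Set.mem_ofPred_eq] at hs
    rcases lt_abs.1 hs with h | h
    · exact Or.inl h.le
    · exact Or.inr (by simp only [Set.mem_ofPred_eq]; linarith)
  have h4 : γ1.real {s : ℝ | t < |s|} ≤ 2 * Real.exp (-t ^ 2 / 2) := by
    calc γ1.real {s : ℝ | t < |s|} ≤ γ1.real ({s : ℝ | t ≤ s} ∪ {s : ℝ | s ≤ -t}) :=
          measureReal_mono h3
      _ ≤ γ1.real {s : ℝ | t ≤ s} + γ1.real {s : ℝ | s ≤ -t} := measureReal_union_le _ _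
      _ ≤ _ := by linarith
  rw [← ENNReal.ofReal_toReal (measure_ne_top γ1 _)]
  exact ENNReal.ofReal_le_ofReal h4

theorem bad_prob_large {Λ : Finset (Site d)} {a σ : ℝ} (ha : 0 < a) (hσ : σ ≠ 0) :
    PL (gl σ) Λ {V | ¬ GE V Λ a (1 / 2)} ≤
      ENNReal.ofReal (2 * Λ.card * Real.exp (-(a / (2 * |σ|)) ^ 2 / 2)) := by
  have hS : MeasurableSet {V : Site d → ℝ | ¬ GE V Λ a (1 / 2)} := (measurableSet_GE Λ a _).compl
  rw [PL_gl σ Λ hS]
  have hσ0 : 0 < |σ| := abs_pos.2 hσ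
  have h1 : {ξ : Λ → ℝ | updateFinset (0 : Site d → ℝ) Λ (fun z => σ * ξ z) ∈
      {V : Site d → ℝ | ¬ GE V Λ a (1 / 2)}} ⊆
      ⋃ z ∈ (Finset.univ : Finset Λ), {ξ | a / (2 * |σ|) < |ξ z|} := by
    intro ξ hξ
    simp only [Set.mem_ofPred_eq] at hξ
    by_contra hcon
    apply hξ
    apply GE_of_sup
    intro y hy
    simp only [Finset.mem_univ, Set.iUnion_true, Set.mem_iUnion, Set.mem_ofPred_eq, not_exists,
      not_lt] at hcon
    have h2 := hcon ⟨y, hy⟩
    have h3 : updateFinset (0 : Site d → ℝ) Λ (fun z => σ * ξ z) y = σ * ξ ⟨y, hy⟩ := by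
      simp [updateFinset, hy]
    rw [h3, abs_mul]
    calc |σ| * |ξ ⟨y, hy⟩| ≤ |σ| * (a / (2 * |σ|)) := by gcongr
      _ = a / 2 := by field_simp
  refine (measure_mono h1).trans ((measure_biUnion_finset_le _ _).trans ?_)
  have h2 : ∀ z : Λ, γn Λ {ξ : Λ → ℝ | a / (2 * |σ|) < |ξ z|} ≤
      ENNReal.ofReal (2 * Real.exp (-(a / (2 * |σ|)) ^ 2 / 2)) := by
    intro z
    have h3 : γn Λ {ξ : Λ → ℝ | a / (2 * |σ|) < |ξ z|} = γ1 {s | a / (2 * |σ|) < |s|} := by
      have hmp := measurePreserving_eval (fun _ : Λ => γ1) z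
      have hms : MeasurableSet {s : ℝ | a / (2 * |σ|) < |s|} :=
        measurableSet_lt measurable_const measurable_id.abs
      rw [← hmp.measure_preimage hms.nullMeasurableSet]
      rfl
    rw [h3]
    exact gauss_tail (by positivity)
  calc ∑ z : Λ, γn Λ {ξ : Λ → ℝ | a / (2 * |σ|) < |ξ z|}
      ≤ ∑ _z : Λ, ENNReal.ofReal (2 * Real.exp (-(a / (2 * |σ|)) ^ 2 / 2)) :=
        Finset.sum_le_sum fun z _ => h2 z
    _ = _ := by
        rw [Finset.sum_const, Finset.card_univ, Fintype.card_coe, nsmul_eq_mul,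
          show (Λ.card : ℝ≥0∞) = ENNReal.ofReal (Λ.card : ℝ) by simp,
          ← ENNReal.ofReal_mul (by positivity)]
        congr 1
        ring

end Pool.Agent.Loc
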