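import Mathlib

/-!
# Gaussian integration by parts for polynomially bounded functions of finitely many variables
-/

set_option autoImplicit false
set_option linter.unusedSectionVars false

open MeasureTheory ProbabilityTheory Function Filter

open scoped ENNReal BigOperators Topology NNReal

noncomputable section

namespace Pool.Agent.Loc

/-- the standard Gaussian measure on the line -/
abbrev γ1 : Measure ℝ := gaussianReal 0 1

/-! ### one variable -/

theorem integrable_poly_gauss (m : ℕ) : Integrable (fun t : ℝ => (1 + |t|) ^ m) γ1 := by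
  have h1 : MemLp (fun t : ℝ => 1 + |t|) m γ1 := by
    apply MemLp.add
    · exact memLp_const 1
    · exact (memLp_id_gaussianReal' m (by simp)).norm
  have h2 := h1.integrable_norm_pow'
  refine h2.congr (ae_of_all _ fun t => ?_)
  beta_reduce
  rw [Real.norm_eq_abs, abs_of_nonneg (by positivity)]

theorem integrable_of_poly {f : ℝ → ℝ} (hf : Continuous f) {C : ℝ} {m : ℕ}
    (hb : ∀ t, |f t| ≤ C * (1 + |t|) ^ m) : Integrable f γ1 := by
  refine ((integrable_poly_gauss m).const_mul C).mono' hf.aestronglyMeasurable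
    (ae_of_all _ fun t => ?_)
  rw [Real.norm_eq_abs]
  exact hb t

theorem integrable_pdf_mul {f : ℝ → ℝ} (hf : Integrable f γ1) :
    Integrable (fun t => gaussianPDFReal 0 1 t * f t) := by
  rw [γ1, gaussianReal_of_var_ne_zero _ one_ne_zero] at hf
  rw [integrable_withDensity_iff_integrable_smul' (measurable_gaussianPDF 0 1)
    (ae_of_all _ fun t => ENNReal.ofReal_lt_top)] at hf
  refine hf.congr (ae_of_all _ fun t => ?_)
  simp only [smul_eq_mul]
  congr 1
  rw [gaussianPDF, ENNReal.toReal_ofReal (gaussianPDFReal_nonneg 0 1 t)]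

theorem hasDerivAt_pdf (t : ℝ) :
    HasDerivAt (gaussianPDFReal 0 1) (-t * gaussianPDFReal 0 1 t) t := by
  have h1 : gaussianPDFReal 0 1 = fun t => (√(2 * Real.pi))⁻¹ * Real.exp (-t ^ 2 / 2) := by
    funext t
    simp [gaussianPDFReal]
  rw [h1]
  have h2 : HasDerivAt (fun t : ℝ => -t ^ 2 / 2) (-t) t := by
    have := ((hasDerivAt_id t).pow 2).neg.div_const 2
    convert! this using 1
    simp
    ring
  have h3 := (h2.exp).const_mul ((√(2 * Real.pi))⁻¹)
  convert! h3 using 1
  ring

/-- Gaussian integration by parts in one variable -/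
theorem stein1 {f f' : ℝ → ℝ} (hf : ∀ t, HasDerivAt f (f' t) t) (hf' : Continuous f')
    {C : ℝ} {m : ℕ} (hb : ∀ t, |f t| ≤ C * (1 + |t|) ^ m)
    (hb' : ∀ t, |f' t| ≤ C * (1 + |t|) ^ m) :
    ∫ t, t * f t ∂γ1 = ∫ t, f' t ∂γ1 := by
  have hfc : Continuous f := continuous_iff_continuousAt.2 fun t => (hf t).continuousAt
  have i1 : Integrable f γ1 := integrable_of_poly hfc hb
  have i2 : Integrable f' γ1 := integrable_of_poly hf' hb'
  have i3 : Integrable (fun t => t * f t) γ1 := by
    refine integrable_of_poly (by fun_prop) (C := C) (m := m + 1) fun t => ?_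
    rw [abs_mul, pow_succ]
    calc |t| * |f t| ≤ (1 + |t|) * (C * (1 + |t|) ^ m) := by
          apply mul_le_mul (by linarith) (hb t) (abs_nonneg _) (by positivity)
      _ = _ := by ring
  have j1 := integrable_pdf_mul i1
  have j2 := integrable_pdf_mul i2
  have j3 := integrable_pdf_mul i3
  rw [integral_gaussianReal_eq_integral_smul one_ne_zero,
    integral_gaussianReal_eq_integral_smul one_ne_zero]
  simp only [smul_eq_mul]
  have h := integral_mul_deriv_eq_deriv_mul_of_integrable (u := f) (u' := f')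
    (v := gaussianPDFReal 0 1) (v' := fun t => -t * gaussianPDFReal 0 1 t)
    (fun x _ => hf x) (fun x _ => hasDerivAt_pdf x) ?_ ?_ ?_
  · have e1 : ∫ t, f t * (-t * gaussianPDFReal 0 1 t) = - ∫ t, gaussianPDFReal 0 1 t * (t * f t) := by
      rw [← integral_neg]
      congr 1
      funext t
      ring
    have e2 : ∫ t, f' t * gaussianPDFReal 0 1 t = ∫ t, gaussianPDFReal 0 1 t * f' t := by
      congr 1
      funext t
      ring
    rw [e1, e2] at h
    linarith
  · refine j3.neg.congr (ae_of_all _ fun t => ?_)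
    simp only [Pi.neg_apply, Pi.mul_apply]
    ring
  · refine j2.congr (ae_of_all _ fun t => ?_)
    simp only [Pi.mul_apply]
    ring
  · refine j1.congr (ae_of_all _ fun t => ?_)
    simp only [Pi.mul_apply]
    ring

/-! ### several variables -/

section Multi

variable {n : Type*} [Fintype n] [DecidableEq n]

/-- the standard Gaussian measure on `ℝ^n` -/
abbrev γn (n : Type*) [Fintype n] : Measure (n → ℝ) := Measure.pi fun _ : n => γ1

/-- continuous functions of at most polynomial growth -/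
def PB (F : (n → ℝ) → ℝ) : Prop :=
  Continuous F ∧ ∃ (C : ℝ) (m : ℕ), 0 ≤ C ∧ ∀ ξ, |F ξ| ≤ C * ∏ x, (1 + |ξ x|) ^ m

theorem one_le_prod (m : ℕ) (ξ : n → ℝ) : 1 ≤ ∏ x, (1 + |ξ x|) ^ m := by
  calc (1:ℝ) = ∏ _x : n, 1 := by simp
    _ ≤ _ := by
        apply Finset.prod_le_prod
        · intro x _; exact zero_le_one
        · intro x _
          exact one_le_pow₀ (by linarith [abs_nonneg (ξ x)])

theorem prod_mono {m m' : ℕ} (h : m ≤ m') (ξ : n → ℝ) :
    ∏ x, (1 + |ξ x|) ^ m ≤ ∏ x, (1 + |ξ x|) ^ m' := by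
  apply Finset.prod_le_prod
  · intro x _; positivity
  · intro x _
    exact pow_le_pow_right₀ (by linarith [abs_nonneg (ξ x)]) h

theorem PB.const (c : ℝ) : PB (fun _ : n → ℝ => c) := by
  refine ⟨continuous_const, |c|, 0, abs_nonneg _, fun ξ => ?_⟩
  simp

theorem PB.coord (x : n) : PB (fun ξ : n → ℝ => ξ x) := by
  refine ⟨continuous_apply x, 1, 1, zero_le_one, fun ξ => ?_⟩
  simp only [pow_one, one_mul]
  have h1 : |ξ x| ≤ 1 + |ξ x| := by linarith
  refine h1.trans ?_
  rw [← Finset.mul_prod_erase _ _ (Finset.mem_univ x)]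
  have h2 : 1 ≤ ∏ y ∈ Finset.univ.erase x, (1 + |ξ y|) := by
    calc (1:ℝ) = ∏ _y ∈ Finset.univ.erase x, 1 := by simp
      _ ≤ _ := by
          apply Finset.prod_le_prod
          · intro y _; exact zero_le_one
          · intro y _
            linarith [abs_nonneg (ξ y)]
  have h3 : 0 ≤ 1 + |ξ x| := by positivity
  nlinarith

theorem PB.add {F G : (n → ℝ) → ℝ} (hF : PB F) (hG : PB G) : PB (fun ξ => F ξ + G ξ) := by
  obtain ⟨hFc, C, m, hC, hF⟩ := hF
  obtain ⟨hGc, C', m', hC', hG⟩ := hG
  refine ⟨hFc.add hGc, C + C', max m m', by positivity, fun ξ => ?_⟩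
  have h1 := prod_mono (le_max_left m m') ξ
  have h2 := prod_mono (le_max_right m m') ξ
  calc |F ξ + G ξ| ≤ |F ξ| + |G ξ| := abs_add_le _ _
    _ ≤ C * ∏ x, (1 + |ξ x|) ^ m + C' * ∏ x, (1 + |ξ x|) ^ m' := add_le_add (hF ξ) (hG ξ)
    _ ≤ C * ∏ x, (1 + |ξ x|) ^ (max m m') + C' * ∏ x, (1 + |ξ x|) ^ (max m m') := by gcongr
    _ = _ := by ring

theorem PB.mul {F G : (n → ℝ) → ℝ} (hF : PB F) (hG : PB G) : PB (fun ξ => F ξ * G ξ) := by
  obtain ⟨hFc, C, m, hC, hF⟩ := hF
  obtain ⟨hGc, C', m', hC', hG⟩ := hG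
  refine ⟨hFc.mul hGc, C * C', m + m', by positivity, fun ξ => ?_⟩
  rw [abs_mul]
  calc |F ξ| * |G ξ| ≤ (C * ∏ x, (1 + |ξ x|) ^ m) * (C' * ∏ x, (1 + |ξ x|) ^ m') :=
        mul_le_mul (hF ξ) (hG ξ) (abs_nonneg _) (by positivity)
    _ = C * C' * ((∏ x, (1 + |ξ x|) ^ m) * ∏ x, (1 + |ξ x|) ^ m') := by ring
    _ = _ := by
        rw [← Finset.prod_mul_distrib]
        congr 1
        apply Finset.prod_congr rfl
        intro x _
        rw [pow_add]

theorem PB.const_mul {F : (n → ℝ) → ℝ} (c : ℝ) (hF : PB F) : PB (fun ξ => c * F ξ) :=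
  (PB.const c).mul hF

theorem PB.neg {F : (n → ℝ) → ℝ} (hF : PB F) : PB (fun ξ => - F ξ) := by
  have := hF.const_mul (-1)
  simpa using this

theorem PB.sub {F G : (n → ℝ) → ℝ} (hF : PB F) (hG : PB G) : PB (fun ξ => F ξ - G ξ) := by
  have := hF.add hG.neg
  simpa [sub_eq_add_neg] using this

theorem PB.pow {F : (n → ℝ) → ℝ} (hF : PB F) (k : ℕ) : PB (fun ξ => F ξ ^ k) := by
  induction k with
  | zero => simpa using PB.const 1
  | succ k ih =>
    have := ih.mul hF
    simpa [pow_succ] using this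

theorem PB.abs {F : (n → ℝ) → ℝ} (hF : PB F) : PB (fun ξ => |F ξ|) := by
  obtain ⟨hFc, C, m, hC, hF⟩ := hF
  exact ⟨hFc.abs, C, m, hC, fun ξ => by rw [abs_abs]; exact hF ξ⟩

theorem PB.sum {ι : Type*} (s : Finset ι) {F : ι → (n → ℝ) → ℝ} (hF : ∀ i ∈ s, PB (F i)) :
    PB (fun ξ => ∑ i ∈ s, F i ξ) := by
  classical
  induction s using Finset.induction with
  | empty => simpa using PB.const 0
  | insert a s ha ih =>
    have h1 := (hF a (Finset.mem_insert_self a s)).add
      (ih fun i hi => hF i (Finset.mem_insert_of_mem hi))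
    simpa [Finset.sum_insert ha] using h1

theorem PB.integrable {F : (n → ℝ) → ℝ} (hF : PB F) : Integrable F (γn n) := by
  obtain ⟨hFc, C, m, hC, hF⟩ := hF
  have h1 : Integrable (fun ξ : n → ℝ => ∏ x, (1 + |ξ x|) ^ m) (γn n) :=
    Integrable.fintype_prod fun _ => integrable_poly_gauss m
  refine (h1.const_mul C).mono' hFc.aestronglyMeasurable (ae_of_all _ fun ξ => ?_)
  rw [Real.norm_eq_abs]
  exact hF ξ

/-- resampling one coordinate preserves a product measure -/
theorem resample {ν : Measure ℝ} [IsProbabilityMeasure ν] (x : n) :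
    MeasurePreserving (fun z : (n → ℝ) × ℝ => update z.1 x z.2)
      ((Measure.pi fun _ : n => ν).prod ν) (Measure.pi fun _ : n => ν) := by
  have hm : Measurable (fun z : (n → ℝ) × ℝ => update z.1 x z.2) := by
    rw [measurable_pi_iff]
    intro w
    by_cases h1 : w = x
    · subst h1; simp only [update_self]; exact measurable_snd
    · simp only [update_of_ne h1]
      exact (measurable_pi_apply w).comp measurable_fst
  refine ⟨hm, ?_⟩
  symm
  apply Measure.pi_eq
  intro s hs
  rw [Measure.map_apply hm (MeasurableSet.univ_pi hs)]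
  have h1 : (fun z : (n → ℝ) × ℝ => update z.1 x z.2) ⁻¹' (Set.univ.pi s) =
      (Set.univ.pi (update s x Set.univ)) ×ˢ (s x) := by
    ext z
    simp only [Set.mem_preimage, Set.mem_pi, Set.mem_univ, true_imp_iff, Set.mem_prod]
    constructor
    · intro h
      refine ⟨fun i => ?_, ?_⟩
      · by_cases hi : i = x
        · subst hi; simp
        · have := h i
          rw [update_of_ne hi] at this
          rw [update_of_ne hi]
          exact this
      · have := h x
        rwa [update_self] at this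
    · rintro ⟨h, h'⟩ i
      by_cases hi : i = x
      · subst hi; rwa [update_self]
      · have := h i
        rw [update_of_ne hi] at this
        rw [update_of_ne hi]
        exact this
  rw [h1, Measure.prod_prod, Measure.pi_pi]
  rw [← Finset.mul_prod_erase _ _ (Finset.mem_univ x), update_self, measure_univ, one_mul,
    ← Finset.mul_prod_erase _ (fun i => ν (s i)) (Finset.mem_univ x), mul_comm]
  congr 1
  apply Finset.prod_congr rfl
  intro i hi
  rw [update_of_ne (Finset.ne_of_mem_erase hi)]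

theorem PB.slice {F : (n → ℝ) → ℝ} (hF : PB F) (x : n) (ξ : n → ℝ) :
    ∃ (C : ℝ) (m : ℕ), ∀ t, |F (update ξ x t)| ≤ C * (1 + |t|) ^ m := by
  obtain ⟨hFc, C, m, hC, hF⟩ := hF
  refine ⟨C * ∏ y ∈ Finset.univ.erase x, (1 + |ξ y|) ^ m, m, fun t => ?_⟩
  refine (hF _).trans (le_of_eq ?_)
  rw [← Finset.mul_prod_erase _ _ (Finset.mem_univ x), update_self]
  have : ∏ y ∈ Finset.univ.erase x, (1 + |update ξ x t y|) ^ m =
      ∏ y ∈ Finset.univ.erase x, (1 + |ξ y|) ^ m := by
    apply Finset.prod_congr rfl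
    intro i hi
    rw [update_of_ne (Finset.ne_of_mem_erase hi)]
  rw [this]
  ring

/-- Gaussian integration by parts in several variables -/
theorem stein {F F' : (n → ℝ) → ℝ} (hF : PB F) (hF' : PB F') (x : n)
    (hd : ∀ ξ, HasDerivAt (fun t => F (update ξ x t)) (F' ξ) (ξ x)) :
    ∫ ξ, ξ x * F ξ ∂(γn n) = ∫ ξ, F' ξ ∂(γn n) := by
  have hmp := resample (n := n) (ν := γ1) x
  have e1 : ∀ G : (n → ℝ) → ℝ, PB G → ∫ ξ, G ξ ∂(γn n) =
      ∫ ξ, ∫ t, G (update ξ x t) ∂γ1 ∂(γn n) := by
    intro G hG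
    have hint := hG.integrable
    have h1 : Integrable (fun z : (n → ℝ) × ℝ => G (update z.1 x z.2)) ((γn n).prod γ1) :=
      hmp.integrable_comp_of_integrable hint
    rw [← integral_prod (fun z : (n → ℝ) × ℝ => G (update z.1 x z.2)) h1]
    have h2 := hmp.map_eq
    conv_lhs => rw [γn, ← h2]
    rw [integral_map hmp.measurable.aemeasurable]
    rw [h2]
    exact hG.1.aestronglyMeasurable
  rw [e1 _ ((PB.coord x).mul hF), e1 _ hF']
  congr 1
  funext ξ
  simp only [update_self]
  obtain ⟨C, m, hC⟩ := hF.slice x ξ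
  obtain ⟨C', m', hC'⟩ := hF'.slice x ξ
  have hu : Continuous fun t : ℝ => update ξ x t := continuous_const.update x continuous_id
  have hC0 : 0 ≤ C := by
    have := (abs_nonneg _).trans (hC 0)
    simpa using this
  have hC0' : 0 ≤ C' := by
    have := (abs_nonneg _).trans (hC' 0)
    simpa using this
  refine stein1 (C := C + C') (m := max m m') (fun t => ?_) (hF'.1.comp hu) (fun t => ?_)
    (fun t => ?_)
  · have := hd (update ξ x t)
    simp only [update_idem, update_self] at this
    exact this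
  · have h1 : (1 + |t|) ^ m ≤ (1 + |t|) ^ (max m m') :=
      pow_le_pow_right₀ (by linarith [abs_nonneg t]) (le_max_left _ _)
    calc _ ≤ C * (1 + |t|) ^ m := hC t
      _ ≤ (C + C') * (1 + |t|) ^ (max m m') := by
          apply mul_le_mul (by linarith) h1 (by positivity) (by positivity)
  · have h1 : (1 + |t|) ^ m' ≤ (1 + |t|) ^ (max m m') :=
      pow_le_pow_right₀ (by linarith [abs_nonneg t]) (le_max_right _ _)
    calc _ ≤ C' * (1 + |t|) ^ m' := hC' t
      _ ≤ (C + C') * (1 + |t|) ^ (max m m') := by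
          apply mul_le_mul (by linarith) h1 (by positivity) (by positivity)

end Multi

end Pool.Agent.Loc
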