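import Pool.Agent.Helper48_Loc.Apriori2

/-!
# Almost sure invertibility, and the measure `PL` of finitely many random sites
-/

set_option autoImplicit false
set_option linter.unusedSectionVars false

open MeasureTheory ProbabilityTheory Function

open scoped ENNReal BigOperators

noncomputable section

namespace Pool.Agent.Loc

open Pool.Agent.Anderson

variable {d : ℕ} {ν : Measure ℝ} [IsProbabilityMeasure ν] {ρ : ℝ}

/-- the law of the potential in the finite set `Λ` (and `0` elsewhere) -/
def PL (ν : Measure ℝ) (Λ : Finset (Site d)) : Measure (Site d → ℝ) :=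
  (Measure.pi fun _ : Λ => ν).map (updateFinset (0 : Site d → ℝ) Λ)

theorem lintegral_PL (Λ : Finset (Site d)) {f : (Site d → ℝ) → ℝ≥0∞} (hf : Measurable f) :
    ∫⁻ V, f V ∂(PL ν Λ) = (∫⋯∫⁻_Λ, f ∂(fun _ => ν)) 0 := by
  unfold PL
  rw [lintegral_map hf measurable_updateFinset]
  rfl

instance (Λ : Finset (Site d)) : IsProbabilityMeasure (PL ν Λ) :=
  Measure.isProbabilityMeasure_map measurable_updateFinset.aemeasurable

theorem PL_apply (Λ : Finset (Site d)) {S : Set (Site d → ℝ)} (hS : MeasurableSet S) :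
    PL ν Λ S = (∫⋯∫⁻_Λ, S.indicator 1 ∂(fun _ => ν)) 0 := by
  rw [← lintegral_indicator_one hS, lintegral_PL Λ (measurable_one.indicator hS)]

theorem RM_congr {V V' : Site d → ℝ} {Λ : Finset (Site d)} (h : ∀ x ∈ Λ, V x = V' x) (E : ℝ) :
    RM V Λ E = RM V' Λ E := by
  ext x y
  simp only [RM, HM, Matrix.sub_apply, Matrix.smul_apply, Matrix.of_apply]
  rw [h x x.2]

theorem gr_congr {V V' : Site d → ℝ} {Λ : Finset (Site d)} (h : ∀ x ∈ Λ, V x = V' x) (E : ℝ)
    (x y : Site d) : gr V Λ E x y = gr V' Λ E x y := by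
  unfold gr
  rw [RM_congr h]

theorem only_indicator {A : Finset (Site d)} {S : Set (Site d → ℝ)}
    (h : ∀ V V' : Site d → ℝ, (∀ x ∈ A, V x = V' x) → (V ∈ S ↔ V' ∈ S)) :
    Only (S.indicator 1) A := by
  intro V V' hVV
  by_cases hV : V ∈ S
  · rw [Set.indicator_of_mem hV, Set.indicator_of_mem ((h V V' hVV).1 hV)]
    rfl
  · rw [Set.indicator_of_notMem hV, Set.indicator_of_notMem (fun h' => hV ((h V V' hVV).2 h'))]

/-- Conditional to unconditional. -/
theorem PL_le_of_marg {Λ S : Finset (Site d)} (hS : S ⊆ Λ) {f : (Site d → ℝ) → ℝ≥0∞}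
    (hf : Measurable f) {c : ℝ≥0∞} (h : ∀ V, (∫⋯∫⁻_S, f ∂(fun _ => ν)) V ≤ c) :
    ∫⁻ V, f V ∂(PL ν Λ) ≤ c := by
  rw [lintegral_PL Λ hf, ← Finset.sdiff_union_of_subset hS,
    lmarginal_union _ f hf Finset.sdiff_disjoint]
  exact marg_le_const h 0

theorem PL_weak (hν : BddDens ν ρ) (Λ : Finset (Site d)) (E : ℝ) (x y : Site d) {τ : ℝ}
    (hτ : 0 < τ) : PL ν Λ {V | τ < |gr V Λ E x y|} ≤ ENNReal.ofReal (6 * ρ / τ) := by
  have hρ := hν.1
  by_cases hxy : x ∈ Λ ∧ y ∈ Λ
  · have hS : MeasurableSet {V : Site d → ℝ | τ < |gr V Λ E x y|} :=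
      measurableSet_lt measurable_const (measurable_gr Λ E x y).abs
    rw [← lintegral_indicator_one hS]
    apply PL_le_of_marg (S := {x, y})
    · intro z hz
      simp only [Finset.mem_insert, Finset.mem_singleton] at hz
      rcases hz with rfl | rfl
      · exact hxy.1
      · exact hxy.2
    · exact measurable_one.indicator hS
    · intro V
      exact marg_weak hν V Λ E x y hτ
  · have : {V : Site d → ℝ | τ < |gr V Λ E x y|} = ∅ := by
      ext V
      simp only [Set.mem_ofPred_eq, Set.mem_empty_iff_false, iff_false, not_lt]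
      unfold gr
      rw [dif_neg hxy, abs_zero]
      exact hτ.le
    rw [this, measure_empty]
    exact zero_le

/-- fractional moment on an event -/
theorem PL_sqrt_event (hν : BddDens ν ρ) (Λ : Finset (Site d)) (E : ℝ) (x y : Site d)
    (B : Set (Site d → ℝ)) {a : ℝ} (ha : 0 < a) :
    ∫⁻ V in B, ENNReal.ofReal (√|gr V Λ E x y|) ∂(PL ν Λ) ≤
      ENNReal.ofReal a * PL ν Λ B + ENNReal.ofReal (6 * ρ / a) := by
  have hρ := hν.1
  exact weak_sqrt (measurable_gr Λ E x y) (by positivity) (fun τ hτ => PL_weak hν Λ E x y hτ) ha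

theorem PL_sqrt (hν : BddDens ν ρ) (Λ : Finset (Site d)) (E : ℝ) (x y : Site d) :
    ∫⁻ V, ENNReal.ofReal (√|gr V Λ E x y|) ∂(PL ν Λ) ≤ ENNReal.ofReal (2 * √(6 * ρ)) := by
  have hρ := hν.1
  have h := PL_sqrt_event hν Λ E x y Set.univ (a := √(6 * ρ)) (by positivity)
  rw [Measure.restrict_univ, measure_univ, mul_one,
    ← ENNReal.ofReal_add (by positivity) (by positivity)] at h
  refine h.trans (le_of_eq ?_)
  congr 1
  have h2 : 6 * ρ / √(6 * ρ) = √(6 * ρ) := by
    rw [div_eq_iff (by positivity)]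
    exact (Real.mul_self_sqrt (by positivity)).symm
  rw [h2]; ring

/-! ### the determinant vanishes with probability zero -/

/-- interpolation between `-1` and `RM V Λ E`, row by row -/
def NM (V : Site d → ℝ) (Λ : Finset (Site d)) (E : ℝ) (S : Finset (Site d)) : Matrix Λ Λ ℝ :=
  Matrix.of fun x y => if (x : Site d) ∈ S then RM V Λ E x y else -(1 : Matrix Λ Λ ℝ) x y

theorem NM_empty (V : Site d → ℝ) (Λ : Finset (Site d)) (E : ℝ) : NM V Λ E ∅ = -1 := by
  ext x y
  simp [NM]

theorem NM_self (V : Site d → ℝ) (Λ : Finset (Site d)) (E : ℝ) : NM V Λ E Λ = RM V Λ E := by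
  ext x y
  simp [NM]

theorem continuous_NM (Λ : Finset (Site d)) (E : ℝ) (S : Finset (Site d)) :
    Continuous fun V : Site d → ℝ => NM V Λ E S := by
  apply continuous_matrix
  intro x y
  simp only [NM, Matrix.of_apply]
  by_cases h : (x : Site d) ∈ S
  · simp only [h, if_true]
    exact (continuous_RM Λ E).matrix_elem _ _
  · simp only [h, if_false]
    fun_prop

theorem det_NM_insert (V : Site d → ℝ) (Λ : Finset (Site d)) (E : ℝ) {S : Finset (Site d)}
    {i : Site d} (hi : i ∉ S) (hiΛ : i ∈ Λ) (v : ℝ) :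
    (NM (update V i v) Λ E (insert i S)).det =
      (NM (update V i 0) Λ E (insert i S)).det + v * (NM V Λ E S).det := by
  set N := NM V Λ E S with hN
  set i' : Λ := ⟨i, hiΛ⟩ with hi'
  have key : ∀ v : ℝ, NM (update V i v) Λ E (insert i S) =
      Matrix.updateRow N i' (RM (update V i 0) Λ E i' + v • N i') := by
    intro v
    ext x y
    by_cases hx : x = i'
    · subst hx
      rw [Matrix.updateRow_self]
      simp only [NM, hN, RM, HM, Matrix.of_apply, Matrix.sub_apply, Matrix.smul_apply, hi',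
        Finset.mem_insert, true_or, if_true, update_self, Pi.add_apply, Pi.smul_apply, hi,
        if_false, smul_eq_mul, Matrix.one_apply]
      by_cases hy : (⟨i, hiΛ⟩ : Λ) = y
      · simp [hy]; ring
      · simp [hy]
    · rw [Matrix.updateRow_ne hx]
      have hx' : (x : Site d) ≠ i := fun h => hx (Subtype.ext h)
      simp only [NM, hN, RM, HM, Matrix.of_apply, Matrix.sub_apply, Matrix.smul_apply,
        Finset.mem_insert, hx', false_or, update_of_ne hx']
  have key0 := key 0
  rw [zero_smul, add_zero] at key0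
  rw [key v, key0, Matrix.det_updateRow_add, Matrix.det_updateRow_smul]
  congr 2
  rw [Matrix.updateRow_eq_self]

theorem NM_update (V : Site d → ℝ) (Λ : Finset (Site d)) (E : ℝ) {S : Finset (Site d)}
    {i : Site d} (hi : i ∉ S) (v : ℝ) : NM (update V i v) Λ E S = NM V Λ E S := by
  ext x y
  simp only [NM, RM, HM, Matrix.of_apply, Matrix.sub_apply, Matrix.smul_apply]
  by_cases hx : (x : Site d) ∈ S
  · have hx' : (x : Site d) ≠ i := by rintro rfl; exact hi hx
    simp [hx, update_of_ne hx']
  · simp [hx]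

theorem PL_det_NM (hν : BddDens ν ρ) (Λ : Finset (Site d)) (E : ℝ) (S : Finset (Site d))
    (hS : S ⊆ Λ) : PL ν Λ {V | (NM V Λ E S).det = 0} = 0 := by
  induction S using Finset.induction with
  | empty =>
    have : {V : Site d → ℝ | (NM V Λ E ∅).det = 0} = ∅ := by
      ext V
      simp only [Set.mem_ofPred_eq, Set.mem_empty_iff_false, iff_false]
      rw [NM_empty, Matrix.det_neg, Matrix.det_one, mul_one]
      exact pow_ne_zero _ (by norm_num)
    rw [this, measure_empty]
  | insert i S hi ih =>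
    have hiΛ : i ∈ Λ := hS (Finset.mem_insert_self i S)
    have ih' := ih ((Finset.subset_insert i S).trans hS)
    have hc1 : Continuous fun V : Site d → ℝ => (NM V Λ E (insert i S)).det :=
      (continuous_NM Λ E _).matrix_det
    have hc2 : Continuous fun V : Site d → ℝ => (NM V Λ E S).det :=
      (continuous_NM Λ E _).matrix_det
    have hm1 : MeasurableSet {V : Site d → ℝ | (NM V Λ E (insert i S)).det = 0} :=
      (isClosed_singleton.preimage hc1).measurableSet
    have hm2 : MeasurableSet {V : Site d → ℝ | (NM V Λ E S).det = 0} :=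
      (isClosed_singleton.preimage hc2).measurableSet
    set T : Set (Site d → ℝ) := {V | (NM V Λ E (insert i S)).det = 0} \
      {V | (NM V Λ E S).det = 0} with hT
    have hmT : MeasurableSet T := hm1.diff hm2
    have hsub : {V : Site d → ℝ | (NM V Λ E (insert i S)).det = 0} ⊆
        {V | (NM V Λ E S).det = 0} ∪ T := by
      intro V hV
      by_cases h : V ∈ {V : Site d → ℝ | (NM V Λ E S).det = 0}
      · exact Or.inl h
      · exact Or.inr ⟨hV, h⟩
    apply measure_mono_null hsub
    rw [measure_union_null_iff]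
    refine ⟨ih', ?_⟩
    rw [← lintegral_indicator_one hmT]
    apply le_antisymm _ zero_le
    apply PL_le_of_marg (S := {i}) (by simpa using hiΛ) (measurable_one.indicator hmT)
    intro V
    rw [lmarginal_singleton]
    have h1 : ∀ z : ℝ, T.indicator (1 : (Site d → ℝ) → ℝ≥0∞) (update V i z) =
        Set.indicator {z : ℝ | update V i z ∈ T} 1 z := fun z => rfl
    simp_rw [h1]
    have hmz : MeasurableSet {z : ℝ | update V i z ∈ T} := (measurable_update V) hmT
    rw [lintegral_indicator_one hmz]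
    set c := (NM (update V i 0) Λ E (insert i S)).det with hc
    set e := (NM V Λ E S).det with he
    have hsub2 : {z : ℝ | update V i z ∈ T} ⊆ Set.Icc (-c / e) (-c / e) := by
      intro z hz
      rw [Set.mem_ofPred_eq, hT] at hz
      obtain ⟨hz1, hz2⟩ := hz
      rw [Set.mem_ofPred_eq, NM_update V Λ E hi] at hz2
      rw [Set.mem_ofPred_eq, det_NM_insert V Λ E hi hiΛ] at hz1
      have : z = -c / e := by
        rw [eq_div_iff hz2]
        linarith
      rw [this]
      exact ⟨le_rfl, le_rfl⟩
    refine (measure_mono hsub2).trans ((hν.2 _ _).trans ?_)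
    simp

theorem PL_det (hν : BddDens ν ρ) (Λ Λ' : Finset (Site d)) (hΛ : Λ ⊆ Λ') (E : ℝ) :
    PL ν Λ' {V | (RM V Λ E).det = 0} = 0 := by
  have h1 : PL ν Λ {V | (RM V Λ E).det = 0} = 0 := by
    have := PL_det_NM hν Λ E Λ le_rfl
    simp_rw [NM_self] at this
    exact this
  have hm : MeasurableSet {V : Site d → ℝ | (RM V Λ E).det = 0} :=
    (isClosed_singleton.preimage (continuous_det Λ E)).measurableSet
  rw [PL_apply _ hm] at h1 ⊢
  rw [marg_subset (measurable_one.indicator hm) _ hΛ, h1]
  exact only_indicator fun V V' hVV => by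
    rw [Set.mem_ofPred_eq, Set.mem_ofPred_eq, RM_congr hVV]

end Pool.Agent.Loc
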