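import Pool.Agent.Helper17_Anderson.Defs

/-!
# Localization library: definitions and basic lattice facts
-/

set_option autoImplicit false

open MeasureTheory ProbabilityTheory

open scoped ENNReal BigOperators

noncomputable section

namespace Pool.Agent.Loc

open Pool.Agent.Anderson

variable {d : ℕ}

/-- the hopping matrix element: `hop x y = 1` if `y = x ± e_i` for some `i`, and `0` otherwise -/
def hop (x y : Site d) : ℝ :=
  ∑ i : Fin d, ((if y = x + Pi.single i 1 then 1 else 0) +
    (if y = x - Pi.single i 1 then 1 else 0))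

/-- the sup-distance on `ℤ^d`, as a natural number -/
def sd (x y : Site d) : ℕ := Finset.univ.sup fun i => (x i - y i).natAbs

/-- the cube with centre `x` and radius `n` for the sup-distance -/
def box (x : Site d) (n : ℕ) : Finset (Site d) :=
  Finset.Icc (fun i => x i - n) (fun i => x i + n)

/-- the restriction `H_Λ` of `H = Δ + V` to the finite set `Λ` -/
def HM (V : Site d → ℝ) (Λ : Finset (Site d)) : Matrix Λ Λ ℝ :=
  Matrix.of fun x y => hop (x : Site d) y + if x = y then V x else 0

/-- `E - H_Λ` -/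
def RM (V : Site d → ℝ) (Λ : Finset (Site d)) (E : ℝ) : Matrix Λ Λ ℝ :=
  E • (1 : Matrix Λ Λ ℝ) - HM V Λ

/-- the matrix elements of `(E - H_Λ)⁻¹`, extended by `0` -/
def gr (V : Site d → ℝ) (Λ : Finset (Site d)) (E : ℝ) (x y : Site d) : ℝ :=
  if h : x ∈ Λ ∧ y ∈ Λ then (RM V Λ E)⁻¹ ⟨x, h.1⟩ ⟨y, h.2⟩ else 0

/-- `E - H_Λ` is invertible, and the matrix element at `x, y` of its inverse is `< t` in
absolute value -/
def Good (V : Site d → ℝ) (Λ : Finset (Site d)) (E : ℝ) (x y : Site d) (t : ℝ) : Prop :=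
  (RM V Λ E).det ≠ 0 ∧ |gr V Λ E x y| < t

/-- The part in `box 0 n` of the box of radius `L` about `x` is good at the energy `E`. -/
def GoodBox (V : Site d → ℝ) (n L : ℕ) (x : Site d) (E μ : ℝ) : Prop :=
  ∀ u ∈ box x L ∩ box 0 n, sd x u = L →
    Good V (box x L ∩ box 0 n) E x u (Real.exp (-μ * L))

/-- Any two distant boxes (at sites of size at most `L ^ 2`) are not simultaneously bad. -/
def TwoBox (V : Site d → ℝ) (E₀ μ : ℝ) (L₀ : ℕ) : Prop :=
  ∀ L : ℕ, L₀ ≤ L → ∀ n : ℕ, ∀ x ∈ box (0 : Site d) (L ^ 2), ∀ y ∈ box (0 : Site d) (L ^ 2),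
    x ∈ box (0 : Site d) n → y ∈ box (0 : Site d) n → 2 * L < sd x y →
      ∀ E : ℝ, E₀ ≤ |E| → GoodBox V n L x E μ ∨ GoodBox V n L y E μ

/-- Fixed-energy exponential decay in probability, uniformly in the finite volume and in the
energy. -/
def FixedDecay {Ω : Type*} [MeasurableSpace Ω] (P : Measure Ω) (V : Site d → Ω → ℝ)
    (E₀ C μ : ℝ) : Prop :=
  ∀ (Λ : Finset (Site d)) (x y : Site d) (E : ℝ), x ∈ Λ → y ∈ Λ → E₀ ≤ |E| →
    P {ω | ¬ Good (fun z => V z ω) Λ E x y (Real.exp (-μ * sd x y))} ≤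
      ENNReal.ofReal (C * Real.exp (-μ * sd x y))

/-! ### lattice geometry -/

theorem sd_le_iff {x y : Site d} {n : ℕ} : sd x y ≤ n ↔ ∀ i, |x i - y i| ≤ n := by
  unfold sd
  rw [Finset.sup_le_iff]
  constructor
  · intro h i
    have := h i (Finset.mem_univ i)
    rw [Int.abs_eq_natAbs]
    exact_mod_cast this
  · intro h i _
    have := h i
    rw [Int.abs_eq_natAbs] at this
    exact_mod_cast this

theorem sd_comm (x y : Site d) : sd x y = sd y x := by
  unfold sd
  congr 1
  funext i
  rw [← Int.natAbs_neg]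
  congr 1
  ring

theorem sd_self (x : Site d) : sd x x = 0 := by
  have : sd x x ≤ 0 := sd_le_iff.2 fun i => by simp
  omega

theorem sd_triangle (x y z : Site d) : sd x z ≤ sd x y + sd y z := by
  rw [sd_le_iff]
  intro i
  have h1 := sd_le_iff.1 (le_refl (sd x y)) i
  have h2 := sd_le_iff.1 (le_refl (sd y z)) i
  push_cast
  calc |x i - z i| = |(x i - y i) + (y i - z i)| := by ring_nf
    _ ≤ |x i - y i| + |y i - z i| := abs_add_le _ _
    _ ≤ _ := add_le_add h1 h2

theorem exists_sd_eq [NeZero d] (x y : Site d) : ∃ i, (sd x y : ℤ) = |x i - y i| := by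
  obtain ⟨i, _, hi⟩ := Finset.exists_mem_eq_sup (Finset.univ : Finset (Fin d))
    (Finset.univ_nonempty) (fun i => (x i - y i).natAbs)
  refine ⟨i, ?_⟩
  unfold sd
  rw [hi, Int.abs_eq_natAbs]

theorem mem_box {x y : Site d} {n : ℕ} : y ∈ box x n ↔ sd x y ≤ n := by
  unfold box
  rw [Finset.mem_Icc, sd_le_iff]
  constructor
  · rintro ⟨h1, h2⟩ i
    have h3 := h1 i
    have h4 := h2 i
    simp only at h3 h4
    rw [abs_le]
    constructor <;> linarith
  · intro h
    constructor <;> intro i <;> have := abs_le.1 (h i) <;> simp only <;> linarith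

theorem card_box (x : Site d) (n : ℕ) : (box x n).card = (2 * n + 1) ^ d := by
  unfold box
  rw [Pi.card_Icc]
  simp only [Int.card_Icc]
  have : ∀ i : Fin d, (x i + n + 1 - (x i - n)).toNat = 2 * n + 1 := by
    intro i
    omega
  simp [this]

theorem box_mono (x : Site d) {m n : ℕ} (h : m ≤ n) : box x m ⊆ box x n := by
  intro y hy
  rw [mem_box] at *
  omega

/-! ### hopping -/

theorem hop_nonneg (x y : Site d) : 0 ≤ hop x y := by
  unfold hop
  apply Finset.sum_nonneg
  intro i _
  positivity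

theorem hop_comm (x y : Site d) : hop x y = hop y x := by
  unfold hop
  apply Finset.sum_congr rfl
  intro i _
  have h1 : (y = x + Pi.single i 1) ↔ (x = y - Pi.single i 1) := by
    constructor
    · rintro rfl; simp
    · intro h; rw [h]; simp
  have h2 : (y = x - Pi.single i 1) ↔ (x = y + Pi.single i 1) := by
    constructor
    · rintro rfl; simp
    · intro h; rw [h]; simp
  simp only [h1, h2]
  ring

theorem sd_add_single_le (x : Site d) (i : Fin d) : sd x (x + Pi.single i 1) ≤ 1 := by
  rw [sd_le_iff]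
  intro j
  by_cases h : j = i
  · subst h; simp
  · simp [h]

theorem sd_sub_single_le (x : Site d) (i : Fin d) : sd x (x - Pi.single i 1) ≤ 1 := by
  rw [sd_le_iff]
  intro j
  by_cases h : j = i
  · subst h; simp
  · simp [h]

theorem sd_of_hop {x y : Site d} (h : hop x y ≠ 0) : sd x y ≤ 1 := by
  by_contra hc
  apply h
  unfold hop
  apply Finset.sum_eq_zero
  intro i _
  have h1 : y ≠ x + Pi.single i 1 := by
    rintro rfl
    exact hc (sd_add_single_le x i)
  have h2 : y ≠ x - Pi.single i 1 := by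
    rintro rfl
    exact hc (sd_sub_single_le x i)
  simp [h1, h2]

/-- Summation against the hopping kernel over a finite set containing all the neighbours. -/
theorem sum_hop {M : Type*} [AddCommMonoid M] [Module ℝ M] (x : Site d) (Λ : Finset (Site d))
    (h : box x 1 ⊆ Λ) (f : Site d → M) :
    ∑ y ∈ Λ, hop x y • f y = ∑ i : Fin d, (f (x + Pi.single i 1) + f (x - Pi.single i 1)) := by
  unfold hop
  simp_rw [Finset.sum_smul, add_smul, ite_smul, one_smul, zero_smul]
  rw [Finset.sum_comm]
  apply Finset.sum_congr rfl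
  intro i _
  rw [Finset.sum_add_distrib, Finset.sum_ite_eq', Finset.sum_ite_eq', if_pos, if_pos]
  · exact h (mem_box.2 (sd_sub_single_le x i))
  · exact h (mem_box.2 (sd_add_single_le x i))

theorem lap_eq_sum (ψ : Site d → ℂ) (x : Site d) (Λ : Finset (Site d)) (h : box x 1 ⊆ Λ) :
    lap ψ x = ∑ y ∈ Λ, (hop x y : ℂ) * ψ y := by
  have := sum_hop x Λ h ψ
  unfold lap
  rw [← this]
  apply Finset.sum_congr rfl
  intro y _
  simp

theorem sum_hop_le (x : Site d) (Λ : Finset (Site d)) : ∑ y ∈ Λ, hop x y ≤ 2 * d := by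
  have h1 := sum_hop x (box x 1 ∪ Λ) Finset.subset_union_left (fun _ => (1 : ℝ))
  have h2 : ∑ y ∈ box x 1 ∪ Λ, hop x y = 2 * d := by
    simp only [smul_eq_mul, mul_one] at h1
    rw [h1]
    simp
    ring
  rw [← h2]
  exact Finset.sum_le_sum_of_subset_of_nonneg Finset.subset_union_right
    fun y _ _ => hop_nonneg x y

theorem hop_le (x y : Site d) : hop x y ≤ 2 * d := by
  have := sum_hop_le x {y}
  simpa using this

/-! ### the finite-volume matrices -/

theorem HM_symm (V : Site d → ℝ) (Λ : Finset (Site d)) : (HM V Λ).transpose = HM V Λ := by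
  ext x y
  simp only [HM, Matrix.transpose_apply, Matrix.of_apply]
  rw [hop_comm]
  by_cases h : x = y
  · subst h; simp
  · have h' : y ≠ x := fun h' => h h'.symm
    simp [h, h']

theorem RM_symm (V : Site d → ℝ) (Λ : Finset (Site d)) (E : ℝ) :
    (RM V Λ E).transpose = RM V Λ E := by
  unfold RM
  rw [Matrix.transpose_sub, Matrix.transpose_smul, Matrix.transpose_one, HM_symm]

theorem gr_symm (V : Site d → ℝ) (Λ : Finset (Site d)) (E : ℝ) (x y : Site d) :
    gr V Λ E x y = gr V Λ E y x := by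
  unfold gr
  by_cases h : x ∈ Λ ∧ y ∈ Λ
  · rw [dif_pos h, dif_pos h.symm]
    have : ((RM V Λ E)⁻¹).transpose = (RM V Λ E)⁻¹ := by
      rw [Matrix.transpose_nonsing_inv, RM_symm]
    conv_lhs => rw [← this]
    rfl
  · rw [dif_neg h, dif_neg (fun h' => h h'.symm)]

end Pool.Agent.Loc
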