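import Pool.Agent.Helper48_Loc.Apriori

/-!
# The a-priori bound for the finite-volume Green function
-/

set_option autoImplicit false
set_option linter.unusedSectionVars false

open MeasureTheory ProbabilityTheory Function

open scoped ENNReal BigOperators

noncomputable section

namespace Pool.Agent.Loc

open Pool.Agent.Anderson

variable {d : ℕ}

theorem continuous_RM (Λ : Finset (Site d)) (E : ℝ) : Continuous fun V : Site d → ℝ => RM V Λ E := by
  apply continuous_matrix
  intro x y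
  simp only [RM, HM, Matrix.sub_apply, Matrix.smul_apply, Matrix.of_apply, smul_eq_mul]
  by_cases h : x = y
  · simp only [h, if_true]
    fun_prop
  · simp only [h, if_false]
    fun_prop

theorem continuous_det (Λ : Finset (Site d)) (E : ℝ) :
    Continuous fun V : Site d → ℝ => (RM V Λ E).det := (continuous_RM Λ E).matrix_det

theorem gr_eq {V : Site d → ℝ} {Λ : Finset (Site d)} {E : ℝ} {x y : Site d} (hx : x ∈ Λ)
    (hy : y ∈ Λ) : gr V Λ E x y = (RM V Λ E)⁻¹ ⟨x, hx⟩ ⟨y, hy⟩ := by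
  unfold gr
  rw [dif_pos ⟨hx, hy⟩]

theorem gr_eq_adj {V : Site d → ℝ} {Λ : Finset (Site d)} {E : ℝ} {x y : Site d} (hx : x ∈ Λ)
    (hy : y ∈ Λ) : gr V Λ E x y = ((RM V Λ E).det)⁻¹ * (RM V Λ E).adjugate ⟨x, hx⟩ ⟨y, hy⟩ := by
  rw [gr_eq hx hy, Matrix.inv_def, Matrix.smul_apply, Ring.inverse_eq_inv', smul_eq_mul]

theorem measurable_gr (Λ : Finset (Site d)) (E : ℝ) (x y : Site d) :
    Measurable fun V : Site d → ℝ => gr V Λ E x y := by
  by_cases h : x ∈ Λ ∧ y ∈ Λ
  · simp_rw [gr_eq_adj h.1 h.2]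
    apply Measurable.mul
    · exact (continuous_det Λ E).measurable.inv
    · have h1 : Continuous fun V : Site d → ℝ => (RM V Λ E).adjugate :=
        (continuous_RM Λ E).matrix_adjugate
      exact (h1.matrix_elem _ _).measurable
  · have : (fun V : Site d → ℝ => gr V Λ E x y) = fun _ => 0 := by
      funext V
      unfold gr
      rw [dif_neg h]
    rw [this]
    exact measurable_const

theorem gr_ne_zero {V : Site d → ℝ} {Λ : Finset (Site d)} {E : ℝ} {x y : Site d}
    (h : gr V Λ E x y ≠ 0) : x ∈ Λ ∧ y ∈ Λ ∧ (RM V Λ E).det ≠ 0 := by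
  by_cases hxy : x ∈ Λ ∧ y ∈ Λ
  · refine ⟨hxy.1, hxy.2, ?_⟩
    intro hdet
    apply h
    rw [gr_eq_adj hxy.1 hxy.2, hdet, inv_zero, zero_mul]
  · exact absurd (by unfold gr; rw [dif_neg hxy]) h

/-- resolvent identity for two potentials -/
theorem gr_perturb {V V' : Site d → ℝ} {Λ : Finset (Site d)} {E : ℝ}
    (h : (RM V Λ E).det ≠ 0) (h' : (RM V' Λ E).det ≠ 0) {x y : Site d} (hx : x ∈ Λ)
    (hy : y ∈ Λ) :
    gr V Λ E x y = gr V' Λ E x y -
      ∑ z ∈ Λ, gr V Λ E x z * (V' z - V z) * gr V' Λ E z y := by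
  have e1 : (RM V Λ E)⁻¹ * RM V Λ E = 1 := Matrix.nonsing_inv_mul _ (isUnit_iff_ne_zero.2 h)
  have e2 : RM V' Λ E * (RM V' Λ E)⁻¹ = 1 := Matrix.mul_nonsing_inv _ (isUnit_iff_ne_zero.2 h')
  have e3 : RM V Λ E - RM V' Λ E = Matrix.diagonal fun z : Λ => V' z - V z := by
    ext a b
    simp only [RM, HM, Matrix.sub_apply, Matrix.smul_apply, Matrix.of_apply, Matrix.diagonal_apply]
    by_cases hab : a = b
    · subst hab; simp
    · simp [hab]
  have e4 : (RM V' Λ E)⁻¹ - (RM V Λ E)⁻¹ =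
      (RM V Λ E)⁻¹ * (Matrix.diagonal fun z : Λ => V' z - V z) * (RM V' Λ E)⁻¹ := by
    rw [← e3, mul_sub, sub_mul, e1, one_mul, mul_assoc, e2, mul_one]
  have e5 := congrFun (congrFun e4 ⟨x, hx⟩) ⟨y, hy⟩
  rw [Matrix.sub_apply, ← gr_eq hx hy, ← gr_eq hx hy] at e5
  have e6 : ((RM V Λ E)⁻¹ * (Matrix.diagonal fun z : Λ => V' z - V z) * (RM V' Λ E)⁻¹)
      ⟨x, hx⟩ ⟨y, hy⟩ = ∑ z ∈ Λ, gr V Λ E x z * (V' z - V z) * gr V' Λ E z y := by
    rw [Matrix.mul_apply, ← Finset.sum_coe_sort Λ
      (fun z => gr V Λ E x z * (V' z - V z) * gr V' Λ E z y)]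
    apply Finset.sum_congr rfl
    intro z _
    rw [Matrix.mul_diagonal, gr_eq hx z.2, gr_eq z.2 hy]
  rw [e6] at e5
  linarith

section Two

variable {ν : Measure ℝ} [IsProbabilityMeasure ν] {ρ : ℝ}

theorem two_site_gr (hν : BddDens ν ρ) (V : Site d → ℝ) (Λ : Finset (Site d)) (E : ℝ)
    {x y : Site d} (hxy : x ≠ y) {τ : ℝ} (hτ : 0 < τ) :
    (ν.prod ν) {z : ℝ × ℝ | τ < |gr (update (update V x z.1) y z.2) Λ E x y|} ≤
      ENNReal.ofReal (6 * ρ / τ) := by
  by_cases hall : ∀ z : ℝ × ℝ, gr (update (update V x z.1) y z.2) Λ E x y = 0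
  · have : {z : ℝ × ℝ | τ < |gr (update (update V x z.1) y z.2) Λ E x y|} = ∅ := by
      ext z
      simp only [Set.mem_ofPred_eq, Set.mem_empty_iff_false, iff_false, not_lt]
      rw [hall z, abs_zero]
      exact hτ.le
    rw [this, measure_empty]
    exact zero_le
  push Not at hall
  obtain ⟨z₀, hz₀⟩ := hall
  obtain ⟨hx, hy, hdet0⟩ := gr_ne_zero hz₀
  set V₀ := update (update V x z₀.1) y z₀.2 with hV₀
  refine (measure_mono ?_) |>.trans (two_site hν (p := gr V₀ Λ E x x) (q := gr V₀ Λ E y y)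
    (g := gr V₀ Λ E x y) (s₀ := z₀.1) (t₀ := z₀.2) hz₀ hτ)
  intro z hz
  simp only [Set.mem_ofPred_eq] at hz ⊢
  set V' := update (update V x z.1) y z.2 with hV'
  have hne : gr V' Λ E x y ≠ 0 := by
    intro h0
    rw [h0, abs_zero] at hz
    linarith
  obtain ⟨_, _, hdet'⟩ := gr_ne_zero hne
  have hV : ∀ w : Site d, V' w - V₀ w = (if w = x then z.1 - z₀.1 else 0) +
      (if w = y then z.2 - z₀.2 else 0) := by
    intro w
    rw [hV', hV₀]
    by_cases h1 : w = y
    · subst h1; simp [hxy.symm]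
    · by_cases h2 : w = x
      · subst h2; simp [h1]
      · simp [h1, h2]
  have key : ∀ a ∈ Λ, ∑ w ∈ Λ, gr V₀ Λ E a w * (V' w - V₀ w) * gr V' Λ E w y =
      (z.1 - z₀.1) * gr V₀ Λ E a x * gr V' Λ E x y +
        (z.2 - z₀.2) * gr V₀ Λ E a y * gr V' Λ E y y := by
    intro a _
    simp_rw [hV, mul_add, add_mul, mul_ite, mul_zero, ite_mul, zero_mul]
    rw [Finset.sum_add_distrib, Finset.sum_ite_eq', Finset.sum_ite_eq', if_pos hx, if_pos hy]
    ring
  have e1 := gr_perturb hdet0 hdet' hx hy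
  have e2 := gr_perturb hdet0 hdet' hy hy
  rw [key x hx] at e1
  rw [key y hy] at e2
  have hsym : gr V₀ Λ E y x = gr V₀ Λ E x y := gr_symm _ _ _ _ _
  rw [hsym] at e2
  set p := gr V₀ Λ E x x
  set q := gr V₀ Λ E y y
  set g := gr V₀ Λ E x y
  set s := z.1 - z₀.1
  set t := z.2 - z₀.2
  have e3 : gr V' Λ E x y * D2 p q g s t = g := by
    simp only [D2]
    linear_combination (-(1 - t * q)) * e1 - t * g * e2
  calc τ * |D2 p q g s t| ≤ |gr V' Λ E x y| * |D2 p q g s t| :=
        mul_le_mul_of_nonneg_right hz.le (abs_nonneg _)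
    _ = |g| := by rw [← abs_mul, e3]

theorem one_site_gr (hν : BddDens ν ρ) (V : Site d → ℝ) (Λ : Finset (Site d)) (E : ℝ)
    {x : Site d} {τ : ℝ} (hτ : 0 < τ) :
    ν {z : ℝ | τ < |gr (update V x z) Λ E x x|} ≤ ENNReal.ofReal (6 * ρ / τ) := by
  by_cases hall : ∀ z : ℝ, gr (update V x z) Λ E x x = 0
  · have : {z : ℝ | τ < |gr (update V x z) Λ E x x|} = ∅ := by
      ext z
      simp only [Set.mem_ofPred_eq, Set.mem_empty_iff_false, iff_false, not_lt]
      rw [hall z, abs_zero]
      exact hτ.le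
    rw [this, measure_empty]
    exact zero_le
  push Not at hall
  obtain ⟨z₀, hz₀⟩ := hall
  obtain ⟨hx, _, hdet0⟩ := gr_ne_zero hz₀
  set V₀ := update V x z₀ with hV₀
  have hρ := hν.1
  refine (measure_mono ?_) |>.trans ((section_bound hν (a := 1) (c := gr V₀ Λ E x x)
    (g := gr V₀ Λ E x x) (s₀ := z₀) hz₀ le_rfl hτ).trans (ENNReal.ofReal_le_ofReal ?_))
  · intro z hz
    simp only [Set.mem_ofPred_eq] at hz ⊢
    set V' := update V x z with hV'
    have hne : gr V' Λ E x x ≠ 0 := by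
      intro h0
      rw [h0, abs_zero] at hz
      linarith
    obtain ⟨_, _, hdet'⟩ := gr_ne_zero hne
    have hV : ∀ w : Site d, V' w - V₀ w = (if w = x then z - z₀ else 0) := by
      intro w
      rw [hV', hV₀]
      by_cases h2 : w = x
      · subst h2; simp
      · simp [h2]
    have e1 := gr_perturb hdet0 hdet' hx hx
    simp_rw [hV, mul_ite, mul_zero, ite_mul, zero_mul] at e1
    rw [Finset.sum_ite_eq', if_pos hx] at e1
    have e3 : gr V' Λ E x x * (1 - (z - z₀) * gr V₀ Λ E x x) = gr V₀ Λ E x x := by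
      linear_combination (-1) * e1
    calc τ * |1 - (z - z₀) * gr V₀ Λ E x x| ≤
          |gr V' Λ E x x| * |1 - (z - z₀) * gr V₀ Λ E x x| :=
          mul_le_mul_of_nonneg_right hz.le (abs_nonneg _)
      _ = |gr V₀ Λ E x x| := by rw [← abs_mul, e3]
  · rw [← mul_div_assoc]
    apply div_le_div_of_nonneg_right _ hτ.le
    linarith

/-- The a-priori weak bound, conditionally on all sites but `x` and `y`. -/
theorem marg_weak (hν : BddDens ν ρ) (V : Site d → ℝ) (Λ : Finset (Site d)) (E : ℝ)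
    (x y : Site d) {τ : ℝ} (hτ : 0 < τ) :
    (∫⋯∫⁻_{x, y}, Set.indicator {V | τ < |gr V Λ E x y|} 1 ∂(fun _ => ν)) V ≤
      ENNReal.ofReal (6 * ρ / τ) := by
  have hS : MeasurableSet {V : Site d → ℝ | τ < |gr V Λ E x y|} :=
    measurableSet_lt measurable_const (measurable_gr Λ E x y).abs
  have hm : Measurable (Set.indicator {V : Site d → ℝ | τ < |gr V Λ E x y|} (1 : (Site d → ℝ) → ℝ≥0∞)) :=
    measurable_one.indicator hS
  by_cases hxy : x = y
  · subst hxy
    rw [Finset.insert_eq_of_mem (Finset.mem_singleton_self x), lmarginal_singleton]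
    have : ∀ z : ℝ, Set.indicator {V : Site d → ℝ | τ < |gr V Λ E x x|} (1 : (Site d → ℝ) → ℝ≥0∞)
        (update V x z) = Set.indicator {z : ℝ | τ < |gr (update V x z) Λ E x x|} 1 z := by
      intro z; rfl
    simp_rw [this]
    rw [lintegral_indicator_one]
    · exact one_site_gr hν V Λ E hτ
    · exact (measurable_update V) hS
  · have hmem : x ∉ ({y} : Finset (Site d)) := by simpa using hxy
    rw [lmarginal_insert _ hm hmem, lmarginal_singleton]
    have hu : Measurable fun z : ℝ × ℝ => update (update V x z.1) y z.2 := by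
      rw [measurable_pi_iff]
      intro w
      by_cases h1 : w = y
      · subst h1; simp only [update_self]; exact measurable_snd
      · simp only [update_of_ne h1]
        by_cases h2 : w = x
        · subst h2; simp only [update_self]; exact measurable_fst
        · simp only [update_of_ne h2]; exact measurable_const
    have : ∀ s t : ℝ, Set.indicator {V : Site d → ℝ | τ < |gr V Λ E x y|} (1 : (Site d → ℝ) → ℝ≥0∞)
        (update (update V x s) y t) =
        Set.indicator {z : ℝ × ℝ | τ < |gr (update (update V x z.1) y z.2) Λ E x y|} 1 (s, t) := by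
      intro s t; rfl
    simp_rw [this]
    rw [← lintegral_prod, lintegral_indicator_one]
    · exact two_site_gr hν V Λ E hxy hτ
    · exact hu hS
    · exact (measurable_one.indicator (hu hS)).aemeasurable

/-- The a-priori fractional moment bound, conditionally on all sites but `x` and `y`. -/
theorem marg_sqrt (hν : BddDens ν ρ) (V : Site d → ℝ) (Λ : Finset (Site d)) (E : ℝ)
    (x y : Site d) :
    (∫⋯∫⁻_{x, y}, (fun V => ENNReal.ofReal (√|gr V Λ E x y|)) ∂(fun _ => ν)) V ≤
      ENNReal.ofReal (2 * √(6 * ρ)) := by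
  have hρ := hν.1
  set m : Measure (Site d → ℝ) := (Measure.pi fun _ : ({x, y} : Finset (Site d)) => ν).map
    (updateFinset V {x, y}) with hm
  have hmu : Measurable (updateFinset V ({x, y} : Finset (Site d))) := measurable_updateFinset
  have hint : ∀ f : (Site d → ℝ) → ℝ≥0∞, Measurable f →
      ∫⁻ W, f W ∂m = (∫⋯∫⁻_{x, y}, f ∂(fun _ => ν)) V := by
    intro f hf
    rw [hm, lintegral_map hf hmu]
    rfl
  have hprob : IsProbabilityMeasure m := Measure.isProbabilityMeasure_map hmu.aemeasurable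
  have hgm := measurable_gr Λ E x y
  have hweak : ∀ τ : ℝ, 0 < τ → m {W | τ < |gr W Λ E x y|} ≤ ENNReal.ofReal (6 * ρ / τ) := by
    intro τ hτ
    have hS : MeasurableSet {V : Site d → ℝ | τ < |gr V Λ E x y|} :=
      measurableSet_lt measurable_const hgm.abs
    rw [← lintegral_indicator_one hS, hint _ (measurable_one.indicator hS)]
    exact marg_weak hν V Λ E x y hτ
  have h1 := weak_sqrt hgm (B := Set.univ) (c := 6 * ρ) (by positivity) hweak
    (a := √(6 * ρ)) (by positivity)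
  rw [Measure.restrict_univ, hint _ (by fun_prop), measure_univ, mul_one] at h1
  refine h1.trans ?_
  rw [← ENNReal.ofReal_add (by positivity) (by positivity)]
  apply le_of_eq
  congr 1
  have h2 : 6 * ρ / √(6 * ρ) = √(6 * ρ) := by
    rw [div_eq_iff (by positivity)]
    exact (Real.mul_self_sqrt (by positivity)).symm
  rw [h2]; ring

end Two

end Pool.Agent.Loc
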