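import Pool.Agent.Helper48_Loc.Null

/-!
# The geometric resolvent identity and the finite-volume criterion
-/

set_option autoImplicit false
set_option linter.unusedSectionVars false

open MeasureTheory ProbabilityTheory Function

open scoped ENNReal BigOperators

noncomputable section

namespace Pool.Agent.Loc

open Pool.Agent.Anderson

variable {d : ℕ}

/-- matrix elements of `E - H` -/
def rm (V : Site d → ℝ) (E : ℝ) (x y : Site d) : ℝ := (if x = y then E - V x else 0) - hop x y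

theorem RM_apply (V : Site d → ℝ) (Λ : Finset (Site d)) (E : ℝ) (x y : Λ) :
    RM V Λ E x y = rm V E x y := by
  simp only [RM, HM, Matrix.sub_apply, Matrix.smul_apply, Matrix.of_apply, rm, Matrix.one_apply]
  by_cases h : x = y
  · subst h; simp; ring
  · have h' : (x : Site d) ≠ y := fun h' => h (Subtype.ext h')
    simp [h, h']

theorem gr_mul_rm {V : Site d → ℝ} {Λ : Finset (Site d)} {E : ℝ} (h : (RM V Λ E).det ≠ 0)
    {x y : Site d} (hx : x ∈ Λ) (hy : y ∈ Λ) :
    ∑ z ∈ Λ, gr V Λ E x z * rm V E z y = if x = y then 1 else 0 := by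
  have e1 : (RM V Λ E)⁻¹ * RM V Λ E = 1 := Matrix.nonsing_inv_mul _ (isUnit_iff_ne_zero.2 h)
  have e2 := congrFun (congrFun e1 ⟨x, hx⟩) ⟨y, hy⟩
  rw [Matrix.mul_apply, Matrix.one_apply] at e2
  rw [← Finset.sum_coe_sort Λ (fun z => gr V Λ E x z * rm V E z y)]
  have e3 : ∀ z : Λ, gr V Λ E x z * rm V E z y = (RM V Λ E)⁻¹ ⟨x, hx⟩ z * RM V Λ E z ⟨y, hy⟩ := by
    intro z
    rw [gr_eq hx z.2, RM_apply]
  simp_rw [e3, e2]
  simp [Subtype.ext_iff]

theorem rm_mul_gr {V : Site d → ℝ} {Λ : Finset (Site d)} {E : ℝ} (h : (RM V Λ E).det ≠ 0)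
    {x y : Site d} (hx : x ∈ Λ) (hy : y ∈ Λ) :
    ∑ z ∈ Λ, rm V E x z * gr V Λ E z y = if x = y then 1 else 0 := by
  have e1 : RM V Λ E * (RM V Λ E)⁻¹ = 1 := Matrix.mul_nonsing_inv _ (isUnit_iff_ne_zero.2 h)
  have e2 := congrFun (congrFun e1 ⟨x, hx⟩) ⟨y, hy⟩
  rw [Matrix.mul_apply, Matrix.one_apply] at e2
  rw [← Finset.sum_coe_sort Λ (fun z => rm V E x z * gr V Λ E z y)]
  have e3 : ∀ z : Λ, rm V E x z * gr V Λ E z y = RM V Λ E ⟨x, hx⟩ z * (RM V Λ E)⁻¹ z ⟨y, hy⟩ := by
    intro z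
    rw [gr_eq z.2 hy, RM_apply]
  simp_rw [e3, e2]
  simp [Subtype.ext_iff]

/-- geometric resolvent identity -/
theorem geo1 {V : Site d → ℝ} {Λ A : Finset (Site d)} {E : ℝ} (hA : A ⊆ Λ)
    (h : (RM V Λ E).det ≠ 0) (hA' : (RM V A E).det ≠ 0) {x y : Site d} (hx : x ∈ A)
    (hy : y ∈ Λ \ A) :
    gr V Λ E x y = ∑ u ∈ A, ∑ u' ∈ Λ \ A, gr V A E x u * hop u u' * gr V Λ E u' y := by
  rw [Finset.mem_sdiff] at hy
  have e1 : ∀ u ∈ A, ∑ z ∈ A, rm V E u z * gr V Λ E z y =
      ∑ u' ∈ Λ \ A, hop u u' * gr V Λ E u' y := by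
    intro u hu
    have h1 := rm_mul_gr h (hA hu) hy.1
    have huy : u ≠ y := by rintro rfl; exact hy.2 hu
    rw [if_neg huy, ← Finset.sum_sdiff hA] at h1
    have h2 : ∑ z ∈ Λ \ A, rm V E u z * gr V Λ E z y =
        - ∑ u' ∈ Λ \ A, hop u u' * gr V Λ E u' y := by
      rw [← Finset.sum_neg_distrib]
      apply Finset.sum_congr rfl
      intro z hz
      have huz : u ≠ z := by
        rintro rfl
        exact (Finset.mem_sdiff.1 hz).2 hu
      unfold rm
      rw [if_neg huz]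
      ring
    rw [h2] at h1
    linarith
  have e2 : ∑ u ∈ A, gr V A E x u * ∑ z ∈ A, rm V E u z * gr V Λ E z y = gr V Λ E x y := by
    simp_rw [Finset.mul_sum]
    rw [Finset.sum_comm]
    have : ∀ z ∈ A, ∑ u ∈ A, gr V A E x u * (rm V E u z * gr V Λ E z y) =
        (if x = z then 1 else 0) * gr V Λ E z y := by
      intro z hz
      rw [← gr_mul_rm hA' hx hz, Finset.sum_mul]
      apply Finset.sum_congr rfl
      intro u _
      ring
    rw [Finset.sum_congr rfl this]
    simp [hx]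
  rw [← e2]
  apply Finset.sum_congr rfl
  intro u hu
  rw [e1 u hu, Finset.mul_sum]
  apply Finset.sum_congr rfl
  intro z _
  ring

theorem geo2 {V : Site d → ℝ} {Λ A : Finset (Site d)} {E : ℝ} (hA : A ⊆ Λ)
    (h : (RM V Λ E).det ≠ 0) (hA' : (RM V (Λ \ A) E).det ≠ 0) {x y : Site d} (hx : x ∈ A)
    (hy : y ∈ Λ \ A) :
    gr V Λ E x y = ∑ v ∈ A, ∑ v' ∈ Λ \ A, gr V Λ E x v * hop v v' * gr V (Λ \ A) E v' y := by
  have hx' : x ∈ Λ \ (Λ \ A) := by
    rw [Finset.sdiff_sdiff_eq_self hA]; exact hx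
  have h1 := geo1 (A := Λ \ A) Finset.sdiff_subset h hA' hy hx'
  rw [gr_symm, h1, Finset.sdiff_sdiff_eq_self hA, Finset.sum_comm]
  apply Finset.sum_congr rfl
  intro v _
  apply Finset.sum_congr rfl
  intro v' _
  rw [gr_symm V (Λ \ A) E y v', gr_symm V Λ E v x, hop_comm v' v]
  ring

/-- square root of the modulus of the Green function -/
def qg (Λ : Finset (Site d)) (E : ℝ) (x y : Site d) (V : Site d → ℝ) : ℝ≥0∞ :=
  ENNReal.ofReal (√|gr V Λ E x y|)

theorem measurable_qg (Λ : Finset (Site d)) (E : ℝ) (x y : Site d) :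
    Measurable (qg Λ E x y) := by
  unfold qg
  have := measurable_gr Λ E x y
  fun_prop

theorem only_qg (Λ : Finset (Site d)) (E : ℝ) (x y : Site d) : Only (qg Λ E x y) Λ := by
  intro V V' h
  unfold qg
  rw [gr_congr h]

theorem sqrt_abs_sum_le {ι : Type*} (s : Finset ι) (f : ι → ℝ) :
    √|∑ i ∈ s, f i| ≤ ∑ i ∈ s, √|f i| := by
  classical
  induction s using Finset.induction with
  | empty => simp
  | insert a s ha ih =>
    rw [Finset.sum_insert ha, Finset.sum_insert ha]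
    calc √|f a + ∑ i ∈ s, f i| ≤ √(|f a| + |∑ i ∈ s, f i|) := Real.sqrt_le_sqrt (abs_add_le _ _)
      _ ≤ √|f a| + √|∑ i ∈ s, f i| := by
          rw [Real.sqrt_le_left (by positivity)]
          have h1 := Real.sq_sqrt (abs_nonneg (f a))
          have h2 := Real.sq_sqrt (abs_nonneg (∑ i ∈ s, f i))
          have h3 : 0 ≤ √|f a| * √|∑ i ∈ s, f i| := by positivity
          nlinarith
      _ ≤ _ := by linarith

/-- The pointwise inequality behind the finite-volume criterion. -/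
theorem qg_step {V : Site d → ℝ} {Λ : Finset (Site d)} {E : ℝ} {L : ℕ} {x y : Site d}
    (hx : x ∈ Λ) (hy : y ∈ Λ) (hxy : L + 2 ≤ sd x y)
    (h1 : (RM V (Λ ∩ box x L) E).det ≠ 0) (h2 : (RM V (Λ \ (Λ ∩ box x (L + 1))) E).det ≠ 0) :
    qg Λ E x y V ≤ ENNReal.ofReal (2 * d) *
      ∑ u ∈ (Λ ∩ box x L).filter (fun u => sd x u = L),
        ∑ u' ∈ (Λ ∩ box x (L + 1)) \ (Λ ∩ box x L),
          ∑ v ∈ (Λ ∩ box x (L + 1)) \ (Λ ∩ box x L),
            ∑ v' ∈ (Λ \ (Λ ∩ box x (L + 1))) ∩ box x (L + 2),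
              qg (Λ ∩ box x L) E x u V * qg (Λ \ (Λ ∩ box x (L + 1))) E v' y V *
                qg Λ E u' v V := by
  by_cases hdet : (RM V Λ E).det = 0
  · have : gr V Λ E x y = 0 := by
      by_contra hne
      exact (gr_ne_zero hne).2.2 hdet
    unfold qg
    rw [this]
    simp
  set W := Λ ∩ box x L with hW
  set W' := Λ ∩ box x (L + 1) with hW'
  have hWW' : W ⊆ W' := Finset.inter_subset_inter_left (box_mono x (by omega))
  have hxW : x ∈ W := by
    rw [hW, Finset.mem_inter, mem_box, sd_self]; exact ⟨hx, by omega⟩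
  have hyW' : y ∈ Λ \ W' := by
    rw [Finset.mem_sdiff, hW', Finset.mem_inter, mem_box]
    exact ⟨hy, fun h => by omega⟩
  have hyW : y ∈ Λ \ W := by
    rw [Finset.mem_sdiff] at *
    exact ⟨hy, fun h => hyW'.2 (hWW' h)⟩
  -- first identity with restricted sums
  have g1 : gr V Λ E x y = ∑ u ∈ W.filter (fun u => sd x u = L), ∑ u' ∈ W' \ W,
      gr V W E x u * hop u u' * gr V Λ E u' y := by
    rw [geo1 Finset.inter_subset_left hdet h1 hxW hyW, ← hW]
    have hz : ∀ u ∈ W, ∀ u' ∈ Λ \ W, hop u u' ≠ 0 → sd x u = L ∧ u' ∈ W' \ W := by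
      intro u hu u' hu' hne
      have h3 := sd_of_hop hne
      rw [hW, Finset.mem_inter, mem_box] at hu
      rw [Finset.mem_sdiff, hW, Finset.mem_inter, mem_box] at hu'
      have h4 := sd_triangle x u u'
      have h5 : ¬ sd x u' ≤ L := fun h => hu'.2 ⟨hu'.1, h⟩
      refine ⟨by omega, ?_⟩
      rw [Finset.mem_sdiff, hW', hW, Finset.mem_inter, mem_box, Finset.mem_inter, mem_box]
      exact ⟨⟨hu'.1, by omega⟩, fun h => h5 h.2⟩
    have s1 : ∀ u ∈ W, ∑ u' ∈ Λ \ W, gr V W E x u * hop u u' * gr V Λ E u' y =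
        if sd x u = L then ∑ u' ∈ W' \ W, gr V W E x u * hop u u' * gr V Λ E u' y else 0 := by
      intro u hu
      by_cases hL : sd x u = L
      · rw [if_pos hL]
        symm
        apply Finset.sum_subset
        · exact Finset.sdiff_subset_sdiff Finset.inter_subset_left le_rfl
        · intro u' hu' hu''
          have : hop u u' = 0 := by
            by_contra hne
            exact hu'' (hz u hu u' hu' hne).2
          rw [this]; ring
      · rw [if_neg hL]
        apply Finset.sum_eq_zero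
        intro u' hu'
        have : hop u u' = 0 := by
          by_contra hne
          exact hL (hz u hu u' hu' hne).1
        rw [this]; ring
    rw [Finset.sum_congr rfl s1, Finset.sum_filter]
  have g2 : ∀ u' ∈ W' \ W, gr V Λ E u' y = ∑ v ∈ W' \ W, ∑ v' ∈ (Λ \ W') ∩ box x (L + 2),
      gr V Λ E u' v * hop v v' * gr V (Λ \ W') E v' y := by
    intro u' hu'
    rw [geo2 Finset.inter_subset_left hdet h2 (Finset.mem_sdiff.1 hu').1 hyW', ← hW']
    have hz : ∀ v ∈ W', ∀ v' ∈ Λ \ W', hop v v' ≠ 0 → v ∈ W' \ W ∧ v' ∈ box x (L + 2) := by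
      intro v hv v' hv' hne
      have h3 := sd_of_hop hne
      have hv0 := hv
      rw [hW', Finset.mem_inter, mem_box] at hv
      rw [Finset.mem_sdiff, hW', Finset.mem_inter, mem_box] at hv'
      have h4 := sd_triangle x v v'
      have h5 : ¬ sd x v' ≤ L + 1 := fun h => hv'.2 ⟨hv'.1, h⟩
      refine ⟨?_, by rw [mem_box]; omega⟩
      rw [Finset.mem_sdiff]
      refine ⟨hv0, fun h => ?_⟩
      rw [hW, Finset.mem_inter, mem_box] at h
      omega
    have s1 : ∀ v ∈ W', ∑ v' ∈ Λ \ W', gr V Λ E u' v * hop v v' * gr V (Λ \ W') E v' y =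
        ∑ v' ∈ (Λ \ W') ∩ box x (L + 2), gr V Λ E u' v * hop v v' * gr V (Λ \ W') E v' y := by
      intro v hv
      symm
      apply Finset.sum_subset Finset.inter_subset_left
      intro v' hv' hv''
      have : hop v v' = 0 := by
        by_contra hne
        exact hv'' (Finset.mem_inter.2 ⟨hv', (hz v hv v' hv' hne).2⟩)
      rw [this]; ring
    rw [Finset.sum_congr rfl s1]
    symm
    apply Finset.sum_subset Finset.sdiff_subset
    intro v hv hv''
    apply Finset.sum_eq_zero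
    intro v' hv'
    have : hop v v' = 0 := by
      by_contra hne
      exact hv'' (hz v hv v' (Finset.mem_inter.1 hv').1 hne).1
    rw [this]; ring
  have g3 : gr V Λ E x y = ∑ u ∈ W.filter (fun u => sd x u = L), ∑ u' ∈ W' \ W,
      ∑ v ∈ W' \ W, ∑ v' ∈ (Λ \ W') ∩ box x (L + 2),
        gr V W E x u * hop u u' * (gr V Λ E u' v * hop v v' * gr V (Λ \ W') E v' y) := by
    rw [g1]
    apply Finset.sum_congr rfl
    intro u _
    apply Finset.sum_congr rfl
    intro u' hu'
    rw [g2 u' hu', Finset.mul_sum]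
    apply Finset.sum_congr rfl
    intro v _
    rw [Finset.mul_sum]
  have hh : ∀ a b : Site d, √(hop a b) * √(hop a b) = hop a b := fun a b =>
    Real.mul_self_sqrt (hop_nonneg a b)
  have hhop : ∀ a b a' b' : Site d, √(hop a b) * √(hop a' b') ≤ 2 * d := by
    intro a b a' b'
    have h3 : √(hop a b) ≤ √(2 * d) := Real.sqrt_le_sqrt (hop_le a b)
    have h4 : √(hop a' b') ≤ √(2 * d) := Real.sqrt_le_sqrt (hop_le a' b')
    calc _ ≤ √(2 * d) * √(2 * d) := mul_le_mul h3 h4 (Real.sqrt_nonneg _) (Real.sqrt_nonneg _)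
      _ = 2 * d := Real.mul_self_sqrt (by positivity)
  have g4 : √|gr V Λ E x y| ≤ ∑ u ∈ W.filter (fun u => sd x u = L), ∑ u' ∈ W' \ W,
      ∑ v ∈ W' \ W, ∑ v' ∈ (Λ \ W') ∩ box x (L + 2),
        2 * d * (√|gr V W E x u| * √|gr V (Λ \ W') E v' y| * √|gr V Λ E u' v|) := by
    rw [g3]
    refine (sqrt_abs_sum_le _ _).trans (Finset.sum_le_sum fun u _ => ?_)
    refine (sqrt_abs_sum_le _ _).trans (Finset.sum_le_sum fun u' _ => ?_)
    refine (sqrt_abs_sum_le _ _).trans (Finset.sum_le_sum fun v _ => ?_)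
    refine (sqrt_abs_sum_le _ _).trans (Finset.sum_le_sum fun v' _ => ?_)
    rw [abs_mul, abs_mul, abs_mul, abs_mul, abs_of_nonneg (hop_nonneg u u'),
      abs_of_nonneg (hop_nonneg v v')]
    have h0 := hop_nonneg u u'
    have h0' := hop_nonneg v v'
    rw [Real.sqrt_mul (by positivity), Real.sqrt_mul (by positivity),
      Real.sqrt_mul (by positivity), Real.sqrt_mul (by positivity)]
    calc _ = (√(hop u u') * √(hop v v')) *
          (√|gr V W E x u| * √|gr V (Λ \ W') E v' y| * √|gr V Λ E u' v|) := by ring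
      _ ≤ _ := mul_le_mul_of_nonneg_right (hhop _ _ _ _) (by positivity)
  unfold qg
  refine (ENNReal.ofReal_le_ofReal g4).trans (le_of_eq ?_)
  have hz : ∀ u u' v v', 0 ≤ 2 * (d:ℝ) * (√|gr V W E x u| * √|gr V (Λ \ W') E v' y| *
      √|gr V Λ E u' v|) := fun _ _ _ _ => by positivity
  rw [ENNReal.ofReal_sum_of_nonneg
    (fun u _ => Finset.sum_nonneg fun u' _ => Finset.sum_nonneg fun v _ =>
      Finset.sum_nonneg fun v' _ => hz u u' v v'), Finset.mul_sum]
  apply Finset.sum_congr rfl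
  intro u _
  rw [ENNReal.ofReal_sum_of_nonneg
    (fun u' _ => Finset.sum_nonneg fun v _ =>
      Finset.sum_nonneg fun v' _ => hz u u' v v'), Finset.mul_sum]
  apply Finset.sum_congr rfl
  intro u' _
  rw [ENNReal.ofReal_sum_of_nonneg
    (fun v _ => Finset.sum_nonneg fun v' _ => hz u u' v v'), Finset.mul_sum]
  apply Finset.sum_congr rfl
  intro v _
  rw [ENNReal.ofReal_sum_of_nonneg (fun v' _ => hz u u' v v'), Finset.mul_sum]
  apply Finset.sum_congr rfl
  intro v' _
  rw [ENNReal.ofReal_mul (p := 2 * (d:ℝ)) (by positivity),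
    ENNReal.ofReal_mul (p := √|gr V W E x u| * √|gr V (Λ \ W') E v' y|) (by positivity),
    ENNReal.ofReal_mul (p := √|gr V W E x u|) (by positivity)]

end Pool.Agent.Loc
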