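import Mathlib

/-!
# Diagonalization of real symmetric matrices: what is needed
-/

set_option autoImplicit false
set_option linter.unusedSectionVars false

open scoped BigOperators

noncomputable section

namespace Pool.Agent.Loc

variable {n : Type*} [Fintype n] [DecidableEq n]

theorem pow_of_diag {A U : Matrix n n ℝ} {lam : n → ℝ} (h2 : U.transpose * U = 1)
    (h3 : U * U.transpose = 1) (h1 : A = U * Matrix.diagonal lam * U.transpose) (m : ℕ) :
    A ^ m = U * Matrix.diagonal (fun l => lam l ^ m) * U.transpose := by
  induction m with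
  | zero => simp [h3]
  | succ m ih =>
    rw [pow_succ, ih, h1]
    rw [show U * Matrix.diagonal (fun l => lam l ^ m) * U.transpose *
      (U * Matrix.diagonal lam * U.transpose) =
      U * Matrix.diagonal (fun l => lam l ^ m) * (U.transpose * U) *
        Matrix.diagonal lam * U.transpose by simp only [mul_assoc], h2, mul_one,
      mul_assoc U, Matrix.diagonal_mul_diagonal]
    simp only [pow_succ]

theorem exists_diag_real {A : Matrix n n ℝ} (hA : A.transpose = A) :
    ∃ (U : Matrix n n ℝ) (lam : n → ℝ), U.transpose * U = 1 ∧ U * U.transpose = 1 ∧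
      ∀ m : ℕ, A ^ m = U * Matrix.diagonal (fun l => lam l ^ m) * U.transpose := by
  have hH : A.IsHermitian := by
    unfold Matrix.IsHermitian
    rw [Matrix.conjTranspose_eq_transpose_of_trivial, hA]
  have h2 : (hH.eigenvectorUnitary : Matrix n n ℝ).transpose *
      (hH.eigenvectorUnitary : Matrix n n ℝ) = 1 := by
    have := Unitary.coe_star_mul_self hH.eigenvectorUnitary
    rwa [Matrix.star_eq_conjTranspose, Matrix.conjTranspose_eq_transpose_of_trivial] at this
  have h3 : (hH.eigenvectorUnitary : Matrix n n ℝ) *
      (hH.eigenvectorUnitary : Matrix n n ℝ).transpose = 1 := mul_eq_one_comm.1 h2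
  have h1 : A = (hH.eigenvectorUnitary : Matrix n n ℝ) * Matrix.diagonal hH.eigenvalues *
      (hH.eigenvectorUnitary : Matrix n n ℝ).transpose := by
    have := hH.spectral_theorem
    rw [Unitary.conjStarAlgAut_apply, Matrix.star_eq_conjTranspose,
      Matrix.conjTranspose_eq_transpose_of_trivial] at this
    simpa using this
  exact ⟨_, _, h2, h3, pow_of_diag h2 h3 h1⟩

/-- `(Xᵀ diag(lam^m) Y)` entries -/
theorem form_diag (U X Y : Matrix n n ℝ) (w : n → ℝ) (x y : n) :
    (X.transpose * (U * Matrix.diagonal w * U.transpose) * Y) x y =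
      ∑ l, (U.transpose * X) l x * (U.transpose * Y) l y * w l := by
  have h1 : X.transpose * (U * Matrix.diagonal w * U.transpose) * Y =
      (U.transpose * X).transpose * Matrix.diagonal w * (U.transpose * Y) := by
    rw [Matrix.transpose_mul, Matrix.transpose_transpose]
    simp only [mul_assoc]
  rw [h1, Matrix.mul_apply]
  apply Finset.sum_congr rfl
  intro l _
  rw [Matrix.mul_diagonal, Matrix.transpose_apply]
  ring

theorem trace_diag {U : Matrix n n ℝ} (hU : U.transpose * U = 1) (w : n → ℝ) :
    (U * Matrix.diagonal w * U.transpose).trace = ∑ l, w l := by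
  rw [Matrix.trace_mul_comm, ← mul_assoc, hU, one_mul, Matrix.trace_diagonal]

/-- sums over the spectral index -/
theorem sum_l {U : Matrix n n ℝ} (hU : U * U.transpose = 1) (X : Matrix n n ℝ) (x : n) :
    ∑ l, (U.transpose * X) l x ^ 2 = (X.transpose * X) x x := by
  have h1 : X.transpose * X = (U.transpose * X).transpose * (U.transpose * X) := by
    rw [Matrix.transpose_mul, Matrix.transpose_transpose, mul_assoc, ← mul_assoc U, hU, one_mul]
  rw [h1, Matrix.mul_apply]
  apply Finset.sum_congr rfl
  intro l _
  rw [Matrix.transpose_apply]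
  ring

/-- sums over the sites -/
theorem sum_x (U X : Matrix n n ℝ) (l : n) :
    ∑ x, (U.transpose * X) l x ^ 2 = (U.transpose * (X * X.transpose) * U) l l := by
  have h1 : U.transpose * (X * X.transpose) * U = (U.transpose * X) * (U.transpose * X).transpose := by
    rw [Matrix.transpose_mul, Matrix.transpose_transpose]
    simp only [mul_assoc]
  rw [h1, Matrix.mul_apply]
  apply Finset.sum_congr rfl
  intro x _
  rw [Matrix.transpose_apply]
  ring

/-- matrix elements in terms of columns -/
theorem col_form (U A : Matrix n n ℝ) (l : n) :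
    (U.transpose * A * U) l l = (fun i => U i l) ⬝ᵥ A.mulVec (fun i => U i l) := by
  rw [mul_assoc, Matrix.mul_apply]
  apply Finset.sum_congr rfl
  intro i _
  rw [Matrix.transpose_apply, Matrix.mul_apply]
  rfl

theorem col_norm {U : Matrix n n ℝ} (hU : U.transpose * U = 1) (l : n) :
    (fun i => U i l) ⬝ᵥ (fun i => U i l) = 1 := by
  have := congrFun (congrFun hU l) l
  rw [Matrix.mul_apply, Matrix.one_apply_eq] at this
  exact this

end Pool.Agent.Loc
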