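import Pool.Agent.Helper48_Loc.Basic

/-!
# Finite-volume eigenfunctions decay exponentially away from their centres
-/

set_option autoImplicit false
set_option linter.unusedSectionVars false

open MeasureTheory ProbabilityTheory Function Filter

open scoped ENNReal BigOperators Topology

noncomputable section

namespace Pool.Agent.Loc

open Pool.Agent.Anderson

variable {d : ℕ}

/-- `ψ` is a normalised eigenfunction of the restriction of `Δ + V` to the cube `box 0 n`,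
extended by `0`. -/
structure FinEig (V : Site d → ℝ) (n : ℕ) (E : ℝ) (ψ : Site d → ℂ) : Prop where
  supp : ∀ x, x ∉ box (0 : Site d) n → ψ x = 0
  eq : ∀ x ∈ box (0 : Site d) n, lap ψ x + (V x : ℂ) * ψ x = (E : ℂ) * ψ x
  norm : ∑ x ∈ box (0 : Site d) n, ‖ψ x‖ ^ 2 = 1

theorem FinEig.le_one {V : Site d → ℝ} {n : ℕ} {E : ℝ} {ψ : Site d → ℂ} (h : FinEig V n E ψ)
    (x : Site d) : ‖ψ x‖ ≤ 1 := by
  by_cases hx : x ∈ box (0 : Site d) n
  · have h1 : ‖ψ x‖ ^ 2 ≤ 1 := by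
      rw [← h.norm]
      exact Finset.single_le_sum (f := fun x => ‖ψ x‖ ^ 2) (fun y _ => by positivity) hx
    nlinarith [norm_nonneg (ψ x)]
  · rw [h.supp x hx, norm_zero]; exact zero_le_one

/-- `c` is a centre of `ψ` -/
def IsCenter (n : ℕ) (ψ : Site d → ℂ) (c : Site d) : Prop :=
  c ∈ box (0 : Site d) n ∧ ∀ x, ‖ψ x‖ ≤ ‖ψ c‖

theorem FinEig.exists_center {V : Site d → ℝ} {n : ℕ} {E : ℝ} {ψ : Site d → ℂ}
    (h : FinEig V n E ψ) : ∃ c, IsCenter n ψ c := by
  have hne : (box (0 : Site d) n).Nonempty := ⟨0, by rw [mem_box, sd_self]; omega⟩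
  obtain ⟨c, hc, hmax⟩ := Finset.exists_max_image (box (0 : Site d) n) (fun x => ‖ψ x‖) hne
  refine ⟨c, hc, fun x => ?_⟩
  by_cases hx : x ∈ box (0 : Site d) n
  · exact hmax x hx
  · rw [h.supp x hx, norm_zero]; exact norm_nonneg _

theorem FinEig.center_pos {V : Site d → ℝ} {n : ℕ} {E : ℝ} {ψ : Site d → ℂ}
    (h : FinEig V n E ψ) {c : Site d} (hc : IsCenter n ψ c) : 0 < ‖ψ c‖ := by
  rw [norm_pos_iff]
  intro h0
  have : ∑ x ∈ box (0 : Site d) n, ‖ψ x‖ ^ 2 = 0 := by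
    apply Finset.sum_eq_zero
    intro x _
    have := hc.2 x
    rw [h0, norm_zero] at this
    have h1 : ‖ψ x‖ = 0 := le_antisymm this (norm_nonneg _)
    rw [h1]; norm_num
  rw [h.norm] at this
  exact one_ne_zero this

theorem tendsto_poly_exp (d : ℕ) {μ : ℝ} (hμ : 0 < μ) (a b : ℝ) :
    Tendsto (fun L : ℕ => b * (2 * L + a) ^ d * Real.exp (-μ * L)) atTop (𝓝 0) := by
  have h1 : Tendsto (fun x : ℝ => x ^ d * Real.exp (-μ / 2 * x)) atTop (𝓝 0) := by
    have := Real.tendsto_pow_mul_exp_neg_atTop_nhds_zero d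
    have h2 : Tendsto (fun x : ℝ => (μ / 2) * x) atTop atTop :=
      tendsto_id.const_mul_atTop (by positivity)
    have h3 := this.comp h2
    have h4 : Tendsto (fun x : ℝ => (2 / μ) ^ d * (((μ / 2) * x) ^ d * Real.exp (-((μ / 2) * x))))
        atTop (𝓝 ((2 / μ) ^ d * 0)) := h3.const_mul _
    rw [mul_zero] at h4
    refine h4.congr fun x => ?_
    rw [mul_pow, ← mul_assoc, ← mul_assoc, ← mul_pow]
    have : 2 / μ * (μ / 2) = 1 := by field_simp
    rw [this, one_pow, one_mul]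
    congr 2; ring
  have h2 : Tendsto (fun L : ℕ => 2 * (L : ℝ) + a) atTop atTop :=
    tendsto_atTop_add_const_right _ _ (tendsto_natCast_atTop_atTop.const_mul_atTop (by norm_num))
  have h3 := (h1.comp h2).const_mul (b * Real.exp (μ / 2 * a))
  rw [mul_zero] at h3
  refine h3.congr fun L => ?_
  simp only [Function.comp]
  have : Real.exp (-μ / 2 * (2 * L + a)) = Real.exp (-μ * L) * Real.exp (-(μ / 2 * a)) := by
    rw [← Real.exp_add]; congr 1; ring
  rw [this, Real.exp_neg (μ / 2 * a)]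
  field_simp

/-- In the localized regime the finite-volume eigenfunctions decay away from their centres. -/
theorem center_decay {V : Site d → ℝ} {E₀ μ : ℝ} (hμ : 0 < μ) {L₀ : ℕ}
    (h : TwoBox V E₀ μ L₀) :
    ∃ L₁ : ℕ, ∀ (n : ℕ) (E : ℝ) (ψ : Site d → ℂ) (c : Site d), E₀ ≤ |E| → FinEig V n E ψ →
      IsCenter n ψ c → ∀ L : ℕ, L₁ ≤ L → ∀ x ∈ box (0 : Site d) n, 2 * L < sd c x →
        sd 0 c ≤ L ^ 2 → sd 0 x ≤ L ^ 2 →
        ‖ψ x‖ ≤ 2 * d * (2 * L + 1) ^ d * Real.exp (-μ * L) * ‖ψ c‖ := by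
  have h1 := tendsto_poly_exp d hμ 1 (2 * d)
  have h2 : ∀ᶠ L : ℕ in atTop, 2 * (d:ℝ) * (2 * L + 1) ^ d * Real.exp (-μ * L) < 1 :=
    h1.eventually (gt_mem_nhds one_pos)
  obtain ⟨L₂, hL₂⟩ := eventually_atTop.1 h2
  refine ⟨max L₀ L₂, ?_⟩
  intro n E ψ c hE hψ hc L hL x hx hcx hc2 hx2
  have hcpos := hψ.center_pos hc
  rcases h L (le_of_max_le_left hL) n c (mem_box.2 hc2) x (mem_box.2 hx2) hc.1 hx hcx E hE with
    hg | hg
  · exfalso
    have hne := exists_sd_eq_of_lt (L := L) hc.1 hx (by omega)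
    have h3 := goodBox_bound hg hc.1 hne (ψ := ψ)
      (fun y hy => hψ.eq y (Finset.mem_inter.1 hy).2) (fun y _ hy => hψ.supp y hy)
      (M := ‖ψ c‖) (fun y _ => hc.2 y)
    have h4 := hL₂ L (le_of_max_le_right hL)
    nlinarith
  · have hne := exists_sd_eq_of_lt (L := L) hx hc.1 (by rw [sd_comm]; omega)
    exact goodBox_bound hg hx hne (ψ := ψ)
      (fun y hy => hψ.eq y (Finset.mem_inter.1 hy).2) (fun y _ hy => hψ.supp y hy)
      (M := ‖ψ c‖) (fun y _ => hc.2 y)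

/-- cleaner form -/
theorem center_decay' {V : Site d → ℝ} {E₀ μ : ℝ} (hμ : 0 < μ) {L₀ : ℕ}
    (h : TwoBox V E₀ μ L₀) :
    ∃ (C₁ : ℝ) (R₀ : ℕ), 1 ≤ C₁ ∧ ∀ (n : ℕ) (E : ℝ) (ψ : Site d → ℂ) (c : Site d), E₀ ≤ |E| →
      FinEig V n E ψ → IsCenter n ψ c → ∀ x : Site d, R₀ ≤ sd c x → 16 * sd 0 c ≤ (sd c x) ^ 2 →
        ‖ψ x‖ ≤ C₁ * Real.exp (-(μ / 4) * sd c x) * ‖ψ c‖ := by
  obtain ⟨L₁, hL₁⟩ := center_decay hμ h
  -- a bound for the polynomial factor
  have h1 := tendsto_poly_exp d (show 0 < μ / 2 by positivity) 1 (2 * d)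
  obtain ⟨C₀, hC₀⟩ := h1.bddAbove_range
  have hC₀' : ∀ L : ℕ, 2 * (d:ℝ) * (2 * L + 1) ^ d * Real.exp (-(μ / 2) * L) ≤ C₀ := fun L =>
    hC₀ ⟨L, rfl⟩
  refine ⟨max 1 (C₀ * Real.exp (μ / 2)), 2 * L₁ + 14, le_max_left _ _, ?_⟩
  intro n E ψ c hE hψ hc x hr hr2
  set r := sd c x with hrdef
  by_cases hx : x ∈ box (0 : Site d) n
  swap
  · rw [hψ.supp x hx, norm_zero]
    positivity
  set L := (r - 1) / 2 with hL
  have hLr : 2 * L < r := by omega
  have hLr' : r ≤ 2 * L + 2 := by omega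
  have hL6 : 6 ≤ L := by omega
  have hm : sd 0 c * 4 ≤ (L + 1) ^ 2 := by
    have : r ^ 2 ≤ (2 * L + 2) ^ 2 := Nat.pow_le_pow_left hLr' 2
    nlinarith
  have hsx : sd 0 x ≤ sd 0 c + r := sd_triangle 0 c x
  have h3 := hL₁ n E ψ c hE hψ hc L (by omega) x hx hLr (by nlinarith) (by nlinarith)
  have hcpos := (hψ.center_pos hc).le
  refine h3.trans (mul_le_mul_of_nonneg_right ?_ hcpos)
  have h4 := hC₀' L
  have h5 : Real.exp (-μ * L) = Real.exp (-(μ / 2) * L) * Real.exp (-(μ / 2) * L) := by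
    rw [← Real.exp_add]; congr 1; ring
  have h6 : Real.exp (-(μ / 2) * L) ≤ Real.exp (μ / 2) * Real.exp (-(μ / 4) * r) := by
    rw [← Real.exp_add]
    apply Real.exp_le_exp.2
    have : (r : ℝ) ≤ 2 * L + 2 := by exact_mod_cast hLr'
    nlinarith
  calc 2 * (d:ℝ) * (2 * L + 1) ^ d * Real.exp (-μ * L)
      = (2 * (d:ℝ) * (2 * L + 1) ^ d * Real.exp (-(μ / 2) * L)) * Real.exp (-(μ / 2) * L) := by
        rw [h5]; ring
    _ ≤ C₀ * (Real.exp (μ / 2) * Real.exp (-(μ / 4) * r)) := by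
        apply mul_le_mul h4 h6 (Real.exp_pos _).le
        exact le_trans (by positivity) h4
    _ = (C₀ * Real.exp (μ / 2)) * Real.exp (-(μ / 4) * r) := by ring
    _ ≤ _ := mul_le_mul_of_nonneg_right (le_max_right _ _) (Real.exp_pos _).le

/-- Uniform decay of all the eigenfunctions whose centres are in a given box. -/
theorem uniform_decay {V : Site d → ℝ} {E₀ μ : ℝ} (hμ : 0 < μ) {L₀ : ℕ}
    (h : TwoBox V E₀ μ L₀) (R : ℕ) :
    ∃ C : ℝ, 0 < C ∧ ∀ (n : ℕ) (E : ℝ) (ψ : Site d → ℂ) (c : Site d), E₀ ≤ |E| →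
      FinEig V n E ψ → IsCenter n ψ c → sd 0 c ≤ R → ∀ x : Site d,
        ‖ψ x‖ ≤ C * Real.exp (-(μ / 4) * sd 0 x) := by
  obtain ⟨C₁, R₀, hC₁, hdec⟩ := center_decay' hμ h
  refine ⟨C₁ * Real.exp (μ / 4 * (R₀ + 17 * R + 1)), by positivity, ?_⟩
  intro n E ψ c hE hψ hc hcR x
  have htri : sd 0 x ≤ sd 0 c + sd c x := sd_triangle 0 c x
  have hψc : ‖ψ c‖ ≤ 1 := hψ.le_one c
  by_cases hcase : R₀ ≤ sd c x ∧ 16 * sd 0 c ≤ (sd c x) ^ 2
  · refine (hdec n E ψ c hE hψ hc x hcase.1 hcase.2).trans ?_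
    calc C₁ * Real.exp (-(μ / 4) * sd c x) * ‖ψ c‖ ≤ C₁ * Real.exp (-(μ / 4) * sd c x) * 1 := by
          gcongr
      _ ≤ C₁ * (Real.exp (μ / 4 * (R₀ + 17 * R + 1)) * Real.exp (-(μ / 4) * sd 0 x)) := by
          rw [mul_one]
          gcongr
          rw [← Real.exp_add]
          apply Real.exp_le_exp.2
          have h1 : (sd 0 x : ℝ) ≤ R + sd c x := by
            have : sd 0 x ≤ R + sd c x := by omega
            exact_mod_cast this
          have h2 : (0:ℝ) ≤ R₀ := by positivity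
          have h3 : (0:ℝ) ≤ R := by positivity
          nlinarith
      _ = _ := by ring
  · have hsx : sd 0 x ≤ R₀ + 17 * R + 1 := by
      rw [not_and_or, not_le, not_le] at hcase
      rcases hcase with h1 | h1
      · omega
      · have : sd c x ≤ 16 * sd 0 c := by
          by_contra hcon
          push Not at hcon
          nlinarith
        omega
    have h1 : (sd 0 x : ℝ) ≤ R₀ + 17 * R + 1 := by exact_mod_cast hsx
    calc ‖ψ x‖ ≤ 1 := hψ.le_one x
      _ ≤ C₁ * (Real.exp (μ / 4 * (R₀ + 17 * R + 1)) * Real.exp (-(μ / 4) * sd 0 x)) := by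
          rw [← Real.exp_add]
          have h2 : (1:ℝ) ≤ Real.exp (μ / 4 * (R₀ + 17 * R + 1) + -(μ / 4) * sd 0 x) := by
            apply Real.one_le_exp
            nlinarith
          nlinarith
      _ = _ := by ring

/-! ### summability of exponentials over the lattice -/

theorem summable_exp_sd {a : ℝ} (ha : 0 < a) (y : Site d) :
    Summable fun x : Site d => Real.exp (-a * sd x y) := by
  have h1 : Summable fun r : ℕ => (2 * (r:ℝ) + 1) ^ d * Real.exp (-a * r) := by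
    have h2 := tendsto_poly_exp d (show 0 < a / 2 by positivity) 1 1
    obtain ⟨C₀, hC₀⟩ := h2.bddAbove_range
    have hC₀' : ∀ L : ℕ, 1 * (2 * (L:ℝ) + 1) ^ d * Real.exp (-(a / 2) * L) ≤ C₀ := fun L =>
      hC₀ ⟨L, rfl⟩
    have h3 : Summable fun r : ℕ => C₀ * Real.exp (-(a / 2) * r) := by
      apply Summable.mul_left
      have h4 := Real.summable_exp_nat_mul_iff (a := -(a / 2)) |>.2 (by linarith)
      refine h4.congr fun n => by rw [mul_comm]
    refine Summable.of_nonneg_of_le (fun r => by positivity) (fun r => ?_) h3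
    have h5 : Real.exp (-a * r) = Real.exp (-(a / 2) * r) * Real.exp (-(a / 2) * r) := by
      rw [← Real.exp_add]; congr 1; ring
    rw [h5, ← mul_assoc]
    have := hC₀' r
    rw [one_mul] at this
    exact mul_le_mul_of_nonneg_right this (Real.exp_pos _).le
  refine summable_of_sum_le (fun x => (Real.exp_pos _).le)
    (c := ∑' r : ℕ, (2 * (r:ℝ) + 1) ^ d * Real.exp (-a * r)) ?_
  intro F
  rw [← Finset.sum_fiberwise_of_maps_to (s := F) (t := F.image fun x => sd x y)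
    (g := fun x => sd x y) (fun x hx => Finset.mem_image_of_mem _ hx)]
  refine le_trans (Finset.sum_le_sum (g := fun r : ℕ => (2 * (r:ℝ) + 1) ^ d * Real.exp (-a * r))
    fun r _ => ?_) (h1.sum_le_tsum _ fun r _ => by positivity)
  calc ∑ x ∈ F.filter (fun x => sd x y = r), Real.exp (-a * sd x y)
      = ∑ _x ∈ F.filter (fun x => sd x y = r), Real.exp (-a * r) := by
        apply Finset.sum_congr rfl
        intro x hx
        rw [(Finset.mem_filter.1 hx).2]
    _ = (F.filter (fun x => sd x y = r)).card * Real.exp (-a * r) := by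
        rw [Finset.sum_const, nsmul_eq_mul]
    _ ≤ _ := by
        apply mul_le_mul_of_nonneg_right _ (Real.exp_pos _).le
        have h2 : (F.filter (fun x => sd x y = r)).card ≤ (box y r).card := by
          apply Finset.card_le_card
          intro x hx
          rw [mem_box, sd_comm]
          exact (Finset.mem_filter.1 hx).2.le
        rw [card_box] at h2
        exact_mod_cast h2

end Pool.Agent.Loc
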