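import Pool.Agent.Helper48_Loc.Basic

/-!
# The two-box property implies exponential decay of polynomially bounded solutions
-/

set_option autoImplicit false

open MeasureTheory ProbabilityTheory

open scoped ENNReal BigOperators Topology

noncomputable section

namespace Pool.Agent.Loc

open Pool.Agent.Anderson

variable {d : ℕ}

theorem exists_pow_exp_bound (m : ℕ) {c : ℝ} (hc : 0 < c) :
    ∃ B : ℝ, 0 ≤ B ∧ ∀ R : ℕ, ((R : ℝ) + 1) ^ m * Real.exp (-c * R) ≤ B := by
  have h1 := (Real.summable_pow_mul_exp_neg_nat_mul m hc).tendsto_atTop_zero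
  obtain ⟨B, hB⟩ := h1.bddAbove_range
  have hB0 : 0 ≤ B := by
    have := hB ⟨1, rfl⟩
    refine le_trans ?_ this
    positivity
  refine ⟨B * Real.exp c, by positivity, fun R => ?_⟩
  have h2 := hB ⟨R + 1, rfl⟩
  simp only at h2
  have h3 : Real.exp (-c * R) = Real.exp (-c * ((R + 1 : ℕ) : ℝ)) * Real.exp c := by
    rw [← Real.exp_add]
    congr 1
    push_cast
    ring
  rw [h3, ← mul_assoc]
  apply mul_le_mul_of_nonneg_right _ (Real.exp_pos _).le
  push_cast at h2 ⊢
  exact h2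

theorem sd_zero_const (hd : 0 < d) (n : ℕ) : sd (0 : Site d) (fun _ => (n : ℤ)) = n := by
  apply le_antisymm
  · rw [sd_le_iff]
    intro i
    simp
  · have h1 := sd_le_iff.1 (le_refl (sd (0 : Site d) (fun _ => (n : ℤ)))) ⟨0, hd⟩
    simp only [Pi.zero_apply, zero_sub, abs_neg, Nat.abs_cast] at h1
    exact_mod_cast h1

/-- In a full box, a solution is small at the centre of a good box. -/
theorem goodBox_full (hd : 0 < d) {V : Site d → ℝ} {n L : ℕ} {x : Site d} {E μ : ℝ}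
    (hg : GoodBox V n L x E μ) (hn : sd 0 x + L + 1 ≤ n) {ψ : Site d → ℂ}
    (hψ : ∀ y, lap ψ y + (V y : ℂ) * ψ y = (E : ℂ) * ψ y)
    {M : ℝ} (hM : ∀ y ∈ box x (L + 1), ‖ψ y‖ ≤ M) :
    ‖ψ x‖ ≤ 2 * d * (2 * L + 1) ^ d * Real.exp (-μ * L) * M := by
  have hx : x ∈ box (0 : Site d) n := mem_box.2 (by omega)
  refine goodBox_bound hg hx ?_ (fun y _ => hψ y) ?_ hM
  · apply exists_sd_eq_of_lt (y := fun _ => (n : ℤ)) hx
    · rw [mem_box, sd_zero_const hd]
    · have := sd_triangle 0 x (fun _ => (n : ℤ))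
      rw [sd_zero_const hd] at this
      omega
  · intro y hy hyn
    exfalso
    apply hyn
    rw [mem_box] at *
    have := sd_triangle 0 x y
    omega

/-- Every polynomially bounded solution of the eigenvalue equation at an energy with the two-box
property decays exponentially. -/
theorem decay_of_twoBox {V : Site d → ℝ} {E₀ μ : ℝ} (hμ : 0 < μ) {L₀ : ℕ}
    (h : TwoBox V E₀ μ L₀) {E : ℝ} (hE : E₀ ≤ |E|) {ψ : Site d → ℂ}
    (hpoly : ∃ (C : ℝ) (k : ℕ), ∀ x, ‖ψ x‖ ≤ C * (1 + (sd 0 x : ℝ)) ^ k)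
    (hψ : ∀ x, lap ψ x + (V x : ℂ) * ψ x = (E : ℂ) * ψ x) :
    ∃ C : ℝ, ∀ x, ‖ψ x‖ ≤ C * Real.exp (-(μ / 4) * sd 0 x) := by
  rcases Nat.eq_zero_or_pos d with hd | hd
  · subst hd
    refine ⟨‖ψ 0‖, fun x => ?_⟩
    have hx : x = 0 := Subsingleton.elim _ _
    rw [hx, sd_self]
    simp
  by_cases hz : ∀ x, ψ x = 0
  · exact ⟨0, fun x => by rw [hz x]; simp⟩
  push Not at hz
  obtain ⟨x₀, hx₀⟩ := hz
  obtain ⟨C₀, k, hC₀⟩ := hpoly
  have hC₀' : 0 ≤ C₀ := by
    have := (norm_nonneg _).trans (hC₀ 0)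
    rw [sd_self] at this
    simpa using this
  set a := sd 0 x₀ with ha
  obtain ⟨B, hB0, hB⟩ := exists_pow_exp_bound (d + k) (c := μ / 4) (by positivity)
  -- the box at `x₀` is bad at all large scales
  have hlim : Filter.Tendsto (fun L : ℕ => 2 * d * (2 * (L : ℝ) + 1) ^ d * Real.exp (-μ * L) *
      (C₀ * (2 + a + L) ^ k)) Filter.atTop (𝓝 0) := by
    obtain ⟨B', hB0', hB'⟩ := exists_pow_exp_bound (d + k) (c := μ / 2) (by positivity)
    have hexp : Filter.Tendsto (fun L : ℕ => Real.exp (-(μ / 2) * (L : ℝ))) Filter.atTop (𝓝 0) := by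
      have := (Real.summable_pow_mul_exp_neg_nat_mul 0 (r := μ / 2)
        (by positivity)).tendsto_atTop_zero
      simpa using this
    have hup : Filter.Tendsto (fun L : ℕ => (2 * d * 2 ^ d * (C₀ * (2 + a) ^ k) * B') *
        Real.exp (-(μ / 2) * (L : ℝ))) Filter.atTop (𝓝 0) := by
      simpa using hexp.const_mul (2 * d * 2 ^ d * (C₀ * (2 + a) ^ k) * B')
    refine squeeze_zero (fun L => by positivity) (fun L => ?_) hup
    have e1 : Real.exp (-μ * L) = Real.exp (-(μ / 2) * L) * Real.exp (-(μ / 2) * L) := by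
      rw [← Real.exp_add]; congr 1; ring
    have e2 : (2 * (L : ℝ) + 1) ^ d ≤ 2 ^ d * ((L : ℝ) + 1) ^ d := by
      rw [← mul_pow]
      have : (0 : ℝ) ≤ L := by positivity
      exact pow_le_pow_left₀ (by positivity) (by linarith) d
    have e3 : (2 + (a : ℝ) + L) ^ k ≤ (2 + a) ^ k * ((L : ℝ) + 1) ^ k := by
      rw [← mul_pow]
      have h1 : (0 : ℝ) ≤ L := by positivity
      have h2 : (0 : ℝ) ≤ a := by positivity
      exact pow_le_pow_left₀ (by positivity) (by nlinarith) k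
    calc 2 * d * (2 * (L : ℝ) + 1) ^ d * Real.exp (-μ * L) * (C₀ * (2 + a + L) ^ k)
        ≤ 2 * d * (2 ^ d * ((L : ℝ) + 1) ^ d) * Real.exp (-μ * L) *
            (C₀ * ((2 + a) ^ k * ((L : ℝ) + 1) ^ k)) := by gcongr
      _ = (2 * d * 2 ^ d * (C₀ * (2 + a) ^ k)) *
            (((L : ℝ) + 1) ^ (d + k) * Real.exp (-(μ / 2) * L)) * Real.exp (-(μ / 2) * L) := by
          rw [e1, pow_add]; ring
      _ ≤ (2 * d * 2 ^ d * (C₀ * (2 + a) ^ k)) * B' * Real.exp (-(μ / 2) * L) := by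
          gcongr
          exact hB' L
      _ = _ := by ring
  obtain ⟨L₁, hL₁⟩ := Filter.eventually_atTop.1
    (hlim.eventually (gt_mem_nhds (norm_pos_iff.2 hx₀)))
  have hbad : ∀ L n : ℕ, L₁ ≤ L → a + L + 1 ≤ n → ¬ GoodBox V n L x₀ E μ := by
    intro L n hL hn hg
    have hM : ∀ y ∈ box x₀ (L + 1), ‖ψ y‖ ≤ C₀ * (2 + a + L) ^ k := by
      intro y hy
      refine (hC₀ y).trans ?_
      have h1 := sd_triangle 0 x₀ y
      rw [mem_box] at hy
      have h2 : (sd 0 y : ℝ) ≤ a + (L + 1) := by exact_mod_cast (by omega : sd 0 y ≤ a + (L + 1))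
      apply mul_le_mul_of_nonneg_left _ hC₀'
      exact pow_le_pow_left₀ (by positivity) (by linarith) k
    have := goodBox_full hd hg hn hψ hM
    exact absurd (hL₁ L hL) (not_lt.2 this)
  -- the threshold radius
  set R₁ : ℕ := 2 * (L₀ + L₁ + a + 8) + a + 2 with hR₁
  have hfar : ∀ x, R₁ ≤ sd 0 x →
      ‖ψ x‖ ≤ (2 * d * (C₀ * 2 ^ k) * Real.exp (μ * (a + 2) / 2) * B) *
        Real.exp (-(μ / 4) * sd 0 x) := by
    intro x hx
    set R := sd 0 x with hR
    set L := (R - a - 1) / 2 with hL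
    have l1 : 2 * L ≤ R - a - 1 := by omega
    have l2 : R - a - 1 ≤ 2 * L + 1 := by omega
    have l3 : L₀ + L₁ + a + 8 ≤ L := by omega
    have l4 : R ≤ L ^ 2 := by
      have : R ≤ 2 * L + a + 2 := by omega
      have : 2 * L + a + 2 ≤ L ^ 2 := by nlinarith
      omega
    have hx1 : x ∈ box (0 : Site d) (L ^ 2) := mem_box.2 l4
    have hx2 : x₀ ∈ box (0 : Site d) (L ^ 2) := mem_box.2 (by omega)
    have hx3 : x ∈ box (0 : Site d) (L ^ 2 + L + 1) := box_mono 0 (by omega) hx1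
    have hx4 : x₀ ∈ box (0 : Site d) (L ^ 2 + L + 1) := box_mono 0 (by omega) hx2
    have htri := sd_triangle 0 x₀ x
    rcases h L (by omega) (L ^ 2 + L + 1) x₀ hx2 x hx1 hx4 hx3 (by omega) E hE with hg | hg
    · exact absurd hg (hbad L _ (by omega) (by omega))
    · have hM : ∀ y ∈ box x (L + 1), ‖ψ y‖ ≤ C₀ * (2 * (R + 1)) ^ k := by
        intro y hy
        refine (hC₀ y).trans ?_
        have h1 := sd_triangle 0 x y
        rw [mem_box] at hy
        have h2 : (sd 0 y : ℝ) ≤ 2 * R + 1 := by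
          exact_mod_cast (by omega : sd 0 y ≤ 2 * R + 1)
        apply mul_le_mul_of_nonneg_left _ hC₀'
        exact pow_le_pow_left₀ (by positivity) (by linarith) k
      have hmain := goodBox_full hd hg (by omega) hψ hM
      refine hmain.trans ?_
      have r1 : (2 * (L : ℝ) + 1) ≤ R + 1 := by
        have : 2 * L ≤ R := by omega
        have : (2 * (L : ℝ)) ≤ R := by exact_mod_cast this
        linarith
      have r2 : Real.exp (-μ * L) ≤ Real.exp (μ * (a + 2) / 2) * Real.exp (-(μ / 2) * R) := by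
        rw [← Real.exp_add]
        apply Real.exp_le_exp.2
        have : R ≤ 2 * L + (a + 2) := by omega
        have : (R : ℝ) ≤ 2 * L + (a + 2) := by exact_mod_cast this
        nlinarith
      have r3 : Real.exp (-(μ / 2) * R) = Real.exp (-(μ / 4) * R) * Real.exp (-(μ / 4) * R) := by
        rw [← Real.exp_add]; congr 1; ring
      calc 2 * d * (2 * (L : ℝ) + 1) ^ d * Real.exp (-μ * L) * (C₀ * (2 * (R + 1)) ^ k)
          ≤ 2 * d * ((R : ℝ) + 1) ^ d *
              (Real.exp (μ * (a + 2) / 2) * Real.exp (-(μ / 2) * R)) *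
              (C₀ * (2 * (R + 1)) ^ k) := by gcongr
        _ = (2 * d * (C₀ * 2 ^ k) * Real.exp (μ * (a + 2) / 2)) *
              (((R : ℝ) + 1) ^ (d + k) * Real.exp (-(μ / 4) * R)) *
              Real.exp (-(μ / 4) * R) := by rw [r3, mul_pow, pow_add]; ring
        _ ≤ (2 * d * (C₀ * 2 ^ k) * Real.exp (μ * (a + 2) / 2)) * B *
              Real.exp (-(μ / 4) * R) := by
            gcongr
            exact hB R
        _ = _ := by ring
  refine ⟨2 * d * (C₀ * 2 ^ k) * Real.exp (μ * (a + 2) / 2) * B +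
    C₀ * (1 + R₁) ^ k * Real.exp (μ / 4 * R₁), fun x => ?_⟩
  rcases Nat.lt_or_ge (sd 0 x) R₁ with hx | hx
  · have h1 := hC₀ x
    have h2 : (sd 0 x : ℝ) ≤ R₁ := by exact_mod_cast hx.le
    have h3 : 1 ≤ Real.exp (μ / 4 * R₁) * Real.exp (-(μ / 4) * sd 0 x) := by
      rw [← Real.exp_add]
      apply Real.one_le_exp
      nlinarith
    calc ‖ψ x‖ ≤ C₀ * (1 + (sd 0 x : ℝ)) ^ k := h1
      _ ≤ C₀ * (1 + R₁) ^ k * 1 := by
          rw [mul_one]
          gcongr
      _ ≤ C₀ * (1 + R₁) ^ k * (Real.exp (μ / 4 * R₁) * Real.exp (-(μ / 4) * sd 0 x)) := by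
          gcongr
      _ ≤ _ := by
          rw [← mul_assoc]
          apply mul_le_mul_of_nonneg_right _ (Real.exp_pos _).le
          have : 0 ≤ 2 * d * (C₀ * 2 ^ k) * Real.exp (μ * (a + 2) / 2) * B := by positivity
          linarith
  · refine (hfar x hx).trans ?_
    apply mul_le_mul_of_nonneg_right _ (Real.exp_pos _).le
    have : 0 ≤ C₀ * (1 + R₁) ^ k * Real.exp (μ / 4 * R₁) := by positivity
    linarith

end Pool.Agent.Loc
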