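import Pool.Agent.Helper48_Loc.Defs

/-!
# From fixed-energy decay in probability to the two-box property

The event that two disjoint boxes are both bad at some energy in the (unbounded) energy range is
controlled without a Wegner estimate: a box is good at the energy `E` iff a certain polynomial in
`E`, of degree twice the volume, is negative.  If both polynomials are `≥ 0` somewhere in `[E₀, ∞)`, then
moving the energy down until something happens we find that the first one is `≥ 0` at `E₀`, or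
that one of them is `≥ 0` at a root of the other one.  The roots of the first polynomial depend
only on the potential in the first box, which is independent of the second one.
-/

set_option autoImplicit false

open MeasureTheory ProbabilityTheory

open scoped ENNReal BigOperators

noncomputable section

namespace Pool.Agent.Loc

open Pool.Agent.Anderson

variable {d : ℕ}

section Abstract

set_option linter.unusedSectionVars false
set_option linter.unusedVariables false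

variable {α β : Type*} [TopologicalSpace α] [MeasurableSpace α] [BorelSpace α]
  [SecondCountableTopology α] [TopologicalSpace β] [MeasurableSpace β] [BorelSpace β]
  [SecondCountableTopology β]

theorem measurableSet_exists {I : Set ℝ} (hI : IsClosed I) {F : Set ((α × β) × ℝ)}
    (hF : IsClosed F) : MeasurableSet {p : α × β | ∃ E ∈ I, (p, E) ∈ F} := by
  have h : {p : α × β | ∃ E ∈ I, (p, E) ∈ F} = ⋃ R : ℕ, Prod.fst ''
      {q : (α × β) × (Set.Icc (-(R : ℝ)) R) | (q.2 : ℝ) ∈ I ∧ (q.1, (q.2 : ℝ)) ∈ F} := by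
    ext p
    simp only [Set.mem_ofPred_eq, Set.mem_iUnion, Set.mem_image]
    constructor
    · rintro ⟨E, hE, hpE⟩
      obtain ⟨R, hR⟩ := exists_nat_ge |E|
      exact ⟨R, (p, ⟨E, abs_le.1 hR⟩), ⟨hE, hpE⟩, rfl⟩
    · rintro ⟨R, q, ⟨h1, h2⟩, rfl⟩
      exact ⟨q.2, h1, h2⟩
  rw [h]
  refine MeasurableSet.iUnion fun R => IsClosed.measurableSet ?_
  refine isClosedMap_fst_of_compactSpace _ ?_
  have c1 : Continuous (fun q : (α × β) × (Set.Icc (-(R : ℝ)) R) => (q.2 : ℝ)) :=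
    continuous_subtype_val.comp continuous_snd
  have c2 : Continuous (fun q : (α × β) × (Set.Icc (-(R : ℝ)) R) => (q.1, (q.2 : ℝ))) :=
    continuous_fst.prodMk c1
  exact (hI.preimage c1).inter (hF.preimage c2)

theorem measurableSet_exists₂ {g₁ : α → ℝ → ℝ} {g₂ : β → ℝ → ℝ}
    (h₁ : Continuous (fun p : α × ℝ => g₁ p.1 p.2))
    (h₂ : Continuous (fun p : β × ℝ => g₂ p.1 p.2)) (E₀ : ℝ) :
    MeasurableSet {p : α × β | ∃ E, E₀ ≤ |E| ∧ 0 ≤ g₁ p.1 E ∧ 0 ≤ g₂ p.2 E} := by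
  have hI : IsClosed {E : ℝ | E₀ ≤ |E|} := isClosed_le continuous_const continuous_abs
  have e₁ : Continuous (fun p : (α × β) × ℝ => g₁ p.1.1 p.2) :=
    h₁.comp ((continuous_fst.comp continuous_fst).prodMk continuous_snd)
  have e₂ : Continuous (fun p : (α × β) × ℝ => g₂ p.1.2 p.2) :=
    h₂.comp ((continuous_snd.comp continuous_fst).prodMk continuous_snd)
  have := measurableSet_exists (α := α) (β := β) hI
    (F := {p | 0 ≤ g₁ p.1.1 p.2} ∩ {p | 0 ≤ g₂ p.1.2 p.2})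
    ((isClosed_le continuous_const e₁).inter (isClosed_le continuous_const e₂))
  simpa using this

theorem isClosed_slice {g₁ : α → ℝ → ℝ}
    (h₁ : Continuous (fun p : α × ℝ => g₁ p.1 p.2)) (E : ℝ) :
    IsClosed {a : α | 0 ≤ g₁ a E} :=
  isClosed_le continuous_const (h₁.comp (continuous_id.prodMk continuous_const))

theorem exists_root {q₁ q₂ : ℝ → ℝ} (h₁ : Continuous q₁) (h₂ : Continuous q₂) {E₀ E : ℝ}
    (hE : E₀ ≤ E) (hq₁ : 0 ≤ q₁ E) (hq₂ : 0 ≤ q₂ E) :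
    0 ≤ q₁ E₀ ∨ (∃ F, E₀ ≤ F ∧ q₁ F = 0 ∧ 0 ≤ q₂ F) ∨ (∃ F, E₀ ≤ F ∧ q₂ F = 0 ∧ 0 ≤ q₁ F) := by
  set S : Set ℝ := Set.Icc E₀ E ∩ ({F | 0 ≤ q₁ F} ∩ {F | 0 ≤ q₂ F}) with hS
  have hcl : IsClosed ({F | 0 ≤ q₁ F} ∩ {F | 0 ≤ q₂ F}) :=
    (isClosed_le continuous_const h₁).inter (isClosed_le continuous_const h₂)
  have hcomp : IsCompact S := isCompact_Icc.inter_right hcl
  have hne : S.Nonempty := ⟨E, ⟨hE, le_rfl⟩, hq₁, hq₂⟩
  obtain ⟨m, ⟨⟨hm1, hm2⟩, hm3, hm4⟩, hmin⟩ := hcomp.exists_isLeast hne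
  simp only [Set.mem_ofPred_eq] at hm3 hm4
  rcases hm1.eq_or_lt with h | h
  · left; rw [h]; exact hm3
  · right
    rcases hm3.eq_or_lt with h3 | h3
    · left; exact ⟨m, hm1, h3.symm, hm4⟩
    rcases hm4.eq_or_lt with h4 | h4
    · right; exact ⟨m, hm1, h4.symm, hm3⟩
    exfalso
    have e1 : ∀ᶠ F in nhds m, 0 < q₁ F := h₁.continuousAt.eventually (lt_mem_nhds h3)
    have e2 : ∀ᶠ F in nhds m, 0 < q₂ F := h₂.continuousAt.eventually (lt_mem_nhds h4)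
    have e3 : ∀ᶠ F in nhds m, E₀ < F := lt_mem_nhds h
    have e4 : ∀ᶠ F in nhdsWithin m (Set.Iio m), 0 < q₁ F ∧ 0 < q₂ F ∧ E₀ < F ∧ F < m := by
      have := (e1.and (e2.and e3)).filter_mono (nhdsWithin_le_nhds (s := Set.Iio m))
      filter_upwards [this, self_mem_nhdsWithin] with F hF hF'
      exact ⟨hF.1, hF.2.1, hF.2.2, hF'⟩
    obtain ⟨F, f1, f2, f3, f4⟩ := e4.exists
    have := hmin ⟨⟨f3.le, (f4.le.trans hm2)⟩, f1.le, f2.le⟩
    exact absurd this (not_le.2 f4)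

/-- both half lines -/
theorem exists_root_abs {q₁ q₂ : ℝ → ℝ} (h₁ : Continuous q₁) (h₂ : Continuous q₂) {E₀ E : ℝ}
    (hE₀ : 0 ≤ E₀) (hE : E₀ ≤ |E|) (hq₁ : 0 ≤ q₁ E) (hq₂ : 0 ≤ q₂ E) :
    0 ≤ q₁ E₀ ∨ 0 ≤ q₁ (-E₀) ∨ (∃ F, E₀ ≤ |F| ∧ q₁ F = 0 ∧ 0 ≤ q₂ F) ∨
      (∃ F, E₀ ≤ |F| ∧ q₂ F = 0 ∧ 0 ≤ q₁ F) := by
  rcases le_total 0 E with h | h
  · rw [abs_of_nonneg h] at hE
    rcases exists_root h₁ h₂ hE hq₁ hq₂ with h' | ⟨F, f1, f2, f3⟩ | ⟨F, f1, f2, f3⟩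
    · exact Or.inl h'
    · exact Or.inr (Or.inr (Or.inl ⟨F, f1.trans (le_abs_self F), f2, f3⟩))
    · exact Or.inr (Or.inr (Or.inr ⟨F, f1.trans (le_abs_self F), f2, f3⟩))
  · rw [abs_of_nonpos h] at hE
    have := exists_root (q₁ := fun F => q₁ (-F)) (q₂ := fun F => q₂ (-F))
      (h₁.comp continuous_neg) (h₂.comp continuous_neg) hE (by simpa using hq₁)
      (by simpa using hq₂)
    rcases this with h' | ⟨F, f1, f2, f3⟩ | ⟨F, f1, f2, f3⟩
    · exact Or.inr (Or.inl h')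
    · refine Or.inr (Or.inr (Or.inl ⟨-F, ?_, f2, f3⟩))
      rw [abs_neg]; exact f1.trans (le_abs_self F)
    · refine Or.inr (Or.inr (Or.inr ⟨-F, ?_, f2, f3⟩))
      rw [abs_neg]; exact f1.trans (le_abs_self F)

/-- the probability that the second function is `≥ 0` at a root of the first one -/
theorem prob_root {μ₁ : Measure α} {μ₂ : Measure β} [IsProbabilityMeasure μ₁] [SFinite μ₂]
    {q₁ : α → ℝ → ℝ} {q₂ : β → ℝ → ℝ}
    {E₀ : ℝ} {N : ℕ} {K : ℝ≥0∞}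
    (hN : ∀ a, ∃ s : Finset ℝ, s.card ≤ N ∧ ∀ E, q₁ a E = 0 → E ∈ s)
    (hK : ∀ E, E₀ ≤ |E| → μ₂ {b | 0 ≤ q₂ b E} ≤ K)
    (hB : MeasurableSet {p : α × β | ∃ E, E₀ ≤ |E| ∧ q₁ p.1 E = 0 ∧ 0 ≤ q₂ p.2 E}) :
    (μ₁.prod μ₂) {p | ∃ E, E₀ ≤ |E| ∧ q₁ p.1 E = 0 ∧ 0 ≤ q₂ p.2 E} ≤ N * K := by
  rw [Measure.prod_apply hB]
  calc ∫⁻ a, μ₂ (Prod.mk a ⁻¹' {p : α × β | ∃ E, E₀ ≤ |E| ∧ q₁ p.1 E = 0 ∧ 0 ≤ q₂ p.2 E}) ∂μ₁
      ≤ ∫⁻ _a, (N : ℝ≥0∞) * K ∂μ₁ := by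
        apply lintegral_mono
        intro a
        obtain ⟨s, hs1, hs2⟩ := hN a
        have hsub : Prod.mk a ⁻¹' {p : α × β | ∃ E, E₀ ≤ |E| ∧ q₁ p.1 E = 0 ∧ 0 ≤ q₂ p.2 E} ⊆
            ⋃ E ∈ s.filter (fun E => E₀ ≤ |E|), {b | 0 ≤ q₂ b E} := by
          intro b hb
          obtain ⟨E, e1, e2, e3⟩ := hb
          simp only [Set.mem_iUnion]
          exact ⟨E, Finset.mem_filter.2 ⟨hs2 E e2, e1⟩, e3⟩
        calc μ₂ (Prod.mk a ⁻¹' {p : α × β | ∃ E, E₀ ≤ |E| ∧ q₁ p.1 E = 0 ∧ 0 ≤ q₂ p.2 E})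
            ≤ μ₂ (⋃ E ∈ s.filter (fun E => E₀ ≤ |E|), {b | 0 ≤ q₂ b E}) := measure_mono hsub
          _ ≤ ∑ E ∈ s.filter (fun E => E₀ ≤ |E|), μ₂ {b | 0 ≤ q₂ b E} :=
              measure_biUnion_finset_le _ _
          _ ≤ ∑ _E ∈ s.filter (fun E => E₀ ≤ |E|), K :=
              Finset.sum_le_sum fun E hE => hK E (Finset.mem_filter.1 hE).2
          _ = ((s.filter (fun E => E₀ ≤ |E|)).card : ℝ≥0∞) * K := by
              rw [Finset.sum_const, nsmul_eq_mul]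
          _ ≤ (N : ℝ≥0∞) * K := by
              gcongr
              exact (Finset.card_filter_le _ _).trans hs1
    _ = (N : ℝ≥0∞) * K := by rw [lintegral_const, measure_univ, mul_one]

/-- the same with the factors exchanged -/
theorem prob_root' {μ₁ : Measure α} {μ₂ : Measure β} [IsProbabilityMeasure μ₂] [SFinite μ₁]
    {q₁ : α → ℝ → ℝ} {q₂ : β → ℝ → ℝ}
    {E₀ : ℝ} {N : ℕ} {K : ℝ≥0∞}
    (hN : ∀ b, ∃ s : Finset ℝ, s.card ≤ N ∧ ∀ E, q₂ b E = 0 → E ∈ s)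
    (hK : ∀ E, E₀ ≤ |E| → μ₁ {a | 0 ≤ q₁ a E} ≤ K)
    (hB : MeasurableSet {p : α × β | ∃ E, E₀ ≤ |E| ∧ q₂ p.2 E = 0 ∧ 0 ≤ q₁ p.1 E}) :
    (μ₁.prod μ₂) {p | ∃ E, E₀ ≤ |E| ∧ q₂ p.2 E = 0 ∧ 0 ≤ q₁ p.1 E} ≤ N * K := by
  have h := prob_root (μ₁ := μ₂) (μ₂ := μ₁) (q₁ := q₂) (q₂ := q₁) (E₀ := E₀) hN hK
    (hB.preimage measurable_swap)
  rw [← Measure.prod_swap, Measure.map_apply measurable_swap hB]
  exact h

/-- the probability that both functions are `≥ 0` at some common point -/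
theorem prob_both {μ₁ : Measure α} {μ₂ : Measure β} [IsProbabilityMeasure μ₁]
    [IsProbabilityMeasure μ₂] {q₁ : α → ℝ → ℝ} {q₂ : β → ℝ → ℝ}
    (hq₁ : Continuous (fun p : α × ℝ => q₁ p.1 p.2))
    (hq₂ : Continuous (fun p : β × ℝ => q₂ p.1 p.2))
    {E₀ : ℝ} (hE₀ : 0 ≤ E₀) {N₁ N₂ : ℕ} {K : ℝ≥0∞}
    (hN₁ : ∀ a, ∃ s : Finset ℝ, s.card ≤ N₁ ∧ ∀ E, q₁ a E = 0 → E ∈ s)
    (hN₂ : ∀ b, ∃ s : Finset ℝ, s.card ≤ N₂ ∧ ∀ E, q₂ b E = 0 → E ∈ s)
    (hK₁ : ∀ E, E₀ ≤ |E| → μ₁ {a | 0 ≤ q₁ a E} ≤ K)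
    (hK₂ : ∀ E, E₀ ≤ |E| → μ₂ {b | 0 ≤ q₂ b E} ≤ K) :
    (μ₁.prod μ₂) {p | ∃ E, E₀ ≤ |E| ∧ 0 ≤ q₁ p.1 E ∧ 0 ≤ q₂ p.2 E} ≤
      ((2 + N₁ + N₂ : ℕ) : ℝ≥0∞) * K := by
  have hI : IsClosed {E : ℝ | E₀ ≤ |E|} := isClosed_le continuous_const continuous_abs
  have g₁ : Continuous (fun p : (α × β) × ℝ => q₁ p.1.1 p.2) :=
    hq₁.comp ((continuous_fst.comp continuous_fst).prodMk continuous_snd)
  have g₂ : Continuous (fun p : (α × β) × ℝ => q₂ p.1.2 p.2) :=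
    hq₂.comp ((continuous_snd.comp continuous_fst).prodMk continuous_snd)
  have hB₁ : MeasurableSet {p : α × β | ∃ E, E₀ ≤ |E| ∧ q₁ p.1 E = 0 ∧ 0 ≤ q₂ p.2 E} := by
    have := measurableSet_exists (α := α) (β := β) hI
      (F := {p | q₁ p.1.1 p.2 = 0} ∩ {p | 0 ≤ q₂ p.1.2 p.2})
      ((isClosed_eq g₁ continuous_const).inter (isClosed_le continuous_const g₂))
    simpa using this
  have hB₂ : MeasurableSet {p : α × β | ∃ E, E₀ ≤ |E| ∧ q₂ p.2 E = 0 ∧ 0 ≤ q₁ p.1 E} := by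
    have := measurableSet_exists (α := α) (β := β) hI
      (F := {p | q₂ p.1.2 p.2 = 0} ∩ {p | 0 ≤ q₁ p.1.1 p.2})
      ((isClosed_eq g₂ continuous_const).inter (isClosed_le continuous_const g₁))
    simpa using this
  have hsub : {p : α × β | ∃ E, E₀ ≤ |E| ∧ 0 ≤ q₁ p.1 E ∧ 0 ≤ q₂ p.2 E} ⊆
      ({a | 0 ≤ q₁ a E₀} ×ˢ Set.univ) ∪ (({a | 0 ≤ q₁ a (-E₀)} ×ˢ Set.univ) ∪
      ({p | ∃ E, E₀ ≤ |E| ∧ q₁ p.1 E = 0 ∧ 0 ≤ q₂ p.2 E} ∪
       {p | ∃ E, E₀ ≤ |E| ∧ q₂ p.2 E = 0 ∧ 0 ≤ q₁ p.1 E})) := by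
    rintro ⟨a, b⟩ ⟨E, e1, e2, e3⟩
    have c₁ : Continuous (q₁ a) := hq₁.comp (Continuous.prodMk continuous_const continuous_id)
    have c₂ : Continuous (q₂ b) := hq₂.comp (Continuous.prodMk continuous_const continuous_id)
    rcases exists_root_abs c₁ c₂ hE₀ e1 e2 e3 with h | h | h | h
    · exact Or.inl ⟨h, trivial⟩
    · exact Or.inr (Or.inl ⟨h, trivial⟩)
    · exact Or.inr (Or.inr (Or.inl h))
    · exact Or.inr (Or.inr (Or.inr h))
  have k1 : (μ₁.prod μ₂) ({a | 0 ≤ q₁ a E₀} ×ˢ Set.univ) ≤ K := by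
    rw [Measure.prod_prod, measure_univ, mul_one]
    exact hK₁ E₀ (le_abs_self _)
  have k2 : (μ₁.prod μ₂) ({a | 0 ≤ q₁ a (-E₀)} ×ˢ Set.univ) ≤ K := by
    rw [Measure.prod_prod, measure_univ, mul_one]
    exact hK₁ (-E₀) (by rw [abs_neg]; exact le_abs_self _)
  have k3 := prob_root (μ₁ := μ₁) (μ₂ := μ₂) hN₁ hK₂ hB₁
  have k4 := prob_root' (μ₁ := μ₁) (μ₂ := μ₂) hN₂ hK₁ hB₂
  calc (μ₁.prod μ₂) {p | ∃ E, E₀ ≤ |E| ∧ 0 ≤ q₁ p.1 E ∧ 0 ≤ q₂ p.2 E}
      ≤ _ := measure_mono hsub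
    _ ≤ K + (K + (N₁ * K + N₂ * K)) := by
        refine (measure_union_le _ _).trans (add_le_add k1 ?_)
        refine (measure_union_le _ _).trans (add_le_add k2 ?_)
        exact (measure_union_le _ _).trans (add_le_add k3 k4)
    _ = ((2 + N₁ + N₂ : ℕ) : ℝ≥0∞) * K := by push_cast; ring

end Abstract

/-! ### the polynomial attached to a box -/

section Poly

open Polynomial

variable {Λ : Finset (Site d)}

/-- `H_Λ` as a function of the potential in `Λ` -/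
def ham (Λ : Finset (Site d)) (a : Λ → ℝ) : Matrix Λ Λ ℝ :=
  Matrix.of fun x y => hop (x : Site d) y + if x = y then a x else 0

theorem HM_eq_ham (V : Site d → ℝ) (Λ : Finset (Site d)) : HM V Λ = ham Λ (fun z => V z) := rfl

/-- `adj(E - H_Λ)_{ij}² - t² det(E - H_Λ)²` -/
def qf (Λ : Finset (Site d)) (i j : Λ) (t : ℝ) (a : Λ → ℝ) (E : ℝ) : ℝ :=
  ((E • (1 : Matrix Λ Λ ℝ) - ham Λ a).adjugate i j) ^ 2 -
    t ^ 2 * ((E • (1 : Matrix Λ Λ ℝ) - ham Λ a).det) ^ 2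

theorem good_iff {V : Site d → ℝ} {E : ℝ} {x y : Site d} (hx : x ∈ Λ) (hy : y ∈ Λ) {t : ℝ}
    (ht : 0 < t) :
    Good V Λ E x y t ↔ qf Λ ⟨x, hx⟩ ⟨y, hy⟩ t (fun z => V z) E < 0 := by
  unfold Good gr qf
  rw [dif_pos ⟨hx, hy⟩]
  have hR : RM V Λ E = E • (1 : Matrix Λ Λ ℝ) - ham Λ (fun z => V z) := rfl
  rw [hR]
  set M := E • (1 : Matrix Λ Λ ℝ) - ham Λ (fun z => V z)
  set A := M.adjugate ⟨x, hx⟩ ⟨y, hy⟩ with hA
  have hinv : M⁻¹ ⟨x, hx⟩ ⟨y, hy⟩ = (M.det)⁻¹ * A := by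
    rw [Matrix.inv_def, Matrix.smul_apply, smul_eq_mul, Ring.inverse_eq_inv']
  rw [hinv]
  constructor
  · rintro ⟨h1, h2⟩
    have h3 : |A| < t * |M.det| := by
      rw [abs_mul, abs_inv, inv_mul_lt_iff₀ (abs_pos.2 h1)] at h2
      linarith [mul_comm t |M.det|]
    have h4 : A ^ 2 < (t * M.det) ^ 2 := by
      rw [sq_lt_sq, abs_mul, abs_of_pos ht]
      exact h3
    nlinarith [h4]
  · intro h
    have h4 : A ^ 2 < (t * M.det) ^ 2 := by nlinarith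
    have h1 : M.det ≠ 0 := by
      intro h0
      rw [h0, mul_zero] at h4
      nlinarith [sq_nonneg A]
    refine ⟨h1, ?_⟩
    rw [sq_lt_sq, abs_mul, abs_of_pos ht] at h4
    rw [abs_mul, abs_inv, inv_mul_lt_iff₀ (abs_pos.2 h1)]
    linarith [mul_comm t |M.det|]

theorem continuous_ham : Continuous (fun a : Λ → ℝ => ham Λ a) := by
  unfold ham
  refine continuous_matrix fun i j => ?_
  by_cases h : i = j
  · simp only [h, if_true, Matrix.of_apply]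
    fun_prop
  · simp only [h, if_false, Matrix.of_apply]
    fun_prop

theorem continuous_qf (i j : Λ) (t : ℝ) :
    Continuous (fun p : (Λ → ℝ) × ℝ => qf Λ i j t p.1 p.2) := by
  unfold qf
  have h1 : Continuous (fun p : (Λ → ℝ) × ℝ => p.2 • (1 : Matrix Λ Λ ℝ) - ham Λ p.1) :=
    (continuous_snd.smul continuous_const).sub (continuous_ham.comp continuous_fst)
  exact ((h1.matrix_adjugate.matrix_elem i j).pow 2).sub
    (continuous_const.mul (h1.matrix_det.pow 2))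

/-- the polynomial in the energy -/
def qp (M : Matrix Λ Λ ℝ) (i j : Λ) (t : ℝ) : ℝ[X] :=
  (M.charmatrix.adjugate i j) ^ 2 - C (t ^ 2) * M.charpoly ^ 2

theorem eval_qp (a : Λ → ℝ) (i j : Λ) (t E : ℝ) :
    (qp (ham Λ a) i j t).eval E = qf Λ i j t a E := by
  have h1 : (ham Λ a).charmatrix.map (evalRingHom E) = E • (1 : Matrix Λ Λ ℝ) - ham Λ a := by
    ext u v
    by_cases h : u = v
    · subst h
      simp [Matrix.charmatrix_apply_eq]
    · simp [Matrix.charmatrix_apply_ne _ _ _ h, Matrix.one_apply_ne h]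
  have h2 : ((ham Λ a).charmatrix.adjugate i j).eval E =
      (E • (1 : Matrix Λ Λ ℝ) - ham Λ a).adjugate i j := by
    rw [← h1, ← RingHom.mapMatrix_apply, ← RingHom.map_adjugate]
    rfl
  have h3 : (ham Λ a).charpoly.eval E = (E • (1 : Matrix Λ Λ ℝ) - ham Λ a).det := by
    rw [← h1, ← RingHom.mapMatrix_apply, ← RingHom.map_det]
    rfl
  unfold qp qf
  rw [eval_sub, eval_mul, eval_pow, eval_pow, eval_C, h2, h3]

theorem natDegree_adj (M : Matrix Λ Λ ℝ) (i j : Λ) :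
    (M.charmatrix.adjugate i j).natDegree ≤ Λ.card ∧
      (M.charmatrix.adjugate i j).coeff Λ.card = 0 := by
  have h : M.charmatrix.adjugate i j =
      ((X : ℝ[X]) • ((1 : Matrix Λ Λ ℝ).updateRow j 0).map C +
        ((-M).updateRow j (Pi.single i 1)).map C).det := by
    rw [Matrix.adjugate_apply]
    congr 1
    ext u v
    by_cases h : u = j
    · subst h
      by_cases hv : v = i
      · subst hv; simp
      · simp [hv]
    · rw [Matrix.updateRow_ne h, Matrix.add_apply, Matrix.smul_apply, Matrix.map_apply,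
        Matrix.map_apply, Matrix.updateRow_ne h, Matrix.updateRow_ne h]
      by_cases huv : u = v
      · subst huv
        simp [Matrix.charmatrix_apply_eq, sub_eq_add_neg]
      · simp [Matrix.charmatrix_apply_ne _ _ _ huv, Matrix.one_apply_ne huv]
  have hc : Fintype.card Λ = Λ.card := Fintype.card_coe Λ
  rw [h]
  constructor
  · have := natDegree_det_X_add_C_le ((1 : Matrix Λ Λ ℝ).updateRow j 0)
      ((-M).updateRow j (Pi.single i 1))
    rwa [hc] at this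
  · have := coeff_det_X_add_C_card ((1 : Matrix Λ Λ ℝ).updateRow j 0)
      ((-M).updateRow j (Pi.single i 1))
    rw [hc] at this
    rw [this]
    apply Matrix.det_eq_zero_of_row_eq_zero j
    intro v
    simp

theorem natDegree_qp (M : Matrix Λ Λ ℝ) (i j : Λ) (t : ℝ) :
    (qp M i j t).natDegree ≤ 2 * Λ.card := by
  obtain ⟨h1, -⟩ := natDegree_adj M i j
  have h2 : M.charpoly.natDegree = Λ.card := by
    rw [Matrix.charpoly_natDegree_eq_dim, Fintype.card_coe]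
  unfold qp
  refine (natDegree_sub_le _ _).trans (max_le ?_ ?_)
  · refine natDegree_pow_le.trans ?_
    omega
  · refine (natDegree_C_mul_le _ _).trans (natDegree_pow_le.trans ?_)
    rw [h2]

theorem qp_ne_zero (M : Matrix Λ Λ ℝ) (i j : Λ) {t : ℝ} (ht : t ≠ 0) : qp M i j t ≠ 0 := by
  obtain ⟨h1, h1'⟩ := natDegree_adj M i j
  have h2 : M.charpoly.natDegree = Λ.card := by
    rw [Matrix.charpoly_natDegree_eq_dim, Fintype.card_coe]
  have h3 : M.charpoly.coeff Λ.card = 1 := by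
    rw [← h2]; exact M.charpoly_monic.coeff_natDegree
  intro h0
  have h4 : (qp M i j t).coeff (2 * Λ.card) = 0 := by rw [h0, coeff_zero]
  unfold qp at h4
  rw [coeff_sub, coeff_C_mul, coeff_pow_of_natDegree_le h1, coeff_pow_of_natDegree_le h2.le,
    h1', h3] at h4
  simp at h4
  exact ht h4

theorem exists_roots (i j : Λ) {t : ℝ} (ht : t ≠ 0) (a : Λ → ℝ) :
    ∃ s : Finset ℝ, s.card ≤ 2 * Λ.card ∧ ∀ E, qf Λ i j t a E = 0 → E ∈ s := by
  refine ⟨(qp (ham Λ a) i j t).roots.toFinset, ?_, ?_⟩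
  · refine (Multiset.toFinset_card_le _).trans ?_
    exact (card_roots' _).trans (natDegree_qp _ _ _ _)
  · intro E hE
    rw [Multiset.mem_toFinset, mem_roots (qp_ne_zero _ i j ht), IsRoot.def, eval_qp, hE]

end Poly

/-! ### probability -/

section Prob

variable {Ω : Type*} [MeasurableSpace Ω] {P : Measure Ω} [IsProbabilityMeasure P]
  {V : Site d → Ω → ℝ} {Λ : Finset (Site d)}

theorem isClosed_qf (i j : Λ) (t E : ℝ) : IsClosed {a : Λ → ℝ | 0 ≤ qf Λ i j t a E} :=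
  isClosed_slice (continuous_qf i j t) E

theorem measurableSet_both {Λ₁ Λ₂ : Finset (Site d)} (i j : Λ₁) (k l : Λ₂) (t E₀ : ℝ) :
    MeasurableSet {p : (Λ₁ → ℝ) × (Λ₂ → ℝ) |
      ∃ E, E₀ ≤ |E| ∧ 0 ≤ qf Λ₁ i j t p.1 E ∧ 0 ≤ qf Λ₂ k l t p.2 E} :=
  measurableSet_exists₂ (continuous_qf i j t) (continuous_qf k l t) E₀

theorem prob_pair (hm : ∀ z, Measurable (V z)) (hind : iIndepFun V P) {Λ₁ Λ₂ : Finset (Site d)}
    (hdis : Disjoint Λ₁ Λ₂) {x u y v : Site d} (hx : x ∈ Λ₁) (hu : u ∈ Λ₁) (hy : y ∈ Λ₂)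
    (hv : v ∈ Λ₂) {t E₀ : ℝ} (ht : 0 < t) (hE₀ : 0 ≤ E₀) {K : ℝ≥0∞}
    (hK₁ : ∀ E, E₀ ≤ |E| → P {ω | ¬ Good (fun z => V z ω) Λ₁ E x u t} ≤ K)
    (hK₂ : ∀ E, E₀ ≤ |E| → P {ω | ¬ Good (fun z => V z ω) Λ₂ E y v t} ≤ K) :
    P {ω | ∃ E, E₀ ≤ |E| ∧ ¬ Good (fun z => V z ω) Λ₁ E x u t ∧
      ¬ Good (fun z => V z ω) Λ₂ E y v t} ≤
      ((2 + 2 * Λ₁.card + 2 * Λ₂.card : ℕ) : ℝ≥0∞) * K := by
  have hfm : Measurable (fun (ω : Ω) (z : Λ₁) => V z ω) := measurable_pi_lambda _ fun z => hm z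
  have hgm : Measurable (fun (ω : Ω) (z : Λ₂) => V z ω) := measurable_pi_lambda _ fun z => hm z
  have hfg := hind.indepFun_finset Λ₁ Λ₂ hdis hm
  have hmap := (indepFun_iff_map_prod_eq_prod_map_map hfm.aemeasurable hgm.aemeasurable).1 hfg
  have i₁ : IsProbabilityMeasure (P.map (fun (ω : Ω) (z : Λ₁) => V z ω)) :=
    Measure.isProbabilityMeasure_map hfm.aemeasurable
  have i₂ : IsProbabilityMeasure (P.map (fun (ω : Ω) (z : Λ₂) => V z ω)) :=
    Measure.isProbabilityMeasure_map hgm.aemeasurable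
  have k₁ : ∀ E, E₀ ≤ |E| →
      (P.map (fun (ω : Ω) (z : Λ₁) => V z ω)) {a | 0 ≤ qf Λ₁ ⟨x, hx⟩ ⟨u, hu⟩ t a E} ≤ K := by
    intro E hE
    rw [Measure.map_apply hfm (isClosed_qf _ _ t E).measurableSet]
    refine (measure_mono ?_).trans (hK₁ E hE)
    intro ω hω hg
    exact absurd ((good_iff hx hu ht).1 hg) (not_lt.2 hω)
  have k₂ : ∀ E, E₀ ≤ |E| →
      (P.map (fun (ω : Ω) (z : Λ₂) => V z ω)) {a | 0 ≤ qf Λ₂ ⟨y, hy⟩ ⟨v, hv⟩ t a E} ≤ K := by
    intro E hE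
    rw [Measure.map_apply hgm (isClosed_qf _ _ t E).measurableSet]
    refine (measure_mono ?_).trans (hK₂ E hE)
    intro ω hω hg
    exact absurd ((good_iff hy hv ht).1 hg) (not_lt.2 hω)
  have hmain := prob_both (q₁ := qf Λ₁ ⟨x, hx⟩ ⟨u, hu⟩ t) (q₂ := qf Λ₂ ⟨y, hy⟩ ⟨v, hv⟩ t)
    (continuous_qf _ _ t) (continuous_qf _ _ t) hE₀
    (exists_roots ⟨x, hx⟩ ⟨u, hu⟩ ht.ne') (exists_roots ⟨y, hy⟩ ⟨v, hv⟩ ht.ne') k₁ k₂
  rw [← hmap, Measure.map_apply (hfm.prodMk hgm) (measurableSet_both _ _ _ _ t E₀)] at hmain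
  refine (measure_mono ?_).trans hmain
  rintro ω ⟨E, e1, e2, e3⟩
  refine ⟨E, e1, ?_, ?_⟩
  · by_contra hc
    exact e2 ((good_iff hx hu ht).2 (not_le.1 hc))
  · by_contra hc
    exact e3 ((good_iff hy hv ht).2 (not_le.1 hc))

/-- the bad event at scale `L` -/
def badEv (V : Site d → Ω → ℝ) (E₀ μ : ℝ) (L : ℕ) : Set Ω :=
  {ω | ∃ n ≤ L ^ 2 + L, ∃ x ∈ box (0 : Site d) (L ^ 2), ∃ y ∈ box (0 : Site d) (L ^ 2),
    x ∈ box (0 : Site d) n ∧ y ∈ box (0 : Site d) n ∧ 2 * L < sd x y ∧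
      ∃ E : ℝ, E₀ ≤ |E| ∧ ¬ GoodBox (fun z => V z ω) n L x E μ ∧
        ¬ GoodBox (fun z => V z ω) n L y E μ}

theorem prob_badEv (hm : ∀ z, Measurable (V z)) (hind : iIndepFun V P) {E₀ C μ : ℝ}
    (hE₀ : 0 < E₀) (h : FixedDecay P V E₀ C μ) (L : ℕ) :
    P (badEv V E₀ μ L) ≤ ENNReal.ofReal
      (6 * 2 ^ (5 * d) * |C| * ((L + 1 : ℕ) ^ (7 * d + 2) * Real.exp (-μ * L))) := by
  classical
  set K : ℝ≥0∞ := ENNReal.ofReal (C * Real.exp (-μ * L)) with hK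
  set A : ℕ → Site d → Site d → Site d → Site d → Set Ω := fun n x y u v =>
    {ω | (x ∈ box (0 : Site d) n ∧ y ∈ box (0 : Site d) n ∧ 2 * L < sd x y ∧
      u ∈ box x L ∩ box 0 n ∧ sd x u = L ∧ v ∈ box y L ∩ box 0 n ∧ sd y v = L) ∧
      ∃ E, E₀ ≤ |E| ∧ ¬ Good (fun z => V z ω) (box x L ∩ box 0 n) E x u (Real.exp (-μ * L)) ∧
        ¬ Good (fun z => V z ω) (box y L ∩ box 0 n) E y v (Real.exp (-μ * L))} with hA
  have hsub : badEv V E₀ μ L ⊆ ⋃ n ∈ Finset.range (L ^ 2 + L + 1),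
      ⋃ x ∈ box (0 : Site d) (L ^ 2), ⋃ y ∈ box (0 : Site d) (L ^ 2),
        ⋃ u ∈ box x L, ⋃ v ∈ box y L, A n x y u v := by
    rintro ω ⟨n, hn, x, hx, y, hy, hxn, hyn, hxy, E, hE, hb1, hb2⟩
    unfold GoodBox at hb1 hb2
    push Not at hb1 hb2
    obtain ⟨u, hu, hu', hu''⟩ := hb1
    obtain ⟨v, hv, hv', hv''⟩ := hb2
    simp only [Set.mem_iUnion, exists_prop]
    refine ⟨n, Finset.mem_range.2 (by omega), x, hx, y, hy, u, (Finset.mem_inter.1 hu).1, v,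
      (Finset.mem_inter.1 hv).1, ⟨hxn, hyn, hxy, hu, hu', hv, hv'⟩, E, hE, hu'', hv''⟩
  have hcard : ∀ (x : Site d) (n : ℕ), (box x L ∩ box 0 n).card ≤ (2 * L + 1) ^ d := by
    intro x n
    rw [← card_box x L]
    exact Finset.card_le_card Finset.inter_subset_left
  have hAb : ∀ n x y u v, P (A n x y u v) ≤ ((2 + 4 * (2 * L + 1) ^ d : ℕ) : ℝ≥0∞) * K := by
    intro n x y u v
    by_cases hc : (x ∈ box (0 : Site d) n ∧ y ∈ box (0 : Site d) n ∧ 2 * L < sd x y ∧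
      u ∈ box x L ∩ box 0 n ∧ sd x u = L ∧ v ∈ box y L ∩ box 0 n ∧ sd y v = L)
    · obtain ⟨hxn, hyn, hxy, hu, hu', hv, hv'⟩ := hc
      have hx1 : x ∈ box x L ∩ box 0 n :=
        Finset.mem_inter.2 ⟨mem_box.2 (by rw [sd_self]; omega), hxn⟩
      have hy1 : y ∈ box y L ∩ box 0 n :=
        Finset.mem_inter.2 ⟨mem_box.2 (by rw [sd_self]; omega), hyn⟩
      have hdis : Disjoint (box x L ∩ box 0 n) (box y L ∩ box 0 n) := by
        rw [Finset.disjoint_left]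
        intro z hz1 hz2
        have z1 := mem_box.1 (Finset.mem_inter.1 hz1).1
        have z2 := mem_box.1 (Finset.mem_inter.1 hz2).1
        have z3 := sd_triangle x z y
        rw [sd_comm z y] at z3
        omega
      have b1 : ∀ E, E₀ ≤ |E| → P {ω | ¬ Good (fun z => V z ω) (box x L ∩ box 0 n) E x u
          (Real.exp (-μ * L))} ≤ K := by
        intro E hE
        have := h (box x L ∩ box 0 n) x u E hx1 hu hE
        rw [hu'] at this
        exact this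
      have b2 : ∀ E, E₀ ≤ |E| → P {ω | ¬ Good (fun z => V z ω) (box y L ∩ box 0 n) E y v
          (Real.exp (-μ * L))} ≤ K := by
        intro E hE
        have := h (box y L ∩ box 0 n) y v E hy1 hv hE
        rw [hv'] at this
        exact this
      have := prob_pair hm hind hdis hx1 hu hy1 hv (Real.exp_pos (-μ * L)) hE₀.le b1 b2
      refine (measure_mono ?_).trans (this.trans ?_)
      · intro ω hω
        exact hω.2
      · refine mul_le_mul' (Nat.cast_le.2 ?_) le_rfl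
        have c1 := hcard x n
        have c2 := hcard y n
        omega
    · have : A n x y u v = ∅ := by
        ext ω
        simp only [hA, Set.mem_ofPred_eq, Set.mem_empty_iff_false, iff_false]
        intro h'
        exact hc h'.1
      rw [this, measure_empty]
      exact bot_le
  have e1 : P (badEv V E₀ μ L) ≤ ((L ^ 2 + L + 1 : ℕ) : ℝ≥0∞) * (((2 * L ^ 2 + 1) ^ d : ℕ) *
      (((2 * L ^ 2 + 1) ^ d : ℕ) * (((2 * L + 1) ^ d : ℕ) * (((2 * L + 1) ^ d : ℕ) *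
        (((2 + 4 * (2 * L + 1) ^ d : ℕ) : ℝ≥0∞) * K))))) := by
    refine (measure_mono hsub).trans ?_
    refine (measure_biUnion_finset_le _ _).trans ?_
    refine (Finset.sum_le_card_nsmul _ _ _ fun n _ => ?_).trans_eq
      (by rw [Finset.card_range, nsmul_eq_mul])
    refine (measure_biUnion_finset_le _ _).trans ?_
    refine (Finset.sum_le_card_nsmul _ _ _ fun x _ => ?_).trans_eq
      (by rw [card_box, nsmul_eq_mul])
    refine (measure_biUnion_finset_le _ _).trans ?_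
    refine (Finset.sum_le_card_nsmul _ _ _ fun y _ => ?_).trans_eq
      (by rw [card_box, nsmul_eq_mul])
    refine (measure_biUnion_finset_le _ _).trans ?_
    refine (Finset.sum_le_card_nsmul _ _ _ fun u _ => ?_).trans_eq
      (by rw [card_box, nsmul_eq_mul])
    refine (measure_biUnion_finset_le _ _).trans ?_
    exact (Finset.sum_le_card_nsmul _ _ _ fun v _ => hAb n x y u v).trans_eq
      (by rw [card_box, nsmul_eq_mul])
  refine e1.trans ?_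
  have hK' : K ≤ ENNReal.ofReal (|C| * Real.exp (-μ * L)) := by
    apply ENNReal.ofReal_le_ofReal
    exact mul_le_mul_of_nonneg_right (le_abs_self C) (Real.exp_pos _).le
  have e2 : ((L ^ 2 + L + 1 : ℕ) : ℝ≥0∞) * (((2 * L ^ 2 + 1) ^ d : ℕ) *
      (((2 * L ^ 2 + 1) ^ d : ℕ) * (((2 * L + 1) ^ d : ℕ) * (((2 * L + 1) ^ d : ℕ) *
        (((2 + 4 * (2 * L + 1) ^ d : ℕ) : ℝ≥0∞) * K))))) ≤
      ((6 * 2 ^ (5 * d) * (L + 1) ^ (7 * d + 2) : ℕ) : ℝ≥0∞) *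
        ENNReal.ofReal (|C| * Real.exp (-μ * L)) := by
    have hnat : (L ^ 2 + L + 1) * ((2 * L ^ 2 + 1) ^ d * ((2 * L ^ 2 + 1) ^ d *
        ((2 * L + 1) ^ d * ((2 * L + 1) ^ d * (2 + 4 * (2 * L + 1) ^ d))))) ≤
        6 * 2 ^ (5 * d) * (L + 1) ^ (7 * d + 2) := by
      have n1 : L ^ 2 + L + 1 ≤ (L + 1) ^ 2 := by nlinarith
      have n2 : (2 * L ^ 2 + 1) ^ d ≤ 2 ^ d * (L + 1) ^ (2 * d) := by
        rw [pow_mul, ← mul_pow]
        exact Nat.pow_le_pow_left (by nlinarith) d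
      have n3 : (2 * L + 1) ^ d ≤ 2 ^ d * (L + 1) ^ d := by
        rw [← mul_pow]
        exact Nat.pow_le_pow_left (by nlinarith) d
      have n4 : 2 + 4 * (2 * L + 1) ^ d ≤ 6 * (2 ^ d * (L + 1) ^ d) := by
        have : 1 ≤ (2 * L + 1) ^ d := Nat.one_le_pow _ _ (by omega)
        omega
      calc _ ≤ (L + 1) ^ 2 * ((2 ^ d * (L + 1) ^ (2 * d)) * ((2 ^ d * (L + 1) ^ (2 * d)) *
          ((2 ^ d * (L + 1) ^ d) * ((2 ^ d * (L + 1) ^ d) * (6 * (2 ^ d * (L + 1) ^ d)))))) := by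
            gcongr
        _ = _ := by ring
    calc _ = (((L ^ 2 + L + 1) * ((2 * L ^ 2 + 1) ^ d * ((2 * L ^ 2 + 1) ^ d *
        ((2 * L + 1) ^ d * ((2 * L + 1) ^ d * (2 + 4 * (2 * L + 1) ^ d))))) : ℕ) : ℝ≥0∞) * K := by
          push_cast; ring
      _ ≤ _ := by gcongr
  refine e2.trans (le_of_eq ?_)
  rw [← ENNReal.ofReal_natCast, ← ENNReal.ofReal_mul (by positivity)]
  congr 1
  push_cast
  ring

/-- Fixed-energy decay in probability implies the two-box property. -/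
theorem twoBox_of_fixedDecay (hm : ∀ z, Measurable (V z)) (hind : iIndepFun V P)
    {E₀ C μ : ℝ} (hE₀ : 0 < E₀) (hμ : 0 < μ) (h : FixedDecay P V E₀ C μ) :
    ∀ᵐ ω ∂P, ∃ L₀, TwoBox (fun z => V z ω) E₀ μ L₀ := by
  have hsum : Summable (fun L : ℕ =>
      6 * 2 ^ (5 * d) * |C| * ((L + 1 : ℕ) ^ (7 * d + 2) * Real.exp (-μ * L))) := by
    apply Summable.mul_left
    have h1 := (summable_nat_add_iff 1).2 (Real.summable_pow_mul_exp_neg_nat_mul (7 * d + 2) hμ)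
    have h2 := h1.mul_left (Real.exp μ)
    refine h2.congr fun L => ?_
    have : Real.exp (-μ * L) = Real.exp μ * Real.exp (-μ * ((L + 1 : ℕ) : ℝ)) := by
      rw [← Real.exp_add]
      congr 1
      push_cast
      ring
    rw [this]
    ring
  have hfin : (∑' L, P (badEv V E₀ μ L)) ≠ ∞ := by
    refine ne_top_of_le_ne_top ?_ (ENNReal.tsum_le_tsum fun L => prob_badEv hm hind hE₀ h L)
    rw [← ENNReal.ofReal_tsum_of_nonneg (fun L => by positivity) hsum]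
    exact ENNReal.ofReal_ne_top
  filter_upwards [ae_eventually_notMem hfin] with ω hω
  obtain ⟨L₀, hL₀⟩ := Filter.eventually_atTop.1 hω
  refine ⟨L₀, ?_⟩
  intro L hL n x hx y hy hxn hyn hxy E hE
  have hnot := hL₀ L hL
  by_contra hcon
  push Not at hcon
  apply hnot
  have hfull : ∀ z ∈ box (0 : Site d) (L ^ 2), box z L ⊆ box (0 : Site d) (L ^ 2 + L) := by
    intro z hz w hw
    rw [mem_box] at *
    have := sd_triangle 0 z w
    omega
  rcases le_total n (L ^ 2 + L) with hn | hn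
  · exact ⟨n, hn, x, hx, y, hy, hxn, hyn, hxy, E, hE, hcon.1, hcon.2⟩
  · have hint : ∀ z ∈ box (0 : Site d) (L ^ 2),
        box z L ∩ box 0 n = box z L ∩ box 0 (L ^ 2 + L) := by
      intro z hz
      rw [Finset.inter_eq_left.2 (hfull z hz),
        Finset.inter_eq_left.2 ((hfull z hz).trans (box_mono 0 hn))]
    refine ⟨L ^ 2 + L, le_rfl, x, hx, y, hy, box_mono 0 (by omega) hx, box_mono 0 (by omega) hy,
      hxy, E, hE, ?_, ?_⟩
    · have := hcon.1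
      unfold GoodBox at *
      rwa [hint x hx] at this
    · have := hcon.2
      unfold GoodBox at *
      rwa [hint y hy] at this

end Prob

end Pool.Agent.Loc
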