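import Pool.Agent.Helper48_Loc.Marg

/-!
# The a-priori bound on the fractional moments of the Green function
-/

set_option autoImplicit false
set_option linter.unusedSectionVars false

open MeasureTheory ProbabilityTheory Function

open scoped ENNReal BigOperators

noncomputable section

namespace Pool.Agent.Loc

open Pool.Agent.Anderson

/-- a probability measure on the line with bounded density -/
def BddDens (ν : Measure ℝ) (ρ : ℝ) : Prop :=
  0 < ρ ∧ ∀ a b : ℝ, ν (Set.Icc a b) ≤ ENNReal.ofReal (ρ * (b - a))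

section Scalar

variable {ν : Measure ℝ} [IsProbabilityMeasure ν] {ρ : ℝ}

theorem section_bound (hν : BddDens ν ρ) {a c g τ s₀ : ℝ} (hg : g ≠ 0) (hc : |g| ≤ |c|)
    (hτ : 0 < τ) : ν {s | τ * |a - (s - s₀) * c| ≤ |g|} ≤ ENNReal.ofReal (ρ * (2 / τ)) := by
  have hg' : 0 < |g| := abs_pos.2 hg
  have hc' : 0 < |c| := hg'.trans_le hc
  have hc0 : c ≠ 0 := abs_pos.1 hc'
  have hsub : {s | τ * |a - (s - s₀) * c| ≤ |g|} ⊆ Set.Icc (s₀ + a / c - 1 / τ) (s₀ + a / c + 1 / τ) := by
    intro s hs
    rw [Set.mem_ofPred_eq] at hs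
    have h1 : a - (s - s₀) * c = (a / c - (s - s₀)) * c := by field_simp
    rw [h1, abs_mul] at hs
    have h2 : τ * |a / c - (s - s₀)| ≤ 1 := by
      by_contra hcon
      push Not at hcon
      have : |c| < τ * |a / c - (s - s₀)| * |c| := by
        calc |c| = 1 * |c| := (one_mul _).symm
          _ < _ := mul_lt_mul_of_pos_right hcon hc'
      nlinarith
    have h3 : |a / c - (s - s₀)| ≤ 1 / τ := by
      rw [le_div_iff₀ hτ]; linarith
    have h4 := abs_le.1 h3
    constructor <;> linarith
  refine (measure_mono hsub).trans ((hν.2 _ _).trans (le_of_eq ?_))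
  congr 2
  ring

/-- the determinant function of a two-site perturbation -/
def D2 (p q g s t : ℝ) : ℝ := (1 - s * p) * (1 - t * q) - s * t * g ^ 2

theorem two_site (hν : BddDens ν ρ) {p q g τ s₀ t₀ : ℝ} (hg : g ≠ 0) (hτ : 0 < τ) :
    (ν.prod ν) {z : ℝ × ℝ | τ * |D2 p q g (z.1 - s₀) (z.2 - t₀)| ≤ |g|} ≤
      ENNReal.ofReal (6 * ρ / τ) := by
  have hg' : 0 < |g| := abs_pos.2 hg
  set Δ : ℝ := p * q - g ^ 2 with hΔ
  set S1 : Set (ℝ × ℝ) := {z | |g| ≤ |p - (z.2 - t₀) * Δ| ∧
    τ * |D2 p q g (z.1 - s₀) (z.2 - t₀)| ≤ |g|} with hS1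
  set S2 : Set (ℝ × ℝ) := {z | |g| ≤ |q - (z.1 - s₀) * Δ| ∧
    τ * |D2 p q g (z.1 - s₀) (z.2 - t₀)| ≤ |g|} with hS2
  set T : Set ℝ := {t | Δ ≠ 0 ∧ |g| - |Δ| / τ ≤ |p - (t - t₀) * Δ| ∧ |p - (t - t₀) * Δ| ≤ |g|} with hT
  have cD : Continuous fun z : ℝ × ℝ => D2 p q g (z.1 - s₀) (z.2 - t₀) := by
    unfold D2; fun_prop
  have cD' : Continuous fun z : ℝ × ℝ => τ * |D2 p q g (z.1 - s₀) (z.2 - t₀)| := by fun_prop
  have mD : IsClosed {z : ℝ × ℝ | τ * |D2 p q g (z.1 - s₀) (z.2 - t₀)| ≤ |g|} :=
    isClosed_le cD' continuous_const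
  have mS1 : MeasurableSet S1 := by
    have h1 : IsClosed {z : ℝ × ℝ | |g| ≤ |p - (z.2 - t₀) * Δ|} :=
      isClosed_le (by fun_prop) (by fun_prop)
    exact (h1.inter mD).measurableSet
  have mS2 : MeasurableSet S2 := by
    have h1 : IsClosed {z : ℝ × ℝ | |g| ≤ |q - (z.1 - s₀) * Δ|} :=
      isClosed_le (by fun_prop) (by fun_prop)
    exact (h1.inter mD).measurableSet
  have hcov : {z : ℝ × ℝ | τ * |D2 p q g (z.1 - s₀) (z.2 - t₀)| ≤ |g|} ⊆
      (S1 ∪ S2) ∪ (Set.univ ×ˢ T) := by
    rintro ⟨s', t'⟩ hz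
    simp only [Set.mem_ofPred_eq] at hz
    by_cases h1 : |g| ≤ |p - (t' - t₀) * Δ|
    · exact Or.inl (Or.inl ⟨h1, hz⟩)
    by_cases h2 : |g| ≤ |q - (s' - s₀) * Δ|
    · exact Or.inl (Or.inr ⟨h2, hz⟩)
    right
    push Not at h1 h2
    refine ⟨Set.mem_univ _, ?_⟩
    set s := s' - s₀ with hs
    set t := t' - t₀ with ht
    have hid : (p - t * Δ) * (q - s * Δ) = g ^ 2 + Δ * D2 p q g s t := by
      simp only [D2, hΔ]; ring
    have hprod : |(p - t * Δ) * (q - s * Δ)| ≤ |p - t * Δ| * |g| := by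
      rw [abs_mul]
      exact mul_le_mul_of_nonneg_left h2.le (abs_nonneg _)
    rw [hid] at hprod
    have h3 : g ^ 2 - |Δ * D2 p q g s t| ≤ |g ^ 2 + Δ * D2 p q g s t| := by
      have := abs_add_le (g ^ 2 + Δ * D2 p q g s t) (-(Δ * D2 p q g s t))
      rw [abs_neg] at this
      have h4 : g ^ 2 + Δ * D2 p q g s t + -(Δ * D2 p q g s t) = g ^ 2 := by ring
      rw [h4, abs_of_nonneg (sq_nonneg g)] at this
      linarith
    have h5 : |g| ^ 2 - |Δ| * |D2 p q g s t| ≤ |p - t * Δ| * |g| := by
      rw [sq_abs, ← abs_mul]; linarith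
    have hΔ0 : Δ ≠ 0 := by
      intro h0
      rw [h0, abs_zero, zero_mul, sub_zero, mul_zero, sub_zero] at h5
      rw [h0, mul_zero, sub_zero] at h1
      nlinarith
    have hD : |D2 p q g s t| ≤ |g| / τ := by
      rw [le_div_iff₀ hτ]; linarith
    have h6 : |Δ| * |D2 p q g s t| ≤ |Δ| / τ * |g| := by
      calc _ ≤ |Δ| * (|g| / τ) := mul_le_mul_of_nonneg_left hD (abs_nonneg _)
        _ = _ := by ring
    refine ⟨hΔ0, ?_, h1.le⟩
    by_contra hcon
    push Not at hcon
    have := mul_lt_mul_of_pos_right hcon hg'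
    nlinarith
  have b1 : (ν.prod ν) S1 ≤ ENNReal.ofReal (ρ * (2 / τ)) := by
    rw [Measure.prod_apply_symm mS1]
    calc _ ≤ ∫⁻ _ : ℝ, ENNReal.ofReal (ρ * (2 / τ)) ∂ν := by
          apply lintegral_mono
          intro t'
          by_cases h1 : |g| ≤ |p - (t' - t₀) * Δ|
          · refine le_trans (measure_mono ?_) (section_bound hν (a := 1 - (t' - t₀) * q)
              (c := p - (t' - t₀) * Δ) (s₀ := s₀) hg h1 hτ)
            intro s' hs'
            have h2 := hs'.2
            simp only [Set.mem_ofPred_eq] at h2 ⊢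
            have e : D2 p q g (s' - s₀) (t' - t₀) =
              1 - (t' - t₀) * q - (s' - s₀) * (p - (t' - t₀) * Δ) := by
              simp only [D2, hΔ]; ring
            rw [e] at h2
            exact h2
          · have : (fun x => (x, t')) ⁻¹' S1 = ∅ := by
              ext s'
              simp only [Set.mem_preimage, hS1, Set.mem_ofPred_eq, Set.mem_empty_iff_false,
                iff_false, not_and]
              intro h; exact absurd h h1
            beta_reduce
            rw [this, measure_empty]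
            exact zero_le
      _ = _ := by simp
  have b2 : (ν.prod ν) S2 ≤ ENNReal.ofReal (ρ * (2 / τ)) := by
    rw [Measure.prod_apply mS2]
    calc _ ≤ ∫⁻ _ : ℝ, ENNReal.ofReal (ρ * (2 / τ)) ∂ν := by
          apply lintegral_mono
          intro s'
          by_cases h1 : |g| ≤ |q - (s' - s₀) * Δ|
          · refine le_trans (measure_mono ?_) (section_bound hν (a := 1 - (s' - s₀) * p)
              (c := q - (s' - s₀) * Δ) (s₀ := t₀) hg h1 hτ)
            intro t' ht'
            have h2 := ht'.2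
            simp only [Set.mem_ofPred_eq] at h2 ⊢
            have e : D2 p q g (s' - s₀) (t' - t₀) =
              1 - (s' - s₀) * p - (t' - t₀) * (q - (s' - s₀) * Δ) := by
              simp only [D2, hΔ]; ring
            rw [e] at h2
            exact h2
          · have : Prod.mk s' ⁻¹' S2 = ∅ := by
              ext t'
              simp only [Set.mem_preimage, hS2, Set.mem_ofPred_eq, Set.mem_empty_iff_false,
                iff_false, not_and]
              intro h; exact absurd h h1
            beta_reduce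
            rw [this, measure_empty]
            exact zero_le
      _ = _ := by simp
  have b3 : (ν.prod ν) (Set.univ ×ˢ T) ≤ ENNReal.ofReal (ρ * (2 / τ)) := by
    rw [Measure.prod_prod, measure_univ, one_mul]
    by_cases hΔ0 : Δ = 0
    · have : T = ∅ := by
        ext t; simp [hT, hΔ0]
      rw [this, measure_empty]; exact zero_le
    have hΔ' : 0 < |Δ| := abs_pos.2 hΔ0
    set r := |g| / |Δ| with hr
    have hsub : T ⊆ Set.Icc (t₀ + p / Δ - r) (t₀ + p / Δ - r + 1 / τ) ∪
        Set.Icc (t₀ + p / Δ + r - 1 / τ) (t₀ + p / Δ + r) := by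
      rintro t ⟨_, h1, h2⟩
      have e : p - (t - t₀) * Δ = (p / Δ - (t - t₀)) * Δ := by field_simp
      rw [e, abs_mul] at h1 h2
      have h3 : |p / Δ - (t - t₀)| ≤ r := by
        rw [hr, le_div_iff₀ hΔ']; exact h2
      have h4 : r - 1 / τ ≤ |p / Δ - (t - t₀)| := by
        by_contra hcon
        push Not at hcon
        have h5 := mul_lt_mul_of_pos_right hcon hΔ'
        have h6 : (r - 1 / τ) * |Δ| = |g| - |Δ| / τ := by
          rw [hr]; field_simp
        rw [h6] at h5
        linarith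
      rcases le_total 0 (p / Δ - (t - t₀)) with h | h
      · rw [abs_of_nonneg h] at h3 h4
        left; constructor <;> linarith
      · rw [abs_of_nonpos h] at h3 h4
        right; constructor <;> linarith
    refine (measure_mono hsub).trans ((measure_union_le _ _).trans ?_)
    refine (add_le_add (hν.2 _ _) (hν.2 _ _)).trans (le_of_eq ?_)
    have hρ := hν.1
    rw [← ENNReal.ofReal_add]
    · congr 1; ring
    · have : t₀ + p / Δ - r + 1 / τ - (t₀ + p / Δ - r) = 1 / τ := by ring
      rw [this]; positivity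
    · have : t₀ + p / Δ + r - (t₀ + p / Δ + r - 1 / τ) = 1 / τ := by ring
      rw [this]; positivity
  have hρ := hν.1
  calc _ ≤ (ν.prod ν) ((S1 ∪ S2) ∪ (Set.univ ×ˢ T)) := measure_mono hcov
    _ ≤ (ν.prod ν) S1 + (ν.prod ν) S2 + (ν.prod ν) (Set.univ ×ˢ T) :=
        (measure_union_le _ _).trans (add_le_add_left (measure_union_le _ _) _)
    _ ≤ ENNReal.ofReal (ρ * (2 / τ)) + ENNReal.ofReal (ρ * (2 / τ)) +
        ENNReal.ofReal (ρ * (2 / τ)) := add_le_add (add_le_add b1 b2) b3
    _ = _ := by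
        rw [← ENNReal.ofReal_add (by positivity) (by positivity),
          ← ENNReal.ofReal_add (by positivity) (by positivity)]
        congr 1; ring

/-- From a weak type bound to the integral of the square root, also on a small event. -/
theorem weak_sqrt {α : Type*} [MeasurableSpace α] {m : Measure α} {f : α → ℝ}
    (hf : Measurable f) {B : Set α} {c : ℝ} (hc : 0 ≤ c)
    (h : ∀ τ : ℝ, 0 < τ → m {a | τ < |f a|} ≤ ENNReal.ofReal (c / τ)) {a : ℝ} (ha : 0 < a) :
    ∫⁻ x in B, ENNReal.ofReal (√|f x|) ∂m ≤ ENNReal.ofReal a * m B + ENNReal.ofReal (c / a) := by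
  rw [lintegral_eq_lintegral_meas_lt _ (Filter.Eventually.of_forall fun x => Real.sqrt_nonneg _)
    (by fun_prop)]
  have hsplit : Set.Ioi (0 : ℝ) = Set.Ioc 0 a ∪ Set.Ioi a := (Set.Ioc_union_Ioi_eq_Ioi ha.le).symm
  rw [hsplit]
  refine (lintegral_union_le _ _ _).trans (add_le_add ?_ ?_)
  · calc _ ≤ ∫⁻ _ in Set.Ioc (0:ℝ) a, m B := by
          apply lintegral_mono
          intro t
          refine (measure_mono (Set.subset_univ _)).trans (le_of_eq ?_)
          rw [Measure.restrict_apply MeasurableSet.univ, Set.univ_inter]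
      _ = _ := by
          rw [setLIntegral_const, Real.volume_Ioc, sub_zero, mul_comm]
  · have h1 : ∀ t ∈ Set.Ioi a, (m.restrict B) {x | t < √|f x|} ≤ ENNReal.ofReal (c * t ^ (-2 : ℝ)) := by
      intro t ht
      have ht0 : 0 < t := ha.trans ht
      refine (Measure.restrict_apply_le _ _).trans ?_
      have h2 : {x | t < √|f x|} ⊆ {x | t ^ 2 < |f x|} := by
        intro x hx
        simp only [Set.mem_ofPred_eq] at hx ⊢
        exact (Real.lt_sqrt ht0.le).1 hx
      refine (measure_mono h2).trans ((h _ (by positivity)).trans (le_of_eq ?_))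
      congr 1
      rw [Real.rpow_neg ht0.le]
      norm_cast
    calc _ ≤ ∫⁻ t in Set.Ioi a, ENNReal.ofReal (c * t ^ (-2 : ℝ)) :=
          setLIntegral_mono (by fun_prop) h1
      _ = ENNReal.ofReal (∫ t in Set.Ioi a, c * t ^ (-2 : ℝ)) := by
          rw [ofReal_integral_eq_lintegral_ofReal]
          · exact (integrableOn_Ioi_rpow_of_lt (by norm_num) ha).const_mul c
          · filter_upwards [ae_restrict_mem measurableSet_Ioi] with t ht
            have ht0 : 0 < t := ha.trans ht
            positivity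
      _ ≤ _ := by
          rw [integral_const_mul, integral_Ioi_rpow_of_lt (by norm_num) ha]
          apply le_of_eq
          congr 1
          rw [show ((-2:ℝ) + 1) = -1 by norm_num, Real.rpow_neg_one]
          field_simp

end Scalar

end Pool.Agent.Loc
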