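import Pool.Agent.Helper48_Loc.Walks

/-!
# A supersolution in three coordinates, and its consequences for the free Green function
-/

set_option autoImplicit false
set_option linter.unusedSectionVars false

open MeasureTheory ProbabilityTheory Function Filter

open scoped ENNReal BigOperators Topology

noncomputable section

namespace Pool.Agent.Loc

open Pool.Agent.Anderson

/-- the upper Taylor polynomial of `(1 + h)^(-1/2)` -/
def PT (h : ℝ) : ℝ := 1 - h / 2 + 3 / 8 * h ^ 2 - 5 / 16 * h ^ 3 + h ^ 4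

theorem inv_sqrt_le {h : ℝ} (hh : -1 / 2 ≤ h) : 1 / √(1 + h) ≤ PT h := by
  obtain ⟨k, hk, rfl⟩ : ∃ k : ℝ, 0 ≤ k ∧ h = k - 1 / 2 := ⟨h + 1 / 2, by linarith only [hh], by ring⟩
  have h1 : 0 < 1 + (k - 1 / 2) := by linarith only [hk]
  have hP : 0 < PT (k - 1 / 2) := by
    unfold PT
    nlinarith only [sq_nonneg (k - 1 / 2), sq_nonneg ((k - 1 / 2) ^ 2 - (k - 1 / 2) / 6),
      sq_nonneg (k - 1), sq_nonneg k]
  have hQ : 1 ≤ (1 + (k - 1 / 2)) * PT (k - 1 / 2) ^ 2 := by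
    have e : (1 + (k - 1 / 2)) * PT (k - 1 / 2) ^ 2 - 1 = (k - 1 / 2) ^ 4 *
        (93 / 64 + 39 / 32 * (k - 1 / 2) - 99 / 256 * (k - 1 / 2) ^ 2 +
          57 / 256 * (k - 1 / 2) ^ 3 + 3 / 8 * (k - 1 / 2) ^ 4 + (k - 1 / 2) ^ 5) := by
      unfold PT; ring
    have hk3 : 0 ≤ k ^ 3 := by positivity
    have e2 : 0 ≤ 93 / 64 + 39 / 32 * (k - 1 / 2) - 99 / 256 * (k - 1 / 2) ^ 2 +
          57 / 256 * (k - 1 / 2) ^ 3 + 3 / 8 * (k - 1 / 2) ^ 4 + (k - 1 / 2) ^ 5 := by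
      nlinarith only [hk3, mul_nonneg hk (sq_nonneg (k - 1)), mul_nonneg hk3 (sq_nonneg (k - 17 / 16)),
        mul_nonneg hk (sq_nonneg k), mul_nonneg hk (sq_nonneg (k - 1 / 2)), hk3]
    have e3 : 0 ≤ (k - 1 / 2) ^ 4 := by positivity
    have := mul_nonneg e3 e2
    linarith only [this, e]
  have hs : 0 < √(1 + (k - 1 / 2)) := Real.sqrt_pos.2 h1
  rw [div_le_iff₀ hs]
  have h2 : 1 ≤ (PT (k - 1 / 2) * √(1 + (k - 1 / 2))) ^ 2 := by
    rw [mul_pow, Real.sq_sqrt h1.le]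
    linarith only [hQ]
  have h3 : 0 ≤ PT (k - 1 / 2) * √(1 + (k - 1 / 2)) := by positivity
  exact (one_le_sq_iff₀ h3).1 h2

/-- a pair of neighbours -/
theorem pair_le {F s : ℝ} (hF : 16 + s ^ 2 ≤ F) :
    1 / √(F + 1 + 2 * s) + 1 / √(F + 1 - 2 * s) ≤
      1 / √F * (2 - 1 / F + 3 / 8 * (2 + 8 * s ^ 2) / F ^ 2 - 5 / 16 * (2 + 24 * s ^ 2) / F ^ 3 +
        (2 + 48 * s ^ 2 + 32 * s ^ 4) / F ^ 4) := by
  have hF0 : 0 < F := by nlinarith only [hF, sq_nonneg s]
  have key : ∀ u : ℝ, u = s ∨ u = -s → 1 / √(F + 1 + 2 * u) ≤ 1 / √F * PT ((1 + 2 * u) / F) := by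
    intro u hu
    have hu2 : u ^ 2 = s ^ 2 := by rcases hu with rfl | rfl <;> ring
    have h1 : -1 / 2 ≤ (1 + 2 * u) / F := by
      rw [le_div_iff₀ hF0]
      nlinarith only [hu2, hF, sq_nonneg (u + 2), sq_nonneg u]
    have h2 : F + 1 + 2 * u = F * (1 + (1 + 2 * u) / F) := by field_simp; ring
    rw [h2, Real.sqrt_mul hF0.le, ← one_div_mul_one_div]
    exact mul_le_mul_of_nonneg_left (inv_sqrt_le h1) (by positivity)
  have h1 := key s (Or.inl rfl)
  have h2 := key (-s) (Or.inr rfl)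
  have e1 : F + 1 + 2 * -s = F + 1 - 2 * s := by ring
  rw [e1] at h2
  refine (add_le_add h1 h2).trans (le_of_eq ?_)
  rw [← mul_add]
  congr 1
  unfold PT
  field_simp
  ring

theorem six_le {F s₁ s₂ s₃ : ℝ} (hF : F = 16 + s₁ ^ 2 + s₂ ^ 2 + s₃ ^ 2) :
    (1 / √(F + 1 + 2 * s₁) + 1 / √(F + 1 - 2 * s₁)) +
      (1 / √(F + 1 + 2 * s₂) + 1 / √(F + 1 - 2 * s₂)) +
      (1 / √(F + 1 + 2 * s₃) + 1 / √(F + 1 - 2 * s₃)) ≤ 1 / √F * (6 - 10 / F ^ 2) := by
  have q1 := sq_nonneg s₁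
  have q2 := sq_nonneg s₂
  have q3 := sq_nonneg s₃
  have hF0 : 16 ≤ F := by linarith only [q3, q2, q1, hF]
  have hFp : 0 < F := by linarith only [q3, q2, q1, hF]
  have h1 := pair_le (F := F) (s := s₁) (by linarith only [q3, q2, hF])
  have h2 := pair_le (F := F) (s := s₂) (by linarith only [q3, q1, hF])
  have h3 := pair_le (F := F) (s := s₃) (by linarith only [q2, q1, hF])
  refine (add_le_add (add_le_add h1 h2) h3).trans ?_
  rw [← mul_add, ← mul_add]
  apply mul_le_mul_of_nonneg_left _ (by positivity)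
  set r := s₁ ^ 2 + s₂ ^ 2 + s₃ ^ 2 with hr
  have hr0 : 0 ≤ r := by linarith only [q3, q2, q1]
  have hFr : F = 16 + r := by rw [hF, hr]; ring
  have h4 : s₁ ^ 4 + s₂ ^ 4 + s₃ ^ 4 ≤ r ^ 2 := by
    rw [hr]
    nlinarith only [mul_nonneg q1 q2, mul_nonneg q1 q3, mul_nonneg q2 q3]
  have h5 : (2 - 1 / F + 3 / 8 * (2 + 8 * s₁ ^ 2) / F ^ 2 - 5 / 16 * (2 + 24 * s₁ ^ 2) / F ^ 3 +
        (2 + 48 * s₁ ^ 2 + 32 * s₁ ^ 4) / F ^ 4) +
      (2 - 1 / F + 3 / 8 * (2 + 8 * s₂ ^ 2) / F ^ 2 - 5 / 16 * (2 + 24 * s₂ ^ 2) / F ^ 3 +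
        (2 + 48 * s₂ ^ 2 + 32 * s₂ ^ 4) / F ^ 4) +
      (2 - 1 / F + 3 / 8 * (2 + 8 * s₃ ^ 2) / F ^ 2 - 5 / 16 * (2 + 24 * s₃ ^ 2) / F ^ 3 +
        (2 + 48 * s₃ ^ 2 + 32 * s₃ ^ 4) / F ^ 4) =
      6 + (-3 * F ^ 3 + 3 / 8 * (6 + 8 * r) * F ^ 2 - 5 / 16 * (6 + 24 * r) * F +
        (6 + 48 * r + 32 * (s₁ ^ 4 + s₂ ^ 4 + s₃ ^ 4))) / F ^ 4 := by
    rw [hr]
    field_simp
    ring
  rw [h5]
  have h6 : (-3 * F ^ 3 + 3 / 8 * (6 + 8 * r) * F ^ 2 - 5 / 16 * (6 + 24 * r) * F +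
        (6 + 48 * r + 32 * (s₁ ^ 4 + s₂ ^ 4 + s₃ ^ 4))) ≤ -10 * F ^ 2 := by
    have h7 : r = F - 16 := by linarith only [hF]
    rw [h7] at h4 ⊢
    nlinarith only [hF, mul_nonneg hr0 hr0]
  have h7 : (-3 * F ^ 3 + 3 / 8 * (6 + 8 * r) * F ^ 2 - 5 / 16 * (6 + 24 * r) * F +
        (6 + 48 * r + 32 * (s₁ ^ 4 + s₂ ^ 4 + s₃ ^ 4))) / F ^ 4 ≤ -(10 / F ^ 2) := by
    rw [div_le_iff₀ (by positivity)]
    refine h6.trans (le_of_eq ?_)
    field_simp
  linarith only [h7]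

variable {d : ℕ}

/-- the supersolution -/
def sup3 (i j k : Fin d) (y : Site d) : ℝ :=
  128 / √(16 + (y i : ℝ) ^ 2 + (y j : ℝ) ^ 2 + (y k : ℝ) ^ 2)

theorem sup3_nonneg (i j k : Fin d) (y : Site d) : 0 ≤ sup3 i j k y := by
  unfold sup3
  positivity

theorem sup3_super {i j k : Fin d} (hij : i ≠ j) (hik : i ≠ k) (hjk : j ≠ k) (y : Site d) :
    (if y = 0 then 1 else 0) ≤ 2 * d * sup3 i j k y - nb (sup3 i j k) y := by
  set F : ℝ := 16 + (y i : ℝ) ^ 2 + (y j : ℝ) ^ 2 + (y k : ℝ) ^ 2 with hF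
  have hF0 : 16 ≤ F := by
    have q1 := sq_nonneg (y i : ℝ)
    have q2 := sq_nonneg (y j : ℝ)
    have q3 := sq_nonneg (y k : ℝ)
    linarith only [q3, q2, q1]
  have hFp : 0 < F := by linarith only [hF0]
  have h1 : 2 * d * sup3 i j k y - nb (sup3 i j k) y =
      ∑ l : Fin d, (2 * sup3 i j k y - (sup3 i j k (y + Pi.single l 1) +
        sup3 i j k (y - Pi.single l 1))) := by
    unfold nb
    rw [Finset.sum_sub_distrib, Finset.sum_const, Finset.card_univ, Fintype.card_fin,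
      nsmul_eq_mul]
    ring
  have h2 : ∑ l : Fin d, (2 * sup3 i j k y - (sup3 i j k (y + Pi.single l 1) +
        sup3 i j k (y - Pi.single l 1))) =
      ∑ l ∈ {i, j, k}, (2 * sup3 i j k y - (sup3 i j k (y + Pi.single l 1) +
        sup3 i j k (y - Pi.single l 1))) := by
    symm
    apply Finset.sum_subset (Finset.subset_univ _)
    intro l _ hl
    simp only [Finset.mem_insert, Finset.mem_singleton, not_or] at hl
    obtain ⟨l1, l2, l3⟩ := hl
    have e1 : sup3 i j k (y + Pi.single l 1) = sup3 i j k y := by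
      unfold sup3
      simp [Ne.symm l1, Ne.symm l2, Ne.symm l3]
    have e2 : sup3 i j k (y - Pi.single l 1) = sup3 i j k y := by
      unfold sup3
      simp [Ne.symm l1, Ne.symm l2, Ne.symm l3]
    rw [e1, e2]
    ring
  have h3 := six_le (F := F) (s₁ := y i) (s₂ := y j) (s₃ := y k) hF
  have p1 : sup3 i j k (y + Pi.single i 1) = 128 * (1 / √(F + 1 + 2 * (y i : ℝ))) := by
    unfold sup3
    have : 16 + ((y + Pi.single i 1 : Site d) i : ℝ) ^ 2 + ((y + Pi.single i 1 : Site d) j : ℝ) ^ 2 +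
        ((y + Pi.single i 1 : Site d) k : ℝ) ^ 2 = F + 1 + 2 * (y i : ℝ) := by
      simp [hij.symm, hik.symm, hF]
      ring
    rw [this]
    ring
  have p2 : sup3 i j k (y - Pi.single i 1) = 128 * (1 / √(F + 1 - 2 * (y i : ℝ))) := by
    unfold sup3
    have : 16 + ((y - Pi.single i 1 : Site d) i : ℝ) ^ 2 + ((y - Pi.single i 1 : Site d) j : ℝ) ^ 2 +
        ((y - Pi.single i 1 : Site d) k : ℝ) ^ 2 = F + 1 - 2 * (y i : ℝ) := by
      simp [hij.symm, hik.symm, hF]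
      ring
    rw [this]
    ring
  have p3 : sup3 i j k (y + Pi.single j 1) = 128 * (1 / √(F + 1 + 2 * (y j : ℝ))) := by
    unfold sup3
    have : 16 + ((y + Pi.single j 1 : Site d) i : ℝ) ^ 2 + ((y + Pi.single j 1 : Site d) j : ℝ) ^ 2 +
        ((y + Pi.single j 1 : Site d) k : ℝ) ^ 2 = F + 1 + 2 * (y j : ℝ) := by
      simp [hij, hjk.symm, hF]
      ring
    rw [this]
    ring
  have p4 : sup3 i j k (y - Pi.single j 1) = 128 * (1 / √(F + 1 - 2 * (y j : ℝ))) := by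
    unfold sup3
    have : 16 + ((y - Pi.single j 1 : Site d) i : ℝ) ^ 2 + ((y - Pi.single j 1 : Site d) j : ℝ) ^ 2 +
        ((y - Pi.single j 1 : Site d) k : ℝ) ^ 2 = F + 1 - 2 * (y j : ℝ) := by
      simp [hij, hjk.symm, hF]
      ring
    rw [this]
    ring
  have p5 : sup3 i j k (y + Pi.single k 1) = 128 * (1 / √(F + 1 + 2 * (y k : ℝ))) := by
    unfold sup3
    have : 16 + ((y + Pi.single k 1 : Site d) i : ℝ) ^ 2 + ((y + Pi.single k 1 : Site d) j : ℝ) ^ 2 +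
        ((y + Pi.single k 1 : Site d) k : ℝ) ^ 2 = F + 1 + 2 * (y k : ℝ) := by
      simp [hik, hjk, hF]
      ring
    rw [this]
    ring
  have p6 : sup3 i j k (y - Pi.single k 1) = 128 * (1 / √(F + 1 - 2 * (y k : ℝ))) := by
    unfold sup3
    have : 16 + ((y - Pi.single k 1 : Site d) i : ℝ) ^ 2 + ((y - Pi.single k 1 : Site d) j : ℝ) ^ 2 +
        ((y - Pi.single k 1 : Site d) k : ℝ) ^ 2 = F + 1 - 2 * (y k : ℝ) := by
      simp [hik, hjk, hF]
      ring
    rw [this]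
    ring
  have p0 : sup3 i j k y = 128 * (1 / √F) := by
    unfold sup3
    rw [← hF]
    ring
  rw [h1, h2, Finset.sum_insert (by simp [hij, hik]), Finset.sum_insert (by simp [hjk]),
    Finset.sum_singleton, p0, p1, p2, p3, p4, p5, p6]
  have h4 : 128 * (1 / √F * (10 / F ^ 2)) ≤ 2 * (128 * (1 / √F)) -
      (128 * (1 / √(F + 1 + 2 * (y i : ℝ))) + 128 * (1 / √(F + 1 - 2 * (y i : ℝ)))) +
      (2 * (128 * (1 / √F)) - (128 * (1 / √(F + 1 + 2 * (y j : ℝ))) +
        128 * (1 / √(F + 1 - 2 * (y j : ℝ)))) +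
      (2 * (128 * (1 / √F)) - (128 * (1 / √(F + 1 + 2 * (y k : ℝ))) +
        128 * (1 / √(F + 1 - 2 * (y k : ℝ)))))) := by
    have := mul_le_mul_of_nonneg_left h3 (show (0:ℝ) ≤ 128 by norm_num)
    linarith only [h3]
  refine le_trans ?_ h4
  split_ifs with h0
  · have hF16 : F = 16 := by
      rw [hF, h0]
      simp
    rw [hF16, show √(16:ℝ) = 4 by
      rw [show (16:ℝ) = 4 ^ 2 by norm_num]; exact Real.sqrt_sq (by norm_num)]
    norm_num
  · positivity

theorem exists_three (hd : 3 ≤ d) (i : Fin d) : ∃ j k : Fin d, i ≠ j ∧ i ≠ k ∧ j ≠ k := by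
  have h1 : 1 < (Finset.univ.erase i).card := by
    rw [Finset.card_erase_of_mem (Finset.mem_univ i), Finset.card_univ, Fintype.card_fin]
    omega
  obtain ⟨j, hj, k, hk, hjk⟩ := Finset.one_lt_card.1 h1
  exact ⟨j, k, (Finset.ne_of_mem_erase hj).symm, (Finset.ne_of_mem_erase hk).symm, hjk⟩

/-- pointwise decay of the free Green function -/
theorem gr_zero_decay (hd : 3 ≤ d) (Λ : Finset (Site d)) {a : ℝ} (ha : 0 < a) (x y : Site d) :
    gr 0 Λ (2 * d + a) x y * (sd x y) ≤ 128 := by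
  haveI : NeZero d := ⟨by omega⟩
  obtain ⟨i, hi⟩ := exists_sd_eq x y
  obtain ⟨j, k, hij, hik, hjk⟩ := exists_three hd i
  have h1 := gr_le_of_lattice_super Λ ha (sup3_nonneg i j k) (sup3_super hij hik hjk) x y
  have h2 : ((sd x y : ℕ) : ℝ) ^ 2 = ((y - x) i : ℝ) ^ 2 := by
    have h3 : ((sd x y : ℤ)) ^ 2 = ((y - x) i) ^ 2 := by
      rw [hi, sq_abs, Pi.sub_apply]
      ring
    exact_mod_cast h3
  have h4 : ((sd x y : ℕ) : ℝ) ≤
      √(16 + ((y - x) i : ℝ) ^ 2 + ((y - x) j : ℝ) ^ 2 + ((y - x) k : ℝ) ^ 2) := by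
    apply Real.le_sqrt_of_sq_le
    rw [h2]
    nlinarith only [sq_nonneg ((y - x) j : ℝ), sq_nonneg ((y - x) k : ℝ)]
  have h5 : 0 < √(16 + ((y - x) i : ℝ) ^ 2 + ((y - x) j : ℝ) ^ 2 + ((y - x) k : ℝ) ^ 2) := by
    positivity
  calc gr 0 Λ (2 * d + a) x y * (sd x y) ≤ sup3 i j k (y - x) *
        √(16 + ((y - x) i : ℝ) ^ 2 + ((y - x) j : ℝ) ^ 2 + ((y - x) k : ℝ) ^ 2) :=
        mul_le_mul h1 h4 (by positivity) (sup3_nonneg _ _ _ _)
    _ = 128 := by
        unfold sup3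
        field_simp

theorem gr_zero_le (hd : 3 ≤ d) (Λ : Finset (Site d)) {a : ℝ} (ha : 0 < a) (x y : Site d) :
    gr 0 Λ (2 * d + a) x y ≤ 32 := by
  obtain ⟨j, k, hij, hik, hjk⟩ := exists_three hd (⟨0, by omega⟩ : Fin d)
  have h1 := gr_le_of_lattice_super Λ ha (sup3_nonneg ⟨0, by omega⟩ j k)
    (sup3_super hij hik hjk) x y
  refine h1.trans ?_
  unfold sup3
  rw [div_le_iff₀ (by positivity)]
  have : (4:ℝ) ≤ √(16 + ((y - x) ⟨0, by omega⟩ : ℝ) ^ 2 + ((y - x) j : ℝ) ^ 2 +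
      ((y - x) k : ℝ) ^ 2) := by
    apply Real.le_sqrt_of_sq_le
    nlinarith only [sq_nonneg ((y - x) ⟨0, by omega⟩ : ℝ), sq_nonneg ((y - x) j : ℝ),
      sq_nonneg ((y - x) k : ℝ)]
  linarith only [this]

theorem summable_walks (hd : 3 ≤ d) :
    Summable fun n : ℕ => (walks n (0 : Site d) : ℝ) / (2 * d) ^ (n + 1) := by
  obtain ⟨j, k, hij, hik, hjk⟩ := exists_three hd (⟨0, by omega⟩ : Fin d)
  have hd0 : (0:ℝ) < d := by
    have : 0 < d := by omega
    exact_mod_cast this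
  apply summable_of_sum_range_le (c := 32)
  · intro n; positivity
  · intro N
    have h1 : ∀ a : ℝ, 0 < a → SW (2 * d + a) 0 N (0 : Site d) ≤ 32 := by
      intro a ha
      refine (SW_le_of_lattice_super ha (sup3_nonneg ⟨0, by omega⟩ j k)
        (sup3_super hij hik hjk) N).trans (le_of_eq ?_)
      unfold sup3
      simp only [Pi.zero_apply, Int.cast_zero]
      rw [show (16 + (0:ℝ) ^ 2 + 0 ^ 2 + 0 ^ 2) = 4 ^ 2 by norm_num, Real.sqrt_sq (by norm_num)]
      norm_num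
    have h2 : Tendsto (fun a : ℝ => SW (2 * d + a) 0 N (0 : Site d)) (𝓝[>] 0)
        (𝓝 (∑ n ∈ Finset.range N, (walks n (0 : Site d) : ℝ) / (2 * d) ^ (n + 1))) := by
      have h3 : ContinuousAt (fun a : ℝ => SW (2 * d + a) 0 N (0 : Site d)) 0 := by
        unfold SW
        apply tendsto_finsetSum
        intro n _
        apply ContinuousAt.div continuousAt_const
        · fun_prop
        · positivity
      have h4 : SW (2 * d + (0:ℝ)) 0 N (0 : Site d) =
          ∑ n ∈ Finset.range N, (walks n (0 : Site d) : ℝ) / (2 * d) ^ (n + 1) := by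
        unfold SW
        rw [add_zero, sub_zero]
      rw [← h4]
      exact h3.tendsto.mono_left nhdsWithin_le_nhds
    refine le_of_tendsto h2 ?_
    filter_upwards [self_mem_nhdsWithin] with a ha using h1 a ha

/-- **(D3)** the free Green function on the diagonal -/
theorem gr_zero_diag (hd : 3 ≤ d) (Λ : Finset (Site d)) {a : ℝ} (ha : 0 < a) (x : Site d) :
    gr 0 Λ (2 * d + a) x x ≤ watson d := by
  have hd0 : (0:ℝ) < d := by
    have : 0 < d := by omega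
    exact_mod_cast this
  have hnn : ∀ n : ℕ, 0 ≤ (walks n (0 : Site d) : ℝ) / (2 * d) ^ (n + 1) := fun n => by positivity
  by_cases hx : x ∈ Λ
  swap
  · unfold gr
    rw [dif_neg (fun h => hx h.1)]
    exact tsum_nonneg hnn
  have h1 : ∀ N : ℕ, gr 0 Λ (2 * d + a) x x ≤ watson d + (2 * d / (2 * d + a)) ^ N / a := by
    intro N
    refine (gr_le_SW Λ ha hx hx N).trans ?_
    have h2 : SW (2 * d + a) x N x ≤
        ∑ n ∈ Finset.range N, (walks n (0 : Site d) : ℝ) / (2 * d) ^ (n + 1) := by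
      unfold SW
      rw [sub_self]
      apply Finset.sum_le_sum
      intro n _
      gcongr
      linarith only [ha]
    have h3 := (summable_walks hd).sum_le_tsum (Finset.range N) fun n _ => hnn n
    unfold watson
    linarith only [h3, h2]
  have h2 : Tendsto (fun N : ℕ => watson d + (2 * d / (2 * d + a)) ^ N / a) atTop
      (𝓝 (watson d + 0 / a)) := by
    apply Tendsto.const_add
    apply Tendsto.div_const
    apply tendsto_pow_atTop_nhds_zero_of_lt_one (by positivity)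
    rw [div_lt_one (by positivity)]
    linarith only [ha]
  rw [zero_div, add_zero] at h2
  exact ge_of_tendsto' h2 h1

/-- **(D5)** the off-diagonal square sum -/
theorem gr_zero_sq (hd : 3 ≤ d) (Λ : Finset (Site d)) {a : ℝ} (ha : 0 < a) (ha1 : a ≤ 1)
    (x : Site d) :
    ∑ y ∈ Λ, gr 0 Λ (2 * d + a) x y ^ 2 ≤ (1024 * 5 ^ d + 128) * a ^ (-1 + 1 / (2 * d : ℝ)) := by
  have hd0 : (0:ℝ) < d := by
    have : 0 < d := by omega
    exact_mod_cast this
  have hd3 : (3:ℝ) ≤ d := by exact_mod_cast hd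
  have hE : 2 * (d:ℝ) < 2 * d + a := by linarith only [ha]
  set η : ℝ := 1 / (2 * d : ℝ) with hη
  have hη0 : 0 < η := by positivity
  have hη1 : η ≤ 1 / 6 := by
    rw [hη]
    apply one_div_le_one_div_of_le (by norm_num)
    linarith only [hd3]
  set R : ℕ := ⌈a ^ (-η)⌉₊ with hR
  have haη : 1 ≤ a ^ (-η) := Real.one_le_rpow_of_pos_of_le_one_of_nonpos ha ha1 (by linarith only [hη0])
  have hR1 : a ^ (-η) ≤ R := Nat.le_ceil _
  have hR2 : (R:ℝ) ≤ 2 * a ^ (-η) := by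
    have := (Nat.ceil_lt_add_one (show 0 ≤ a ^ (-η) by positivity)).le
    rw [← hR] at this
    linarith only [this, haη]
  have hR0 : (0:ℝ) < R := by linarith only [hR1, haη]
  have hnn := fun y => gr_zero_nonneg Λ hE x y
  rw [← Finset.sum_filter_add_sum_filter_not Λ (fun y => sd x y ≤ R)]
  have h1 : ∑ y ∈ Λ with sd x y ≤ R, gr 0 Λ (2 * d + a) x y ^ 2 ≤
      1024 * 5 ^ d * a ^ (-1 + η) := by
    calc ∑ y ∈ Λ with sd x y ≤ R, gr 0 Λ (2 * d + a) x y ^ 2
        ≤ ∑ y ∈ Λ with sd x y ≤ R, (1024 : ℝ) := by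
          apply Finset.sum_le_sum
          intro y _
          have := gr_zero_le hd Λ ha x y
          nlinarith only [this, hnn y]
      _ ≤ ∑ y ∈ box x R, (1024 : ℝ) := by
          apply Finset.sum_le_sum_of_subset_of_nonneg
          · intro y hy
            rw [Finset.mem_filter] at hy
            exact mem_box.2 hy.2
          · intro _ _ _; norm_num
      _ = 1024 * (2 * (R:ℝ) + 1) ^ d := by
          rw [Finset.sum_const, card_box, nsmul_eq_mul]
          push_cast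
          ring
      _ ≤ 1024 * (5 * a ^ (-η)) ^ d := by
          gcongr
          linarith only [hR2, haη]
      _ = 1024 * 5 ^ d * a ^ (-(1 / 2) : ℝ) := by
          rw [mul_pow, ← Real.rpow_natCast (a ^ (-η)) d, ← Real.rpow_mul ha.le, ← mul_assoc]
          congr 2
          rw [hη]
          field_simp
      _ ≤ 1024 * 5 ^ d * a ^ (-1 + η) := by
          apply mul_le_mul_of_nonneg_left _ (by positivity)
          exact Real.rpow_le_rpow_of_exponent_ge ha ha1 (by linarith only [hη1])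
  have h2 : ∑ y ∈ Λ with ¬ sd x y ≤ R, gr 0 Λ (2 * d + a) x y ^ 2 ≤ 128 * a ^ (-1 + η) := by
    calc ∑ y ∈ Λ with ¬ sd x y ≤ R, gr 0 Λ (2 * d + a) x y ^ 2
        ≤ ∑ y ∈ Λ with ¬ sd x y ≤ R, 128 * a ^ η * gr 0 Λ (2 * d + a) x y := by
          apply Finset.sum_le_sum
          intro y hy
          rw [Finset.mem_filter, not_le] at hy
          have h3 := gr_zero_decay hd Λ ha x y
          have h4 : (R:ℝ) ≤ sd x y := by exact_mod_cast hy.2.le
          have h5 : gr 0 Λ (2 * d + a) x y * R ≤ 128 :=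
            (mul_le_mul_of_nonneg_left h4 (hnn y)).trans h3
          have h6 : gr 0 Λ (2 * d + a) x y * a ^ (-η) ≤ 128 :=
            (mul_le_mul_of_nonneg_left hR1 (hnn y)).trans h5
          have h7 : gr 0 Λ (2 * d + a) x y ≤ 128 * a ^ η := by
            rw [Real.rpow_neg ha.le, ← div_eq_mul_inv, div_le_iff₀ (by positivity)] at h6
            exact h6
          rw [sq]
          exact mul_le_mul_of_nonneg_right h7 (hnn y)
      _ ≤ ∑ y ∈ Λ, 128 * a ^ η * gr 0 Λ (2 * d + a) x y := by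
          apply Finset.sum_le_sum_of_subset_of_nonneg (Finset.filter_subset _ _)
          intro y _ _
          have := hnn y
          positivity
      _ = 128 * a ^ η * ∑ y ∈ Λ, gr 0 Λ (2 * d + a) x y := by rw [Finset.mul_sum]
      _ ≤ 128 * a ^ η * (1 / a) := by
          apply mul_le_mul_of_nonneg_left (sum_gr_zero_le Λ ha x) (by positivity)
      _ = 128 * a ^ (-1 + η) := by
          rw [Real.rpow_add ha, Real.rpow_neg_one]
          field_simp
  linarith only [h2, h1]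

theorem watson_pos (hd : 3 ≤ d) : 0 < watson d := by
  have hd0 : (0:ℝ) < d := by
    have : 0 < d := by omega
    exact_mod_cast this
  have h1 := (summable_walks hd).le_tsum 0 (fun n _ => by positivity)
  have h2 : (walks 0 (0 : Site d) : ℝ) / (2 * d) ^ (0 + 1) = 1 / (2 * d) := by
    rw [walks_zero, if_pos rfl]
    simp
  rw [h2] at h1
  exact lt_of_lt_of_le (by positivity) h1

end Pool.Agent.Loc
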