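import Pool.Agent.Helper48_Loc.FM

/-!
# Transfer to an arbitrary probability space
-/

set_option autoImplicit false
set_option linter.unusedSectionVars false

open MeasureTheory ProbabilityTheory Function

open scoped ENNReal BigOperators

noncomputable section

namespace Pool.Agent.Loc

open Pool.Agent.Anderson

variable {d : ℕ} {ν : Measure ℝ} [IsProbabilityMeasure ν] {ρ : ℝ}
  {Ω : Type*} [MeasurableSpace Ω] {P : Measure Ω} [IsProbabilityMeasure P]
  {V : Site d → Ω → ℝ}

theorem transfer (hm : ∀ z, Measurable (V z)) (hlaw : ∀ z, P.map (V z) = ν)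
    (hind : iIndepFun V P) {Λ : Finset (Site d)} {S : Set (Site d → ℝ)} (hS : MeasurableSet S)
    (h : ∀ W W' : Site d → ℝ, (∀ x ∈ Λ, W x = W' x) → (W ∈ S ↔ W' ∈ S)) :
    P {ω | (fun z => V z ω) ∈ S} = PL ν Λ S := by
  have hind' : iIndepFun (fun z : Λ => V z) P := hind.precomp Subtype.val_injective
  have h1 : P.map (fun ω (z : Λ) => V z ω) = Measure.pi fun _ : Λ => ν := by
    rw [(iIndepFun_iff_map_fun_eq_pi_map (fun z : Λ => (hm z).aemeasurable)).1 hind']
    congr 1
    funext z
    exact hlaw z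
  have hmr : Measurable fun ω (z : Λ) => V z ω := measurable_pi_iff.2 fun z => hm z
  have hmu : Measurable (updateFinset (0 : Site d → ℝ) Λ) := measurable_updateFinset
  unfold PL
  rw [← h1, Measure.map_apply hmu hS, Measure.map_apply hmr (hmu hS)]
  congr 1
  ext ω
  simp only [Set.mem_ofPred_eq, Set.mem_preimage, Function.comp]
  apply h
  intro x hx
  simp [updateFinset, hx]

theorem measurableSet_not_good (Λ : Finset (Site d)) (E : ℝ) (x y : Site d) (t : ℝ) :
    MeasurableSet {V : Site d → ℝ | ¬ Good V Λ E x y t} := by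
  have h1 : MeasurableSet {V : Site d → ℝ | (RM V Λ E).det = 0} :=
    (isClosed_singleton.preimage (continuous_det Λ E)).measurableSet
  have h2 : MeasurableSet {V : Site d → ℝ | |gr V Λ E x y| < t} :=
    measurableSet_lt (measurable_gr Λ E x y).abs measurable_const
  have : {V : Site d → ℝ | Good V Λ E x y t} = {V | (RM V Λ E).det = 0}ᶜ ∩
      {V | |gr V Λ E x y| < t} := by
    ext V; simp [Good]
  have h3 : MeasurableSet {V : Site d → ℝ | Good V Λ E x y t} := by
    rw [this]; exact h1.compl.inter h2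
  exact h3.compl

theorem good_congr {W W' : Site d → ℝ} {Λ : Finset (Site d)} (h : ∀ x ∈ Λ, W x = W' x)
    (E : ℝ) (x y : Site d) (t : ℝ) : Good W Λ E x y t ↔ Good W' Λ E x y t := by
  unfold Good
  rw [RM_congr h, gr_congr h]

/-- The initial scale estimate implies exponential decay in probability at all scales. -/
theorem fixedDecay_of_init (hν : BddDens ν ρ) (hm : ∀ z, Measurable (V z))
    (hlaw : ∀ z, P.map (V z) = ν) (hind : iIndepFun V P) {L : ℕ} {ε E₀ : ℝ} (hε : 0 ≤ ε)
    (hinit : ∀ E : ℝ, E₀ ≤ |E| → InitScale d ν L ε E)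
    (hK : 2 * d * ((2 * L + 5) ^ d) ^ 4 * (ε * (2 * √(6 * ρ))) ≤ Real.exp (-1)) :
    FixedDecay P V E₀ (2 * √(6 * ρ) * Real.exp 1) (2 / (3 * (L + 2))) := by
  intro Λ x y E hx hy hE
  have h1 := prob_decay hν hε (hinit E hE) hK Λ hx hy
  have h2 := transfer (Λ := Λ) hm hlaw hind
    (measurableSet_not_good Λ E x y (Real.exp (-(2 / (3 * (L + 2))) * sd x y)))
    (fun W W' hW => not_congr (good_congr hW E x y _))
  rw [← h2] at h1
  exact h1

end Pool.Agent.Loc
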