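import Pool.Agent.Helper48_Loc.Params
import Pool.Agent.Helper48_Loc.Super
import Pool.Agent.Helper48_Loc.Transfer
import Pool.Agent.Helper48_Loc.TwoBox

/-!
# Assembly: the two-box property for the Gaussian Anderson model, for all `σ ≠ 0`
-/

set_option autoImplicit false
set_option linter.unusedSectionVars false

open MeasureTheory ProbabilityTheory Function Filter

open scoped ENNReal BigOperators NNReal Topology

noncomputable section

namespace Pool.Agent.Loc

open Pool.Agent.Anderson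

variable {d : ℕ}

/-- fixed energy decay for all `σ ≠ 0`, above the threshold
`2d + G_d σ² + C |σ|^(2 + 1/(24 d))` -/
theorem fixedDecay_gauss (hd : 3 ≤ d) :
    ∃ C : ℝ, 0 < C ∧ ∀ σ : ℝ, σ ≠ 0 → ∃ K m : ℝ, 0 < m ∧
      ∀ {Ω : Type*} [MeasurableSpace Ω] (P : Measure Ω) [IsProbabilityMeasure P]
        (ξ : Site d → Ω → ℝ), (∀ y, Measurable (ξ y)) →
        (∀ y, P.map (ξ y) = gaussianReal 0 1) → iIndepFun ξ P →
        FixedDecay P (fun y ω => σ * ξ y ω)
          (2 * d + watson d * σ ^ 2 + C * |σ| ^ (2 + 1 / (24 * d : ℝ))) K m := by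
  have hd0 : (0:ℝ) < d := by
    have : 0 < d := by omega
    exact_mod_cast this
  have hd3 : (3:ℝ) ≤ d := by exact_mod_cast hd
  obtain ⟨C, hC, h⟩ := init_all (d := d) (by omega) (watson_pos hd)
    (C₅ := 1024 * 5 ^ d + 128) (η := 1 / (2 * d : ℝ)) (by positivity) (by positivity)
    (by
      rw [div_le_one (by positivity)]
      linarith)
    (fun Λ a x ha => gr_zero_diag hd Λ ha x)
    (fun Λ a x ha ha1 => gr_zero_sq hd Λ ha ha1 x)
  have hexp : 1 / (2 * d : ℝ) / 12 = 1 / (24 * d : ℝ) := by field_simp; norm_num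
  rw [hexp] at h
  refine ⟨C, hC, fun σ hσ => ?_⟩
  obtain ⟨L, ε, hε, hinit, hnum⟩ := h σ hσ
  refine ⟨2 * √(6 * (1 / |σ|)) * Real.exp 1, 2 / (3 * (L + 2)), by positivity, ?_⟩
  intro Ω _ P _ ξ hm hlaw hind
  refine fixedDecay_of_init (ν := gl σ) (bddDens_gl hσ) (fun z => (hm z).const_mul σ) ?_ ?_ hε
    hinit hnum
  · intro z
    unfold gl γ1
    rw [← hlaw z, Measure.map_map (by fun_prop) (hm z)]
    rfl
  · exact hind.comp (fun _ t => σ * t) fun _ => by fun_prop

end Pool.Agent.Loc
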