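import Pool.Agent.Helper48_Loc.Defs

/-!
# Expansion of a solution of the eigenvalue equation in a good box
-/

set_option autoImplicit false

open MeasureTheory ProbabilityTheory

open scoped ENNReal BigOperators

noncomputable section

namespace Pool.Agent.Loc

open Pool.Agent.Anderson

variable {d : ℕ}

theorem lap_add (f g : Site d → ℂ) (x : Site d) :
    lap (fun y => f y + g y) x = lap f x + lap g x := by
  unfold lap
  rw [← Finset.sum_add_distrib]
  apply Finset.sum_congr rfl
  intro i _
  ring

theorem norm_lap_le {f : Site d → ℂ} {x : Site d} {M : ℝ} (h : ∀ y ∈ box x 1, ‖f y‖ ≤ M) :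
    ‖lap f x‖ ≤ 2 * d * M := by
  unfold lap
  calc _ ≤ ∑ i : Fin d, ‖f (x + Pi.single i 1) + f (x - Pi.single i 1)‖ := norm_sum_le _ _
    _ ≤ ∑ _i : Fin d, (M + M) := by
        apply Finset.sum_le_sum
        intro i _
        exact (norm_add_le _ _).trans (add_le_add (h _ (mem_box.2 (sd_add_single_le x i)))
          (h _ (mem_box.2 (sd_sub_single_le x i))))
    _ = 2 * d * M := by simp; ring

theorem lap_indicator (ψ : Site d → ℂ) (W : Finset (Site d)) (u : Site d) :
    lap (fun y => if y ∈ W then ψ y else 0) u = ∑ y ∈ W, (hop u y : ℂ) * ψ y := by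
  rw [lap_eq_sum _ u (box u 1 ∪ W) Finset.subset_union_left]
  rw [← Finset.sum_subset (Finset.subset_union_right (s₁ := box u 1) (s₂ := W))]
  · apply Finset.sum_congr rfl
    intro y hy
    rw [if_pos hy]
  · intro y _ hy
    rw [if_neg hy, mul_zero]

/-- If `ψ` solves the eigenvalue equation in `W`, then in `W` it is given by the resolvent of
`H_W` and the values of `ψ` outside `W`. -/
theorem eig_expand {V : Site d → ℝ} {W : Finset (Site d)} {E : ℝ}
    (hdet : (RM V W E).det ≠ 0) {ψ : Site d → ℂ}
    (hψ : ∀ x ∈ W, lap ψ x + (V x : ℂ) * ψ x = (E : ℂ) * ψ x) {x : Site d} (hx : x ∈ W) :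
    ψ x = ∑ u ∈ W, (gr V W E x u : ℂ) * lap (fun y => if y ∈ W then 0 else ψ y) u := by
  have h1 : ∀ u : W, lap (fun y => if y ∈ W then 0 else ψ y) u =
      ∑ y : W, (RM V W E u y : ℂ) * ψ y := by
    intro u
    have e1 : lap ψ u = lap (fun y => if y ∈ W then ψ y else 0) u +
        lap (fun y => if y ∈ W then 0 else ψ y) u := by
      rw [← lap_add]
      congr 1
      funext y
      by_cases hy : y ∈ W <;> simp [hy]
    have e2 := hψ u u.2
    rw [e1, lap_indicator] at e2
    have e3 : ∑ y : W, (RM V W E u y : ℂ) * ψ y = (E : ℂ) * ψ u -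
        (∑ y ∈ W, (hop (u : Site d) y : ℂ) * ψ y + (V u : ℂ) * ψ u) := by
      rw [← Finset.sum_coe_sort W (fun y => (hop (u : Site d) y : ℂ) * ψ y)]
      simp only [RM, HM, Matrix.sub_apply, Matrix.smul_apply, Matrix.of_apply, smul_eq_mul,
        Matrix.one_apply]
      have e4 : ∀ y : W, ((E * (if u = y then 1 else 0) - (hop (u : Site d) y +
          if u = y then V u else 0) : ℝ) : ℂ) * ψ y =
          (if u = y then (E : ℂ) * ψ u else 0) - ((hop (u : Site d) y : ℂ) * ψ y +
            (if u = y then (V u : ℂ) * ψ u else 0)) := by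
        intro y
        by_cases h : u = y
        · subst h; simp; ring
        · simp [h]
      simp_rw [e4]
      rw [Finset.sum_sub_distrib, Finset.sum_add_distrib]
      simp
    rw [e3, ← e2]
    ring
  have h2 : (RM V W E)⁻¹ * RM V W E = 1 :=
    Matrix.nonsing_inv_mul _ (isUnit_iff_ne_zero.2 hdet)
  rw [← Finset.sum_coe_sort W (fun u => (gr V W E x u : ℂ) *
    lap (fun y => if y ∈ W then 0 else ψ y) u)]
  simp_rw [h1, Finset.mul_sum]
  rw [Finset.sum_comm]
  have h3 : ∀ y : W, ∑ u : W, (gr V W E x u : ℂ) * ((RM V W E u y : ℂ) * ψ y) =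
      (if (⟨x, hx⟩ : W) = y then ψ x else 0) := by
    intro y
    have e1 : ∑ u : W, gr V W E x u * RM V W E u y = if (⟨x, hx⟩ : W) = y then 1 else 0 := by
      have := congrFun (congrFun h2 ⟨x, hx⟩) y
      rw [Matrix.mul_apply, Matrix.one_apply] at this
      rw [← this]
      apply Finset.sum_congr rfl
      intro u _
      congr 1
      unfold gr
      rw [dif_pos ⟨hx, u.2⟩]
    calc _ = ((∑ u : W, gr V W E x u * RM V W E u y : ℝ) : ℂ) * ψ y := by
          push_cast
          rw [Finset.sum_mul]
          apply Finset.sum_congr rfl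
          intro u _
          ring
      _ = _ := by
          rw [e1]
          by_cases h : (⟨x, hx⟩ : W) = y
          · rw [← h]; simp
          · simp [h]
  simp_rw [h3]
  simp

/-- The value at the centre of a good box of a solution of the eigenvalue equation. In finite
volume `box 0 n` the solution is extended by zero. -/
theorem goodBox_bound {V : Site d → ℝ} {n L : ℕ} {x : Site d} {E μ : ℝ}
    (hg : GoodBox V n L x E μ) (hx : x ∈ box (0 : Site d) n)
    (hne : ∃ u ∈ box x L ∩ box 0 n, sd x u = L) {ψ : Site d → ℂ}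
    (hψ : ∀ y ∈ box x L ∩ box 0 n, lap ψ y + (V y : ℂ) * ψ y = (E : ℂ) * ψ y)
    (hψ0 : ∀ y ∈ box x L, y ∉ box (0 : Site d) n → ψ y = 0)
    {M : ℝ} (hM : ∀ y ∈ box x (L + 1), ‖ψ y‖ ≤ M) :
    ‖ψ x‖ ≤ 2 * d * (2 * L + 1) ^ d * Real.exp (-μ * L) * M := by
  set W := box x L ∩ box (0 : Site d) n with hW
  obtain ⟨u₀, hu₀, hu₀L⟩ := hne
  have hdet := (hg u₀ hu₀ hu₀L).1
  have hxW : x ∈ W := by
    rw [hW, Finset.mem_inter]
    refine ⟨?_, hx⟩
    rw [mem_box, sd_self]
    omega
  have hM0 : 0 ≤ M := (norm_nonneg _).trans (hM x (by rw [mem_box, sd_self]; omega))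
  rw [eig_expand hdet hψ hxW]
  have key : ∀ u ∈ W, ‖(gr V W E x u : ℂ) * lap (fun y => if y ∈ W then 0 else ψ y) u‖ ≤
      Real.exp (-μ * L) * (2 * d * M) := by
    intro u hu
    have huL : sd x u ≤ L := by
      rw [hW, Finset.mem_inter, mem_box] at hu
      exact hu.1
    rcases Nat.lt_or_ge (sd x u) L with h | h
    · have h0 : lap (fun y => if y ∈ W then 0 else ψ y) u = 0 := by
        have hz : ∀ y ∈ box u 1, (if y ∈ W then 0 else ψ y) = 0 := by
          intro y hy
          by_cases hyW : y ∈ W
          · rw [if_pos hyW]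
          · rw [if_neg hyW]
            have hyL : y ∈ box x L := by
              rw [mem_box] at *
              have := sd_triangle x u y
              omega
            apply hψ0 y hyL
            intro hyn
            exact hyW (by rw [hW, Finset.mem_inter]; exact ⟨hyL, hyn⟩)
        unfold lap
        apply Finset.sum_eq_zero
        intro i _
        beta_reduce
        rw [hz _ (mem_box.2 (sd_add_single_le u i)), hz _ (mem_box.2 (sd_sub_single_le u i)),
          add_zero]
      rw [h0, mul_zero, norm_zero]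
      positivity
    · have huL' : sd x u = L := le_antisymm huL h
      rw [norm_mul]
      apply mul_le_mul _ _ (norm_nonneg _) (Real.exp_pos _).le
      · rw [Complex.norm_real]
        exact (hg u hu huL').2.le
      · apply norm_lap_le
        intro y hy
        by_cases hyW : y ∈ W
        · rw [if_pos hyW, norm_zero]; exact hM0
        · rw [if_neg hyW]
          apply hM
          rw [mem_box] at *
          have := sd_triangle x u y
          omega
  calc _ ≤ ∑ u ∈ W, ‖(gr V W E x u : ℂ) * lap (fun y => if y ∈ W then 0 else ψ y) u‖ :=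
        norm_sum_le _ _
    _ ≤ ∑ _u ∈ W, Real.exp (-μ * L) * (2 * d * M) := Finset.sum_le_sum key
    _ = W.card * (Real.exp (-μ * L) * (2 * d * M)) := by
        rw [Finset.sum_const, nsmul_eq_mul]
    _ ≤ ((2 * L + 1) ^ d) * (Real.exp (-μ * L) * (2 * d * M)) := by
        apply mul_le_mul_of_nonneg_right _ (by positivity)
        have h1 : W.card ≤ (box x L).card := Finset.card_le_card Finset.inter_subset_left
        rw [card_box] at h1
        exact_mod_cast h1
    _ = _ := by ring

/-- From a point of the cube `box 0 n` at distance more than `L` from another point of the cube,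
one can go at distance exactly `L` without leaving the cube. -/
theorem exists_sd_eq_of_lt {n L : ℕ} {x y : Site d} (hx : x ∈ box (0 : Site d) n)
    (hy : y ∈ box (0 : Site d) n) (h : L < sd x y) :
    ∃ u ∈ box x L ∩ box (0 : Site d) n, sd x u = L := by
  rcases Nat.eq_zero_or_pos d with hd | hd
  · subst hd
    exfalso
    unfold sd at h
    simp at h
  have hne : NeZero d := ⟨by omega⟩
  obtain ⟨i, hi⟩ := exists_sd_eq x y
  have hx' := sd_le_iff.1 (mem_box.1 hx)
  have hy' := sd_le_iff.1 (mem_box.1 hy)
  have hxi := abs_le.1 (hx' i)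
  have hyi := abs_le.1 (hy' i)
  simp only [Pi.zero_apply] at hxi hyi
  have hL : (L : ℤ) < |x i - y i| := by rw [← hi]; exact_mod_cast h
  have key : ∀ c : ℤ, |c| = L → (-(n : ℤ) ≤ x i + c ∧ x i + c ≤ n) →
      ∃ u ∈ box x L ∩ box (0 : Site d) n, sd x u = L := by
    intro c hc hcn
    obtain ⟨u, hui, huj⟩ : ∃ u : Site d, u i = x i + c ∧ ∀ j, j ≠ i → u j = x j :=
      ⟨Function.update x i (x i + c), by simp, fun j hj => by simp [hj]⟩
    have hsd : sd x u = L := by
      apply le_antisymm
      · rw [sd_le_iff]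
        intro j
        by_cases hj : j = i
        · rw [hj, hui, sub_add_cancel_left, abs_neg, hc]
        · rw [huj j hj, sub_self, abs_zero]
          omega
      · have h1 := sd_le_iff.1 (le_refl (sd x u)) i
        rw [hui, sub_add_cancel_left, abs_neg, hc] at h1
        exact_mod_cast h1
    refine ⟨u, ?_, hsd⟩
    rw [Finset.mem_inter, mem_box, mem_box]
    refine ⟨hsd.le, ?_⟩
    rw [sd_le_iff]
    intro j
    by_cases hj : j = i
    · rw [hj, hui, Pi.zero_apply, zero_sub, abs_neg, abs_le]
      exact hcn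
    · rw [huj j hj]
      exact hx' j
  rcases le_total (x i) (y i) with hxy | hxy
  · rw [abs_of_nonpos (by omega)] at hL
    exact key L (by simp) ⟨by omega, by omega⟩
  · rw [abs_of_nonneg (by omega)] at hL
    exact key (-L) (by simp) ⟨by omega, by omega⟩

end Pool.Agent.Loc
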