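import Pool.Agent.Helper48_Loc.Geom

/-!
# Quadratic forms, staggering, and the Combes-Thomas bound
-/

set_option autoImplicit false
set_option linter.unusedSectionVars false

open MeasureTheory ProbabilityTheory Function

open scoped ENNReal BigOperators

noncomputable section

namespace Pool.Agent.Loc

open Pool.Agent.Anderson

variable {d : ℕ}

/-- the quadratic form of `E - H_Λ` -/
def qform (V : Site d → ℝ) (Λ : Finset (Site d)) (E : ℝ) (u : Site d → ℝ) : ℝ :=
  ∑ y ∈ Λ, ∑ z ∈ Λ, u y * rm V E y z * u z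

/-- the quadratic form of the hopping -/
def hf (Λ : Finset (Site d)) (u : Site d → ℝ) : ℝ :=
  ∑ y ∈ Λ, ∑ z ∈ Λ, u y * hop y z * u z

theorem qform_eq_dot (V : Site d → ℝ) (Λ : Finset (Site d)) (E : ℝ) (u : Site d → ℝ) :
    qform V Λ E u = (fun z : Λ => u z) ⬝ᵥ (RM V Λ E).mulVec (fun z : Λ => u z) := by
  unfold qform dotProduct Matrix.mulVec dotProduct
  rw [← Finset.sum_coe_sort Λ (fun y => ∑ z ∈ Λ, u y * rm V E y z * u z)]
  apply Finset.sum_congr rfl
  intro y _
  rw [← Finset.sum_coe_sort Λ (fun z => u y * rm V E y z * u z), Finset.mul_sum]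
  apply Finset.sum_congr rfl
  intro z _
  change u y * rm V E y z * u z = u y * (RM V Λ E y z * u z)
  rw [RM_apply]
  ring

theorem qform_eq (V : Site d → ℝ) (Λ : Finset (Site d)) (E : ℝ) (u : Site d → ℝ) :
    qform V Λ E u = E * ∑ y ∈ Λ, u y ^ 2 - ∑ y ∈ Λ, V y * u y ^ 2 - hf Λ u := by
  unfold qform hf rm
  rw [Finset.mul_sum, ← Finset.sum_sub_distrib, ← Finset.sum_sub_distrib]
  apply Finset.sum_congr rfl
  intro y hy
  have h1 : ∀ z, u y * ((if y = z then E - V y else 0) - hop y z) * u z =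
      (if y = z then (E - V y) * u y * u z else 0) - u y * hop y z * u z := by
    intro z
    split_ifs <;> ring
  simp_rw [h1]
  rw [Finset.sum_sub_distrib, Finset.sum_ite_eq, if_pos hy]
  ring

/-- Schur's test for kernels dominated by the hopping -/
theorem schur (Λ : Finset (Site d)) (u : Site d → ℝ) {k : Site d → Site d → ℝ} {c : ℝ}
    (hc : 0 ≤ c) (hk : ∀ y z, |k y z| ≤ c * hop y z) :
    |∑ y ∈ Λ, ∑ z ∈ Λ, u y * k y z * u z| ≤ c * (2 * d) * ∑ y ∈ Λ, u y ^ 2 := by
  have h1 : ∀ y z, |u y * k y z * u z| ≤ c / 2 * (hop y z * u y ^ 2) +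
      c / 2 * (hop y z * u z ^ 2) := by
    intro y z
    rw [abs_mul, abs_mul]
    have h2 := hk y z
    have h3 := hop_nonneg y z
    have h4 : |u y| * |u z| ≤ (u y ^ 2 + u z ^ 2) / 2 := by
      have := two_mul_le_add_sq |u y| |u z|
      rw [sq_abs, sq_abs] at this
      linarith only [this]
    calc |u y| * |k y z| * |u z| = |k y z| * (|u y| * |u z|) := by ring
      _ ≤ (c * hop y z) * ((u y ^ 2 + u z ^ 2) / 2) := by gcongr
      _ = _ := by ring
  calc |∑ y ∈ Λ, ∑ z ∈ Λ, u y * k y z * u z|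
      ≤ ∑ y ∈ Λ, ∑ z ∈ Λ, |u y * k y z * u z| :=
        (Finset.abs_sum_le_sum_abs _ _).trans (Finset.sum_le_sum fun y _ =>
          Finset.abs_sum_le_sum_abs _ _)
    _ ≤ ∑ y ∈ Λ, ∑ z ∈ Λ, (c / 2 * (hop y z * u y ^ 2) + c / 2 * (hop y z * u z ^ 2)) :=
        Finset.sum_le_sum fun y _ => Finset.sum_le_sum fun z _ => h1 y z
    _ = c / 2 * ∑ y ∈ Λ, (∑ z ∈ Λ, hop y z) * u y ^ 2 +
        c / 2 * ∑ z ∈ Λ, (∑ y ∈ Λ, hop z y) * u z ^ 2 := by
        simp_rw [Finset.sum_add_distrib]
        congr 1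
        · simp_rw [Finset.sum_mul, Finset.mul_sum]
        · rw [Finset.sum_comm]
          simp_rw [Finset.sum_mul, Finset.mul_sum]
          apply Finset.sum_congr rfl
          intro z _
          apply Finset.sum_congr rfl
          intro y _
          rw [hop_comm y z]
    _ ≤ c / 2 * ∑ y ∈ Λ, (2 * d) * u y ^ 2 + c / 2 * ∑ z ∈ Λ, (2 * d) * u z ^ 2 := by
        have h5 : ∑ y ∈ Λ, (∑ z ∈ Λ, hop y z) * u y ^ 2 ≤ ∑ y ∈ Λ, (2 * d) * u y ^ 2 :=
          Finset.sum_le_sum fun y _ => mul_le_mul_of_nonneg_right (sum_hop_le y Λ) (sq_nonneg _)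
        gcongr
    _ = _ := by
        rw [← Finset.mul_sum]
        ring

theorem abs_hf_le (Λ : Finset (Site d)) (u : Site d → ℝ) :
    |hf Λ u| ≤ 2 * d * ∑ y ∈ Λ, u y ^ 2 := by
  have := schur Λ u (k := hop) (c := 1) zero_le_one
    (fun y z => by rw [one_mul, abs_of_nonneg (hop_nonneg y z)])
  rw [one_mul] at this
  exact this

/-! ### staggering -/

/-- the staggering sign -/
def stag (y : Site d) : ℝ := if Even (∑ i, y i) then 1 else -1

theorem stag_sq (y : Site d) : stag y ^ 2 = 1 := by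
  unfold stag
  split_ifs <;> norm_num

theorem stag_add_single (y : Site d) (i : Fin d) : stag (y + Pi.single i 1) = - stag y := by
  unfold stag
  have h1 : ∑ j, (y + Pi.single i 1 : Site d) j = ∑ j, y j + 1 := by
    simp [Finset.sum_add_distrib, Pi.single_apply]
  rw [h1]
  by_cases h : Even (∑ j, y j)
  · rw [if_pos h, if_neg (by rw [Int.not_even_iff_odd]; exact h.add_one)]
  · rw [if_neg h, if_pos (by rw [Int.not_even_iff_odd] at h; exact h.add_one)]
    norm_num

theorem stag_sub_single (y : Site d) (i : Fin d) : stag (y - Pi.single i 1) = - stag y := by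
  have := stag_add_single (y - Pi.single i 1) i
  rw [sub_add_cancel] at this
  linarith only [this]

theorem stag_hop (y z : Site d) : stag y * hop y z * stag z = - hop y z := by
  unfold hop
  rw [Finset.mul_sum, Finset.sum_mul, ← Finset.sum_neg_distrib]
  apply Finset.sum_congr rfl
  intro i _
  by_cases h1 : z = y + Pi.single i 1
  · by_cases h2 : z = y - Pi.single i 1
    · exfalso
      rw [h2] at h1
      have := congrFun h1 i
      simp at this
      omega
    · rw [if_pos h1, if_neg h2, h1, stag_add_single]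
      have := stag_sq y
      nlinarith only [this]
  · by_cases h2 : z = y - Pi.single i 1
    · rw [if_neg h1, if_pos h2, h2, stag_sub_single]
      have := stag_sq y
      nlinarith only [this]
    · rw [if_neg h1, if_neg h2]; ring

theorem hf_stag (Λ : Finset (Site d)) (u : Site d → ℝ) :
    hf Λ (fun y => stag y * u y) = - hf Λ u := by
  unfold hf
  rw [← Finset.sum_neg_distrib]
  apply Finset.sum_congr rfl
  intro y _
  rw [← Finset.sum_neg_distrib]
  apply Finset.sum_congr rfl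
  intro z _
  have := stag_hop y z
  calc stag y * u y * hop y z * (stag z * u z) = u y * (stag y * hop y z * stag z) * u z := by ring
    _ = _ := by rw [this]; ring

/-- `s (E - H_Λ) ≥ g` in the sense of quadratic forms -/
def LB (V : Site d → ℝ) (Λ : Finset (Site d)) (E s g : ℝ) : Prop :=
  ∀ u : Site d → ℝ, g * ∑ y ∈ Λ, u y ^ 2 ≤ s * qform V Λ E u

/-- the form bound which controls both edges -/
theorem LB_of_form {V : Site d → ℝ} {Λ : Finset (Site d)} {a θ : ℝ} (hθ : θ ≤ 1)
    (h : ∀ u : Site d → ℝ, |∑ y ∈ Λ, V y * u y ^ 2| ≤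
      θ * ((2 * d + a) * ∑ y ∈ Λ, u y ^ 2 - hf Λ u)) {E : ℝ} (hE : 2 * d + a ≤ |E|) :
    ∃ s : ℝ, |s| = 1 ∧ LB V Λ E s ((1 - θ) * a) := by
  have key : ∀ u : Site d → ℝ, ∀ s : ℝ, |s| = 1 →
      ((1 - θ) * a) * ∑ y ∈ Λ, u y ^ 2 ≤ |E| * ∑ y ∈ Λ, u y ^ 2 -
        s * ∑ y ∈ Λ, V y * u y ^ 2 - hf Λ u := by
    intro u s hs
    have h1 := h u
    have h2 := le_abs_self (hf Λ u)
    have h3 := abs_hf_le Λ u
    have h4 : s * ∑ y ∈ Λ, V y * u y ^ 2 ≤ |∑ y ∈ Λ, V y * u y ^ 2| := by
      calc s * ∑ y ∈ Λ, V y * u y ^ 2 ≤ |s * ∑ y ∈ Λ, V y * u y ^ 2| := le_abs_self _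
        _ = _ := by rw [abs_mul, hs, one_mul]
    have h5 : 0 ≤ ∑ y ∈ Λ, u y ^ 2 := Finset.sum_nonneg fun y _ => sq_nonneg _
    have h6 : (2 * d + a) * ∑ y ∈ Λ, u y ^ 2 ≤ |E| * ∑ y ∈ Λ, u y ^ 2 :=
      mul_le_mul_of_nonneg_right hE h5
    have h7 : (1 - θ) * (a * ∑ y ∈ Λ, u y ^ 2) ≤
        (1 - θ) * ((2 * d + a) * ∑ y ∈ Λ, u y ^ 2 - hf Λ u) := by
      apply mul_le_mul_of_nonneg_left _ (by linarith only [hθ])
      have : (2 * d + a) * ∑ y ∈ Λ, u y ^ 2 = 2 * d * ∑ y ∈ Λ, u y ^ 2 +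
        a * ∑ y ∈ Λ, u y ^ 2 := by ring
      linarith only [h3, h2]
    nlinarith only [h5, h4, h3, h2, h1, hE, hθ]
  rcases le_total 0 E with hE0 | hE0
  · refine ⟨1, abs_one, fun u => ?_⟩
    have := key u 1 abs_one
    rw [abs_of_nonneg hE0, one_mul] at this
    rw [one_mul, qform_eq]
    exact this
  · refine ⟨-1, by norm_num, fun u => ?_⟩
    have := key (fun y => stag y * u y) (-1) (by norm_num)
    rw [abs_of_nonpos hE0, hf_stag] at this
    simp_rw [mul_pow, stag_sq, one_mul] at this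
    rw [qform_eq]
    linarith only [this]

/-- The Combes-Thomas bound. -/
theorem combes_thomas {V : Site d → ℝ} {Λ : Finset (Site d)} {E s g : ℝ} (hg : 0 < g)
    (hs : |s| = 1) (h : LB V Λ E s g) {κ : ℝ} (hκ : 0 ≤ κ)
    (hκg : 2 * d * (Real.exp κ - 1) ≤ g / 2) (x y : Site d) :
    |gr V Λ E x y| ≤ 2 / g * Real.exp (-κ * sd x y) := by
  by_cases hxy : x ∈ Λ ∧ y ∈ Λ
  swap
  · unfold gr
    rw [dif_neg hxy, abs_zero]
    positivity
  obtain ⟨hx, hy⟩ := hxy
  have hdet : (RM V Λ E).det ≠ 0 := by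
    intro hd
    obtain ⟨v, hv, hv0⟩ := Matrix.exists_mulVec_eq_zero_iff.2 hd
    apply hv
    set u : Site d → ℝ := fun z => if hz : z ∈ Λ then v ⟨z, hz⟩ else 0 with hu
    have huv : (fun z : Λ => u z) = v := by
      funext z
      simp [hu]
    have h1 := h u
    rw [qform_eq_dot, huv, hv0, dotProduct_zero, mul_zero] at h1
    have h2 : ∑ z ∈ Λ, u z ^ 2 ≤ 0 := by
      by_contra hcon
      push Not at hcon
      have := mul_pos hg hcon
      linarith only [this, h1]
    have h3 : ∑ z ∈ Λ, u z ^ 2 = 0 := le_antisymm h2 (Finset.sum_nonneg fun z _ => sq_nonneg _)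
    rw [Finset.sum_eq_zero_iff_of_nonneg fun z _ => sq_nonneg _] at h3
    funext z
    have h4 := h3 z z.2
    rw [← huv]
    exact pow_eq_zero_iff (two_ne_zero) |>.1 h4
  -- the weighted vector
  set w : Site d → ℝ := fun z => Real.exp (κ * sd x z) with hw
  have hw0 : ∀ z, 0 < w z := fun z => Real.exp_pos _
  set ψ : Site d → ℝ := fun z => w z * gr V Λ E x z with hψ
  have hwx : w x = 1 := by simp [hw, sd_self]
  have heq : ∀ z ∈ Λ, ∑ z' ∈ Λ, gr V Λ E x z' * rm V E z' z = if x = z then 1 else 0 :=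
    fun z hz => gr_mul_rm hdet hx hz
  have hrm : ∀ z z', rm V E z z' = rm V E z' z := by
    intro z z'
    unfold rm
    rw [hop_comm]
    by_cases hzz : z = z'
    · subst hzz; simp
    · rw [if_neg hzz, if_neg (Ne.symm hzz)]
  -- the conjugated form
  have h1 : ∑ z ∈ Λ, ∑ z' ∈ Λ, ψ z * (w z / w z' * rm V E z z') * ψ z' = ψ x := by
    have h2 : ∀ z ∈ Λ, ∑ z' ∈ Λ, ψ z * (w z / w z' * rm V E z z') * ψ z' =
        if x = z then ψ z * w z else 0 := by
      intro z hz
      have h3 : ∀ z', ψ z * (w z / w z' * rm V E z z') * ψ z' =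
          ψ z * w z * (gr V Λ E x z' * rm V E z' z) := by
        intro z'
        have := (hw0 z').ne'
        rw [hrm z z']
        simp only [hψ]
        field_simp
      simp_rw [h3]
      rw [← Finset.mul_sum, heq z hz]
      split_ifs <;> ring
    rw [Finset.sum_congr rfl h2, Finset.sum_ite_eq, if_pos hx, hwx, mul_one]
  have h2 : ∑ z ∈ Λ, ∑ z' ∈ Λ, ψ z * (w z / w z' * rm V E z z') * ψ z' =
      qform V Λ E ψ + ∑ z ∈ Λ, ∑ z' ∈ Λ, ψ z * ((w z / w z' - 1) * rm V E z z') * ψ z' := by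
    unfold qform
    rw [← Finset.sum_add_distrib]
    apply Finset.sum_congr rfl
    intro z _
    rw [← Finset.sum_add_distrib]
    apply Finset.sum_congr rfl
    intro z' _
    ring
  have hexp : 1 ≤ Real.exp κ := Real.one_le_exp hκ
  have h3 : |∑ z ∈ Λ, ∑ z' ∈ Λ, ψ z * ((w z / w z' - 1) * rm V E z z') * ψ z'| ≤
      (Real.exp κ - 1) * (2 * d) * ∑ z ∈ Λ, ψ z ^ 2 := by
    apply schur Λ ψ (by linarith only [hexp])
    intro z z'
    by_cases hzz : z = z'
    · subst hzz
      rw [div_self (hw0 z).ne', sub_self, zero_mul, abs_zero]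
      exact mul_nonneg (by linarith only [hexp]) (hop_nonneg _ _)
    · have e1 : rm V E z z' = - hop z z' := by
        unfold rm
        rw [if_neg hzz]; ring
      rw [e1, abs_mul, abs_neg, abs_of_nonneg (hop_nonneg z z')]
      by_cases hh : hop z z' = 0
      · rw [hh]; simp
      · have hd := sd_of_hop hh
        apply mul_le_mul_of_nonneg_right _ (hop_nonneg z z')
        have t1 := sd_triangle x z z'
        have t2 := sd_triangle x z' z
        rw [sd_comm z' z] at t2
        have e2 : w z / w z' = Real.exp (κ * ((sd x z : ℝ) - sd x z')) := by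
          simp only [hw]
          rw [← Real.exp_sub]
          congr 1
          ring
        rw [e2, abs_le]
        have r1 : ((sd x z : ℕ) : ℝ) - sd x z' ≤ 1 := by
          have : sd x z ≤ sd x z' + 1 := by omega
          have : ((sd x z : ℕ) : ℝ) ≤ sd x z' + 1 := by exact_mod_cast this
          linarith only [this]
        have r2 : -1 ≤ ((sd x z : ℕ) : ℝ) - sd x z' := by
          have : sd x z' ≤ sd x z + 1 := by omega
          have : ((sd x z' : ℕ) : ℝ) ≤ sd x z + 1 := by exact_mod_cast this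
          linarith only [this]
        constructor
        · have s1 : Real.exp (-κ) ≤ Real.exp (κ * ((sd x z : ℝ) - sd x z')) := by
            apply Real.exp_le_exp.2
            nlinarith only [r2, hκ]
          have s2 : Real.exp (-κ) * Real.exp κ = 1 := by
            rw [← Real.exp_add]; simp
          have s3 : 2 ≤ Real.exp (-κ) + Real.exp κ := by
            nlinarith only [s2, sq_nonneg (Real.exp κ - 1), Real.exp_pos (-κ), Real.exp_pos κ]
          linarith only [s3, s1]
        · have s1 : Real.exp (κ * ((sd x z : ℝ) - sd x z')) ≤ Real.exp κ := by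
            apply Real.exp_le_exp.2
            nlinarith only [r1, hκ]
          linarith only [s1]
  have h4 := h ψ
  set S := ∑ z ∈ Λ, ψ z ^ 2 with hS
  have hS0 : 0 ≤ S := Finset.sum_nonneg fun z _ => sq_nonneg _
  rw [h2] at h1
  generalize (∑ z ∈ Λ, ∑ z' ∈ Λ, ψ z * ((w z / w z' - 1) * rm V E z z') * ψ z') = T at h1 h3
  have h5 : qform V Λ E ψ = ψ x - T := by linarith only [h1]
  have h6 : s * qform V Λ E ψ ≤ |ψ x| + g / 2 * S := by
    calc s * qform V Λ E ψ ≤ |s * qform V Λ E ψ| := le_abs_self _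
      _ = |qform V Λ E ψ| := by rw [abs_mul, hs, one_mul]
      _ ≤ |ψ x| + |T| := by
          rw [h5]; exact abs_sub _ _
      _ ≤ |ψ x| + (Real.exp κ - 1) * (2 * d) * S := by linarith only [h3]
      _ ≤ |ψ x| + g / 2 * S := by
          have h11 : (Real.exp κ - 1) * (2 * d) ≤ g / 2 := by linarith only [hκg]
          have h12 := mul_le_mul_of_nonneg_right h11 hS0
          linarith only [h12]
  have h7 : g / 2 * S ≤ |ψ x| := by linarith only [h6, h4]
  have hle : ∀ z ∈ Λ, ψ z ^ 2 ≤ S := fun z hz =>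
    Finset.single_le_sum (f := fun z => ψ z ^ 2) (fun z _ => sq_nonneg _) hz
  have h8 : |ψ x| ≤ √S := Real.abs_le_sqrt (hle x hx)
  have h9 : √S ≤ 2 / g := by
    rcases eq_or_lt_of_le (Real.sqrt_nonneg S) with h0 | h0
    · rw [← h0]; positivity
    · have h10 : g / 2 * (√S * √S) ≤ √S := by
        rw [Real.mul_self_sqrt hS0]; linarith only [h8, h6, h4]
      rw [le_div_iff₀ hg]
      have h11 : (g / 2 * √S) * √S ≤ 1 * √S := by linarith only [h10]
      have := le_of_mul_le_mul_right h11 h0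
      linarith only [this]
  have h10 : |ψ y| ≤ 2 / g := (Real.abs_le_sqrt (hle y hy)).trans h9
  simp only [hψ, hw, abs_mul, abs_of_pos (Real.exp_pos _)] at h10
  calc |gr V Λ E x y| = Real.exp (κ * sd x y) * |gr V Λ E x y| * Real.exp (-κ * sd x y) := by
        rw [mul_comm (Real.exp _), mul_assoc, ← Real.exp_add]
        simp
    _ ≤ 2 / g * Real.exp (-κ * sd x y) := by gcongr

end Pool.Agent.Loc
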