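import Pool.Agent.Helper48_Loc.FinBasis
import Pool.Agent.Helper17_Anderson.Ell2

/-!
# Completeness of the localized eigenfunctions
-/

set_option autoImplicit false
set_option linter.unusedSectionVars false

open MeasureTheory ProbabilityTheory Function Filter

open scoped ENNReal BigOperators Topology ComplexConjugate InnerProductSpace

noncomputable section

namespace Pool.Agent.Loc

open Pool.Agent.Anderson

variable {d : ℕ}

/-- an orthonormal basis of eigenfunctions in the cube `box 0 n`, with their centres -/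
structure FB (V : Site d → ℝ) (n : ℕ) where
  E : box (0 : Site d) n → ℝ
  ψ : box (0 : Site d) n → Site d → ℂ
  c : box (0 : Site d) n → Site d
  fin : ∀ j, FinEig V n (E j) (ψ j)
  pars : ∀ f : Site d → ℂ, ∑ j, ‖pr n (ψ j) f‖ ^ 2 = ∑ x ∈ box (0 : Site d) n, ‖f x‖ ^ 2
  cen : ∀ j, IsCenter n (ψ j) (c j)

theorem exists_FB (V : Site d → ℝ) (n : ℕ) : Nonempty (FB V n) := by
  obtain ⟨E, ψ, h1, h2⟩ := exists_basis V n
  choose c hc using fun j => (h1 j).exists_center
  exact ⟨⟨E, ψ, c, h1, h2, hc⟩⟩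

theorem pr_sub (n : ℕ) (ψ f g : Site d → ℂ) :
    pr n ψ (fun x => f x - g x) = pr n ψ f - pr n ψ g := by
  unfold pr
  rw [← Finset.sum_sub_distrib]
  apply Finset.sum_congr rfl
  intro x _
  ring

theorem FB.bessel {V : Site d → ℝ} {n : ℕ} (b : FB V n) (x : Site d) :
    ∑ j, ‖b.ψ j x‖ ^ 2 ≤ 1 := by
  by_cases hx : x ∈ box (0 : Site d) n
  · have h1 := b.pars (fun y => if y = x then 1 else 0)
    have h2 : ∀ j, pr n (b.ψ j) (fun y => if y = x then 1 else 0) = conj (b.ψ j x) := by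
      intro j
      unfold pr
      simp [hx]
    have h3 : ∑ y ∈ box (0 : Site d) n, ‖(if y = x then 1 else 0 : ℂ)‖ ^ 2 = 1 := by
      rw [Finset.sum_eq_single x]
      · simp
      · intro y _ hy; simp [hy]
      · intro h; exact absurd hx h
    simp_rw [h2, RCLike.norm_conj] at h1
    rw [h1, h3]
  · have : ∀ j, ‖b.ψ j x‖ ^ 2 = 0 := by
      intro j
      rw [(b.fin j).supp x hx]; simp
    simp_rw [this]
    simp

/-- The eigenfunctions with far away centres have small total weight at a given site,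
uniformly in the volume. -/
theorem tail_small {V : Site d → ℝ} {E₀ μ : ℝ} (hμ : 0 < μ) {L₀ : ℕ}
    (h : TwoBox V E₀ μ L₀) (y : Site d) {ε : ℝ} (hε : 0 < ε) :
    ∃ R : ℕ, ∀ R' : ℕ, R ≤ R' → ∀ (n : ℕ) (b : FB V n),
      ∑ j with E₀ ≤ |b.E j| ∧ R' < sd 0 (b.c j), ‖b.ψ j y‖ ^ 2 ≤ ε := by
  obtain ⟨C₁, R₀, hC₁, hdec⟩ := center_decay' hμ h
  have hs := (summable_exp_sd (show 0 < μ / 2 by positivity) y).mul_left (C₁ ^ 2)
  have hv := (summable_iff_vanishing_norm (E := ℝ)).1 hs ε hε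
  obtain ⟨s, hs'⟩ := hv
  -- a radius beyond all of `s`
  obtain ⟨R₁, hR₁⟩ : ∃ R₁ : ℕ, ∀ x ∈ s, sd 0 x ≤ R₁ := ⟨s.sup fun x => sd 0 x, fun x hx =>
    Finset.le_sup (f := fun x => sd 0 x) hx⟩
  refine ⟨R₁ + 2 * sd 0 y + 2 * R₀ + 64, ?_⟩
  intro R' hR' n b
  have hfib := Finset.sum_fiberwise_of_maps_to
    (s := Finset.univ.filter fun j => E₀ ≤ |b.E j| ∧ R' < sd 0 (b.c j))
    (t := (box (0 : Site d) n).filter fun c => R' < sd 0 c) (g := b.c)
    (fun j hj => by
      rw [Finset.mem_filter] at hj ⊢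
      exact ⟨(b.cen j).1, hj.2.2⟩) (fun j => ‖b.ψ j y‖ ^ 2)
  rw [← hfib]
  have hb : ∀ c ∈ (box (0 : Site d) n).filter (fun c => R' < sd 0 c),
      ∑ j ∈ (Finset.univ.filter fun j => E₀ ≤ |b.E j| ∧ R' < sd 0 (b.c j)) with b.c j = c,
        ‖b.ψ j y‖ ^ 2 ≤ C₁ ^ 2 * Real.exp (-(μ / 2) * sd c y) := by
    intro c hc
    rw [Finset.mem_filter] at hc
    calc _ ≤ ∑ j ∈ (Finset.univ.filter fun j => E₀ ≤ |b.E j| ∧ R' < sd 0 (b.c j)) with b.c j = c,
          C₁ ^ 2 * Real.exp (-(μ / 2) * sd c y) * ‖b.ψ j c‖ ^ 2 := by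
          apply Finset.sum_le_sum
          intro j hj
          rw [Finset.mem_filter, Finset.mem_filter] at hj
          obtain ⟨⟨_, hE, hR⟩, rfl⟩ := hj
          have hsd : sd 0 (b.c j) ≤ sd 0 y + sd (b.c j) y := by
            have := sd_triangle 0 y (b.c j)
            rw [sd_comm y] at this
            exact this
          have h1 := hdec n (b.E j) (b.ψ j) (b.c j) hE (b.fin j) (b.cen j) y (by omega)
            (by
              have h2 : sd 0 (b.c j) ≤ 2 * sd (b.c j) y := by omega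
              have h3 : 32 ≤ sd (b.c j) y := by omega
              nlinarith)
          have h2 : Real.exp (-(μ / 2) * sd (b.c j) y) =
              Real.exp (-(μ / 4) * sd (b.c j) y) ^ 2 := by
            rw [← Real.exp_nat_mul]; congr 1; push_cast; ring
          rw [h2]
          calc ‖b.ψ j y‖ ^ 2 ≤ (C₁ * Real.exp (-(μ / 4) * sd (b.c j) y) * ‖b.ψ j (b.c j)‖) ^ 2 :=
                pow_le_pow_left₀ (norm_nonneg _) h1 2
            _ = _ := by ring
      _ ≤ ∑ j, C₁ ^ 2 * Real.exp (-(μ / 2) * sd c y) * ‖b.ψ j c‖ ^ 2 := by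
          apply Finset.sum_le_sum_of_subset_of_nonneg (Finset.subset_univ _)
          intro j _ _
          positivity
      _ = C₁ ^ 2 * Real.exp (-(μ / 2) * sd c y) * ∑ j, ‖b.ψ j c‖ ^ 2 := by
          rw [Finset.mul_sum]
      _ ≤ C₁ ^ 2 * Real.exp (-(μ / 2) * sd c y) * 1 :=
          mul_le_mul_of_nonneg_left (b.bessel c) (by positivity)
      _ = _ := mul_one _
  refine (Finset.sum_le_sum hb).trans ?_
  have hdisj : Disjoint ((box (0 : Site d) n).filter fun c => R' < sd 0 c) s := by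
    rw [Finset.disjoint_left]
    intro c hc hcs
    rw [Finset.mem_filter] at hc
    have := hR₁ c hcs
    omega
  have := hs' _ hdisj
  rw [Real.norm_eq_abs] at this
  exact (le_abs_self _).trans this.le

/-- The number of eigenfunctions with centres in a given box is bounded uniformly in the volume. -/
theorem count_bound {V : Site d → ℝ} {E₀ μ : ℝ} (hμ : 0 < μ) {L₀ : ℕ}
    (h : TwoBox V E₀ μ L₀) (R : ℕ) :
    ∃ N : ℕ, ∀ (n : ℕ) (b : FB V n),
      (Finset.univ.filter fun j => E₀ ≤ |b.E j| ∧ sd 0 (b.c j) ≤ R).card ≤ N := by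
  obtain ⟨C, hC, hdec⟩ := uniform_decay hμ h R
  have hs := (summable_exp_sd (show 0 < μ / 2 by positivity) (0 : Site d)).mul_left (C ^ 2)
  obtain ⟨s, hs'⟩ := (summable_iff_vanishing_norm (E := ℝ)).1 hs (1 / 2) (by norm_num)
  refine ⟨2 * s.card, ?_⟩
  intro n b
  set J := Finset.univ.filter fun j => E₀ ≤ |b.E j| ∧ sd 0 (b.c j) ≤ R with hJ
  have h1 : ∀ j ∈ J, 1 / 2 ≤ ∑ x ∈ s, ‖b.ψ j x‖ ^ 2 := by
    intro j hj
    rw [hJ, Finset.mem_filter] at hj
    have h2 := (b.fin j).norm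
    have h3 : ∑ x ∈ box (0 : Site d) n, ‖b.ψ j x‖ ^ 2 ≤
        ∑ x ∈ s, ‖b.ψ j x‖ ^ 2 + ∑ x ∈ box (0 : Site d) n \ s, ‖b.ψ j x‖ ^ 2 := by
      rw [← Finset.sum_union Finset.disjoint_sdiff]
      apply Finset.sum_le_sum_of_subset_of_nonneg
      · intro x hx
        rw [Finset.mem_union, Finset.mem_sdiff]
        by_cases hxs : x ∈ s
        · exact Or.inl hxs
        · exact Or.inr ⟨hx, hxs⟩
      · intro x _ _; positivity
    have h4 : ∑ x ∈ box (0 : Site d) n \ s, ‖b.ψ j x‖ ^ 2 ≤ 1 / 2 := by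
      calc _ ≤ ∑ x ∈ box (0 : Site d) n \ s, C ^ 2 * Real.exp (-(μ / 2) * sd x 0) := by
            apply Finset.sum_le_sum
            intro x _
            have h5 := hdec n (b.E j) (b.ψ j) (b.c j) hj.2.1 (b.fin j) (b.cen j) hj.2.2 x
            have h6 : Real.exp (-(μ / 2) * sd x 0) = Real.exp (-(μ / 4) * sd 0 x) ^ 2 := by
              rw [← Real.exp_nat_mul, sd_comm]; congr 1; push_cast; ring
            rw [h6]
            calc ‖b.ψ j x‖ ^ 2 ≤ (C * Real.exp (-(μ / 4) * sd 0 x)) ^ 2 :=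
                  pow_le_pow_left₀ (norm_nonneg _) h5 2
              _ = _ := by ring
        _ ≤ 1 / 2 := by
            have := hs' _ (Finset.sdiff_disjoint (s := s) (t := box (0 : Site d) n))
            rw [Real.norm_eq_abs] at this
            exact (le_abs_self _).trans this.le
    linarith
  have h2 : (J.card : ℝ) * (1 / 2) ≤ s.card := by
    calc (J.card : ℝ) * (1 / 2) = ∑ _j ∈ J, (1 / 2 : ℝ) := by rw [Finset.sum_const, nsmul_eq_mul]
      _ ≤ ∑ j ∈ J, ∑ x ∈ s, ‖b.ψ j x‖ ^ 2 := Finset.sum_le_sum h1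
      _ ≤ ∑ j, ∑ x ∈ s, ‖b.ψ j x‖ ^ 2 := by
          apply Finset.sum_le_sum_of_subset_of_nonneg (Finset.subset_univ _)
          intro j _ _
          positivity
      _ = ∑ x ∈ s, ∑ j, ‖b.ψ j x‖ ^ 2 := Finset.sum_comm
      _ ≤ ∑ _x ∈ s, (1 : ℝ) := Finset.sum_le_sum fun x _ => b.bessel x
      _ = s.card := by simp
  have h3 : (J.card : ℝ) ≤ 2 * s.card := by linarith
  exact_mod_cast h3

/-- Compactness: a sequence of finite-volume eigenfunctions with centres in a fixed box which all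
have a scalar product with `u` bounded below gives an eigenfunction in infinite volume which is
not orthogonal to `u`. -/
theorem limit_eigen {V : Site d → ℝ} {E₀ μ : ℝ} (hμ : 0 < μ) {L₀ : ℕ}
    (h : TwoBox V E₀ μ L₀) (R : ℕ) (u : L2 d) {κ : ℝ} (hκ : 0 < κ) {n₀ : ℕ}
    (H : ∀ n, n₀ ≤ n → ∃ (E : ℝ) (ψ : Site d → ℂ) (c : Site d), E₀ ≤ |E| ∧ FinEig V n E ψ ∧
      IsCenter n ψ c ∧ sd 0 c ≤ R ∧ κ ≤ ‖pr n ψ u‖) :
    ∃ (E : ℝ) (ψ : L2 d), E₀ ≤ |E| ∧ IsEigen V E ψ ∧
      (∃ C : ℝ, ∀ x, ‖ψ x‖ ≤ C * Real.exp (-(μ / 4) * sd 0 x)) ∧ ⟪ψ, u⟫_ℂ ≠ 0 := by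
  obtain ⟨C, hC, hdec⟩ := uniform_decay hμ h R
  choose! E ψ c hE hψ hc hcR hκn using H
  -- energies are bounded
  obtain ⟨B, hB⟩ : ∃ B : ℝ, ∀ x ∈ box (0 : Site d) R, |V x| ≤ B := by
    obtain ⟨B, hB⟩ := ((box (0 : Site d) R).finite_toSet.image fun x => |V x|).bddAbove
    exact ⟨B, fun x hx => hB ⟨x, hx, rfl⟩⟩
  have hEb : ∀ n, n₀ ≤ n → |E n| ≤ 2 * d + B := by
    intro n hn
    have := (hψ n hn).energy_le (hc n hn)
    have h2 := hB (c n) (mem_box.2 (hcR n hn))
    linarith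
  -- extraction
  set K : Set (ℝ × (Site d → ℂ)) := Set.Icc (-(2 * d + B)) (2 * d + B) ×ˢ
    Set.univ.pi fun _ => Metric.closedBall (0 : ℂ) 1 with hK
  have hKc : IsCompact K := isCompact_Icc.prod (isCompact_univ_pi fun _ => isCompact_closedBall _ _)
  have hmem : ∀ n, (E (n₀ + n), ψ (n₀ + n)) ∈ K := by
    intro n
    refine ⟨?_, ?_⟩
    · exact abs_le.1 (hEb _ (by omega))
    · intro x _
      rw [mem_closedBall_zero_iff]
      exact (hψ _ (by omega)).le_one x
  obtain ⟨⟨E', ψ'⟩, _, φ, hφ, hlim⟩ := hKc.tendsto_subseq hmem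
  have hlimE : Tendsto (fun k => E (n₀ + φ k)) atTop (𝓝 E') :=
    (continuous_fst.tendsto _).comp hlim
  have hlimψ : ∀ x, Tendsto (fun k => ψ (n₀ + φ k) x) atTop (𝓝 (ψ' x)) := by
    intro x
    exact ((continuous_apply x).tendsto _).comp ((continuous_snd.tendsto _).comp hlim)
  have hφn : ∀ k, n₀ ≤ n₀ + φ k := fun k => by omega
  have hdecψ : ∀ x, ‖ψ' x‖ ≤ C * Real.exp (-(μ / 4) * sd 0 x) := by
    intro x
    refine le_of_tendsto (hlimψ x).norm (Eventually.of_forall fun k => ?_)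
    exact hdec _ _ _ _ (hE _ (hφn k)) (hψ _ (hφn k)) (hc _ (hφn k)) (hcR _ (hφn k)) x
  have hsum2 : Summable fun x : Site d => (C * Real.exp (-(μ / 4) * sd 0 x)) ^ 2 := by
    have := (summable_exp_sd (show 0 < μ / 2 by positivity) (0 : Site d)).mul_left (C ^ 2)
    refine this.congr fun x => ?_
    have h6 : Real.exp (-(μ / 2) * sd x 0) = Real.exp (-(μ / 4) * sd 0 x) ^ 2 := by
      rw [← Real.exp_nat_mul, sd_comm]; congr 1; push_cast; ring
    rw [h6]; ring
  have hmemψ : Memℓp ψ' 2 := by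
    rw [memℓp_iff]
    refine Summable.of_nonneg_of_le (fun x => by positivity) (fun x => ?_) hsum2
    exact pow_le_pow_left₀ (norm_nonneg _) (hdecψ x) 2
  refine ⟨E', ⟨ψ', hmemψ⟩, ?_, ?_, ⟨C, hdecψ⟩, ?_⟩
  · exact ge_of_tendsto hlimE.abs (Eventually.of_forall fun k => hE _ (hφn k))
  · intro x
    have h1 : Tendsto (fun k => lap (ψ (n₀ + φ k)) x + (V x : ℂ) * ψ (n₀ + φ k) x) atTop
        (𝓝 (lap ψ' x + (V x : ℂ) * ψ' x)) := by
      refine Tendsto.add ?_ ((hlimψ x).const_mul _)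
      unfold lap
      apply tendsto_finsetSum
      intro i _
      exact (hlimψ _).add (hlimψ _)
    have h2 : Tendsto (fun k => (E (n₀ + φ k) : ℂ) * ψ (n₀ + φ k) x) atTop
        (𝓝 ((E' : ℂ) * ψ' x)) :=
      ((Complex.continuous_ofReal.tendsto _).comp hlimE).mul (hlimψ x)
    refine tendsto_nhds_unique (h1.congr' ?_) h2
    filter_upwards [eventually_ge_atTop (sd 0 x)] with k hk
    apply (hψ _ (hφn k)).eq
    rw [mem_box]
    have : k ≤ φ k := hφ.id_le k
    omega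
  · have h1 : Tendsto (fun k => ∑' x, conj (ψ (n₀ + φ k) x) * u x) atTop
        (𝓝 (∑' x, conj (ψ' x) * u x)) := by
      apply tendsto_tsum_of_dominated_convergence
        (bound := fun x => (C * Real.exp (-(μ / 4) * sd 0 x)) * ‖u x‖)
      · have h3 := hsum2.add (L2.summable_sq u)
        refine Summable.of_nonneg_of_le (fun x => by positivity) (fun x => ?_) h3
        nlinarith [sq_nonneg (C * Real.exp (-(μ / 4) * sd 0 x) - ‖u x‖),
          sq_nonneg (C * Real.exp (-(μ / 4) * sd 0 x)), sq_nonneg ‖u x‖]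
      · intro x
        exact ((Complex.continuous_conj.tendsto _).comp (hlimψ x)).mul_const _
      · filter_upwards with k x
        rw [norm_mul, RCLike.norm_conj]
        gcongr
        exact hdec _ _ _ _ (hE _ (hφn k)) (hψ _ (hφn k)) (hc _ (hφn k)) (hcR _ (hφn k)) x
    have h2 : ∀ k, κ ≤ ‖∑' x, conj (ψ (n₀ + φ k) x) * u x‖ := by
      intro k
      have h3 : ∑' x, conj (ψ (n₀ + φ k) x) * u x = pr (n₀ + φ k) (ψ (n₀ + φ k)) u := by
        unfold pr
        rw [tsum_eq_sum]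
        intro x hx
        rw [(hψ _ (hφn k)).supp x hx]
        simp
      rw [h3]
      exact hκn _ (hφn k)
    have h4 : κ ≤ ‖∑' x, conj (ψ' x) * u x‖ := ge_of_tendsto h1.norm (Eventually.of_forall h2)
    intro h0
    rw [lp.inner_eq_tsum] at h0
    have h5 : ∑' x, conj (ψ' x) * u x = 0 := by
      rw [← h0]
      apply tsum_congr
      intro x
      rw [RCLike.inner_apply, mul_comm]
    rw [h5, norm_zero] at h4
    linarith

end Pool.Agent.Loc
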