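import Pool.Agent.Helper48_Loc.Complete

/-!
# Completeness of the localized eigenfunctions: the theorem
-/

set_option autoImplicit false
set_option linter.unusedSectionVars false

open MeasureTheory ProbabilityTheory Function Filter

open scoped ENNReal BigOperators Topology ComplexConjugate InnerProductSpace

noncomputable section

namespace Pool.Agent.Loc

open Pool.Agent.Anderson

variable {d : ℕ}

/-- truncation of an `ℓ²` function to the cube `box 0 n` -/
def trunc (n : ℕ) (u : L2 d) : L2 d := ∑ x ∈ box (0 : Site d) n, lp.single 2 x (u x)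

theorem trunc_apply (n : ℕ) (u : L2 d) (x : Site d) :
    trunc n u x = if x ∈ box (0 : Site d) n then u x else 0 := by
  unfold trunc
  rw [coe_sum_apply]
  by_cases hx : x ∈ box (0 : Site d) n
  · rw [if_pos hx, Finset.sum_eq_single x]
    · rw [lp.single_apply, Pi.single_eq_same]
    · intro y _ hy
      rw [lp.single_apply, Pi.single_eq_of_ne hy.symm]
    · intro h; exact absurd hx h
  · rw [if_neg hx]
    apply Finset.sum_eq_zero
    intro y hy
    have : x ≠ y := by rintro rfl; exact hx hy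
    rw [lp.single_apply, Pi.single_eq_of_ne this]

theorem tendsto_box : Tendsto (fun n : ℕ => box (0 : Site d) n) atTop atTop := by
  apply tendsto_atTop_finset_of_monotone
  · intro m n hmn
    exact box_mono 0 hmn
  · intro x
    exact ⟨sd 0 x, by rw [mem_box]⟩

theorem tendsto_trunc (u : L2 d) : Tendsto (fun n => trunc n u) atTop (𝓝 u) := by
  have h1 := lp.hasSum_single (p := 2) (by norm_num) u
  exact h1.comp tendsto_box

theorem sum_le_norm_sq (u : L2 d) (s : Finset (Site d)) : ∑ x ∈ s, ‖u x‖ ^ 2 ≤ ‖u‖ ^ 2 := by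
  rw [L2.norm_sq]
  exact (L2.summable_sq u).sum_le_tsum s fun x _ => by positivity

theorem pr_cs (n : ℕ) (ψ f : Site d → ℂ) :
    ‖pr n ψ f‖ ^ 2 ≤ (∑ x ∈ box (0 : Site d) n, ‖ψ x‖ ^ 2) * ∑ x ∈ box (0 : Site d) n, ‖f x‖ ^ 2 := by
  have h1 : ‖pr n ψ f‖ ≤ ∑ x ∈ box (0 : Site d) n, ‖ψ x‖ * ‖f x‖ := by
    unfold pr
    refine (norm_sum_le _ _).trans (Finset.sum_le_sum fun x _ => ?_)
    rw [norm_mul, RCLike.norm_conj]
  calc ‖pr n ψ f‖ ^ 2 ≤ (∑ x ∈ box (0 : Site d) n, ‖ψ x‖ * ‖f x‖) ^ 2 :=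
        pow_le_pow_left₀ (norm_nonneg _) h1 2
    _ ≤ _ := Finset.sum_mul_sq_le_sq_mul_sq _ _ _

/-- **Completeness.** In the localized regime, a vector of the domain of `H` which is orthogonal to
all the exponentially decaying eigenfunctions with energies `|E| ≥ E₀` satisfies
`‖H u‖ ≤ E₀ ‖u‖`. -/
theorem complete_of_twoBox {V : Site d → ℝ} {E₀ μ : ℝ} (hE₀ : 0 ≤ E₀) (hμ : 0 < μ) {L₀ : ℕ}
    (h : TwoBox V E₀ μ L₀) {u w : L2 d} (hw : ∀ x, w x = lap u x + (V x : ℂ) * u x)
    (horth : ∀ (E : ℝ) (ψ : L2 d), E₀ ≤ |E| → IsEigen V E ψ →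
      (∃ C : ℝ, ∀ x, ‖ψ x‖ ≤ C * Real.exp (-(μ / 4) * sd 0 x)) → ⟪ψ, u⟫_ℂ = 0) :
    ‖w‖ ≤ E₀ * ‖u‖ := by
  by_contra hcon
  push Not at hcon
  set η : ℝ := ‖w‖ ^ 2 - E₀ ^ 2 * ‖u‖ ^ 2 with hη
  have hη0 : 0 < η := by
    have h1 : 0 ≤ E₀ * ‖u‖ := by positivity
    have h2 : (E₀ * ‖u‖) ^ 2 < ‖w‖ ^ 2 := pow_lt_pow_left₀ hcon h1 (by norm_num)
    rw [hη]
    nlinarith only [h1, hcon]
  -- truncation of `w`
  have hwr : Tendsto (fun r => ‖w - trunc r w‖ ^ 2) atTop (𝓝 0) := by
    have h1 := ((tendsto_const_nhds (x := w)).sub (tendsto_trunc w)).norm.pow 2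
    simpa using h1
  obtain ⟨r, hr⟩ := (hwr.eventually (gt_mem_nhds (show 0 < η / 64 by positivity))).exists
  -- the error of the finite-volume operator
  set g : ℕ → Site d → ℂ := fun n x => lap (trunc n u) x + (V x : ℂ) * trunc n u x with hg
  set D : ℕ → ℝ := fun n => ‖Lap d (u - trunc n u)‖ ^ 2 with hD
  have hDlim : Tendsto D atTop (𝓝 0) := by
    have h1 := (tendsto_const_nhds (x := u)).sub (tendsto_trunc u)
    rw [sub_self] at h1
    have h2 := (((Lap d).continuous.tendsto 0).comp h1).norm.pow 2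
    simpa [hD] using h2
  have hgw : ∀ n, ∀ x ∈ box (0 : Site d) n, g n x - w x = - Lap d (u - trunc n u) x := by
    intro n x hx
    rw [Lap_apply]
    have h1 : lap ((u - trunc n u : L2 d) : Site d → ℂ) x = lap u x - lap (trunc n u) x := by
      unfold lap
      rw [← Finset.sum_sub_distrib]
      apply Finset.sum_congr rfl
      intro i _
      rw [lp.coeFn_sub, Pi.sub_apply, Pi.sub_apply]
      ring
    rw [h1, hw x, hg]
    simp only [trunc_apply, hx, if_true]
    ring
  have hDn : ∀ n, ∑ x ∈ box (0 : Site d) n, ‖g n x - w x‖ ^ 2 ≤ D n := by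
    intro n
    rw [Finset.sum_congr rfl fun x hx => by rw [hgw n x hx, norm_neg]]
    exact sum_le_norm_sq _ _
  -- constants
  obtain ⟨R, hR⟩ : ∃ R : ℕ, ∀ (n : ℕ) (b : FB V n), ∀ y ∈ box (0 : Site d) r,
      ∑ j with E₀ ≤ |b.E j| ∧ R < sd 0 (b.c j), ‖b.ψ j y‖ ^ 2 ≤
        η / (16 * ((box (0 : Site d) r).card * (‖w‖ ^ 2 + 1))) := by
    have hpos : 0 < η / (16 * ((box (0 : Site d) r).card * (‖w‖ ^ 2 + 1))) := by
      have : 0 < (box (0 : Site d) r).card := by rw [card_box]; positivity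
      positivity
    choose R hR using fun y => tail_small hμ h y hpos
    refine ⟨(box (0 : Site d) r).sup R, fun n b y hy => ?_⟩
    exact hR y _ (Finset.le_sup hy) n b
  obtain ⟨N, hN⟩ := count_bound hμ h R
  -- norms of the finite-volume vectors
  have hlow : ∀ᶠ n in atTop, ‖w‖ ^ 2 - η / 4 ≤ ∑ x ∈ box (0 : Site d) n, ‖g n x‖ ^ 2 := by
    have h1 : Tendsto (fun n => ‖trunc n w‖) atTop (𝓝 ‖w‖) := (tendsto_trunc w).norm
    have h2 : Tendsto (fun n => (‖trunc n w‖ - √(D n)) ^ 2) atTop (𝓝 (‖w‖ ^ 2)) := by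
      have h3 := (h1.sub ((Real.continuous_sqrt.tendsto 0).comp hDlim)).pow 2
      simpa using h3
    have h1' : Tendsto (fun n => ‖trunc n w‖ - √(D n)) atTop (𝓝 ‖w‖) := by
      have h3 := (h1.sub ((Real.continuous_sqrt.tendsto 0).comp hDlim))
      simpa using h3
    have hw0 : 0 < ‖w‖ := lt_of_le_of_lt (by positivity) hcon
    filter_upwards [h2.eventually (lt_mem_nhds (show ‖w‖ ^ 2 - η / 4 < ‖w‖ ^ 2 by linarith only [hη0])),
      h1'.eventually (lt_mem_nhds hw0)] with n hn hn'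
    refine hn.le.trans ?_
    -- Minkowski in the cube
    have h3 : ‖trunc n w‖ ≤ √(D n) + √(∑ x ∈ box (0 : Site d) n, ‖g n x‖ ^ 2) := by
      set G : L2 d := ∑ x ∈ box (0 : Site d) n, lp.single 2 x (g n x) with hG
      have hGa : ∀ x, G x = if x ∈ box (0 : Site d) n then g n x else 0 := by
        intro x
        rw [hG, coe_sum_apply]
        by_cases hx : x ∈ box (0 : Site d) n
        · rw [if_pos hx, Finset.sum_eq_single x]
          · rw [lp.single_apply, Pi.single_eq_same]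
          · intro y _ hy
            rw [lp.single_apply, Pi.single_eq_of_ne hy.symm]
          · intro h; exact absurd hx h
        · rw [if_neg hx]
          apply Finset.sum_eq_zero
          intro y hy
          have : x ≠ y := by rintro rfl; exact hx hy
          rw [lp.single_apply, Pi.single_eq_of_ne this]
      have hGn : ‖G‖ = √(∑ x ∈ box (0 : Site d) n, ‖g n x‖ ^ 2) := by
        rw [← Real.sqrt_sq (norm_nonneg G), L2.norm_sq]
        congr 1
        rw [tsum_eq_sum (s := box (0 : Site d) n)]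
        · apply Finset.sum_congr rfl
          intro x hx
          rw [hGa x, if_pos hx]
        · intro x hx
          rw [hGa x, if_neg hx]; simp
      have hdiff : ‖trunc n w - G‖ ≤ √(D n) := by
        rw [← Real.sqrt_sq (norm_nonneg (trunc n w - G))]
        apply Real.sqrt_le_sqrt
        rw [L2.norm_sq, tsum_eq_sum (s := box (0 : Site d) n)]
        · refine le_trans (le_of_eq ?_) (hDn n)
          apply Finset.sum_congr rfl
          intro x hx
          rw [lp.coeFn_sub, Pi.sub_apply, trunc_apply, if_pos hx, hGa x, if_pos hx, norm_sub_rev]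
        · intro x hx
          rw [lp.coeFn_sub, Pi.sub_apply, trunc_apply, if_neg hx, hGa x, if_neg hx]
          simp
      calc ‖trunc n w‖ = ‖(trunc n w - G) + G‖ := by rw [sub_add_cancel]
        _ ≤ ‖trunc n w - G‖ + ‖G‖ := norm_add_le _ _
        _ ≤ _ := by rw [hGn]; linarith only [hdiff]
    have h4 : (‖trunc n w‖ - √(D n)) ^ 2 ≤ √(∑ x ∈ box (0 : Site d) n, ‖g n x‖ ^ 2) ^ 2 :=
      pow_le_pow_left₀ hn'.le (by linarith only [h3]) 2
    rw [Real.sq_sqrt (Finset.sum_nonneg fun x _ => by positivity)] at h4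
    exact h4
  have hDsmall : ∀ᶠ n in atTop, D n < η / 64 :=
    hDlim.eventually (gt_mem_nhds (by positivity))
  obtain ⟨n₀, hn₀⟩ := eventually_atTop.1 (hlow.and (hDsmall.and (eventually_ge_atTop r)))
  -- a bound for the energies
  obtain ⟨B, hB⟩ : ∃ B : ℝ, ∀ x ∈ box (0 : Site d) R, |V x| ≤ B := by
    obtain ⟨B, hB⟩ := ((box (0 : Site d) R).finite_toSet.image fun x => |V x|).bddAbove
    exact ⟨B, fun x hx => hB ⟨x, hx, rfl⟩⟩
  have hB0 : 0 ≤ B := (abs_nonneg _).trans (hB 0 (by rw [mem_box, sd_self]; omega))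
  set β : ℝ := η / (2 * (N + 1)) with hβ
  have hβ0 : 0 < β := by positivity
  set κ : ℝ := √β / (2 * d + B + 1) with hκ
  have hκ0 : 0 < κ := by positivity
  have main : ∀ n, n₀ ≤ n → ∃ (E : ℝ) (ψ : Site d → ℂ) (c : Site d), E₀ ≤ |E| ∧ FinEig V n E ψ ∧
      IsCenter n ψ c ∧ sd 0 c ≤ R ∧ κ ≤ ‖pr n ψ u‖ := by
    intro n hn
    obtain ⟨hn1, hn2, hn3⟩ := hn₀ n hn
    obtain ⟨b⟩ := exists_FB V n
    have hbE : ∀ j, pr n (b.ψ j) (g n) = (b.E j : ℂ) * pr n (b.ψ j) u := by
      intro j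
      have h1 := (b.fin j).pr_H (f := trunc n u) (fun x hx => by rw [trunc_apply, if_neg hx])
      have h2 : pr n (b.ψ j) (trunc n u) = pr n (b.ψ j) u := by
        unfold pr
        apply Finset.sum_congr rfl
        intro x hx
        rw [trunc_apply, if_pos hx]
      rw [← h2]
      exact h1
    -- splitting of the square sum
    have hP := b.pars (g n)
    have hPu := b.pars u
    have hlowE : ∑ j with ¬ (E₀ ≤ |b.E j|), ‖pr n (b.ψ j) (g n)‖ ^ 2 ≤ E₀ ^ 2 * ‖u‖ ^ 2 := by
      calc _ ≤ ∑ j with ¬ (E₀ ≤ |b.E j|), E₀ ^ 2 * ‖pr n (b.ψ j) u‖ ^ 2 := by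
            apply Finset.sum_le_sum
            intro j hj
            have h1 := (Finset.mem_filter.1 hj).2
            rw [not_le] at h1
            rw [hbE j, norm_mul, Complex.norm_real, Real.norm_eq_abs, mul_pow]
            gcongr
        _ ≤ ∑ j, E₀ ^ 2 * ‖pr n (b.ψ j) u‖ ^ 2 := by
            apply Finset.sum_le_sum_of_subset_of_nonneg (Finset.subset_univ _)
            intro j _ _; positivity
        _ = E₀ ^ 2 * ∑ x ∈ box (0 : Site d) n, ‖u x‖ ^ 2 := by
            rw [← Finset.mul_sum, hPu]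
        _ ≤ _ := by
            gcongr
            exact sum_le_norm_sq _ _
    have hsplit1 := Finset.sum_filter_add_sum_filter_not Finset.univ (fun j => E₀ ≤ |b.E j|)
      (fun j => ‖pr n (b.ψ j) (g n)‖ ^ 2)
    have hhigh : 3 * η / 4 ≤ ∑ j with E₀ ≤ |b.E j|, ‖pr n (b.ψ j) (g n)‖ ^ 2 := by
      rw [hP] at hsplit1
      linarith only [hsplit1, hlowE, hn1]
    -- far centres
    have hfar : ∑ j with E₀ ≤ |b.E j| ∧ R < sd 0 (b.c j), ‖pr n (b.ψ j) (g n)‖ ^ 2 ≤ η / 4 := by
      have h1 : ∀ j, ‖pr n (b.ψ j) (g n)‖ ^ 2 ≤ 2 * ‖pr n (b.ψ j) (trunc r w)‖ ^ 2 +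
          2 * ‖pr n (b.ψ j) (fun x => g n x - trunc r w x)‖ ^ 2 := by
        intro j
        rw [pr_sub]
        have h2 : ‖pr n (b.ψ j) (g n)‖ ≤ ‖pr n (b.ψ j) (trunc r w)‖ +
            ‖pr n (b.ψ j) (g n) - pr n (b.ψ j) (trunc r w)‖ := by
          have := norm_add_le (pr n (b.ψ j) (trunc r w))
            (pr n (b.ψ j) (g n) - pr n (b.ψ j) (trunc r w))
          rwa [add_sub_cancel] at this
        have h3 := pow_le_pow_left₀ (norm_nonneg _) h2 2
        nlinarith only [h3, sq_nonneg (‖pr n (b.ψ j) (trunc r w)‖ -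
          ‖pr n (b.ψ j) (g n) - pr n (b.ψ j) (trunc r w)‖)]
      have h2 : ∑ j, ‖pr n (b.ψ j) (fun x => g n x - trunc r w x)‖ ^ 2 ≤ η / 16 := by
        rw [b.pars]
        have h3 : ∀ x ∈ box (0 : Site d) n, ‖g n x - trunc r w x‖ ^ 2 ≤
            2 * ‖g n x - w x‖ ^ 2 + 2 * ‖(w - trunc r w) x‖ ^ 2 := by
          intro x _
          have h4 : ‖g n x - trunc r w x‖ ≤ ‖g n x - w x‖ + ‖(w - trunc r w) x‖ := by
            rw [lp.coeFn_sub, Pi.sub_apply]
            have := norm_add_le (g n x - w x) (w x - trunc r w x)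
            rwa [sub_add_sub_cancel] at this
          have h5 := pow_le_pow_left₀ (norm_nonneg _) h4 2
          nlinarith only [h5, sq_nonneg (‖g n x - w x‖ - ‖(w - trunc r w) x‖)]
        refine (Finset.sum_le_sum h3).trans ?_
        rw [Finset.sum_add_distrib, ← Finset.mul_sum, ← Finset.mul_sum]
        have h4 := hDn n
        have h5 := sum_le_norm_sq (w - trunc r w) (box (0 : Site d) n)
        linarith only [h5, h4, hn2, hr]
      have h3 : ∑ j with E₀ ≤ |b.E j| ∧ R < sd 0 (b.c j), ‖pr n (b.ψ j) (trunc r w)‖ ^ 2 ≤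
          η / 16 := by
        have h4 : ∀ j, ‖pr n (b.ψ j) (trunc r w)‖ ^ 2 ≤
            (∑ y ∈ box (0 : Site d) r, ‖b.ψ j y‖ ^ 2) * ‖w‖ ^ 2 := by
          intro j
          have h5 : pr n (b.ψ j) (trunc r w) = pr r (b.ψ j) w := by
            unfold pr
            rw [← Finset.sum_subset (box_mono 0 hn3)]
            · apply Finset.sum_congr rfl
              intro x hx
              rw [trunc_apply, if_pos hx]
            · intro x _ hx
              rw [trunc_apply, if_neg hx, mul_zero]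
          rw [h5]
          refine (pr_cs r (b.ψ j) w).trans ?_
          gcongr
          exact sum_le_norm_sq _ _
        have hcard : 0 < ((box (0 : Site d) r).card : ℝ) := by
          rw [card_box]; positivity
        calc _ ≤ ∑ j with E₀ ≤ |b.E j| ∧ R < sd 0 (b.c j),
              (∑ y ∈ box (0 : Site d) r, ‖b.ψ j y‖ ^ 2) * ‖w‖ ^ 2 :=
              Finset.sum_le_sum fun j _ => h4 j
          _ = (∑ y ∈ box (0 : Site d) r, ∑ j with E₀ ≤ |b.E j| ∧ R < sd 0 (b.c j),
              ‖b.ψ j y‖ ^ 2) * ‖w‖ ^ 2 := by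
              rw [← Finset.sum_mul, Finset.sum_comm]
          _ ≤ (∑ _y ∈ box (0 : Site d) r,
              η / (16 * ((box (0 : Site d) r).card * (‖w‖ ^ 2 + 1)))) * ‖w‖ ^ 2 := by
              gcongr with y hy
              exact hR n b y hy
          _ = (η / 16) * (‖w‖ ^ 2 / (‖w‖ ^ 2 + 1)) := by
              rw [Finset.sum_const, nsmul_eq_mul]
              field_simp
          _ ≤ (η / 16) * 1 := by
              gcongr
              rw [div_le_one (by positivity)]
              linarith only []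
          _ = η / 16 := mul_one _
      calc _ ≤ ∑ j with E₀ ≤ |b.E j| ∧ R < sd 0 (b.c j), (2 * ‖pr n (b.ψ j) (trunc r w)‖ ^ 2 +
            2 * ‖pr n (b.ψ j) (fun x => g n x - trunc r w x)‖ ^ 2) :=
            Finset.sum_le_sum fun j _ => h1 j
        _ = 2 * ∑ j with E₀ ≤ |b.E j| ∧ R < sd 0 (b.c j), ‖pr n (b.ψ j) (trunc r w)‖ ^ 2 +
            2 * ∑ j with E₀ ≤ |b.E j| ∧ R < sd 0 (b.c j),
              ‖pr n (b.ψ j) (fun x => g n x - trunc r w x)‖ ^ 2 := by
            rw [Finset.sum_add_distrib, ← Finset.mul_sum, ← Finset.mul_sum]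
        _ ≤ 2 * (η / 16) + 2 * (η / 16) := by
            gcongr
            refine le_trans ?_ h2
            apply Finset.sum_le_sum_of_subset_of_nonneg (Finset.subset_univ _)
            intro j _ _; positivity
        _ = η / 4 := by ring
    -- near centres
    set J := Finset.univ.filter fun j => E₀ ≤ |b.E j| ∧ sd 0 (b.c j) ≤ R with hJ
    have hnear : η / 2 ≤ ∑ j ∈ J, ‖pr n (b.ψ j) (g n)‖ ^ 2 := by
      have h1 := Finset.sum_filter_add_sum_filter_not
        (Finset.univ.filter fun j => E₀ ≤ |b.E j|) (fun j => sd 0 (b.c j) ≤ R)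
        (fun j => ‖pr n (b.ψ j) (g n)‖ ^ 2)
      rw [Finset.filter_filter, Finset.filter_filter] at h1
      simp only [not_le] at h1
      rw [hJ]
      linarith only [h1, hfar, hsplit1, hlowE, hP, hn1]
    obtain ⟨j, hj, hjβ⟩ : ∃ j ∈ J, β ≤ ‖pr n (b.ψ j) (g n)‖ ^ 2 := by
      by_contra hno
      push Not at hno
      have h1 : ∑ j ∈ J, ‖pr n (b.ψ j) (g n)‖ ^ 2 ≤ J.card * β := by
        rw [← nsmul_eq_mul, ← Finset.sum_const]
        exact Finset.sum_le_sum fun j hj => (hno j hj).le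
      have h2 : (J.card : ℝ) ≤ N := by exact_mod_cast hN n b
      have h3 : (N : ℝ) * β < η / 2 := by
        rw [hβ]
        have hN0 : (0:ℝ) ≤ N := by positivity
        have : (N : ℝ) * (η / (2 * (N + 1))) = (η / 2) * (N / (N + 1)) := by field_simp
        rw [this]
        have h4 : (N : ℝ) / (N + 1) < 1 := by
          rw [div_lt_one (by positivity)]; linarith only []
        nlinarith only [h4, hη0]
      have h4 : (J.card : ℝ) * β ≤ N * β := mul_le_mul_of_nonneg_right h2 hβ0.le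
      linarith only [h4, h3, h1, hnear]
    rw [hJ, Finset.mem_filter] at hj
    refine ⟨b.E j, b.ψ j, b.c j, hj.2.1, b.fin j, b.cen j, hj.2.2, ?_⟩
    have hEj := (b.fin j).energy_le (b.cen j)
    have hVc := hB (b.c j) (mem_box.2 hj.2.2)
    have h1 : √β ≤ |b.E j| * ‖pr n (b.ψ j) u‖ := by
      rw [hbE j, norm_mul, Complex.norm_real, Real.norm_eq_abs] at hjβ
      rw [← Real.sqrt_sq (show 0 ≤ |b.E j| * ‖pr n (b.ψ j) u‖ by positivity)]
      exact Real.sqrt_le_sqrt hjβ
    rw [hκ, div_le_iff₀ (by positivity)]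
    calc √β ≤ |b.E j| * ‖pr n (b.ψ j) u‖ := h1
      _ ≤ (2 * d + B + 1) * ‖pr n (b.ψ j) u‖ := by
          gcongr; linarith only [hVc, hEj]
      _ = _ := mul_comm _ _
  obtain ⟨E, ψ, hE, heig, hdec, hne⟩ := limit_eigen hμ h R u hκ0 main
  exact hne (horth E ψ hE heig hdec)

end Pool.Agent.Loc
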