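import Pool.Agent.Helper48_Loc.QFacts

/-!
# The moment recursion
-/

set_option autoImplicit false
set_option linter.unusedSectionVars false

open MeasureTheory ProbabilityTheory Function Filter

open scoped ENNReal BigOperators Topology NNReal

noncomputable section

namespace Pool.Agent.Loc

variable {n : Type*} [Fintype n] [DecidableEq n]

/-- mixed moments -/
def SS (C : Matrix n n ℝ) (σ : ℝ) (α m : ℕ) : ℝ :=
  ∫ ξ, (MM C σ ξ ^ m * QM C σ ^ α).trace ∂(γn n)

/-- the size of the remainder terms, relative to the dimension -/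
def bet (a g κ₂ σ : ℝ) (p : ℕ) : ℝ :=
  σ ^ 2 / a * (2 * (√g * √(σ ^ 4 * g ^ 2 * κ₂ / a)) +
    3 * (4 * Real.exp 1 * p * (σ ^ 2 * g * κ₂)) +
    3 * √(g * (4 * Real.exp 1 * p * (σ ^ 2 * g * κ₂))))

variable {C : Matrix n n ℝ} {a g κ₂ σ : ℝ}

theorem TT_zero (C : Matrix n n ℝ) (σ : ℝ) (α m : ℕ) (ξ : n → ℝ) :
    TT C σ (QM C σ ^ α) 0 m ξ = (MM C σ ξ ^ m * QM C σ ^ (α + 1)).trace := by
  unfold TT
  rw [pow_zero, mul_one]
  have h1 : ∀ Z : Matrix n n ℝ, σ ^ 2 * ∑ x, (C * C) x x * (C * Z * C) x x =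
      (QM C σ * Z).trace := by
    intro Z
    unfold QM
    rw [Matrix.smul_mul, Matrix.trace_smul, smul_eq_mul,
      show C * Matrix.diagonal (fun x => (C * C) x x) * C * Z =
        C * (Matrix.diagonal (fun x => (C * C) x x) * (C * Z)) by simp only [mul_assoc],
      Matrix.trace_mul_comm C,
      show Matrix.diagonal (fun x => (C * C) x x) * (C * Z) * C =
        Matrix.diagonal (fun x => (C * C) x x) * (C * Z * C) by simp only [mul_assoc]]
    congr 1
    unfold Matrix.trace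
    apply Finset.sum_congr rfl
    intro x _
    rw [Matrix.diag_apply, Matrix.diagonal_mul]
  rw [h1, Matrix.trace_mul_comm, pow_succ, mul_assoc]

theorem TT_swap (C : Matrix n n ℝ) (σ : ℝ) (i j : ℕ) (ξ : n → ℝ) :
    TT C σ 1 j i ξ = TT C σ 1 i j ξ := by
  unfold TT
  congr 1
  apply Finset.sum_congr rfl
  intro x _
  rw [mul_one, mul_one, mul_comm]

theorem SS_expand (C : Matrix n n ℝ) (σ : ℝ) (α m : ℕ) :
    SS C σ α (m + 2) = SS C σ (α + 1) m +
      ∑ j ∈ Finset.range m, ∫ ξ, TT C σ (QM C σ ^ α) (j + 1) (m - (j + 1)) ξ ∂(γn n) := by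
  unfold SS
  rw [ibp_trace C σ (m + 1) (QM C σ ^ α)]
  have h1 : ∀ j, ∫ ξ, σ ^ 2 * ∑ x, (C * MM C σ ξ ^ j * C) x x *
      (C * (MM C σ ξ ^ (m + 1 - 1 - j) * QM C σ ^ α) * C) x x ∂(γn n) =
      ∫ ξ, TT C σ (QM C σ ^ α) j (m - j) ξ ∂(γn n) := by
    intro j
    rfl
  simp_rw [h1]
  rw [Finset.sum_range_succ', add_comm]
  congr 1
  simp_rw [Nat.sub_zero, TT_zero]

/-- the constants used in the cases B -/
def A0 (g κ₂ σ : ℝ) (p : ℕ) : ℝ := 4 * Real.exp 1 * p * (σ ^ 2 * g * κ₂)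

theorem integral_B (hC : Hyp C a g κ₂) (hκ : 0 < κ₂) (hσ : σ ≠ 0) (hag : a * g ≤ 1) {p : ℕ}
    (hp : 1 ≤ p) (hm : SS C σ 0 (2 * p) ≤ Fintype.card n) {F : (n → ℝ) → ℝ} (hF : PB F)
    {c : ℝ} (hc : 0 ≤ c)
    (hb : ∀ ξ, |F ξ| ≤ σ ^ 2 * c * (1 / a * (Fintype.card n + (MM C σ ξ ^ (2 * p)).trace) +
      g * ∑ x, (c2 C σ x ξ / A0 g κ₂ σ p) ^ p)) :
    |∫ ξ, F ξ ∂(γn n)| ≤ Fintype.card n * (σ ^ 2 / a * (3 * c)) := by
  have ha := hC.ha
  have hg := hC.hg
  have hp0 : (0:ℝ) < p := by exact_mod_cast hp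
  have hA : 0 < A0 g κ₂ σ p := by
    unfold A0
    have : 0 < σ ^ 2 := by positivity
    positivity
  have hPt : PB (fun ξ : n → ℝ => (MM C σ ξ ^ (2 * p)).trace) := ((PBM_MM C σ).pow (2 * p)).trace
  have hPc : ∀ x, PB (fun ξ : n → ℝ => (c2 C σ x ξ / A0 g κ₂ σ p) ^ p) := by
    intro x
    have h1 : PB (fun ξ : n → ℝ => c2 C σ x ξ) :=
      (((PBM.const C).mul ((PBM_MM C σ).pow 2)).mul (PBM.const C)) x x
    have h2 := (h1.const_mul (A0 g κ₂ σ p)⁻¹).pow p
    simpa [div_eq_inv_mul] using h2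
  have hPsum : PB (fun ξ : n → ℝ => ∑ x, (c2 C σ x ξ / A0 g κ₂ σ p) ^ p) :=
    PB.sum _ fun x _ => hPc x
  have hPbig : PB (fun ξ : n → ℝ => σ ^ 2 * c * (1 / a * (Fintype.card n +
      (MM C σ ξ ^ (2 * p)).trace) + g * ∑ x, (c2 C σ x ξ / A0 g κ₂ σ p) ^ p)) :=
    ((((PB.const _).add hPt).const_mul _).add (hPsum.const_mul _)).const_mul _
  have h1 : |∫ ξ, F ξ ∂(γn n)| ≤ ∫ ξ, |F ξ| ∂(γn n) := abs_integral_le_integral_abs
  refine h1.trans ((integral_mono hF.abs.integrable hPbig.integrable hb).trans ?_)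
  rw [integral_const_mul, integral_add ((((PB.const _).add hPt).const_mul _).integrable)
    ((hPsum.const_mul _).integrable), integral_const_mul, integral_const_mul,
    integral_add (PB.const _).integrable hPt.integrable, integral_finsetSum _
    fun x _ => (hPc x).integrable]
  have h2 : ∫ ξ, (MM C σ ξ ^ (2 * p)).trace ∂(γn n) ≤ Fintype.card n := by
    unfold SS at hm
    simpa using hm
  have h3 : ∑ x, ∫ ξ, (c2 C σ x ξ / A0 g κ₂ σ p) ^ p ∂(γn n) ≤ Fintype.card n := by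
    calc _ ≤ ∑ _x : n, (1:ℝ) := by
          apply Finset.sum_le_sum
          intro x _
          simp_rw [div_pow]
          rw [integral_div, div_le_one (by positivity)]
          exact moment_c2 hC σ x hp
      _ = _ := by simp
  have h4 : ∫ _ξ : n → ℝ, (Fintype.card n : ℝ) ∂(γn n) = Fintype.card n := by simp
  rw [h4]
  have hN : (0:ℝ) ≤ Fintype.card n := by positivity
  have hga : g ≤ 1 / a := by
    rw [le_div_iff₀ ha]; linarith [mul_comm a g]
  calc σ ^ 2 * c * (1 / a * (Fintype.card n + ∫ ξ, (MM C σ ξ ^ (2 * p)).trace ∂(γn n)) +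
        g * ∑ x, ∫ ξ, (c2 C σ x ξ / A0 g κ₂ σ p) ^ p ∂(γn n))
      ≤ σ ^ 2 * c * (1 / a * (Fintype.card n + Fintype.card n) + 1 / a * Fintype.card n) := by
        have h5 := mul_le_mul_of_nonneg_left h3 hg.le
        have h6 := mul_le_mul_of_nonneg_right hga hN
        apply mul_le_mul_of_nonneg_left _ (by positivity)
        apply add_le_add _ (h5.trans h6)
        gcongr
    _ = _ := by ring

theorem bet_nonneg (hC : Hyp C a g κ₂) (σ : ℝ) (p : ℕ) : 0 ≤ bet a g κ₂ σ p := by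
  have := hC.ha
  have := hC.hg
  have := hC.hκ
  unfold bet
  positivity

/-- every remainder term is small -/
theorem remainder (hC : Hyp C a g κ₂) (hκ : 0 < κ₂) (hσ : σ ≠ 0) (hag : a * g ≤ 1)
    (hq : σ ^ 2 * g / a ≤ 1) {p : ℕ} (hp : 1 ≤ p) (hm : SS C σ 0 (2 * p) ≤ Fintype.card n)
    {α j i h : ℕ} (hj : 1 ≤ j) (hi : i + j = 2 * h) (hh : h < p) (hcase : j ≤ i ∨ 1 ≤ α) :
    |∫ ξ, TT C σ (QM C σ ^ α) j i ξ ∂(γn n)| ≤ Fintype.card n * bet a g κ₂ σ p := by
  have ha := hC.ha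
  have hg := hC.hg
  have hp0 : (0:ℝ) < p := by exact_mod_cast hp
  have hσ2 : 0 < σ ^ 2 := by positivity
  have hA : 0 < A0 g κ₂ σ p := by unfold A0; positivity
  have hN : (0:ℝ) ≤ Fintype.card n := by positivity
  have hY := QM_contr hC hq α
  have hYC := QM_diag_bound hC hq α
  have hPB := PB_TT C σ (QM C σ ^ α) j i
  have t1 : 0 ≤ 2 * (√g * √(σ ^ 4 * g ^ 2 * κ₂ / a)) := by positivity
  have t2 : 0 ≤ 3 * A0 g κ₂ σ p := by positivity
  have t3 : 0 ≤ 3 * √(g * A0 g κ₂ σ p) := by positivity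
  have hbet : bet a g κ₂ σ p = σ ^ 2 / a * (2 * (√g * √(σ ^ 4 * g ^ 2 * κ₂ / a)) +
      3 * A0 g κ₂ σ p + 3 * √(g * A0 g κ₂ σ p)) := rfl
  by_cases hij : j ≤ i
  · -- case B
    rcases Nat.lt_or_ge 1 j with hj2 | hj1
    · -- B2
      obtain ⟨h', hh'⟩ : ∃ h', h = h' + 1 := ⟨h - 1, by omega⟩
      have hb := fun ξ => TT_B2 (σ := σ) hC hY hYC hA (i := i) (j := j) (h := h') (p := p) hj2 hij
        (by omega) (by omega) ξ
      refine (integral_B hC hκ hσ hag hp hm hPB hA.le hb).trans ?_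
      apply mul_le_mul_of_nonneg_left _ hN
      rw [hbet]
      apply mul_le_mul_of_nonneg_left _ (by positivity)
      linarith
    · -- B1
      have hj' : j = 1 := by omega
      subst hj'
      obtain ⟨h', hh'⟩ : ∃ h', h = h' + 1 := ⟨h - 1, by omega⟩
      have hb := fun ξ => TT_B1 (σ := σ) hC hY hYC hA (i := i) (h := h') (p := p)
        (by omega) (by omega) ξ
      refine (integral_B hC hκ hσ hag hp hm hPB (Real.sqrt_nonneg _) hb).trans ?_
      apply mul_le_mul_of_nonneg_left _ hN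
      rw [hbet]
      apply mul_le_mul_of_nonneg_left _ (by positivity)
      linarith
  · -- case A
    have hα : 1 ≤ α := by
      rcases hcase with h1 | h1
      · exact absurd h1 hij
      · exact h1
    have hlam : ∀ x, (C * (QM C σ ^ α * QM C σ ^ α) * C) x x ≤
        (√(σ ^ 4 * g ^ 2 * κ₂ / a)) ^ 2 := by
      intro x
      rw [Real.sq_sqrt (by positivity)]
      exact QM_pow_bound hC hq hα x
    have hb := fun ξ => TT_A (σ := σ) hC hY (Real.sqrt_nonneg _) hlam (i := i) (j := j) (h := h)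
      (p := p) (by omega) hi hh.le (by omega) ξ
    have hPt : PB (fun ξ : n → ℝ => (MM C σ ξ ^ (2 * p)).trace) :=
      ((PBM_MM C σ).pow (2 * p)).trace
    have h1 : |∫ ξ, TT C σ (QM C σ ^ α) j i ξ ∂(γn n)| ≤
        ∫ ξ, |TT C σ (QM C σ ^ α) j i ξ| ∂(γn n) := abs_integral_le_integral_abs
    refine h1.trans ((integral_mono hPB.abs.integrable
      ((((PB.const _).add hPt).const_mul _).const_mul _).integrable hb).trans ?_)
    rw [integral_const_mul, integral_const_mul, integral_add (PB.const _).integrable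
      hPt.integrable]
    have h2 : ∫ ξ, (MM C σ ξ ^ (2 * p)).trace ∂(γn n) ≤ Fintype.card n := by
      unfold SS at hm
      simpa using hm
    have h4 : ∫ _ξ : n → ℝ, (Fintype.card n : ℝ) ∂(γn n) = Fintype.card n := by simp
    rw [h4]
    calc σ ^ 2 * (√g * √(σ ^ 4 * g ^ 2 * κ₂ / a)) *
          (1 / a * (Fintype.card n + ∫ ξ, (MM C σ ξ ^ (2 * p)).trace ∂(γn n)))
        ≤ σ ^ 2 * (√g * √(σ ^ 4 * g ^ 2 * κ₂ / a)) *
          (1 / a * (Fintype.card n + Fintype.card n)) := by gcongr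
      _ = Fintype.card n * (σ ^ 2 / a * (2 * (√g * √(σ ^ 4 * g ^ 2 * κ₂ / a)))) := by ring
      _ ≤ _ := by
          apply mul_le_mul_of_nonneg_left _ hN
          rw [hbet]
          apply mul_le_mul_of_nonneg_left _ (by positivity)
          linarith

/-- one step of the recursion for `α ≥ 1` -/
theorem SS_step (hC : Hyp C a g κ₂) (hκ : 0 < κ₂) (hσ : σ ≠ 0) (hag : a * g ≤ 1)
    (hq : σ ^ 2 * g / a ≤ 1) {p : ℕ} (hp : 1 ≤ p) (hm : SS C σ 0 (2 * p) ≤ Fintype.card n)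
    {α h : ℕ} (hα : 1 ≤ α) (hh : h < p) :
    SS C σ α (2 * h + 2) ≤ SS C σ (α + 1) (2 * h) +
      2 * p * (Fintype.card n * bet a g κ₂ σ p) := by
  rw [SS_expand]
  have h1 : ∀ j ∈ Finset.range (2 * h),
      ∫ ξ, TT C σ (QM C σ ^ α) (j + 1) (2 * h - (j + 1)) ξ ∂(γn n) ≤
        Fintype.card n * bet a g κ₂ σ p := by
    intro j hj
    rw [Finset.mem_range] at hj
    exact (le_abs_self _).trans (remainder hC hκ hσ hag hq hp hm (by omega) (h := h) (by omega) hh
      (Or.inr hα))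
  have h2 := Finset.sum_le_sum h1
  rw [Finset.sum_const, Finset.card_range, nsmul_eq_mul] at h2
  have hb := bet_nonneg hC σ p
  have hN : (0:ℝ) ≤ Fintype.card n := by positivity
  have h3 : ((2 * h : ℕ) : ℝ) ≤ 2 * p := by
    have : 2 * h ≤ 2 * p := by omega
    exact_mod_cast this
  have h4 : ((2 * h : ℕ) : ℝ) * (Fintype.card n * bet a g κ₂ σ p) ≤
      2 * p * (Fintype.card n * bet a g κ₂ σ p) := by
    apply mul_le_mul_of_nonneg_right h3 (by positivity)
  linarith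

/-- the first step -/
theorem SS_first (hC : Hyp C a g κ₂) (hκ : 0 < κ₂) (hσ : σ ≠ 0) (hag : a * g ≤ 1)
    (hq : σ ^ 2 * g / a ≤ 1) {h : ℕ} (hh : 1 ≤ h)
    (hm : SS C σ 0 (2 * (h + 1)) ≤ Fintype.card n) :
    SS C σ 0 (2 * h + 2) ≤ 2 * SS C σ 1 (2 * h) +
      2 * (h + 1 : ℕ) * (Fintype.card n * bet a g κ₂ σ (h + 1)) := by
  rw [SS_expand, zero_add]
  obtain ⟨m, hm2⟩ : ∃ m, 2 * h = m + 1 := ⟨2 * h - 1, by omega⟩
  have hlast : ∫ ξ, TT C σ (QM C σ ^ 0) (2 * h) (2 * h - 2 * h) ξ ∂(γn n) =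
      SS C σ 1 (2 * h) := by
    unfold SS
    congr 1
    funext ξ
    rw [Nat.sub_self, pow_zero, TT_swap]
    have := TT_zero C σ 0 (2 * h) ξ
    rw [pow_zero, zero_add] at this
    exact this
  have h1 : ∑ j ∈ Finset.range (2 * h),
      ∫ ξ, TT C σ (QM C σ ^ 0) (j + 1) (2 * h - (j + 1)) ξ ∂(γn n) =
      (∑ j ∈ Finset.range m,
        ∫ ξ, TT C σ (QM C σ ^ 0) (j + 1) (2 * h - (j + 1)) ξ ∂(γn n)) + SS C σ 1 (2 * h) := by
    rw [← hlast]
    conv_lhs => rw [hm2, Finset.sum_range_succ]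
    rw [hm2]
  rw [h1]
  have h2 : ∀ j ∈ Finset.range m,
      ∫ ξ, TT C σ (QM C σ ^ 0) (j + 1) (2 * h - (j + 1)) ξ ∂(γn n) ≤
        Fintype.card n * bet a g κ₂ σ (h + 1) := by
    intro j hj
    rw [Finset.mem_range] at hj
    rcases le_total (j + 1) (2 * h - (j + 1)) with h3 | h3
    · exact (le_abs_self _).trans (remainder hC hκ hσ hag hq (by omega) hm (by omega) (h := h)
        (by omega) (by omega) (Or.inl h3))
    · have e : ∀ ξ, TT C σ (QM C σ ^ 0) (j + 1) (2 * h - (j + 1)) ξ =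
          TT C σ (QM C σ ^ 0) (2 * h - (j + 1)) (j + 1) ξ := by
        intro ξ
        rw [pow_zero, TT_swap]
      simp_rw [e]
      exact (le_abs_self _).trans (remainder hC hκ hσ hag hq (by omega) hm (by omega) (h := h)
        (by omega) (by omega) (Or.inl h3))
  have h3 := Finset.sum_le_sum h2
  rw [Finset.sum_const, Finset.card_range, nsmul_eq_mul] at h3
  have hb := bet_nonneg hC σ (h + 1)
  have hN : (0:ℝ) ≤ Fintype.card n := by positivity
  have h5 : (m : ℝ) ≤ 2 * (h + 1 : ℕ) := by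
    have : m ≤ 2 * (h + 1) := by omega
    exact_mod_cast this
  have h4 : (m : ℝ) * (Fintype.card n * bet a g κ₂ σ (h + 1)) ≤
      2 * (h + 1 : ℕ) * (Fintype.card n * bet a g κ₂ σ (h + 1)) := by
    apply mul_le_mul_of_nonneg_right h5 (by positivity)
  linarith

/-- **The normalised moment bound.** -/
theorem SS_normalised (hC : Hyp C a g κ₂) (hκ : 0 < κ₂) (hσ : σ ≠ 0) (hag : a * g ≤ 1)
    (hq : σ ^ 2 * g / a ≤ 1) {p : ℕ} (hp : 2 ≤ p) (hm : SS C σ 0 (2 * p) ≤ Fintype.card n) :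
    SS C σ 0 (2 * p) ≤ 2 * (Fintype.card n * (σ ^ 2 * g / a) ^ p) +
      4 * p ^ 2 * (Fintype.card n * bet a g κ₂ σ p) := by
  have hN : (0:ℝ) ≤ Fintype.card n := by positivity
  have hb := bet_nonneg hC σ p
  -- descending recursion
  have hrec : ∀ k : ℕ, ∀ α : ℕ, 1 ≤ α → α + k = p →
      SS C σ α (2 * k) ≤ Fintype.card n * (σ ^ 2 * g / a) ^ p +
        k * (2 * p * (Fintype.card n * bet a g κ₂ σ p)) := by
    intro k
    induction k with
    | zero =>
      intro α hα hαp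
      have h1 : SS C σ α (2 * 0) = (QM C σ ^ α).trace := by
        unfold SS
        simp
      rw [h1, ← hαp, Nat.add_zero, Nat.cast_zero, zero_mul, add_zero]
      exact trace_QM_le hC σ α
    | succ k ih =>
      intro α hα hαp
      have h1 := ih (α + 1) (by omega) (by omega)
      have h2 := SS_step hC hκ hσ hag hq (by omega) hm (α := α) (h := k) hα (by omega)
      rw [show 2 * (k + 1) = 2 * k + 2 by ring]
      push_cast
      linarith
  obtain ⟨h, rfl⟩ : ∃ h, p = h + 1 := ⟨p - 1, by omega⟩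
  have h1 := SS_first hC hκ hσ hag hq (h := h) (by omega) hm
  have h2 := hrec h 1 le_rfl (by omega)
  rw [show 2 * (h + 1) = 2 * h + 2 by ring] at *
  have h3 : (h : ℝ) ≤ (h + 1 : ℕ) := by push_cast; linarith
  set P : ℝ := ((h + 1 : ℕ) : ℝ) with hP
  set X := Fintype.card n * bet a g κ₂ σ (h + 1) with hX
  have hX0 : 0 ≤ X := by positivity
  have hP0 : 0 ≤ P := by positivity
  have h4 : P = h + 1 := by rw [hP]; push_cast; ring
  have hh0 : (0:ℝ) ≤ h := by positivity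
  calc SS C σ 0 (2 * h + 2) ≤ 2 * SS C σ 1 (2 * h) + 2 * P * X := h1
    _ ≤ 2 * (Fintype.card n * (σ ^ 2 * g / a) ^ (h + 1) + h * (2 * P * X)) + 2 * P * X := by
        linarith
    _ ≤ _ := by
        have : (h : ℝ) = P - 1 := by linarith
        rw [this]
        nlinarith [mul_nonneg hP0 hX0]

end Pool.Agent.Loc
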