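import Pool.Agent.Helper48_Loc.Geom

/-!
# The finite-volume criterion: exponential decay of the fractional moments
-/

set_option autoImplicit false
set_option linter.unusedSectionVars false

open MeasureTheory ProbabilityTheory Function

open scoped ENNReal BigOperators

noncomputable section

namespace Pool.Agent.Loc

open Pool.Agent.Anderson

variable {d : ℕ} {ν : Measure ℝ} [IsProbabilityMeasure ν] {ρ : ℝ}

/-- The initial scale estimate at the energy `E`: in all parts of boxes of radius `L` the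
expectation of the square root of the Green function between the centre and the boundary is at
most `ε`. -/
def InitScale (d : ℕ) (ν : Measure ℝ) (L : ℕ) (ε E : ℝ) : Prop :=
  ∀ (x : Site d) (W : Finset (Site d)), x ∈ W → W ⊆ box x L → ∀ u ∈ W, sd x u = L →
    ∫⁻ V, qg W E x u V ∂(PL ν W) ≤ ENNReal.ofReal ε

theorem term_bound (hν : BddDens ν ρ) {Λ A B : Finset (Site d)} (hA : A ⊆ Λ) (hB : B ⊆ Λ)
    (hAB : Disjoint A B) (E : ℝ) (x u v' y : Site d) {u' v : Site d}
    (hu' : u' ∈ Λ) (hu'A : u' ∉ A) (hu'B : u' ∉ B) (hv : v ∈ Λ) (hvA : v ∉ A) (hvB : v ∉ B) :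
    ∫⁻ V, qg A E x u V * qg B E v' y V * qg Λ E u' v V ∂(PL ν Λ) ≤
      (∫⁻ V, qg A E x u V ∂(PL ν A)) * (∫⁻ V, qg B E v' y V ∂(PL ν B)) *
        ENNReal.ofReal (2 * √(6 * ρ)) := by
  set S : Finset (Site d) := {u', v} with hS
  have hSΛ : S ⊆ Λ := by
    intro z hz
    simp only [hS, Finset.mem_insert, Finset.mem_singleton] at hz
    rcases hz with rfl | rfl <;> assumption
  have hAS : Disjoint A S := by
    rw [Finset.disjoint_right]
    intro z hz
    simp only [hS, Finset.mem_insert, Finset.mem_singleton] at hz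
    rcases hz with rfl | rfl <;> assumption
  have hBS : Disjoint B S := by
    rw [Finset.disjoint_right]
    intro z hz
    simp only [hS, Finset.mem_insert, Finset.mem_singleton] at hz
    rcases hz with rfl | rfl <;> assumption
  have mA := measurable_qg A E x u
  have mB := measurable_qg B E v' y
  have mC := measurable_qg Λ E u' v
  have mAB : Measurable fun V => qg A E x u V * qg B E v' y V := mA.mul mB
  have mABC : Measurable fun V => qg A E x u V * qg B E v' y V * qg Λ E u' v V := mAB.mul mC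
  rw [lintegral_PL _ mABC, lintegral_PL _ mA, lintegral_PL _ mB]
  have e0 : (∫⋯∫⁻_Λ, (fun V => qg A E x u V * qg B E v' y V * qg Λ E u' v V) ∂(fun _ => ν)) 0 =
      (∫⋯∫⁻_(Λ \ S), (∫⋯∫⁻_S, (fun V => qg A E x u V * qg B E v' y V * qg Λ E u' v V)
        ∂(fun _ => ν)) ∂(fun _ => ν)) 0 := by
    rw [← lmarginal_union _ _ mABC Finset.sdiff_disjoint, Finset.sdiff_union_of_subset hSΛ]
  rw [e0]
  have hfree : Free (fun V => qg A E x u V * qg B E v' y V) S := by
    intro V V' h
    have h1 := (only_qg A E x u).free hAS V V' h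
    have h2 := (only_qg B E v' y).free hBS V V' h
    beta_reduce
    rw [h1, h2]
  have e1 : (∫⋯∫⁻_S, (fun V => qg A E x u V * qg B E v' y V * qg Λ E u' v V) ∂(fun _ => ν)) =
      fun V => (qg A E x u V * qg B E v' y V) * (∫⋯∫⁻_S, qg Λ E u' v ∂(fun _ => ν)) V :=
    marg_mul_left hfree mC
  rw [e1]
  have e2 : (fun V => (qg A E x u V * qg B E v' y V) * (∫⋯∫⁻_S, qg Λ E u' v ∂(fun _ => ν)) V) ≤
      fun V => ENNReal.ofReal (2 * √(6 * ρ)) * (qg A E x u V * qg B E v' y V) := by
    intro V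
    beta_reduce
    rw [mul_comm (ENNReal.ofReal (2 * √(6 * ρ)))]
    gcongr
    exact marg_sqrt hν V Λ E u' v
  refine (lmarginal_mono e2 0).trans ?_
  rw [marg_const_mul _ mAB, marg_mul mA mB (only_qg A E x u) (only_qg B E v' y) hAB]
  · rw [mul_comm]
  · intro z hz
    rw [Finset.mem_sdiff]
    rcases Finset.mem_union.1 hz with h | h
    · exact ⟨hA h, Finset.disjoint_left.1 hAS h⟩
    · exact ⟨hB h, Finset.disjoint_left.1 hBS h⟩

/-- One step of the finite-volume criterion. -/
theorem fm_step (hν : BddDens ν ρ) {L : ℕ} {ε E : ℝ} (hinit : InitScale d ν L ε E)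
    {Λ : Finset (Site d)} {x y : Site d} (hx : x ∈ Λ) (hy : y ∈ Λ) (hxy : L + 2 ≤ sd x y)
    {F : ℝ≥0∞} (hF : ∀ (Λ' : Finset (Site d)) (v' : Site d), v' ∈ Λ' → y ∈ Λ' →
      sd x y ≤ sd v' y + (L + 2) → ∫⁻ V, qg Λ' E v' y V ∂(PL ν Λ') ≤ F) :
    ∫⁻ V, qg Λ E x y V ∂(PL ν Λ) ≤ ENNReal.ofReal (2 * d) * (((2 * L + 5) ^ d) ^ 4 : ℕ) *
      (ENNReal.ofReal ε * F * ENNReal.ofReal (2 * √(6 * ρ))) := by
  set W := Λ ∩ box x L with hW
  set W' := Λ ∩ box x (L + 1) with hW'
  have hWW' : W ⊆ W' := Finset.inter_subset_inter_left (box_mono x (by omega))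
  have hxW : x ∈ W := by
    rw [hW, Finset.mem_inter, mem_box, sd_self]; exact ⟨hx, by omega⟩
  have hyW' : y ∈ Λ \ W' := by
    rw [Finset.mem_sdiff, hW', Finset.mem_inter, mem_box]
    exact ⟨hy, fun h => by omega⟩
  have n1 := PL_det hν W Λ Finset.inter_subset_left E
  have n2 := PL_det hν (Λ \ W') Λ Finset.sdiff_subset E
  have hae : ∀ᵐ V ∂(PL ν Λ), qg Λ E x y V ≤ ENNReal.ofReal (2 * d) *
      ∑ u ∈ W.filter (fun u => sd x u = L), ∑ u' ∈ W' \ W, ∑ v ∈ W' \ W,
        ∑ v' ∈ (Λ \ W') ∩ box x (L + 2),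
          qg W E x u V * qg (Λ \ W') E v' y V * qg Λ E u' v V := by
    have n1' : ∀ᵐ V ∂(PL ν Λ), (RM V W E).det ≠ 0 := by
      rw [ae_iff]; simpa using n1
    have n2' : ∀ᵐ V ∂(PL ν Λ), (RM V (Λ \ W') E).det ≠ 0 := by
      rw [ae_iff]; simpa using n2
    filter_upwards [n1', n2'] with V h1 h2
    exact qg_step hx hy hxy h1 h2
  have mt : ∀ u u' v v' : Site d, Measurable fun V =>
      qg W E x u V * qg (Λ \ W') E v' y V * qg Λ E u' v V := fun u u' v v' =>
    ((measurable_qg _ _ _ _).mul (measurable_qg _ _ _ _)).mul (measurable_qg _ _ _ _)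
  refine (lintegral_mono_ae hae).trans ?_
  rw [lintegral_const_mul _ (Finset.measurable_sum _ fun u _ => Finset.measurable_sum _ fun u' _ =>
    Finset.measurable_sum _ fun v _ => Finset.measurable_sum _ fun v' _ => mt u u' v v'),
    mul_assoc]
  gcongr
  rw [lintegral_finsetSum _ fun u _ => Finset.measurable_sum _ fun u' _ =>
    Finset.measurable_sum _ fun v _ => Finset.measurable_sum _ fun v' _ => mt u u' v v']
  set Cst := ENNReal.ofReal ε * F * ENNReal.ofReal (2 * √(6 * ρ)) with hCst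
  have hcard1 : (W.filter (fun u => sd x u = L)).card ≤ (2 * L + 5) ^ d := by
    have h1 : (W.filter (fun u => sd x u = L)).card ≤ (box x (L + 2)).card := by
      apply Finset.card_le_card
      refine (Finset.filter_subset _ _).trans (Finset.inter_subset_right.trans (box_mono x (by omega)))
    rw [card_box] at h1
    exact h1
  have hcard2 : (W' \ W).card ≤ (2 * L + 5) ^ d := by
    have h1 : (W' \ W).card ≤ (box x (L + 2)).card := by
      apply Finset.card_le_card
      refine (Finset.sdiff_subset).trans (Finset.inter_subset_right.trans (box_mono x (by omega)))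
    rw [card_box] at h1
    exact h1
  have hcard3 : ((Λ \ W') ∩ box x (L + 2)).card ≤ (2 * L + 5) ^ d := by
    have h1 : ((Λ \ W') ∩ box x (L + 2)).card ≤ (box x (L + 2)).card :=
      Finset.card_le_card Finset.inter_subset_right
    rw [card_box] at h1
    exact h1
  have hb : ∀ u ∈ W.filter (fun u => sd x u = L), ∀ u' ∈ W' \ W, ∀ v ∈ W' \ W,
      ∀ v' ∈ (Λ \ W') ∩ box x (L + 2),
      ∫⁻ V, qg W E x u V * qg (Λ \ W') E v' y V * qg Λ E u' v V ∂(PL ν Λ) ≤ Cst := by
    intro u hu u' hu' v hv v' hv'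
    rw [Finset.mem_filter] at hu
    rw [Finset.mem_sdiff] at hu' hv
    rw [Finset.mem_inter, mem_box] at hv'
    have hdisj : Disjoint W (Λ \ W') := by
      rw [Finset.disjoint_left]
      intro z hz hz'
      exact (Finset.mem_sdiff.1 hz').2 (hWW' hz)
    refine (term_bound hν (Λ := Λ) (A := W) (B := Λ \ W') Finset.inter_subset_left
      Finset.sdiff_subset hdisj E x u v' y
      (Finset.inter_subset_left hu'.1) hu'.2 (fun h => (Finset.mem_sdiff.1 h).2 hu'.1)
      (Finset.inter_subset_left hv.1) hv.2 (fun h => (Finset.mem_sdiff.1 h).2 hv.1)).trans ?_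
    rw [hCst]
    gcongr
    · exact hinit x W hxW Finset.inter_subset_right u hu.1 hu.2
    · apply hF _ _ hv'.1 hyW'
      have := sd_triangle x v' y
      omega
  calc _ ≤ ∑ _u ∈ W.filter (fun u => sd x u = L), (((2 * L + 5) ^ d) ^ 3 : ℕ) * Cst := by
        apply Finset.sum_le_sum
        intro u hu
        rw [lintegral_finsetSum _ fun u' _ =>
          Finset.measurable_sum _ fun v _ => Finset.measurable_sum _ fun v' _ => mt u u' v v']
        calc _ ≤ ∑ _u' ∈ W' \ W, (((2 * L + 5) ^ d) ^ 2 : ℕ) * Cst := by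
              apply Finset.sum_le_sum
              intro u' hu'
              rw [lintegral_finsetSum _ fun v _ => Finset.measurable_sum _ fun v' _ => mt u u' v v']
              calc _ ≤ ∑ _v ∈ W' \ W, (((2 * L + 5) ^ d) : ℕ) * Cst := by
                    apply Finset.sum_le_sum
                    intro v hv
                    rw [lintegral_finsetSum _ fun v' _ => mt u u' v v']
                    refine (Finset.sum_le_sum fun v' hv' => hb u hu u' hu' v hv v' hv').trans ?_
                    rw [Finset.sum_const, nsmul_eq_mul]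
                    gcongr
                _ ≤ _ := by
                    rw [Finset.sum_const, nsmul_eq_mul, ← mul_assoc]
                    gcongr
                    rw [pow_two]
                    push_cast
                    gcongr
                    exact_mod_cast hcard2
          _ ≤ _ := by
              rw [Finset.sum_const, nsmul_eq_mul, ← mul_assoc]
              gcongr
              rw [show ((2 * L + 5) ^ d) ^ 3 = (2 * L + 5) ^ d * ((2 * L + 5) ^ d) ^ 2 by ring]
              push_cast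
              gcongr
              exact_mod_cast hcard2
    _ ≤ _ := by
        rw [Finset.sum_const, nsmul_eq_mul, ← mul_assoc]
        gcongr
        rw [show ((2 * L + 5) ^ d) ^ 4 = (2 * L + 5) ^ d * ((2 * L + 5) ^ d) ^ 3 by ring]
        push_cast
        gcongr
        exact_mod_cast hcard1

/-- Exponential decay of the fractional moments, uniformly in the finite volume. -/
theorem fm_decay (hν : BddDens ν ρ) {L : ℕ} {ε E : ℝ} (hε : 0 ≤ ε) (hinit : InitScale d ν L ε E)
    {K : ℝ} (hK : 2 * d * ((2 * L + 5) ^ d) ^ 4 * (ε * (2 * √(6 * ρ))) ≤ K) (k : ℕ) :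
    ∀ (Λ : Finset (Site d)) (x y : Site d), x ∈ Λ → y ∈ Λ → k * (L + 2) ≤ sd x y →
      ∫⁻ V, qg Λ E x y V ∂(PL ν Λ) ≤ ENNReal.ofReal (2 * √(6 * ρ) * K ^ k) := by
  have hρ := hν.1
  have hK0 : 0 ≤ K := le_trans (by positivity) hK
  induction k with
  | zero =>
    intro Λ x y hx hy _
    rw [pow_zero, mul_one]
    exact PL_sqrt hν Λ E x y
  | succ k ih =>
    intro Λ x y hx hy hxy
    have hxy' : L + 2 ≤ sd x y := by
      rw [add_mul, one_mul] at hxy; omega
    have h1 := fm_step hν hinit hx hy hxy' (F := ENNReal.ofReal (2 * √(6 * ρ) * K ^ k))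
      (fun Λ' v' hv' hy' hd' => ih Λ' v' y hv' hy' (by rw [add_mul, one_mul] at hxy; omega))
    refine h1.trans ?_
    rw [← ENNReal.ofReal_natCast, ← ENNReal.ofReal_mul (by positivity),
      ← ENNReal.ofReal_mul hε, ← ENNReal.ofReal_mul (by positivity),
      ← ENNReal.ofReal_mul (by positivity)]
    apply ENNReal.ofReal_le_ofReal
    push_cast
    calc 2 * (d:ℝ) * ((2 * L + 5) ^ d) ^ 4 * (ε * (2 * √(6 * ρ) * K ^ k) * (2 * √(6 * ρ)))
        = (2 * d * ((2 * L + 5) ^ d) ^ 4 * (ε * (2 * √(6 * ρ)))) * (2 * √(6 * ρ) * K ^ k) := by ring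
      _ ≤ K * (2 * √(6 * ρ) * K ^ k) := mul_le_mul_of_nonneg_right hK (by positivity)
      _ = _ := by ring

/-- decay in probability in terms of the measure `PL` -/
theorem prob_decay (hν : BddDens ν ρ) {L : ℕ} {ε E : ℝ} (hε : 0 ≤ ε)
    (hinit : InitScale d ν L ε E)
    (hK : 2 * d * ((2 * L + 5) ^ d) ^ 4 * (ε * (2 * √(6 * ρ))) ≤ Real.exp (-1))
    (Λ : Finset (Site d)) {x y : Site d} (hx : x ∈ Λ) (hy : y ∈ Λ) :
    PL ν Λ {V | ¬ Good V Λ E x y (Real.exp (-(2 / (3 * (L + 2))) * sd x y))} ≤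
      ENNReal.ofReal (2 * √(6 * ρ) * Real.exp 1 * Real.exp (-(2 / (3 * (L + 2))) * sd x y)) := by
  have hρ := hν.1
  set μ : ℝ := 2 / (3 * (L + 2)) with hμ
  have hμ0 : 0 < μ := by positivity
  set s : ℝ := (sd x y : ℝ) with hs
  set k := sd x y / (L + 2) with hk
  have hk1 : k * (L + 2) ≤ sd x y := Nat.div_mul_le_self _ _
  have hk2 : s ≤ (k + 1) * (L + 2) := by
    rw [hs, hk]
    have : sd x y ≤ (sd x y / (L + 2) + 1) * (L + 2) := by
      have := Nat.lt_div_mul_add (a := sd x y) (b := L + 2) (by omega)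
      rw [add_mul, one_mul]
      omega
    exact_mod_cast this
  have h1 := fm_decay hν hε hinit hK k Λ x y hx hy hk1
  have hdet := PL_det hν Λ Λ le_rfl E
  have hsub : {V : Site d → ℝ | ¬ Good V Λ E x y (Real.exp (-μ * s))} ⊆
      {V | (RM V Λ E).det = 0} ∪
        {V | ENNReal.ofReal (√(Real.exp (-μ * s))) ≤ qg Λ E x y V} := by
    intro V hV
    rw [Set.mem_ofPred_eq, Good, not_and_or, not_not, not_lt] at hV
    rcases hV with h | h
    · exact Or.inl h
    · right
      rw [Set.mem_ofPred_eq, qg]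
      exact ENNReal.ofReal_le_ofReal (Real.sqrt_le_sqrt h)
  refine (measure_mono hsub).trans ((measure_union_le _ _).trans ?_)
  rw [hdet, zero_add]
  have h2 := mul_meas_ge_le_lintegral (μ := PL ν Λ) (measurable_qg Λ E x y)
    (ENNReal.ofReal (√(Real.exp (-μ * s))))
  have h3 := h2.trans h1
  have hpos : 0 < √(Real.exp (-μ * s)) := Real.sqrt_pos.2 (Real.exp_pos _)
  rw [ENNReal.mul_le_iff_le_inv (by simpa using hpos) ENNReal.ofReal_ne_top,
    ← ENNReal.ofReal_inv_of_pos hpos, ← ENNReal.ofReal_mul (by positivity)] at h3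
  refine h3.trans (ENNReal.ofReal_le_ofReal ?_)
  have e1 : (√(Real.exp (-μ * s)))⁻¹ = Real.exp (μ * s / 2) := by
    rw [← Real.exp_half, ← Real.exp_neg]
    congr 1; ring
  have e2 : Real.exp (-1) ^ k = Real.exp (-k) := by
    rw [← Real.exp_nat_mul]; congr 1; ring
  rw [e1, e2]
  have e3 : Real.exp (μ * s / 2) * (2 * √(6 * ρ) * Real.exp (-(k:ℝ))) =
      2 * √(6 * ρ) * Real.exp (μ * s / 2 - k) := by
    rw [sub_eq_add_neg, Real.exp_add]; ring
  have e4 : 2 * √(6 * ρ) * Real.exp 1 * Real.exp (-μ * s) =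
      2 * √(6 * ρ) * Real.exp (1 + -μ * s) := by
    rw [Real.exp_add]; ring
  rw [e3, e4]
  apply mul_le_mul_of_nonneg_left _ (by positivity)
  apply Real.exp_le_exp.2
  have h5 : μ * (L + 2) = 2 / 3 := by rw [hμ]; field_simp
  have h6 : μ * s ≤ (k + 1) * (2 / 3) := by
    rw [← h5]
    calc μ * s ≤ μ * ((k + 1) * (L + 2)) := mul_le_mul_of_nonneg_left hk2 hμ0.le
      _ = _ := by ring
  linarith

end Pool.Agent.Loc
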