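import Pool.Agent.Helper48_Loc.Center

/-!
# The spectral theorem in a finite cube
-/

set_option autoImplicit false
set_option linter.unusedSectionVars false

open MeasureTheory ProbabilityTheory Function Filter

open scoped ENNReal BigOperators Topology ComplexConjugate InnerProductSpace

noncomputable section

namespace Pool.Agent.Loc

open Pool.Agent.Anderson

variable {d : ℕ}

/-- the scalar product in the cube `box 0 n` -/
def pr (n : ℕ) (ψ f : Site d → ℂ) : ℂ := ∑ x ∈ box (0 : Site d) n, conj (ψ x) * f x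

/-- complex version of `H_Λ` -/
def HC (V : Site d → ℝ) (Λ : Finset (Site d)) : Matrix Λ Λ ℂ := (HM V Λ).map (fun a => (a : ℂ))

theorem HC_herm (V : Site d → ℝ) (Λ : Finset (Site d)) : (HC V Λ).IsHermitian := by
  unfold Matrix.IsHermitian
  ext x y
  simp only [HC, Matrix.conjTranspose_apply, Matrix.map_apply]
  have : HM V Λ y x = HM V Λ x y := by
    conv_lhs => rw [← HM_symm]
    rfl
  rw [this]
  simp

theorem exists_basis (V : Site d → ℝ) (n : ℕ) :
    ∃ (E : box (0 : Site d) n → ℝ) (ψ : box (0 : Site d) n → Site d → ℂ),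
      (∀ j, FinEig V n (E j) (ψ j)) ∧
      ∀ f : Site d → ℂ, ∑ j, ‖pr n (ψ j) f‖ ^ 2 = ∑ x ∈ box (0 : Site d) n, ‖f x‖ ^ 2 := by
  set Λ := box (0 : Site d) n with hΛ
  set b := (HC_herm V Λ).eigenvectorBasis with hb
  set ev := (HC_herm V Λ).eigenvalues with hev
  obtain ⟨F, hin, hout⟩ : ∃ F : Λ → Site d → ℂ, (∀ j x, ∀ h : x ∈ Λ, F j x = b j ⟨x, h⟩) ∧
      ∀ j x, x ∉ Λ → F j x = 0 :=
    ⟨fun j x => if h : x ∈ Λ then b j ⟨x, h⟩ else 0, fun j x h => by simp [h],
      fun j x h => by simp [h]⟩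
  have hinner : ∀ (j : Λ) (f : Site d → ℂ), ⟪b j, (WithLp.toLp 2 fun x : Λ => f x)⟫_ℂ =
      ∑ x ∈ Λ, conj (F j x) * f x := by
    intro j f
    rw [PiLp.inner_apply, ← Finset.sum_coe_sort Λ (fun x => conj (F j x) * f x)]
    apply Finset.sum_congr rfl
    intro x _
    rw [RCLike.inner_apply, mul_comm, hin j x x.2]
  refine ⟨ev, F, ?_, ?_⟩
  · intro j
    refine ⟨fun x hx => hout j x hx, ?_, ?_⟩
    · intro x hx
      have h1 := congrFun ((HC_herm V Λ).mulVec_eigenvectorBasis j) ⟨x, hx⟩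
      rw [← hb, ← hev] at h1
      rw [lap_eq_sum _ x (box x 1 ∪ Λ) Finset.subset_union_left,
        ← Finset.sum_subset (Finset.subset_union_right (s₁ := box x 1) (s₂ := Λ))]
      · rw [hin j x hx]
        have h2 : (HC V Λ).mulVec (b j) ⟨x, hx⟩ =
            (∑ y ∈ Λ, (hop x y : ℂ) * F j y) + (V x : ℂ) * b j ⟨x, hx⟩ := by
          rw [← Finset.sum_coe_sort Λ (fun y => (hop x y : ℂ) * F j y)]
          simp only [Matrix.mulVec, dotProduct, HC, Matrix.map_apply, HM, Matrix.of_apply]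
          have h3 : ∀ y : Λ, ((hop x (y : Site d) + if (⟨x, hx⟩ : Λ) = y then V x else 0 : ℝ) : ℂ) *
              b j y = (hop x (y : Site d) : ℂ) * F j y +
                (if (⟨x, hx⟩ : Λ) = y then (V x : ℂ) * b j ⟨x, hx⟩ else 0) := by
            intro y
            rw [hin j y y.2]
            by_cases h : (⟨x, hx⟩ : Λ) = y
            · subst h; simp; ring
            · simp [h]
          rw [Finset.sum_congr rfl fun y _ => h3 y, Finset.sum_add_distrib]
          simp
        rw [← h2, h1]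
        simp
      · intro y _ hy
        rw [hout j y hy, mul_zero]
    · have h1 := b.norm_eq_one j
      have h2 : ‖b j‖ ^ 2 = 1 := by rw [h1]; norm_num
      rw [EuclideanSpace.norm_sq_eq] at h2
      rw [← h2, ← Finset.sum_coe_sort Λ (fun x => ‖F j x‖ ^ 2)]
      apply Finset.sum_congr rfl
      intro x _
      rw [hin j x x.2]
  · intro f
    have h1 := b.sum_sq_norm_inner_right (WithLp.toLp 2 fun x : Λ => f x)
    simp_rw [hinner] at h1
    rw [EuclideanSpace.norm_sq_eq] at h1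
    unfold pr
    rw [h1, ← Finset.sum_coe_sort Λ (fun x => ‖f x‖ ^ 2)]

/-- Green's formula in the cube. -/
theorem pr_lap_symm (n : ℕ) {ψ f : Site d → ℂ} (hψ : ∀ x, x ∉ box (0 : Site d) n → ψ x = 0)
    (hf : ∀ x, x ∉ box (0 : Site d) n → f x = 0) :
    pr n ψ (lap f) = pr n (lap ψ) f := by
  unfold pr
  have h1 : ∀ g : Site d → ℂ, (∀ x, x ∉ box (0 : Site d) n → g x = 0) → ∀ x,
      lap g x = ∑ y ∈ box (0 : Site d) n, (hop x y : ℂ) * g y := by
    intro g hg x
    rw [lap_eq_sum _ x (box x 1 ∪ box 0 n) Finset.subset_union_left,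
      ← Finset.sum_subset (Finset.subset_union_right (s₁ := box x 1) (s₂ := box 0 n))]
    intro y _ hy
    rw [hg y hy, mul_zero]
  simp_rw [h1 f hf, h1 ψ hψ, map_sum, Finset.mul_sum, Finset.sum_mul]
  rw [Finset.sum_comm]
  apply Finset.sum_congr rfl
  intro x _
  apply Finset.sum_congr rfl
  intro y _
  rw [map_mul, Complex.conj_ofReal, hop_comm x y]
  ring

/-- `⟨ψ, H f⟩ = E ⟨ψ, f⟩` in finite volume. -/
theorem FinEig.pr_H {V : Site d → ℝ} {n : ℕ} {E : ℝ} {ψ : Site d → ℂ} (h : FinEig V n E ψ)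
    {f : Site d → ℂ} (hf : ∀ x, x ∉ box (0 : Site d) n → f x = 0) :
    pr n ψ (fun x => lap f x + (V x : ℂ) * f x) = (E : ℂ) * pr n ψ f := by
  have h1 : pr n ψ (fun x => lap f x + (V x : ℂ) * f x) =
      pr n ψ (lap f) + pr n ψ (fun x => (V x : ℂ) * f x) := by
    unfold pr
    rw [← Finset.sum_add_distrib]
    apply Finset.sum_congr rfl
    intro x _
    ring
  rw [h1, pr_lap_symm n h.supp hf]
  unfold pr
  rw [← Finset.sum_add_distrib, Finset.mul_sum]
  apply Finset.sum_congr rfl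
  intro x hx
  have h2 : lap ψ x = (E : ℂ) * ψ x - (V x : ℂ) * ψ x := by rw [← h.eq x hx]; ring
  rw [h2, map_sub, map_mul, map_mul, Complex.conj_ofReal, Complex.conj_ofReal]
  ring

theorem FinEig.energy_le {V : Site d → ℝ} {n : ℕ} {E : ℝ} {ψ : Site d → ℂ} (h : FinEig V n E ψ)
    {c : Site d} (hc : IsCenter n ψ c) : |E| ≤ 2 * d + |V c| := by
  have hpos := h.center_pos hc
  have h1 := h.eq c hc.1
  have h2 : ‖(E : ℂ) * ψ c‖ ≤ 2 * d * ‖ψ c‖ + |V c| * ‖ψ c‖ := by
    rw [← h1]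
    refine (norm_add_le _ _).trans (add_le_add (norm_lap_le fun y _ => hc.2 y) ?_)
    rw [norm_mul, Complex.norm_real, Real.norm_eq_abs]
  rw [norm_mul, Complex.norm_real, Real.norm_eq_abs, ← add_mul] at h2
  exact le_of_mul_le_mul_right h2 hpos

end Pool.Agent.Loc
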