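import Pool.Agent.Helper48_Loc.Gauss

/-!
# Moments of linear and quadratic forms of Gaussians
-/

set_option autoImplicit false
set_option linter.unusedSectionVars false

open MeasureTheory ProbabilityTheory Function Filter

open scoped ENNReal BigOperators Topology NNReal

noncomputable section

namespace Pool.Agent.Loc

variable {n : Type*} [Fintype n] [DecidableEq n]

theorem integral_exp_lin (β : n → ℝ) :
    ∫ ξ, Real.exp (∑ y, β y * ξ y) ∂(γn n) = Real.exp ((∑ y, β y ^ 2) / 2) := by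
  have h1 : ∀ ξ : n → ℝ, Real.exp (∑ y, β y * ξ y) = ∏ y, Real.exp (β y * ξ y) := fun ξ =>
    Real.exp_sum _ _
  simp_rw [h1]
  rw [integral_fintype_prod_eq_prod (f := fun y t => Real.exp (β y * t)), Finset.sum_div,
    Real.exp_sum]
  apply Finset.prod_congr rfl
  intro y _
  have h2 := congrFun (mgf_id_gaussianReal (μ := 0) (v := 1)) (β y)
  unfold mgf at h2
  simp only [id] at h2
  rw [h2]
  simp

theorem integrable_exp_lin (β : n → ℝ) :
    Integrable (fun ξ : n → ℝ => Real.exp (∑ y, β y * ξ y)) (γn n) := by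
  have h1 : ∀ ξ : n → ℝ, Real.exp (∑ y, β y * ξ y) = ∏ y, Real.exp (β y * ξ y) := fun ξ =>
    Real.exp_sum _ _
  simp_rw [h1]
  exact Integrable.fintype_prod (f := fun y t => Real.exp (β y * t)) fun y =>
    integrable_exp_mul_gaussianReal (β y)

theorem PB_lin (β : n → ℝ) : PB (fun ξ : n → ℝ => ∑ y, β y * ξ y) :=
  PB.sum _ fun y _ => (PB.coord y).const_mul (β y)

/-- even moments of a linear form -/
theorem moment_lin (β : n → ℝ) {p : ℕ} (hp : 1 ≤ p) :
    ∫ ξ, (∑ y, β y * ξ y) ^ (2 * p) ∂(γn n) ≤ (4 * Real.exp 1 * p * ∑ y, β y ^ 2) ^ p := by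
  set S := ∑ y, β y ^ 2 with hS
  have hS0 : 0 ≤ S := Finset.sum_nonneg fun _ _ => sq_nonneg _
  have hp0 : (0:ℝ) < p := by exact_mod_cast hp
  rcases hS0.eq_or_lt with h0 | h0
  · have hβ : ∀ y, β y = 0 := by
      intro y
      have := (Finset.sum_eq_zero_iff_of_nonneg fun _ _ => sq_nonneg _).1 h0.symm y (Finset.mem_univ y)
      exact pow_eq_zero_iff (two_ne_zero) |>.1 this
    have h1 : ∀ ξ : n → ℝ, ∑ y, β y * ξ y = 0 := fun ξ => by simp [hβ]
    simp_rw [h1]
    rw [zero_pow (by omega)]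
    simp only [integral_zero]
    positivity
  set t : ℝ := √(2 * p / S) with ht
  have ht0 : 0 < t := Real.sqrt_pos.2 (by positivity)
  have ht2 : t ^ 2 = 2 * p / S := Real.sq_sqrt (by positivity)
  -- pointwise bound
  have hpt : ∀ ξ : n → ℝ, (∑ y, β y * ξ y) ^ (2 * p) ≤ (t ^ (2 * p))⁻¹ * ((2 * p).factorial *
      (Real.exp (∑ y, (t * β y) * ξ y) + Real.exp (∑ y, (-(t * β y)) * ξ y))) := by
    intro ξ
    set z := ∑ y, β y * ξ y with hz
    have e1 : ∑ y, (t * β y) * ξ y = t * z := by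
      rw [hz, Finset.mul_sum]
      apply Finset.sum_congr rfl
      intro y _
      ring
    have e2 : ∑ y, (-(t * β y)) * ξ y = -(t * z) := by
      rw [hz, Finset.mul_sum, ← Finset.sum_neg_distrib]
      apply Finset.sum_congr rfl
      intro y _
      ring
    rw [e1, e2]
    have h1 := Real.pow_div_factorial_le_exp (x := |t * z|) (abs_nonneg _) (2 * p)
    have h2 : Real.exp |t * z| ≤ Real.exp (t * z) + Real.exp (-(t * z)) := by
      rcases abs_cases (t * z) with ⟨h, _⟩ | ⟨h, _⟩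
      · rw [h]; linarith [Real.exp_pos (-(t * z))]
      · rw [h]; linarith [Real.exp_pos (t * z)]
    have h3 : |t * z| ^ (2 * p) = t ^ (2 * p) * z ^ (2 * p) := by
      rw [pow_mul, sq_abs, ← pow_mul, mul_pow]
    rw [h3, div_le_iff₀ (by positivity)] at h1
    rw [← div_eq_inv_mul, le_div_iff₀ (by positivity)]
    calc z ^ (2 * p) * t ^ (2 * p) = t ^ (2 * p) * z ^ (2 * p) := mul_comm _ _
      _ ≤ Real.exp |t * z| * (2 * p).factorial := h1
      _ ≤ (Real.exp (t * z) + Real.exp (-(t * z))) * (2 * p).factorial := by gcongr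
      _ = _ := mul_comm _ _
  have hint1 := integrable_exp_lin (fun y => t * β y)
  have hint2 := integrable_exp_lin (fun y => -(t * β y))
  have hPB := ((PB_lin β).pow (2 * p)).integrable
  refine (integral_mono hPB (((hint1.add hint2).const_mul _).const_mul _) hpt).trans ?_
  rw [integral_const_mul, integral_const_mul]
  have e3 : ∫ ξ, ((fun ξ : n → ℝ => Real.exp (∑ y, (t * β y) * ξ y)) +
      fun ξ : n → ℝ => Real.exp (∑ y, (-(t * β y)) * ξ y)) ξ ∂(γn n) = 2 * Real.exp p := by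
    simp only [Pi.add_apply]
    rw [integral_add hint1 hint2, integral_exp_lin, integral_exp_lin]
    have e4 : ∑ y, (t * β y) ^ 2 = 2 * p := by
      simp_rw [mul_pow]
      rw [← Finset.mul_sum, ht2, ← hS]
      field_simp
    have e5 : ∑ y, (-(t * β y)) ^ 2 = 2 * p := by
      simp_rw [neg_sq]; exact e4
    rw [e4, e5]
    have : (2 * (p:ℝ)) / 2 = p := by ring
    rw [this]
    ring
  rw [e3]
  have hfac : ((2 * p).factorial : ℝ) ≤ (2 * p) ^ (2 * p) := by
    exact_mod_cast Nat.factorial_le_pow (2 * p)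
  have ht2p : t ^ (2 * p) = (2 * p / S) ^ p := by rw [pow_mul, ht2]
  rw [ht2p]
  have h2p : (2:ℝ) ≤ 2 ^ p := by
    calc (2:ℝ) = 2 ^ 1 := (pow_one 2).symm
      _ ≤ 2 ^ p := pow_le_pow_right₀ (by norm_num) hp
  have hexp : Real.exp p = Real.exp 1 ^ p := by
    rw [← Real.exp_nat_mul]; simp
  calc ((2 * (p:ℝ) / S) ^ p)⁻¹ * (((2 * p).factorial : ℝ) * (2 * Real.exp p))
      ≤ ((2 * (p:ℝ) / S) ^ p)⁻¹ * ((2 * p) ^ (2 * p) * (2 ^ p * Real.exp p)) := by gcongr
    _ = (4 * Real.exp 1 * p * S) ^ p := by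
        rw [hexp, pow_mul, ← inv_pow, ← mul_pow, ← mul_pow, ← mul_pow]
        congr 1
        field_simp
        ring

/-- moments of a sum of squares of linear forms -/
theorem moment_quad {m : Type*} [Fintype m] (B : m → n → ℝ) {p : ℕ} (hp : 1 ≤ p) :
    ∫ ξ, (∑ w, (∑ y, B w y * ξ y) ^ 2) ^ p ∂(γn n) ≤
      (4 * Real.exp 1 * p * ∑ w, ∑ y, B w y ^ 2) ^ p := by
  set s : m → ℝ := fun w => ∑ y, B w y ^ 2 with hs
  have hs0 : ∀ w, 0 ≤ s w := fun w => Finset.sum_nonneg fun _ _ => sq_nonneg _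
  set S := ∑ w, s w with hS
  have hS0 : 0 ≤ S := Finset.sum_nonneg fun w _ => hs0 w
  have hp0 : (0:ℝ) < p := by exact_mod_cast hp
  have hzero : ∀ w, s w = 0 → ∀ ξ : n → ℝ, ∑ y, B w y * ξ y = 0 := by
    intro w hw ξ
    apply Finset.sum_eq_zero
    intro y _
    have := (Finset.sum_eq_zero_iff_of_nonneg fun _ _ => sq_nonneg _).1 hw y (Finset.mem_univ y)
    rw [pow_eq_zero_iff (two_ne_zero)] at this
    rw [this, zero_mul]
  rcases hS0.eq_or_lt with h0 | h0
  · have hw : ∀ w, s w = 0 := fun w =>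
      (Finset.sum_eq_zero_iff_of_nonneg fun w _ => hs0 w).1 h0.symm w (Finset.mem_univ w)
    have h1 : ∀ ξ : n → ℝ, ∑ w, (∑ y, B w y * ξ y) ^ 2 = 0 := by
      intro ξ
      apply Finset.sum_eq_zero
      intro w _
      rw [hzero w (hw w) ξ]; norm_num
    simp_rw [h1]
    rw [zero_pow (by omega)]
    simp only [integral_zero]
    positivity
  -- weights
  have hpt : ∀ ξ : n → ℝ, (∑ w, (∑ y, B w y * ξ y) ^ 2) ^ p ≤
      ∑ w, (s w / S) * (S / s w) ^ p * (∑ y, B w y * ξ y) ^ (2 * p) := by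
    intro ξ
    have h1 := Real.pow_arith_mean_le_arith_mean_pow Finset.univ (fun w => s w / S)
      (fun w => S / s w * (∑ y, B w y * ξ y) ^ 2)
      (fun w _ => div_nonneg (hs0 w) h0.le) (by rw [← Finset.sum_div]; exact div_self h0.ne')
      (fun w _ => mul_nonneg (div_nonneg h0.le (hs0 w)) (sq_nonneg _)) p
    have e1 : ∑ w, s w / S * (S / s w * (∑ y, B w y * ξ y) ^ 2) =
        ∑ w, (∑ y, B w y * ξ y) ^ 2 := by
      apply Finset.sum_congr rfl
      intro w _
      by_cases hw : s w = 0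
      · rw [hzero w hw ξ]; simp
      · field_simp
    rw [e1] at h1
    refine h1.trans (le_of_eq ?_)
    apply Finset.sum_congr rfl
    intro w _
    rw [mul_pow, ← pow_mul]
    ring
  have hI1 : PB (fun ξ : n → ℝ => (∑ w, (∑ y, B w y * ξ y) ^ 2) ^ p) :=
    (PB.sum _ fun w _ => (PB_lin (B w)).pow 2).pow p
  have hI2 : PB (fun ξ : n → ℝ => ∑ w, (s w / S) * (S / s w) ^ p *
      (∑ y, B w y * ξ y) ^ (2 * p)) :=
    PB.sum _ fun w _ => ((PB_lin (B w)).pow (2 * p)).const_mul _
  refine (integral_mono hI1.integrable hI2.integrable hpt).trans ?_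
  rw [integral_finsetSum _ fun w _ => (((PB_lin (B w)).pow (2 * p)).const_mul _).integrable]
  calc ∑ w, ∫ ξ, (s w / S) * (S / s w) ^ p * (∑ y, B w y * ξ y) ^ (2 * p) ∂(γn n)
      ≤ ∑ w, (s w / S) * (4 * Real.exp 1 * p * S) ^ p := by
        apply Finset.sum_le_sum
        intro w _
        rw [integral_const_mul]
        have h2 := moment_lin (B w) hp
        by_cases hw : s w = 0
        · rw [hw]; simp
        · have hw' : 0 < s w := lt_of_le_of_ne (hs0 w) (Ne.symm hw)
          calc s w / S * (S / s w) ^ p * ∫ ξ, (∑ y, B w y * ξ y) ^ (2 * p) ∂(γn n)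
              ≤ s w / S * (S / s w) ^ p * (4 * Real.exp 1 * p * s w) ^ p := by gcongr
            _ = s w / S * ((S / s w) * (4 * Real.exp 1 * p * s w)) ^ p := by rw [mul_pow]; ring
            _ = _ := by
                congr 2
                field_simp
    _ = (4 * Real.exp 1 * p * S) ^ p := by
        rw [← Finset.sum_mul, ← Finset.sum_div, ← hS, div_self h0.ne', one_mul]

end Pool.Agent.Loc
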