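import Pool.Agent.Helper48_Loc.CT
import Pool.Agent.Helper48_Loc.FM

/-!
# The initial scale estimate from a bound on the probability that the form bound fails
-/

set_option autoImplicit false
set_option linter.unusedSectionVars false

open MeasureTheory ProbabilityTheory Function

open scoped ENNReal BigOperators

noncomputable section

namespace Pool.Agent.Loc

open Pool.Agent.Anderson

variable {d : ℕ} {ν : Measure ℝ} [IsProbabilityMeasure ν] {ρ : ℝ}

/-- the potential is form-bounded by `θ (2d + a - Δ_Λ)` -/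
def GE (V : Site d → ℝ) (Λ : Finset (Site d)) (a θ : ℝ) : Prop :=
  ∀ u : Site d → ℝ, |∑ y ∈ Λ, V y * u y ^ 2| ≤ θ * ((2 * d + a) * ∑ y ∈ Λ, u y ^ 2 - hf Λ u)

theorem measurableSet_GE (Λ : Finset (Site d)) (a θ : ℝ) :
    MeasurableSet {V : Site d → ℝ | GE V Λ a θ} := by
  have h1 : {V : Site d → ℝ | GE V Λ a θ} = ⋂ u : Site d → ℝ,
      {V : Site d → ℝ | |∑ y ∈ Λ, V y * u y ^ 2| ≤
        θ * ((2 * d + a) * ∑ y ∈ Λ, u y ^ 2 - hf Λ u)} := by
    ext V
    simp only [GE, Set.mem_ofPred_eq, Set.mem_iInter]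
  rw [h1]
  apply IsClosed.measurableSet
  apply isClosed_iInter
  intro u
  apply isClosed_le _ continuous_const
  apply Continuous.abs
  exact continuous_finsetSum _ fun y _ => (continuous_apply y).mul continuous_const

theorem initScale_of_tail (hν : BddDens ν ρ) {a θ κ p₀ : ℝ} {L : ℕ} (ha : 0 < a) (hθ : θ < 1)
    (hκ : 0 ≤ κ) (hκg : 2 * d * (Real.exp κ - 1) ≤ (1 - θ) * a / 2) (hp₀ : 0 < p₀)
    (hbad : ∀ (x : Site d) (W : Finset (Site d)), W ⊆ box x L →
      PL ν W {V | ¬ GE V W a θ} ≤ ENNReal.ofReal p₀) {E : ℝ} (hE : 2 * d + a ≤ |E|) :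
    InitScale d ν L (√(2 / ((1 - θ) * a)) * Real.exp (-κ * L / 2) + 2 * √(6 * ρ * p₀)) E := by
  intro x W hx hW u hu hxu
  have hρ := hν.1
  have hg : 0 < (1 - θ) * a := mul_pos (by linarith) ha
  set B : Set (Site d → ℝ) := {V | ¬ GE V W a θ} with hB
  have hBm : MeasurableSet B := (measurableSet_GE W a θ).compl
  rw [← lintegral_add_compl _ hBm, add_comm]
  have h1 : ∫⁻ V in Bᶜ, qg W E x u V ∂(PL ν W) ≤
      ENNReal.ofReal (√(2 / ((1 - θ) * a)) * Real.exp (-κ * L / 2)) := by
    calc ∫⁻ V in Bᶜ, qg W E x u V ∂(PL ν W)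
        ≤ ∫⁻ V in Bᶜ, ENNReal.ofReal (√(2 / ((1 - θ) * a)) * Real.exp (-κ * L / 2))
            ∂(PL ν W) := by
          apply setLIntegral_mono measurable_const
          intro V hV
          have hGE : GE V W a θ := by
            by_contra hcon
            exact hV hcon
          obtain ⟨s, hs, hLB⟩ := LB_of_form hθ.le hGE hE
          have h2 := combes_thomas hg hs hLB hκ hκg x u
          unfold qg
          apply ENNReal.ofReal_le_ofReal
          refine (Real.sqrt_le_sqrt h2).trans (le_of_eq ?_)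
          rw [Real.sqrt_mul (by positivity), hxu]
          congr 1
          rw [show -κ * (L : ℝ) = -κ * L / 2 + -κ * L / 2 by ring, Real.exp_add,
            Real.sqrt_mul_self (Real.exp_pos _).le]
          try ring_nf
      _ ≤ ENNReal.ofReal (√(2 / ((1 - θ) * a)) * Real.exp (-κ * L / 2)) * 1 := by
          rw [setLIntegral_const]
          gcongr
          exact prob_le_one
      _ = _ := mul_one _
  have h2 : ∫⁻ V in B, qg W E x u V ∂(PL ν W) ≤ ENNReal.ofReal (2 * √(6 * ρ * p₀)) := by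
    have h3 := PL_sqrt_event hν W E x u B (a := √(6 * ρ / p₀)) (by positivity)
    refine h3.trans ?_
    have h4 : √(6 * ρ / p₀) * p₀ = √(6 * ρ * p₀) := by
      rw [← Real.sqrt_sq (show 0 ≤ √(6 * ρ / p₀) * p₀ by positivity)]
      congr 1
      rw [mul_pow, Real.sq_sqrt (by positivity)]
      field_simp
    have h5 : 6 * ρ / √(6 * ρ / p₀) = √(6 * ρ * p₀) := by
      rw [div_eq_iff (by positivity), ← Real.sqrt_mul (by positivity),
        show 6 * ρ * p₀ * (6 * ρ / p₀) = (6 * ρ) ^ 2 by field_simp,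
        Real.sqrt_sq (by positivity)]
    calc ENNReal.ofReal √(6 * ρ / p₀) * PL ν W B + ENNReal.ofReal (6 * ρ / √(6 * ρ / p₀))
        ≤ ENNReal.ofReal √(6 * ρ / p₀) * ENNReal.ofReal p₀ +
          ENNReal.ofReal (6 * ρ / √(6 * ρ / p₀)) := by
          gcongr
          exact hbad x W hW
      _ = ENNReal.ofReal (2 * √(6 * ρ * p₀)) := by
          rw [← ENNReal.ofReal_mul (by positivity), h4, h5,
            ← ENNReal.ofReal_add (by positivity) (by positivity)]
          congr 1
          ring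
  calc _ ≤ ENNReal.ofReal (√(2 / ((1 - θ) * a)) * Real.exp (-κ * L / 2)) +
        ENNReal.ofReal (2 * √(6 * ρ * p₀)) := add_le_add h1 h2
    _ = _ := (ENNReal.ofReal_add (by positivity) (by positivity)).symm

end Pool.Agent.Loc
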