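import Pool.Agent.Helper48_Loc.MomentBound
import Pool.Agent.Helper48_Loc.InitTail

/-!
# The square root of the free Green function, and the passage from `‖M‖` to the form bound
-/

set_option autoImplicit false
set_option linter.unusedSectionVars false

open MeasureTheory ProbabilityTheory Function

open scoped ENNReal BigOperators

noncomputable section

namespace Pool.Agent.Loc

section Abstract

variable {n : Type*} [Fintype n] [DecidableEq n]

theorem form_diag_vec (U : Matrix n n ℝ) (w v : n → ℝ) :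
    v ⬝ᵥ (U * Matrix.diagonal w * U.transpose).mulVec v =
      ∑ l, (U.transpose.mulVec v) l ^ 2 * w l := by
  rw [← Matrix.mulVec_mulVec, ← Matrix.mulVec_mulVec, Matrix.dotProduct_mulVec,
    ← Matrix.mulVec_transpose]
  unfold dotProduct
  apply Finset.sum_congr rfl
  intro l _
  rw [Matrix.mulVec_diagonal]
  ring

theorem norm_U {U : Matrix n n ℝ} (hU2 : U * U.transpose = 1) (v : n → ℝ) :
    v ⬝ᵥ v = ∑ l, (U.transpose.mulVec v) l ^ 2 := by
  have h1 : (U.transpose.mulVec v) ⬝ᵥ (U.transpose.mulVec v) = v ⬝ᵥ v := by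
    rw [Matrix.dotProduct_mulVec, ← Matrix.mulVec_transpose, Matrix.transpose_transpose,
      Matrix.mulVec_mulVec, hU2, Matrix.one_mulVec]
  rw [← h1]
  unfold dotProduct
  apply Finset.sum_congr rfl
  intro l _
  ring

theorem diag_mul_diag {U : Matrix n n ℝ} (hU1 : U.transpose * U = 1) (w w' : n → ℝ) :
    (U * Matrix.diagonal w * U.transpose) * (U * Matrix.diagonal w' * U.transpose) =
      U * Matrix.diagonal (fun l => w l * w' l) * U.transpose := by
  rw [show U * Matrix.diagonal w * U.transpose * (U * Matrix.diagonal w' * U.transpose) =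
      U * Matrix.diagonal w * (U.transpose * U) * Matrix.diagonal w' * U.transpose by
        simp only [mul_assoc], hU1, mul_one, mul_assoc U, Matrix.diagonal_mul_diagonal]

theorem diag_symm (U : Matrix n n ℝ) (w : n → ℝ) :
    (U * Matrix.diagonal w * U.transpose).transpose = U * Matrix.diagonal w * U.transpose := by
  rw [Matrix.transpose_mul, Matrix.transpose_mul, Matrix.transpose_transpose,
    Matrix.diagonal_transpose, mul_assoc]

theorem exists_half {R : Matrix n n ℝ} (hR : R.transpose = R) {a : ℝ} (ha : 0 < a)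
    (hpos : ∀ v : n → ℝ, a * (v ⬝ᵥ v) ≤ v ⬝ᵥ R.mulVec v) :
    ∃ C B : Matrix n n ℝ, C.transpose = C ∧ B.transpose = B ∧ C * B = 1 ∧
      C * C = R⁻¹ ∧ B * B = R ∧ ∀ v : n → ℝ, v ⬝ᵥ (C * C).mulVec v ≤ 1 / a * (v ⬝ᵥ v) := by
  obtain ⟨U, lam, hU1, hU2, hp⟩ := exists_diag_real hR
  have hR1 : R = U * Matrix.diagonal lam * U.transpose := by
    have := hp 1
    simpa using this
  have hlam : ∀ l, a ≤ lam l := by
    intro l
    have h1 := hpos (fun i => U i l)
    rw [col_norm hU1, mul_one, ← col_form, hR1] at h1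
    have h2 : U.transpose * (U * Matrix.diagonal lam * U.transpose) * U = Matrix.diagonal lam := by
      rw [show U.transpose * (U * Matrix.diagonal lam * U.transpose) * U =
        (U.transpose * U) * Matrix.diagonal lam * (U.transpose * U) by simp only [mul_assoc], hU1,
        one_mul, mul_one]
    rw [h2, Matrix.diagonal_apply_eq] at h1
    exact h1
  have hlam0 : ∀ l, 0 < lam l := fun l => lt_of_lt_of_le ha (hlam l)
  have hCB : (U * Matrix.diagonal (fun l => (√(lam l))⁻¹) * U.transpose) *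
      (U * Matrix.diagonal (fun l => √(lam l)) * U.transpose) = 1 := by
    rw [diag_mul_diag hU1]
    have : (fun l => (√(lam l))⁻¹ * √(lam l)) = fun _ : n => (1:ℝ) := by
      funext l
      exact inv_mul_cancel₀ (Real.sqrt_pos.2 (hlam0 l)).ne'
    rw [this, Matrix.diagonal_one, mul_one, hU2]
  have hCC : (U * Matrix.diagonal (fun l => (√(lam l))⁻¹) * U.transpose) *
      (U * Matrix.diagonal (fun l => (√(lam l))⁻¹) * U.transpose) =
      U * Matrix.diagonal (fun l => (lam l)⁻¹) * U.transpose := by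
    rw [diag_mul_diag hU1]
    congr 3
    funext l
    rw [← mul_inv, Real.mul_self_sqrt (hlam0 l).le]
  refine ⟨U * Matrix.diagonal (fun l => (√(lam l))⁻¹) * U.transpose,
    U * Matrix.diagonal (fun l => √(lam l)) * U.transpose, diag_symm _ _, diag_symm _ _, hCB,
    ?_, ?_, ?_⟩
  · rw [hCC]
    symm
    apply Matrix.inv_eq_left_inv
    rw [hR1, diag_mul_diag hU1]
    have : (fun l => (lam l)⁻¹ * lam l) = fun _ : n => (1:ℝ) := by
      funext l
      exact inv_mul_cancel₀ (hlam0 l).ne'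
    rw [this, Matrix.diagonal_one, mul_one, hU2]
  · rw [diag_mul_diag hU1]
    conv_rhs => rw [hR1]
    congr 3
    funext l
    exact Real.mul_self_sqrt (hlam0 l).le
  · intro v
    rw [hCC, form_diag_vec, norm_U hU2, Finset.mul_sum]
    apply Finset.sum_le_sum
    intro l _
    rw [mul_comm, ← one_div]
    exact mul_le_mul_of_nonneg_right (one_div_le_one_div_of_le ha (hlam l)) (sq_nonneg _)

/-- from `‖M‖ ≤ θ` to the form bound -/
theorem form_of_MM {C B R : Matrix n n ℝ} (hB : B.transpose = B) (hCB : C * B = 1)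
    (hBB : B * B = R) {σ θ : ℝ} {ξ : n → ℝ}
    (h : ∀ v : n → ℝ, |v ⬝ᵥ (MM C σ ξ).mulVec v| ≤ θ * (v ⬝ᵥ v)) (u : n → ℝ) :
    |∑ y, σ * ξ y * u y ^ 2| ≤ θ * (u ⬝ᵥ R.mulVec u) := by
  have hBC : B * C = 1 := mul_eq_one_comm.1 hCB
  have h1 := h (B.mulVec u)
  have h2 : B.mulVec u ⬝ᵥ B.mulVec u = u ⬝ᵥ R.mulVec u := by
    rw [Matrix.dotProduct_mulVec, ← Matrix.mulVec_transpose, hB, Matrix.mulVec_mulVec, hBB,
      dotProduct_comm]
  have h3 : B.mulVec u ⬝ᵥ (MM C σ ξ).mulVec (B.mulVec u) = ∑ y, σ * ξ y * u y ^ 2 := by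
    have h4 : B * MM C σ ξ * B = Matrix.diagonal fun x => σ * ξ x := by
      unfold MM
      rw [show B * (C * Matrix.diagonal (fun x => σ * ξ x) * C) * B =
        (B * C) * Matrix.diagonal (fun x => σ * ξ x) * (C * B) by simp only [mul_assoc], hBC, hCB,
        one_mul, mul_one]
    have h5 : B.mulVec u ⬝ᵥ (MM C σ ξ).mulVec (B.mulVec u) =
        u ⬝ᵥ (B * MM C σ ξ * B).mulVec u := by
      rw [← Matrix.mulVec_mulVec, ← Matrix.mulVec_mulVec, Matrix.dotProduct_mulVec u,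
        ← Matrix.mulVec_transpose, hB]
    rw [h5, h4]
    unfold dotProduct
    apply Finset.sum_congr rfl
    intro y _
    rw [Matrix.mulVec_diagonal]
    ring
  rw [h2, h3] at h1
  exact h1

end Abstract

open Pool.Agent.Anderson

variable {d : ℕ}

theorem dot_RM_zero (Λ : Finset (Site d)) (E : ℝ) (u : Site d → ℝ) :
    (fun z : Λ => u z) ⬝ᵥ (RM 0 Λ E).mulVec (fun z : Λ => u z) =
      E * ∑ y ∈ Λ, u y ^ 2 - hf Λ u := by
  rw [← qform_eq_dot, qform_eq]
  simp

theorem dot_eq (Λ : Finset (Site d)) (u : Site d → ℝ) :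
    (fun z : Λ => u z) ⬝ᵥ (fun z : Λ => u z) = ∑ y ∈ Λ, u y ^ 2 := by
  unfold dotProduct
  rw [← Finset.sum_coe_sort Λ (fun y => u y ^ 2)]
  apply Finset.sum_congr rfl
  intro z _
  ring

/-- extension by zero -/
def ext0 {Λ : Finset (Site d)} (v : Λ → ℝ) (z : Site d) : ℝ :=
  if hz : z ∈ Λ then v ⟨z, hz⟩ else 0

theorem ext0_coe {Λ : Finset (Site d)} (v : Λ → ℝ) : (fun z : Λ => ext0 v z) = v := by
  funext z
  simp [ext0]

/-- the free form is bounded below -/
theorem RM_zero_pos (Λ : Finset (Site d)) {a : ℝ} (v : Λ → ℝ) :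
    a * (v ⬝ᵥ v) ≤ v ⬝ᵥ (RM 0 Λ (2 * d + a)).mulVec v := by
  have h1 := dot_RM_zero Λ (2 * d + a) (ext0 v)
  have h2 := dot_eq Λ (ext0 v)
  rw [ext0_coe] at h1 h2
  rw [h1, h2]
  have h3 := le_abs_self (hf Λ (ext0 v))
  have h4 := abs_hf_le Λ (ext0 v)
  nlinarith

/-- The hypotheses `Hyp` for the free Green function, and the form bound. -/
theorem exists_C (Λ : Finset (Site d)) {a g κ₂ : ℝ} (ha : 0 < a) (hg : 0 < g) (hκ : 0 ≤ κ₂)
    (hdiag : ∀ x, gr 0 Λ (2 * d + a) x x ≤ g)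
    (hsq : ∀ x, ∑ y ∈ Λ, gr 0 Λ (2 * d + a) x y ^ 2 ≤ κ₂) :
    ∃ C : Matrix Λ Λ ℝ, Hyp C a g κ₂ ∧ ∀ (σ θ : ℝ) (ξ : Λ → ℝ) (V : Site d → ℝ),
      (∀ x : Λ, V x = σ * ξ x) → (∀ v : Λ → ℝ, |v ⬝ᵥ (MM C σ ξ).mulVec v| ≤ θ * (v ⬝ᵥ v)) →
        GE V Λ a θ := by
  obtain ⟨C, B, hC, hB, hCB, hCC, hBB, hnorm⟩ :=
    exists_half (RM_symm 0 Λ (2 * d + a)) ha (RM_zero_pos Λ)
  have hgr : ∀ x y : Λ, (C * C) x y = gr 0 Λ (2 * d + a) x y := by
    intro x y
    rw [hCC]
    unfold gr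
    rw [dif_pos ⟨x.2, y.2⟩]
  refine ⟨C, ⟨hC, ha, hg, hκ, ?_, hnorm, ?_⟩, ?_⟩
  · intro x
    rw [hgr]
    exact hdiag x
  · intro x
    have h1 := hsq x
    rw [← Finset.sum_coe_sort Λ (fun y => gr 0 Λ (2 * d + a) x y ^ 2)] at h1
    simp_rw [hgr]
    exact h1
  · intro σ θ ξ V hV h u
    have h1 := form_of_MM hB hCB hBB h (fun z : Λ => u z)
    rw [dot_RM_zero] at h1
    have h2 : ∑ y ∈ Λ, V y * u y ^ 2 = ∑ y : Λ, σ * ξ y * u y ^ 2 := by
      rw [← Finset.sum_coe_sort Λ (fun y => V y * u y ^ 2)]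
      apply Finset.sum_congr rfl
      intro y _
      rw [hV]
    rw [h2]
    exact h1

end Pool.Agent.Loc
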