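import Pool.Agent.Helper48_Loc.Defs

/-!
# Partial integration over finitely many sites
-/

set_option autoImplicit false
set_option linter.unusedSectionVars false

open MeasureTheory ProbabilityTheory Function

open scoped ENNReal BigOperators

noncomputable section

namespace Pool.Agent.Loc

section General

variable {δ : Type*} [DecidableEq δ] {ν : Measure ℝ} [IsProbabilityMeasure ν]
  {s t A B : Finset δ} {f g : (δ → ℝ) → ℝ≥0∞}

/-- `f` does not depend on the coordinates in `s` -/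
def Free (f : (δ → ℝ) → ℝ≥0∞) (s : Finset δ) : Prop :=
  ∀ x y : δ → ℝ, (∀ i ∉ s, x i = y i) → f x = f y

/-- `f` depends only on the coordinates in `s` -/
def Only (f : (δ → ℝ) → ℝ≥0∞) (s : Finset δ) : Prop :=
  ∀ x y : δ → ℝ, (∀ i ∈ s, x i = y i) → f x = f y

theorem Only.free (h : Only f A) (hd : Disjoint A s) : Free f s := by
  intro x y hxy
  apply h
  intro i hi
  exact hxy i (Finset.disjoint_left.1 hd hi)

theorem Only.mono (h : Only f A) (hAB : A ⊆ B) : Only f B :=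
  fun x y hxy => h x y fun i hi => hxy i (hAB hi)

theorem marg_mul_left (hf : Free f s) (hg : Measurable g) :
    ∫⋯∫⁻_s, (fun x => f x * g x) ∂(fun _ => ν) = fun x => f x * (∫⋯∫⁻_s, g ∂(fun _ => ν)) x := by
  funext x
  unfold lmarginal
  have h1 : ∀ y : (i : s) → ℝ, f (updateFinset x s y) = f x := by
    intro y
    apply hf
    intro i hi
    simp [updateFinset, hi]
  simp_rw [h1]
  rw [lintegral_const_mul]
  exact hg.comp measurable_updateFinset

theorem marg_free (hf : Free f s) : ∫⋯∫⁻_s, f ∂(fun _ => ν) = f := by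
  funext x
  unfold lmarginal
  have h1 : ∀ y : (i : s) → ℝ, f (updateFinset x s y) = f x := by
    intro y
    apply hf
    intro i hi
    simp [updateFinset, hi]
  simp_rw [h1]
  simp

theorem marg_only_const (hf : Only f s) (x y : δ → ℝ) :
    (∫⋯∫⁻_s, f ∂(fun _ => ν)) x = (∫⋯∫⁻_s, f ∂(fun _ => ν)) y := by
  unfold lmarginal
  congr 1
  funext z
  apply hf
  intro i hi
  simp [updateFinset, hi]

theorem marg_subset (hfm : Measurable f) (hf : Only f s) (hst : s ⊆ t) :
    ∫⋯∫⁻_t, f ∂(fun _ => ν) = ∫⋯∫⁻_s, f ∂(fun _ => ν) := by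
  rw [← Finset.union_sdiff_of_subset hst, lmarginal_union _ f hfm Finset.disjoint_sdiff,
    marg_free (hf.free Finset.disjoint_sdiff)]

theorem marg_le_const {c : ℝ≥0∞} (h : ∀ x, f x ≤ c) (x : δ → ℝ) :
    (∫⋯∫⁻_s, f ∂(fun _ => ν)) x ≤ c := by
  unfold lmarginal
  calc _ ≤ ∫⁻ _ : (i : s) → ℝ, c ∂Measure.pi fun _ : s => ν := lintegral_mono fun y => h _
    _ = c := by simp

theorem marg_mul (hfm : Measurable f) (hgm : Measurable g) (hf : Only f A) (hg : Only g B)
    (hAB : Disjoint A B) (hst : A ∪ B ⊆ t) (x : δ → ℝ) :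
    (∫⋯∫⁻_t, (fun x => f x * g x) ∂(fun _ => ν)) x =
      (∫⋯∫⁻_A, f ∂(fun _ => ν)) x * (∫⋯∫⁻_B, g ∂(fun _ => ν)) x := by
  have h0 : Only (fun x => f x * g x) (A ∪ B) := by
    intro x y hxy
    beta_reduce
    rw [hf x y fun i hi => hxy i (Finset.mem_union_left _ hi),
      hg x y fun i hi => hxy i (Finset.mem_union_right _ hi)]
  have hm : Measurable (fun x => f x * g x) := hfm.mul hgm
  rw [marg_subset hm h0 hst, lmarginal_union _ _ hm hAB,
    marg_mul_left (hf.free hAB) hgm]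
  have h1 : (fun x => f x * (∫⋯∫⁻_B, g ∂(fun _ => ν)) x) =
      fun x => (∫⋯∫⁻_B, g ∂(fun _ => ν)) x * f x := by
    funext x
    rw [mul_comm]
  rw [h1, marg_mul_left _ hfm, mul_comm]
  intro x y _
  exact marg_only_const hg x y

theorem marg_sum {ι : Type*} (I : Finset ι) {F : ι → (δ → ℝ) → ℝ≥0∞}
    (hF : ∀ i ∈ I, Measurable (F i)) (x : δ → ℝ) :
    (∫⋯∫⁻_s, (fun x => ∑ i ∈ I, F i x) ∂(fun _ => ν)) x =
      ∑ i ∈ I, (∫⋯∫⁻_s, F i ∂(fun _ => ν)) x := by
  unfold lmarginal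
  rw [lintegral_finsetSum']
  intro i hi
  exact ((hF i hi).comp measurable_updateFinset).aemeasurable

theorem marg_const_mul (c : ℝ≥0∞) (hf : Measurable f) (x : δ → ℝ) :
    (∫⋯∫⁻_s, (fun x => c * f x) ∂(fun _ => ν)) x = c * (∫⋯∫⁻_s, f ∂(fun _ => ν)) x := by
  unfold lmarginal
  rw [lintegral_const_mul]
  exact hf.comp measurable_updateFinset

theorem marg_add (hf : Measurable f) (x : δ → ℝ) :
    (∫⋯∫⁻_s, (fun x => f x + g x) ∂(fun _ => ν)) x =
      (∫⋯∫⁻_s, f ∂(fun _ => ν)) x + (∫⋯∫⁻_s, g ∂(fun _ => ν)) x := by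
  unfold lmarginal
  rw [lintegral_add_left]
  exact hf.comp measurable_updateFinset

end General

end Pool.Agent.Loc
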