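import Pool.Agent.Helper48_Loc.Gauss

/-!
# Integration by parts for traces of powers of `C diag(σ ξ) C`
-/

set_option autoImplicit false
set_option linter.unusedSectionVars false

open MeasureTheory ProbabilityTheory Function Filter

open scoped ENNReal BigOperators Topology NNReal

noncomputable section

namespace Pool.Agent.Loc

variable {n : Type*} [Fintype n] [DecidableEq n]

/-- `M(ξ) = C diag(σ ξ) C` -/
def MM (C : Matrix n n ℝ) (σ : ℝ) (ξ : n → ℝ) : Matrix n n ℝ :=
  C * Matrix.diagonal (fun x => σ * ξ x) * C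

theorem MM_apply (C : Matrix n n ℝ) (σ : ℝ) (ξ : n → ℝ) (i k : n) :
    MM C σ ξ i k = ∑ x, C i x * (σ * ξ x) * C x k := by
  unfold MM
  rw [Matrix.mul_apply]
  apply Finset.sum_congr rfl
  intro x _
  rw [Matrix.mul_diagonal]

theorem MM_symm {C : Matrix n n ℝ} (hC : C.transpose = C) (σ : ℝ) (ξ : n → ℝ) :
    (MM C σ ξ).transpose = MM C σ ξ := by
  unfold MM
  rw [Matrix.transpose_mul, Matrix.transpose_mul, Matrix.diagonal_transpose, hC, mul_assoc]

theorem PB_MM (C : Matrix n n ℝ) (σ : ℝ) (i k : n) : PB (fun ξ : n → ℝ => MM C σ ξ i k) := by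
  simp_rw [MM_apply]
  apply PB.sum
  intro x _
  have h := (((PB.const (C i x)).mul ((PB.const σ).mul (PB.coord x))).mul (PB.const (C x k)))
  exact h

/-- matrices of functions of polynomial growth -/
def PBM (F : (n → ℝ) → Matrix n n ℝ) : Prop := ∀ i k, PB (fun ξ => F ξ i k)

theorem PBM.const (A : Matrix n n ℝ) : PBM (fun _ : n → ℝ => A) := fun i k => PB.const (A i k)

theorem PBM.mul {F G : (n → ℝ) → Matrix n n ℝ} (hF : PBM F) (hG : PBM G) :
    PBM (fun ξ => F ξ * G ξ) := by
  intro i k
  simp_rw [Matrix.mul_apply]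
  exact PB.sum _ fun j _ => (hF i j).mul (hG j k)

theorem PBM.pow {F : (n → ℝ) → Matrix n n ℝ} (hF : PBM F) (m : ℕ) : PBM (fun ξ => F ξ ^ m) := by
  induction m with
  | zero => simpa using PBM.const (1 : Matrix n n ℝ)
  | succ m ih =>
    simp_rw [pow_succ]
    exact ih.mul hF

theorem PBM.trace {F : (n → ℝ) → Matrix n n ℝ} (hF : PBM F) : PB (fun ξ => (F ξ).trace) := by
  simp_rw [Matrix.trace, Matrix.diag_apply]
  exact PB.sum _ fun j _ => hF j j

theorem PBM_MM (C : Matrix n n ℝ) (σ : ℝ) : PBM (MM C σ) := fun i k => PB_MM C σ i k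

theorem trace_MM_mul (C : Matrix n n ℝ) (σ : ℝ) (ξ : n → ℝ) (Y : Matrix n n ℝ) :
    (MM C σ ξ * Y).trace = ∑ x, ξ x * (σ * (C * Y * C) x x) := by
  unfold MM
  rw [mul_assoc, mul_assoc, Matrix.trace_mul_comm, mul_assoc]
  simp only [Matrix.trace, Matrix.diag_apply, Matrix.diagonal_mul]
  apply Finset.sum_congr rfl
  intro x _
  ring

/-- products with a rank one matrix in the middle -/
theorem mul_single_apply (X Y : Matrix n n ℝ) (x i k : n) :
    (X * Matrix.single x x (1:ℝ) * Y) i k = X i x * Y x k := by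
  have h1 : ∀ l, (X * Matrix.single x x (1:ℝ)) i l = if l = x then X i x else 0 := by
    intro l
    rw [Matrix.mul_apply]
    by_cases h : l = x
    · subst h
      rw [if_pos rfl, Finset.sum_eq_single l]
      · simp
      · intro b _ hb
        simp [Matrix.single_apply, hb.symm]
      · intro h; exact absurd (Finset.mem_univ _) h
    · rw [if_neg h]
      apply Finset.sum_eq_zero
      intro b _
      have h' : x ≠ l := fun h' => h h'.symm
      simp [Matrix.single_apply, h']
  rw [Matrix.mul_apply]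
  simp_rw [h1, ite_mul, zero_mul]
  rw [Finset.sum_ite_eq', if_pos (Finset.mem_univ _)]

theorem MM_update (C : Matrix n n ℝ) (σ : ℝ) (ξ : n → ℝ) (x : n) (t : ℝ) :
    MM C σ (update ξ x t) = MM C σ ξ + (t - ξ x) • (σ • (C * Matrix.single x x (1:ℝ) * C)) := by
  ext i k
  rw [Matrix.add_apply, Matrix.smul_apply, Matrix.smul_apply, MM_apply, MM_apply]
  have h1 : (C * Matrix.single x x (1:ℝ) * C) i k = C i x * C x k := mul_single_apply C C x i k
  rw [h1, smul_eq_mul, smul_eq_mul,
    ← Finset.add_sum_erase _ _ (Finset.mem_univ x),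
    ← Finset.add_sum_erase _ (fun y => C i y * (σ * ξ y) * C y k) (Finset.mem_univ x), update_self]
  have h2 : ∑ y ∈ Finset.univ.erase x, C i y * (σ * update ξ x t y) * C y k =
      ∑ y ∈ Finset.univ.erase x, C i y * (σ * ξ y) * C y k := by
    apply Finset.sum_congr rfl
    intro y hy
    rw [update_of_ne (Finset.ne_of_mem_erase hy)]
  rw [h2]
  ring

/-- noncommutative derivative of a power -/
theorem hasDerivAt_pow_entry (A B : Matrix n n ℝ) (t₀ : ℝ) (m : ℕ) (i k : n) :
    HasDerivAt (fun t => ((A + (t - t₀) • B) ^ m) i k)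
      ((∑ j ∈ Finset.range m, A ^ j * B * A ^ (m - 1 - j)) i k) t₀ := by
  induction m generalizing i k with
  | zero => simpa using hasDerivAt_const t₀ ((1 : Matrix n n ℝ) i k)
  | succ m ih =>
    simp_rw [pow_succ, Matrix.mul_apply]
    have h1 : ∀ j, HasDerivAt (fun t => (A + (t - t₀) • B) j k) (B j k) t₀ := by
      intro j
      simp only [Matrix.add_apply, Matrix.smul_apply, smul_eq_mul]
      have h2 : HasDerivAt (fun t : ℝ => (t - t₀) * B j k) (1 * B j k) t₀ :=
        ((hasDerivAt_id t₀).sub_const t₀).mul_const _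
      have := h2.const_add (A j k)
      simpa using this
    have h2 : ∀ j ∈ Finset.univ, HasDerivAt (fun t => ((A + (t - t₀) • B) ^ m) i j *
        (A + (t - t₀) • B) j k)
        ((∑ l ∈ Finset.range m, A ^ l * B * A ^ (m - 1 - l)) i j *
          (A + (t₀ - t₀) • B) j k + ((A + (t₀ - t₀) • B) ^ m) i j * B j k) t₀ := by
      intro j _
      exact (ih i j).mul (h1 j)
    have h3 := HasDerivAt.fun_sum h2
    convert! h3 using 1
    simp only [sub_self, zero_smul, add_zero]
    rw [Finset.sum_add_distrib, ← Matrix.mul_apply, ← Matrix.mul_apply, ← Matrix.add_apply]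
    rw [Finset.sum_range_succ, Finset.sum_mul]
    have h4 : ∑ l ∈ Finset.range m, A ^ l * B * A ^ (m + 1 - 1 - l) =
        ∑ l ∈ Finset.range m, A ^ l * B * A ^ (m - 1 - l) * A := by
      apply Finset.sum_congr rfl
      intro l hl
      rw [Finset.mem_range] at hl
      rw [mul_assoc (A ^ l * B), ← pow_succ]
      congr 2
      omega
    rw [h4]
    simp

/-- **Integration by parts for traces.** -/
theorem ibp_trace (C : Matrix n n ℝ) (σ : ℝ) (m : ℕ) (Y : Matrix n n ℝ) :
    ∫ ξ, (MM C σ ξ ^ (m + 1) * Y).trace ∂(γn n) =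
      ∑ j ∈ Finset.range m, ∫ ξ, σ ^ 2 * ∑ x, (C * MM C σ ξ ^ j * C) x x *
        (C * (MM C σ ξ ^ (m - 1 - j) * Y) * C) x x ∂(γn n) := by
  have hpb : ∀ (l : ℕ) (Z : Matrix n n ℝ) (x : n),
      PB (fun ξ : n → ℝ => (C * (MM C σ ξ ^ l * Z) * C) x x) := fun l Z x =>
    (((PBM.const C).mul (((PBM_MM C σ).pow l).mul (PBM.const Z))).mul (PBM.const C)) x x
  have hpb' : ∀ (l : ℕ) (x : n),
      PB (fun ξ : n → ℝ => (C * MM C σ ξ ^ l * C) x x) := fun l x =>
    (((PBM.const C).mul ((PBM_MM C σ).pow l)).mul (PBM.const C)) x x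
  have e1 : ∀ ξ : n → ℝ, (MM C σ ξ ^ (m + 1) * Y).trace =
      ∑ x, ξ x * (σ * (C * (MM C σ ξ ^ m * Y) * C) x x) := by
    intro ξ
    rw [pow_succ', mul_assoc, trace_MM_mul]
  simp_rw [e1]
  rw [integral_finsetSum]
  swap
  · intro x _
    exact ((PB.coord x).mul ((hpb m Y x).const_mul σ)).integrable
  have e2 : ∀ x : n, ∫ ξ, ξ x * (σ * (C * (MM C σ ξ ^ m * Y) * C) x x) ∂(γn n) =
      ∫ ξ, ∑ j ∈ Finset.range m, σ ^ 2 * ((C * MM C σ ξ ^ j * C) x x *
        (C * (MM C σ ξ ^ (m - 1 - j) * Y) * C) x x) ∂(γn n) := by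
    intro x
    apply stein ((hpb m Y x).const_mul σ)
    · apply PB.sum
      intro j _
      exact ((hpb' j x).mul (hpb (m - 1 - j) Y x)).const_mul _
    · intro ξ
      -- entries of the update
      have h1 : ∀ t, σ * (C * (MM C σ (update ξ x t) ^ m * Y) * C) x x =
          ∑ i, ∑ k, (σ * (C x i * (Y * C) k x)) *
            ((MM C σ ξ + (t - ξ x) • (σ • (C * Matrix.single x x (1:ℝ) * C))) ^ m) i k := by
        intro t
        rw [MM_update, show C * ((MM C σ ξ + (t - ξ x) • (σ • (C * Matrix.single x x (1:ℝ) * C))) ^ m *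
          Y) * C = C * (MM C σ ξ + (t - ξ x) • (σ • (C * Matrix.single x x (1:ℝ) * C))) ^ m *
          (Y * C) by simp only [mul_assoc]]
        rw [Matrix.mul_apply]
        simp_rw [Matrix.mul_apply (M := C), Finset.sum_mul, Finset.mul_sum]
        rw [Finset.sum_comm]
        apply Finset.sum_congr rfl
        intro i _
        apply Finset.sum_congr rfl
        intro k _
        ring
      have h2 : HasDerivAt (fun t => ∑ i, ∑ k, (σ * (C x i * (Y * C) k x)) *
            ((MM C σ ξ + (t - ξ x) • (σ • (C * Matrix.single x x (1:ℝ) * C))) ^ m) i k)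
          (∑ i, ∑ k, (σ * (C x i * (Y * C) k x)) *
            (∑ j ∈ Finset.range m, MM C σ ξ ^ j * (σ • (C * Matrix.single x x (1:ℝ) * C)) *
              MM C σ ξ ^ (m - 1 - j)) i k) (ξ x) := by
        apply HasDerivAt.fun_sum
        intro i _
        apply HasDerivAt.fun_sum
        intro k _
        exact (hasDerivAt_pow_entry _ _ _ _ _ _).const_mul _
      have h3 : (∑ i, ∑ k, (σ * (C x i * (Y * C) k x)) *
            (∑ j ∈ Finset.range m, MM C σ ξ ^ j * (σ • (C * Matrix.single x x (1:ℝ) * C)) *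
              MM C σ ξ ^ (m - 1 - j)) i k) =
          ∑ j ∈ Finset.range m, σ ^ 2 * ((C * MM C σ ξ ^ j * C) x x *
            (C * (MM C σ ξ ^ (m - 1 - j) * Y) * C) x x) := by
        have h4 : (∑ i, ∑ k, (σ * (C x i * (Y * C) k x)) *
            (∑ j ∈ Finset.range m, MM C σ ξ ^ j * (σ • (C * Matrix.single x x (1:ℝ) * C)) *
              MM C σ ξ ^ (m - 1 - j)) i k) =
            σ * (C * (∑ j ∈ Finset.range m, MM C σ ξ ^ j * (σ • (C * Matrix.single x x (1:ℝ) * C)) *
              MM C σ ξ ^ (m - 1 - j)) * (Y * C)) x x := by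
          rw [Matrix.mul_apply]
          simp_rw [Matrix.mul_apply (M := C), Finset.sum_mul, Finset.mul_sum]
          rw [Finset.sum_comm]
          apply Finset.sum_congr rfl
          intro i _
          apply Finset.sum_congr rfl
          intro k _
          ring
        rw [h4, Finset.mul_sum, Finset.sum_mul, Matrix.sum_apply, Finset.mul_sum]
        apply Finset.sum_congr rfl
        intro j _
        have h5 : C * (MM C σ ξ ^ j * (σ • (C * Matrix.single x x (1:ℝ) * C)) *
            MM C σ ξ ^ (m - 1 - j)) * (Y * C) =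
            σ • ((C * MM C σ ξ ^ j * C) * Matrix.single x x (1:ℝ) *
              (C * (MM C σ ξ ^ (m - 1 - j) * Y) * C)) := by
          rw [Matrix.mul_smul, Matrix.smul_mul, Matrix.mul_smul, Matrix.smul_mul]
          congr 1
          simp only [mul_assoc]
        rw [h5, Matrix.smul_apply, mul_single_apply, smul_eq_mul]
        ring
      rw [← h3]
      refine h2.congr_of_eventuallyEq (Eventually.of_forall fun t => ?_)
      exact h1 t
  simp_rw [e2]
  rw [← integral_finsetSum]
  swap
  · intro x _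
    exact (PB.sum _ fun j _ => ((hpb' j x).mul (hpb (m - 1 - j) Y x)).const_mul _).integrable
  rw [← integral_finsetSum]
  swap
  · intro j _
    exact ((PB.sum _ fun x _ => (hpb' j x).mul (hpb (m - 1 - j) Y x)).const_mul _).integrable
  congr 1
  funext ξ
  rw [Finset.sum_comm]
  apply Finset.sum_congr rfl
  intro j _
  rw [Finset.mul_sum]

end Pool.Agent.Loc
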