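import Pool.Agent.Helper48_Loc.Core

/-!
# The moment bound and the tail bound for `‖M‖`
-/

set_option autoImplicit false
set_option linter.unusedSectionVars false

open MeasureTheory ProbabilityTheory Function Filter

open scoped ENNReal BigOperators Topology NNReal

noncomputable section

namespace Pool.Agent.Loc

variable {n : Type*} [Fintype n] [DecidableEq n]

variable {C : Matrix n n ℝ} {a g κ₂ σ : ℝ}

/-- rescaling of the hypotheses -/
theorem Hyp.rescale (hC : Hyp C a g κ₂) {s : ℝ} (hs : 0 < s) :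
    Hyp ((√s)⁻¹ • C) (a * s) (g / s) (κ₂ / s ^ 2) := by
  have hss : (√s)⁻¹ * (√s)⁻¹ = 1 / s := by
    rw [← mul_inv, Real.mul_self_sqrt hs.le, one_div]
  have hCC : ((√s)⁻¹ • C) * ((√s)⁻¹ • C) = (1 / s) • (C * C) := by
    rw [Matrix.smul_mul, Matrix.mul_smul, smul_smul, hss]
  have ha := hC.ha
  have hg := hC.hg
  have hκ := hC.hκ
  refine ⟨?_, by positivity, by positivity, by positivity, ?_, ?_, ?_⟩
  · rw [Matrix.transpose_smul, hC.symm]
  · intro x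
    rw [hCC, Matrix.smul_apply, smul_eq_mul]
    have := hC.diag x
    calc 1 / s * (C * C) x x ≤ 1 / s * g := by gcongr
      _ = g / s := by ring
  · intro v
    rw [hCC, Matrix.smul_mulVec, dotProduct_smul, smul_eq_mul]
    have := hC.norm v
    calc 1 / s * (v ⬝ᵥ (C * C).mulVec v) ≤ 1 / s * (1 / a * (v ⬝ᵥ v)) := by gcongr
      _ = 1 / (a * s) * (v ⬝ᵥ v) := by field_simp
  · intro x
    rw [hCC]
    have := hC.sq x
    calc ∑ y, ((1 / s) • (C * C)) x y ^ 2 = (1 / s) ^ 2 * ∑ y, (C * C) x y ^ 2 := by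
          rw [Finset.mul_sum]
          apply Finset.sum_congr rfl
          intro y _
          rw [Matrix.smul_apply, smul_eq_mul]
          ring
      _ ≤ (1 / s) ^ 2 * κ₂ := by gcongr
      _ = κ₂ / s ^ 2 := by rw [div_pow, one_pow]; ring

theorem MM_rescale (C : Matrix n n ℝ) (σ : ℝ) {s : ℝ} (hs : 0 < s) (ξ : n → ℝ) :
    MM ((√s)⁻¹ • C) σ ξ = (1 / s) • MM C σ ξ := by
  have hss : (√s)⁻¹ * (√s)⁻¹ = 1 / s := by
    rw [← mul_inv, Real.mul_self_sqrt hs.le, one_div]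
  unfold MM
  rw [Matrix.smul_mul, Matrix.smul_mul, Matrix.mul_smul, smul_smul, hss]

theorem SS_rescale (C : Matrix n n ℝ) (σ : ℝ) {s : ℝ} (hs : 0 < s) (m : ℕ) :
    SS ((√s)⁻¹ • C) σ 0 m = (1 / s) ^ m * SS C σ 0 m := by
  unfold SS
  simp_rw [MM_rescale C σ hs, pow_zero, mul_one, smul_pow, Matrix.trace_smul, smul_eq_mul]
  rw [integral_const_mul]

theorem bet_le (hC : Hyp C a g κ₂) (hq : σ ^ 2 * g / a ≤ 1) {p : ℕ} (hp : 1 ≤ p)
    (hw : √(σ ^ 2 * κ₂) ≤ 1) :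
    bet a g κ₂ σ p ≤ 45 * p * √(σ ^ 2 * κ₂) := by
  have ha := hC.ha
  have hg := hC.hg
  have hκ := hC.hκ
  have hp1 : (1:ℝ) ≤ p := by exact_mod_cast hp
  set w := √(σ ^ 2 * κ₂) with hwdef
  have hw0 : 0 ≤ w := Real.sqrt_nonneg _
  have hww : w ^ 2 = σ ^ 2 * κ₂ := Real.sq_sqrt (by positivity)
  set q := σ ^ 2 * g / a with hqdef
  have hq0 : 0 ≤ q := by positivity
  have he : Real.exp 1 ≤ 2.7182818286 := Real.exp_one_lt_d9.le
  have he0 : 0 < Real.exp 1 := Real.exp_pos 1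
  -- first term
  have t1 : σ ^ 2 / a * (√g * √(σ ^ 4 * g ^ 2 * κ₂ / a)) ≤ w := by
    have h1 : σ ^ 2 / a * (√g * √(σ ^ 4 * g ^ 2 * κ₂ / a)) = √(q ^ 3 * (σ ^ 2 * κ₂)) := by
      rw [← Real.sqrt_mul hg.le, ← Real.sqrt_sq (show 0 ≤ σ ^ 2 / a by positivity),
        ← Real.sqrt_mul (by positivity)]
      congr 1
      rw [hqdef]
      field_simp
    rw [h1]
    apply Real.sqrt_le_sqrt
    have : q ^ 3 ≤ 1 := pow_le_one₀ hq0 hq
    calc q ^ 3 * (σ ^ 2 * κ₂) ≤ 1 * (σ ^ 2 * κ₂) := by gcongr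
      _ = _ := one_mul _
  have t2 : σ ^ 2 / a * (4 * Real.exp 1 * p * (σ ^ 2 * g * κ₂)) ≤ 11 * p * w := by
    have h1 : σ ^ 2 / a * (4 * Real.exp 1 * p * (σ ^ 2 * g * κ₂)) =
        4 * Real.exp 1 * p * (q * w ^ 2) := by
      rw [hww, hqdef]
      field_simp
    rw [h1]
    have h2 : q * w ^ 2 ≤ 1 * w := by
      have : w ^ 2 ≤ w := by nlinarith
      exact mul_le_mul hq this (by positivity) zero_le_one
    calc 4 * Real.exp 1 * p * (q * w ^ 2) ≤ 4 * Real.exp 1 * p * (1 * w) := by gcongr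
      _ ≤ 4 * 2.7182818286 * p * (1 * w) := by gcongr
      _ ≤ 11 * p * w := by nlinarith [mul_nonneg (by linarith : (0:ℝ) ≤ p) hw0]
  have t3 : σ ^ 2 / a * √(g * (4 * Real.exp 1 * p * (σ ^ 2 * g * κ₂))) ≤ 10 / 3 * p * w := by
    have h1 : σ ^ 2 / a * √(g * (4 * Real.exp 1 * p * (σ ^ 2 * g * κ₂))) =
        √(q ^ 2 * (4 * Real.exp 1 * p) * (σ ^ 2 * κ₂)) := by
      rw [← Real.sqrt_sq (show 0 ≤ σ ^ 2 / a by positivity), ← Real.sqrt_mul (by positivity)]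
      congr 1
      rw [hqdef]
      field_simp
    rw [h1]
    have h3 : √(q ^ 2 * (4 * Real.exp 1 * p) * (σ ^ 2 * κ₂)) ≤ √((10 / 3 * p * w) ^ 2) := by
      apply Real.sqrt_le_sqrt
      have h4 : q ^ 2 ≤ 1 := pow_le_one₀ hq0 hq
      calc q ^ 2 * (4 * Real.exp 1 * p) * (σ ^ 2 * κ₂)
          ≤ 1 * (4 * Real.exp 1 * p) * (σ ^ 2 * κ₂) := by gcongr
        _ ≤ 1 * (4 * 2.7182818286 * p) * (σ ^ 2 * κ₂) := by gcongr
        _ = (4 * 2.7182818286 * p) * w ^ 2 := by rw [hww]; ring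
        _ ≤ (10 / 3 * p * w) ^ 2 := by
            have h5 : (p:ℝ) ≤ p ^ 2 := by nlinarith
            have h6 : 0 ≤ w ^ 2 := by positivity
            nlinarith [mul_le_mul_of_nonneg_right h5 h6, mul_nonneg (by linarith : (0:ℝ) ≤ p) h6]
    rwa [Real.sqrt_sq (by positivity)] at h3
  unfold bet
  have hpw : w ≤ p * w := by nlinarith
  calc σ ^ 2 / a * (2 * (√g * √(σ ^ 4 * g ^ 2 * κ₂ / a)) +
        3 * (4 * Real.exp 1 * p * (σ ^ 2 * g * κ₂)) +
        3 * √(g * (4 * Real.exp 1 * p * (σ ^ 2 * g * κ₂))))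
      = 2 * (σ ^ 2 / a * (√g * √(σ ^ 4 * g ^ 2 * κ₂ / a))) +
        3 * (σ ^ 2 / a * (4 * Real.exp 1 * p * (σ ^ 2 * g * κ₂))) +
        3 * (σ ^ 2 / a * √(g * (4 * Real.exp 1 * p * (σ ^ 2 * g * κ₂)))) := by ring
    _ ≤ 2 * w + 3 * (11 * p * w) + 3 * (10 / 3 * p * w) := by gcongr
    _ ≤ 45 * p * w := by nlinarith

/-- rescaled remainder -/
theorem bet_rescale (hC : Hyp C a g κ₂) {s : ℝ} (hs : 0 < s) (hs2 : 1 / 2 ≤ s ^ 2)
    (p : ℕ) :
    bet (a * s) (g / s) (κ₂ / s ^ 2) σ p ≤ 4 * bet a g κ₂ σ p := by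
  have ha := hC.ha
  have hg := hC.hg
  have hκ := hC.hκ
  have hu2 : (1 / s) ^ 2 ≤ 2 := by
    rw [div_pow, one_pow, div_le_iff₀ (by positivity)]
    linarith
  have hu0 : 0 < 1 / s := by positivity
  have hu4 : (1 / s) ^ 4 ≤ 4 := by nlinarith
  have hu3 : (1 / s) ^ 3 ≤ 4 := by
    have h1 : 1 / s ≤ 2 := by nlinarith
    calc (1 / s) ^ 3 = (1 / s) ^ 2 * (1 / s) := by ring
      _ ≤ 2 * 2 := by gcongr
      _ = 4 := by norm_num
  have e1 : σ ^ 2 / (a * s) = σ ^ 2 / a * (1 / s) := by field_simp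
  have e2 : √(g / s) * √(σ ^ 4 * (g / s) ^ 2 * (κ₂ / s ^ 2) / (a * s)) =
      √g * √(σ ^ 4 * g ^ 2 * κ₂ / a) * (1 / s) ^ 3 := by
    rw [← Real.sqrt_mul (by positivity), ← Real.sqrt_mul (by positivity),
      ← Real.sqrt_sq (show 0 ≤ (1 / s) ^ 3 by positivity), ← Real.sqrt_mul (by positivity)]
    congr 1
    field_simp
  have e3 : 4 * Real.exp 1 * p * (σ ^ 2 * (g / s) * (κ₂ / s ^ 2)) =
      4 * Real.exp 1 * p * (σ ^ 2 * g * κ₂) * (1 / s) ^ 3 := by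
    field_simp
  have e4 : √(g / s * (4 * Real.exp 1 * p * (σ ^ 2 * (g / s) * (κ₂ / s ^ 2)))) =
      √(g * (4 * Real.exp 1 * p * (σ ^ 2 * g * κ₂))) * (1 / s) ^ 2 := by
    rw [← Real.sqrt_sq (show 0 ≤ (1 / s) ^ 2 by positivity), ← Real.sqrt_mul (by positivity)]
    congr 1
    field_simp
  unfold bet
  rw [e1, e2, e4, e3]
  set X := √g * √(σ ^ 4 * g ^ 2 * κ₂ / a) with hX
  set Y := 4 * Real.exp 1 * p * (σ ^ 2 * g * κ₂) with hY
  set Z := √(g * Y) with hZ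
  have hX0 : 0 ≤ X := by positivity
  have hY0 : 0 ≤ Y := by positivity
  have hZ0 : 0 ≤ Z := Real.sqrt_nonneg _
  have hc : 0 ≤ σ ^ 2 / a := by positivity
  calc σ ^ 2 / a * (1 / s) * (2 * (X * (1 / s) ^ 3) + 3 * (Y * (1 / s) ^ 3) +
        3 * (Z * (1 / s) ^ 2))
      = σ ^ 2 / a * (2 * X * (1 / s) ^ 4 + 3 * Y * (1 / s) ^ 4 + 3 * Z * (1 / s) ^ 3) := by ring
    _ ≤ σ ^ 2 / a * (2 * X * 4 + 3 * Y * 4 + 3 * Z * 4) := by gcongr
    _ = _ := by ring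

/-- **The moment bound.** -/
theorem moment_bound (hC : Hyp C a g κ₂) (hκ : 0 < κ₂) (hσ : σ ≠ 0) (hag : a * g ≤ 1)
    (hq1 : 1 / 2 ≤ σ ^ 2 * g / a) (hq : σ ^ 2 * g / a ≤ 1) {p : ℕ} (hp : 2 ≤ p)
    (hsmall : 1440 * (p : ℝ) ^ 3 * √(σ ^ 2 * κ₂) ≤ 1) :
    SS C σ 0 (2 * p) ≤ 4 * (Fintype.card n * (σ ^ 2 * g / a) ^ p) := by
  by_contra hcon
  push Not at hcon
  have ha := hC.ha
  have hg := hC.hg
  have hp1 : (2:ℝ) ≤ p := by exact_mod_cast hp
  have hw0 : 0 ≤ √(σ ^ 2 * κ₂) := Real.sqrt_nonneg _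
  rcases isEmpty_or_nonempty n with hempty | hne
  · have h1 : SS C σ 0 (2 * p) = 0 := by
      unfold SS
      simp [Matrix.trace]
    rw [h1] at hcon
    simp at hcon
  have hN : (0:ℝ) < Fintype.card n := by exact_mod_cast Fintype.card_pos
  set q := σ ^ 2 * g / a with hqdef
  have hq0 : 0 < q := by linarith
  set m := SS C σ 0 (2 * p) with hm
  have hm0 : 0 < m := by
    have : 0 < 4 * (Fintype.card n * q ^ p) := by positivity
    linarith
  set s : ℝ := (m / Fintype.card n) ^ ((1:ℝ) / (2 * p : ℕ)) with hs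
  have hbase : 0 < m / Fintype.card n := by positivity
  have hs0 : 0 < s := Real.rpow_pos_of_pos hbase _
  have hspow : s ^ (2 * p) = m / Fintype.card n := by
    rw [hs, ← Real.rpow_natCast, ← Real.rpow_mul hbase.le, one_div, inv_mul_cancel₀,
      Real.rpow_one]
    have : 0 < 2 * p := by omega
    positivity
  have hs4 : 4 * q ^ p < (s ^ 2) ^ p := by
    rw [← pow_mul, hspow, lt_div_iff₀ hN]
    linarith
  have hqs : q < s ^ 2 := by
    by_contra h1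
    push Not at h1
    have h2 : (s ^ 2) ^ p ≤ q ^ p := pow_le_pow_left₀ (by positivity) h1 p
    have h3 : 0 < q ^ p := by positivity
    linarith
  have hs2 : 1 / 2 ≤ s ^ 2 := by linarith
  have hC' := hC.rescale hs0
  have hq' : σ ^ 2 * (g / s) / (a * s) = q / s ^ 2 := by
    rw [hqdef]; field_simp
  have hSS : SS ((√s)⁻¹ • C) σ 0 (2 * p) = Fintype.card n := by
    rw [SS_rescale C σ hs0, ← hm, div_pow, one_pow, hspow]
    field_simp
  have hmain := SS_normalised hC' (by positivity) hσ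
    (by rw [show a * s * (g / s) = a * g by field_simp]; exact hag)
    (by rw [hq', div_le_one (by positivity)]; exact hqs.le) hp hSS.le
  rw [hSS, hq'] at hmain
  have h1 : (q / s ^ 2) ^ p < 1 / 4 := by
    rw [div_pow, div_lt_iff₀ (by positivity)]
    linarith
  have hw1 : √(σ ^ 2 * κ₂) ≤ 1 := by
    have h5 : 1 * √(σ ^ 2 * κ₂) ≤ 1440 * (p : ℝ) ^ 3 * √(σ ^ 2 * κ₂) := by
      apply mul_le_mul_of_nonneg_right _ hw0
      have : (1:ℝ) ≤ (p:ℝ) ^ 3 := one_le_pow₀ (by linarith)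
      linarith
    linarith
  have hb1 := bet_rescale (σ := σ) hC hs0 hs2 p
  have hb2 := bet_le hC hq (p := p) (by omega) hw1
  have hb3 : 4 * (p:ℝ) ^ 2 * bet (a * s) (g / s) (κ₂ / s ^ 2) σ p ≤ 1 / 2 := by
    calc 4 * (p:ℝ) ^ 2 * bet (a * s) (g / s) (κ₂ / s ^ 2) σ p
        ≤ 4 * (p:ℝ) ^ 2 * (4 * (45 * p * √(σ ^ 2 * κ₂))) := by
          apply mul_le_mul_of_nonneg_left _ (by positivity)
          exact hb1.trans (by linarith)
      _ = 1 / 2 * (1440 * (p : ℝ) ^ 3 * √(σ ^ 2 * κ₂)) := by ring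
      _ ≤ 1 / 2 * 1 := by gcongr
      _ = _ := by ring
  have h2 : 2 * (Fintype.card n * (q / s ^ 2) ^ p) < 1 / 2 * Fintype.card n := by
    have := mul_lt_mul_of_pos_left h1 hN
    linarith
  have h3 : 4 * (p:ℝ) ^ 2 * (Fintype.card n * bet (a * s) (g / s) (κ₂ / s ^ 2) σ p) ≤
      1 / 2 * Fintype.card n := by
    have := mul_le_mul_of_nonneg_right hb3 hN.le
    calc 4 * (p:ℝ) ^ 2 * (Fintype.card n * bet (a * s) (g / s) (κ₂ / s ^ 2) σ p) =
        4 * (p:ℝ) ^ 2 * bet (a * s) (g / s) (κ₂ / s ^ 2) σ p * Fintype.card n := by ring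
      _ ≤ _ := this
  linarith

/-- control of the quadratic form by the trace of a power -/
theorem form_le_of_trace {M : Matrix n n ℝ} (hM : M.transpose = M) {p : ℕ} (hp : 1 ≤ p) {θ : ℝ}
    (hθ : 0 ≤ θ) (h : (M ^ (2 * p)).trace ≤ θ ^ (2 * p)) (v : n → ℝ) :
    |v ⬝ᵥ M.mulVec v| ≤ θ * (v ⬝ᵥ v) := by
  obtain ⟨U, lam, hU1, hU2, hMp⟩ := exists_diag_real hM
  have htr : (M ^ (2 * p)).trace = ∑ l, lam l ^ (2 * p) := by
    rw [hMp, trace_diag hU1]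
  have hlam : ∀ l, |lam l| ≤ θ := by
    intro l
    have h1 : lam l ^ (2 * p) ≤ θ ^ (2 * p) := by
      refine le_trans ?_ h
      rw [htr]
      exact Finset.single_le_sum (f := fun l => lam l ^ (2 * p))
        (fun l _ => by rw [pow_mul]; positivity) (Finset.mem_univ l)
    have h2 : |lam l| ^ (2 * p) ≤ θ ^ (2 * p) := by
      rwa [pow_mul, sq_abs, ← pow_mul]
    exact le_of_pow_le_pow_left₀ (by omega) hθ h2
  have hform : v ⬝ᵥ M.mulVec v = ∑ l, (U.transpose.mulVec v) l ^ 2 * lam l := by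
    have h1 := hMp 1
    rw [pow_one] at h1
    rw [h1, ← Matrix.mulVec_mulVec, ← Matrix.mulVec_mulVec, Matrix.dotProduct_mulVec,
      ← Matrix.mulVec_transpose]
    unfold dotProduct
    apply Finset.sum_congr rfl
    intro l _
    rw [Matrix.mulVec_diagonal]
    ring
  have hnorm : v ⬝ᵥ v = ∑ l, (U.transpose.mulVec v) l ^ 2 := by
    have h1 : (U.transpose.mulVec v) ⬝ᵥ (U.transpose.mulVec v) = v ⬝ᵥ v := by
      rw [Matrix.dotProduct_mulVec, ← Matrix.mulVec_transpose, Matrix.transpose_transpose,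
        Matrix.mulVec_mulVec, hU2, Matrix.one_mulVec]
    rw [← h1]
    unfold dotProduct
    apply Finset.sum_congr rfl
    intro l _
    ring
  rw [hform, hnorm, Finset.mul_sum]
  refine (Finset.abs_sum_le_sum_abs _ _).trans (Finset.sum_le_sum fun l _ => ?_)
  rw [abs_mul, abs_of_nonneg (sq_nonneg _), mul_comm]
  exact mul_le_mul_of_nonneg_right (hlam l) (sq_nonneg _)

/-- **The tail bound.** -/
theorem tail_bound (hC : Hyp C a g κ₂) (hκ : 0 < κ₂) (hσ : σ ≠ 0) (hag : a * g ≤ 1)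
    (hq1 : 1 / 2 ≤ σ ^ 2 * g / a) (hq : σ ^ 2 * g / a ≤ 1) {p : ℕ} (hp : 2 ≤ p)
    (hsmall : 1440 * (p : ℝ) ^ 3 * √(σ ^ 2 * κ₂) ≤ 1) {θ : ℝ} (hθ : 0 < θ) :
    (γn n) {ξ | θ ^ (2 * p) ≤ (MM C σ ξ ^ (2 * p)).trace} ≤
      ENNReal.ofReal (4 * Fintype.card n * (σ ^ 2 * g / a / θ ^ 2) ^ p) := by
  have hPt : PB (fun ξ : n → ℝ => (MM C σ ξ ^ (2 * p)).trace) := ((PBM_MM C σ).pow (2 * p)).trace
  have h0 : ∀ ξ : n → ℝ, 0 ≤ (MM C σ ξ ^ (2 * p)).trace := by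
    intro ξ
    obtain ⟨U, lam, hU1, hU2, hMp⟩ := exists_diag_real (MM_symm hC.symm σ ξ)
    rw [hMp, trace_diag hU1]
    exact Finset.sum_nonneg fun l _ => by rw [pow_mul]; positivity
  have h1 := mul_meas_ge_le_integral_of_nonneg (μ := γn n) (Filter.Eventually.of_forall h0)
    hPt.integrable (θ ^ (2 * p))
  have h2 := moment_bound hC hκ hσ hag hq1 hq hp hsmall
  have h3 : ∫ ξ, (MM C σ ξ ^ (2 * p)).trace ∂(γn n) = SS C σ 0 (2 * p) := by
    unfold SS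
    simp
  rw [h3] at h1
  have h4 : (γn n).real {ξ | θ ^ (2 * p) ≤ (MM C σ ξ ^ (2 * p)).trace} ≤
      4 * Fintype.card n * (σ ^ 2 * g / a / θ ^ 2) ^ p := by
    have h5 := h1.trans h2
    have h6 : 0 < θ ^ (2 * p) := by positivity
    rw [mul_comm, ← le_div_iff₀ h6] at h5
    refine h5.trans (le_of_eq ?_)
    rw [div_pow _ (θ ^ 2), ← pow_mul]
    ring
  rw [← ENNReal.ofReal_toReal (measure_ne_top (γn n) _)]
  exact ENNReal.ofReal_le_ofReal h4

end Pool.Agent.Loc
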