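import Pool.Agent.Helper48_Loc.GaussLaw

/-!
# Choice of the parameters
-/

set_option autoImplicit false
set_option linter.unusedSectionVars false

open MeasureTheory ProbabilityTheory Function Filter

open scoped ENNReal BigOperators NNReal Topology

noncomputable section

namespace Pool.Agent.Loc

open Pool.Agent.Anderson

variable {d : ℕ}

theorem card_le_of_subset_box {W : Finset (Site d)} {x : Site d} {L : ℕ} (h : W ⊆ box x L) :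
    W.card ≤ (2 * L + 1) ^ d := by
  rw [← card_box x L]
  exact Finset.card_le_card h

/-- asymptotics used for small disorder -/
theorem tendsto_aux (m : ℕ) {c γ : ℝ} (hc : 0 < c) (hγ : 0 < γ) :
    Tendsto (fun τ : ℝ => (τ⁻¹) ^ m * Real.exp (-c * (τ⁻¹) ^ γ)) (𝓝[>] 0) (𝓝 0) := by
  have h1 := tendsto_rpow_mul_exp_neg_mul_atTop_nhds_zero ((m : ℝ) / γ) c hc
  have h2 : Tendsto (fun τ : ℝ => (τ⁻¹) ^ γ) (𝓝[>] 0) atTop :=
    (tendsto_rpow_atTop hγ).comp tendsto_inv_nhdsGT_zero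
  have h3 := h1.comp h2
  refine h3.congr' ?_
  filter_upwards [self_mem_nhdsWithin] with τ hτ
  have hτ' : (0:ℝ) < τ := hτ
  have hτ0 : 0 < τ⁻¹ := by positivity
  simp only [Function.comp]
  rw [← Real.rpow_mul hτ0.le, mul_div_cancel₀ _ hγ.ne', Real.rpow_natCast]

theorem exp_sub_one_le {x : ℝ} (h0 : 0 ≤ x) (h1 : x ≤ 1) : Real.exp x - 1 ≤ 2 * x := by
  have h2 := Real.abs_exp_sub_one_le (x := x) (by rw [abs_of_nonneg h0]; exact h1)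
  rw [abs_of_nonneg h0] at h2
  exact (le_abs_self _).trans h2

theorem prm_aux_theta {δ : ℝ} (hδ0 : 0 < δ) (hδ1 : δ ≤ 1) :
    1 + δ / 2 ≤ (1 + δ) * (1 - δ / 8) ^ 2 := by
  have e : (1 + δ) * (1 - δ / 8) ^ 2 - (1 + δ / 2) =
      δ * (1 - δ) / 4 + δ * δ * (1 + δ) / 64 := by ring
  have e1 : 0 ≤ δ * (1 - δ) := mul_nonneg hδ0.le (sub_nonneg.2 hδ1)
  have e2 : 0 ≤ δ * δ * (1 + δ) := by positivity
  linarith only [e, e1, e2]

/-- exponent bookkeeping -/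
theorem prm_pow_three_rpow {t γ : ℝ} (ht0 : 0 < t) {p : ℝ} (hp : 0 ≤ p) (hple : p ≤ 3 * t ^ (2 * γ)) :
    p ^ 3 ≤ 27 * t ^ (6 * γ) := by
  calc p ^ 3 ≤ (3 * t ^ (2 * γ)) ^ 3 := pow_le_pow_left₀ hp hple 3
    _ = 27 * (t ^ (2 * γ)) ^ 3 := by ring
    _ = 27 * t ^ (6 * γ) := by
        rw [← Real.rpow_natCast (t ^ (2 * γ)) 3, ← Real.rpow_mul ht0.le]
        congr 2
        push_cast
        ring

theorem prm_sq_mul_rpow {G τ η : ℝ} (hG : 0 < G) (hτ : 0 < τ) :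
    (τ ^ 2) * (G * τ ^ 2) ^ (-1 + η) = G ^ (-1 + η) * (τ ^ η) ^ 2 := by
  rw [Real.mul_rpow hG.le (sq_nonneg τ)]
  have e3 : τ ^ 2 * (τ ^ 2) ^ (-1 + η) = (τ ^ η) ^ 2 := by
    rw [← Real.rpow_natCast τ 2, ← Real.rpow_mul hτ.le, ← Real.rpow_add hτ,
      ← Real.rpow_natCast (τ ^ η) 2, ← Real.rpow_mul hτ.le]
    congr 1
    push_cast
    ring
  rw [mul_left_comm, e3]

theorem prm_sqrt_small {G C₅ τ η a : ℝ} (hG : 0 < G) (hC₅ : 0 < C₅) (hη1 : η ≤ 1) (hτ : 0 < τ)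
    (hageq : G * τ ^ 2 ≤ a) :
    √(τ ^ 2 * (C₅ * a ^ (-1 + η))) ≤ √(C₅ * G ^ (-1 + η)) * τ ^ η := by
  have hGτ : 0 < G * τ ^ 2 := mul_pos hG (pow_pos hτ 2)
  have e1 : a ^ (-1 + η) ≤ (G * τ ^ 2) ^ (-1 + η) :=
    Real.rpow_le_rpow_of_nonpos hGτ hageq (by linarith only [hη1])
  have e0 : 0 ≤ C₅ * G ^ (-1 + η) := mul_nonneg hC₅.le (Real.rpow_nonneg hG.le _)
  have e2 : τ ^ 2 * (C₅ * a ^ (-1 + η)) ≤ C₅ * G ^ (-1 + η) * (τ ^ η) ^ 2 := by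
    calc τ ^ 2 * (C₅ * a ^ (-1 + η)) ≤ τ ^ 2 * (C₅ * (G * τ ^ 2) ^ (-1 + η)) :=
          mul_le_mul_of_nonneg_left (mul_le_mul_of_nonneg_left e1 hC₅.le) (sq_nonneg τ)
      _ = C₅ * (τ ^ 2 * (G * τ ^ 2) ^ (-1 + η)) := by rw [mul_left_comm]
      _ = C₅ * G ^ (-1 + η) * (τ ^ η) ^ 2 := by rw [prm_sq_mul_rpow hG hτ, mul_assoc]
  refine (Real.sqrt_le_sqrt e2).trans (le_of_eq ?_)
  rw [Real.sqrt_mul e0, Real.sqrt_sq (Real.rpow_nonneg hτ.le _)]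

theorem prm_small_le_one {G C₅ τ t η γ a Q : ℝ} {p : ℕ} (hG : 0 < G) (hC₅ : 0 < C₅) (hη1 : η ≤ 1)
    (hγ : γ = η / 12) (hτ : 0 < τ) (ht : t = τ⁻¹) (hageq : G * τ ^ 2 ≤ a)
    (hQ : Q = 1440 * 27 * √(C₅ * G ^ (-1 + η))) (h3 : Q * τ ^ (η / 2) < 1)
    (hple : (p:ℝ) ≤ 3 * t ^ (2 * γ)) :
    1440 * (p : ℝ) ^ 3 * √(τ ^ 2 * (C₅ * a ^ (-1 + η))) ≤ 1 := by
  have ht0 : 0 < t := by rw [ht]; exact inv_pos.2 hτ
  have e4 := prm_sqrt_small hG hC₅ hη1 hτ hageq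
  have e5 := prm_pow_three_rpow ht0 (Nat.cast_nonneg p) hple
  have e6 : t ^ (6 * γ) * τ ^ η = τ ^ (η / 2) := by
    rw [ht, Real.inv_rpow hτ.le, ← Real.rpow_neg hτ.le, ← Real.rpow_add hτ]
    congr 1
    rw [hγ]; ring
  have e7 : 0 ≤ t ^ (6 * γ) := Real.rpow_nonneg ht0.le _
  calc 1440 * (p : ℝ) ^ 3 * √(τ ^ 2 * (C₅ * a ^ (-1 + η)))
      ≤ 1440 * (27 * t ^ (6 * γ)) * (√(C₅ * G ^ (-1 + η)) * τ ^ η) :=
        mul_le_mul (mul_le_mul_of_nonneg_left e5 (by norm_num)) e4 (Real.sqrt_nonneg _)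
          (mul_nonneg (by norm_num) (mul_nonneg (by norm_num) e7))
    _ = Q * (t ^ (6 * γ) * τ ^ η) := by rw [hQ]; ring
    _ = Q * τ ^ (η / 2) := by rw [e6]
    _ ≤ 1 := h3.le

theorem prm_sqrt_two_div {G τ t γ δ a g₀ : ℝ} (hG : 0 < G) (hτ : 0 < τ) (h1 : τ < 1)
    (ht : t = τ⁻¹) (ht1 : 1 ≤ t) (hγ1 : γ ≤ 1 / 12) (hδ : δ = τ ^ γ)
    (hageq : G * τ ^ 2 ≤ a) (hg₀ : g₀ = δ / 8 * a) :
    √(2 / g₀) ≤ √(16 / G) * t ^ 2 := by
  have hδ0 : 0 < δ := by rw [hδ]; exact Real.rpow_pos_of_pos hτ _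
  have hGτ : 0 < G * τ ^ 2 := mul_pos hG (pow_pos hτ 2)
  have f3 : τ ≤ δ := by
    rw [hδ]
    calc τ = τ ^ (1:ℝ) := (Real.rpow_one τ).symm
      _ ≤ τ ^ γ := Real.rpow_le_rpow_of_exponent_ge hτ h1.le (by linarith only [hγ1])
  have f2 : G * τ ^ 3 / 8 ≤ g₀ := by
    rw [hg₀]
    calc G * τ ^ 3 / 8 = τ / 8 * (G * τ ^ 2) := by ring
      _ ≤ δ / 8 * a := mul_le_mul (div_le_div_of_nonneg_right f3 (by norm_num)) hageq hGτ.le
          (by positivity)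
  have f1 : 2 / g₀ ≤ 16 / G * (t ^ 2) ^ 2 := by
    calc 2 / g₀ ≤ 2 / (G * τ ^ 3 / 8) :=
          div_le_div_of_nonneg_left (by norm_num) (by positivity) f2
      _ = 16 / G * t ^ 3 := by rw [ht]; field_simp; norm_num
      _ ≤ 16 / G * (t ^ 2) ^ 2 := by
          rw [← pow_mul]
          exact mul_le_mul_of_nonneg_left (pow_le_pow_right₀ ht1 (by norm_num)) (by positivity)
  refine (Real.sqrt_le_sqrt f1).trans (le_of_eq ?_)
  rw [Real.sqrt_mul (by positivity), Real.sqrt_sq (by positivity)]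

theorem prm_exp_kappa_le {d : ℕ} {G τ t γ δ a κ c : ℝ} {L : ℕ} (hd0 : (0:ℝ) < d) (hG : 0 < G)
    (hτ : 0 < τ) (ht : t = τ⁻¹) (ht1 : 1 ≤ t) (hγ1 : γ ≤ 1 / 12) (hδ : δ = τ ^ γ)
    (hageq : G * τ ^ 2 ≤ a) (hκ : κ = δ / 8 * a / (8 * d)) (hL : t ^ 3 ≤ L)
    (hc : c ≤ G / (128 * d)) :
    Real.exp (-κ * L / 2) ≤ Real.exp (-c * t ^ γ) := by
  have ht0 : 0 < t := by linarith only [ht1]
  have hδ0 : 0 < δ := by rw [hδ]; exact Real.rpow_pos_of_pos hτ _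
  have hGτ : 0 < G * τ ^ 2 := mul_pos hG (pow_pos hτ 2)
  have f3 : G * τ ^ (2 + γ) ≤ δ * a := by
    rw [Real.rpow_add hτ, Real.rpow_two, ← hδ]
    calc G * (τ ^ 2 * δ) = δ * (G * τ ^ 2) := by ring
      _ ≤ δ * a := mul_le_mul_of_nonneg_left hageq hδ0.le
  have f2 : G * τ ^ (2 + γ) / (64 * d) ≤ κ := by
    rw [hκ]
    calc G * τ ^ (2 + γ) / (64 * d) ≤ δ * a / (64 * d) :=
          div_le_div_of_nonneg_right f3 (by positivity)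
      _ = δ / 8 * a / (8 * d) := by field_simp; norm_num
  have f4 : t ^ γ ≤ τ ^ (2 + γ) * t ^ 3 := by
    have f5 : τ ^ (2 + γ) * t ^ 3 = t ^ (1 - γ) := by
      rw [ht, Real.inv_rpow hτ.le, ← Real.rpow_neg hτ.le, inv_pow,
        ← Real.rpow_natCast τ 3, ← Real.rpow_neg hτ.le, ← Real.rpow_add hτ]
      congr 1
      push_cast
      ring
    rw [f5]
    exact Real.rpow_le_rpow_of_exponent_le ht1 (by linarith only [hγ1])
  have hκ0 : 0 ≤ κ := by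
    refine le_trans ?_ f2
    positivity
  have f1 : G / (128 * d) * t ^ γ ≤ κ * L / 2 := by
    calc G / (128 * d) * t ^ γ ≤ G / (128 * d) * (τ ^ (2 + γ) * t ^ 3) :=
          mul_le_mul_of_nonneg_left f4 (by positivity)
      _ = G * τ ^ (2 + γ) / (64 * d) * t ^ 3 / 2 := by ring
      _ ≤ κ * L / 2 := div_le_div_of_nonneg_right
          (mul_le_mul f2 hL (by positivity) hκ0) (by norm_num)
  have f6 : c * t ^ γ ≤ G / (128 * d) * t ^ γ :=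
    mul_le_mul_of_nonneg_right hc (Real.rpow_nonneg ht0.le _)
  apply Real.exp_le_exp.2
  linarith only [f1, f6]

theorem prm_sqrt_six_le {d : ℕ} {τ t γ c p₀ : ℝ} (ht : t = τ⁻¹) (ht1 : 1 ≤ t)
    (hp₀ : p₀ = 4 * (5 * t ^ 3) ^ d * Real.exp (-(t ^ γ / 4))) (hc : c ≤ 1 / 8) :
    √(6 * (1 / τ) * p₀) ≤ √(24 * 5 ^ d) * t ^ (3 * d + 1) * Real.exp (-c * t ^ γ) := by
  have ht0 : 0 < t := by linarith only [ht1]
  have f2 : Real.exp (-(t ^ γ / 4)) ≤ Real.exp (-c * t ^ γ) ^ 2 := by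
    rw [← Real.exp_nat_mul]
    apply Real.exp_le_exp.2
    have f3 : c * t ^ γ ≤ 1 / 8 * t ^ γ :=
      mul_le_mul_of_nonneg_right hc (Real.rpow_nonneg ht0.le _)
    push_cast
    linarith only [f3]
  have f4 : t ^ (3 * d + 1) ≤ (t ^ (3 * d + 1)) ^ 2 :=
    le_self_pow₀ (one_le_pow₀ ht1) two_ne_zero
  have f1 : 6 * (1 / τ) * p₀ ≤ 24 * 5 ^ d * (t ^ (3 * d + 1) * Real.exp (-c * t ^ γ)) ^ 2 := by
    calc 6 * (1 / τ) * p₀ = 24 * 5 ^ d * (t ^ (3 * d + 1) * Real.exp (-(t ^ γ / 4))) := by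
          rw [hp₀, one_div, ← ht, mul_pow, ← pow_mul, pow_succ]
          ring
      _ ≤ 24 * 5 ^ d * ((t ^ (3 * d + 1)) ^ 2 * Real.exp (-c * t ^ γ) ^ 2) :=
          mul_le_mul_of_nonneg_left
            (mul_le_mul f4 f2 (Real.exp_pos _).le (by positivity)) (by positivity)
      _ = 24 * 5 ^ d * (t ^ (3 * d + 1) * Real.exp (-c * t ^ γ)) ^ 2 := by rw [mul_pow]
  refine (Real.sqrt_le_sqrt f1).trans (le_of_eq ?_)
  rw [Real.sqrt_mul (by positivity), Real.sqrt_sq (by positivity), mul_assoc]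

theorem prm_sqrt_six_inv_le {τ t : ℝ} (ht : t = τ⁻¹) (ht1 : 1 ≤ t) : √(6 * (1 / τ)) ≤ √6 * t := by
  have ht0 : 0 < t := by linarith only [ht1]
  rw [Real.sqrt_mul (by norm_num), one_div, ← ht]
  refine mul_le_mul_of_nonneg_left ?_ (Real.sqrt_nonneg _)
  calc √t ≤ √(t ^ 2) := Real.sqrt_le_sqrt (le_self_pow₀ ht1 two_ne_zero)
    _ = t := Real.sqrt_sq ht0.le

/-- the numerical condition -/
theorem prm_num_cond {d : ℕ} {G t γ c K A E P R : ℝ} {L m : ℕ}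
    (ht1 : 1 ≤ t) (hLle : (L:ℝ) ≤ 2 * t ^ 3)
    (hK : K = 2 * d * 9 ^ (d * 4) * ((√(16 / G) + 2 * √(24 * 5 ^ d)) * (2 * √6)))
    (hm : m = 3 * (d * 4) + (3 * d + 2) + 1)
    (h4 : K * (t ^ m * Real.exp (-c * t ^ γ)) < Real.exp (-1))
    (hA0 : 0 ≤ A) (hA : A ≤ √(16 / G) * t ^ 2) (hE0 : 0 ≤ E) (hE : E ≤ Real.exp (-c * t ^ γ))
    (hP0 : 0 ≤ P) (hP : P ≤ √(24 * 5 ^ d) * t ^ (3 * d + 1) * Real.exp (-c * t ^ γ))
    (hR0 : 0 ≤ R) (hR : R ≤ √6 * t) :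
    2 * d * ((2 * (L:ℝ) + 5) ^ d) ^ 4 * ((A * E + 2 * P) * (2 * R)) ≤ Real.exp (-1) := by
  have ht0 : 0 < t := by linarith only [ht1]
  have ht3 : 1 ≤ t ^ 3 := one_le_pow₀ ht1
  set X : ℝ := Real.exp (-c * t ^ γ) with hX
  have hX0 : 0 < X := Real.exp_pos _
  clear_value X
  have e5 : ((2 * (L:ℝ) + 5) ^ d) ^ 4 ≤ 9 ^ (d * 4) * t ^ (3 * (d * 4)) := by
    rw [← pow_mul]
    calc (2 * (L:ℝ) + 5) ^ (d * 4) ≤ (9 * t ^ 3) ^ (d * 4) := by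
          apply pow_le_pow_left₀ (by positivity)
          linarith only [hLle, ht3]
      _ = 9 ^ (d * 4) * t ^ (3 * (d * 4)) := by rw [mul_pow, ← pow_mul]
  have f1 : A * E ≤ √(16 / G) * t ^ (3 * d + 2) * X := by
    calc A * E ≤ (√(16 / G) * t ^ 2) * X :=
          mul_le_mul hA hE hE0 (by positivity)
      _ ≤ √(16 / G) * t ^ (3 * d + 2) * X :=
          mul_le_mul_of_nonneg_right (mul_le_mul_of_nonneg_left
            (pow_le_pow_right₀ ht1 (by omega)) (Real.sqrt_nonneg _)) hX0.le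
  have f2 : P ≤ √(24 * 5 ^ d) * t ^ (3 * d + 2) * X :=
    hP.trans (mul_le_mul_of_nonneg_right (mul_le_mul_of_nonneg_left
            (pow_le_pow_right₀ ht1 (by omega)) (Real.sqrt_nonneg _)) hX0.le)
  have e6 : A * E + 2 * P ≤ (√(16 / G) + 2 * √(24 * 5 ^ d)) * t ^ (3 * d + 2) * X := by
    have e : (√(16 / G) + 2 * √(24 * 5 ^ d)) * t ^ (3 * d + 2) * X =
      √(16 / G) * t ^ (3 * d + 2) * X + 2 * (√(24 * 5 ^ d) * t ^ (3 * d + 2) * X) := by ring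
    linarith only [e, f1, f2]
  have g0 : 0 ≤ A * E + 2 * P := by positivity
  have g1 : (A * E + 2 * P) * (2 * R) ≤
      (√(16 / G) + 2 * √(24 * 5 ^ d)) * t ^ (3 * d + 2) * X * (2 * (√6 * t)) :=
    mul_le_mul e6 (by linarith only [hR]) (by positivity) (by positivity)
  calc 2 * d * ((2 * (L:ℝ) + 5) ^ d) ^ 4 * ((A * E + 2 * P) * (2 * R))
      ≤ 2 * d * (9 ^ (d * 4) * t ^ (3 * (d * 4))) *
        ((√(16 / G) + 2 * √(24 * 5 ^ d)) * t ^ (3 * d + 2) * X * (2 * (√6 * t))) :=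
        mul_le_mul (mul_le_mul_of_nonneg_left e5 (by positivity)) g1 (by positivity)
          (by positivity)
    _ = K * (t ^ m * X) := by
        rw [hK, hm, pow_succ t (3 * (d * 4) + (3 * d + 2)), pow_add t (3 * (d * 4))]
        ring
    _ ≤ Real.exp (-1) := h4.le

/-- the conditions which hold for all small disorders -/
theorem prm_ev_small {G Q η K c γ : ℝ} (m : ℕ) (hG : 0 < G) (hη : 0 < η) (hc : 0 < c) (hγ : 0 < γ) :
    ∃ σ₀ : ℝ, 0 < σ₀ ∧ ∀ τ : ℝ, 0 < τ → τ < σ₀ → τ < 1 ∧ 2 * G * τ ^ 2 < min 1 (1 / G) ∧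
      Q * τ ^ (η / 2) < 1 ∧ K * ((τ⁻¹) ^ m * Real.exp (-c * (τ⁻¹) ^ γ)) < Real.exp (-1) := by
  have ev1 : ∀ᶠ τ : ℝ in 𝓝[>] 0, τ < 1 := by
    filter_upwards [Ioo_mem_nhdsGT (show (0:ℝ) < 1 by norm_num)] with τ hτ using hτ.2
  have ev2 : ∀ᶠ τ : ℝ in 𝓝[>] 0, 2 * G * τ ^ 2 < min 1 (1 / G) := by
    have h1 : Tendsto (fun τ : ℝ => 2 * G * τ ^ 2) (𝓝 0) (𝓝 (2 * G * 0 ^ 2)) := by
      apply Continuous.tendsto; fun_prop
    have h2 : Tendsto (fun τ : ℝ => 2 * G * τ ^ 2) (𝓝[>] 0) (𝓝 0) := by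
      rw [show (2 * G * 0 ^ 2 : ℝ) = 0 by ring] at h1
      exact h1.mono_left nhdsWithin_le_nhds
    exact h2.eventually_lt_const (by positivity)
  have ev3 : ∀ᶠ τ : ℝ in 𝓝[>] 0, Q * τ ^ (η / 2) < 1 := by
    have h1 : Tendsto (fun τ : ℝ => Q * τ ^ (η / 2)) (𝓝 0) (𝓝 (Q * 0 ^ (η / 2))) := by
      apply Tendsto.const_mul
      exact (Real.continuousAt_rpow_const 0 (η / 2) (Or.inr (by positivity))).tendsto
    rw [Real.zero_rpow (by positivity), mul_zero] at h1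
    exact (h1.mono_left nhdsWithin_le_nhds).eventually_lt_const (by norm_num)
  have ev4 : ∀ᶠ τ : ℝ in 𝓝[>] 0,
      K * ((τ⁻¹) ^ m * Real.exp (-c * (τ⁻¹) ^ γ)) < Real.exp (-1) := by
    have h1 := (tendsto_aux m hc hγ).const_mul K
    rw [mul_zero] at h1
    exact h1.eventually_lt_const (Real.exp_pos _)
  have evall := ev1.and (ev2.and (ev3.and ev4))
  rw [eventually_nhdsWithin_iff, Metric.eventually_nhds_iff] at evall
  obtain ⟨σ₀, hσ₀, hall⟩ := evall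
  refine ⟨σ₀, hσ₀, fun τ hτ hσσ => ?_⟩
  exact hall (y := τ) (by rw [Real.dist_eq, sub_zero, abs_of_pos hτ]; exact hσσ) hτ

/-- the geometric decay of the bad probability -/
theorem prm_decay_pow {σ τ t γ δ a G θ : ℝ} {p : ℕ} (hτ : 0 < τ) (ht : t = τ⁻¹) (ht0 : 0 < t)
    (hδ : δ = τ ^ γ) (hδ0 : 0 < δ) (hδ1 : δ ≤ 1) (hθ : θ = 1 - δ / 8) (hθ0 : 0 < θ)
    (hq : σ ^ 2 * G / a = 1 / (1 + δ)) (hpge : t ^ (2 * γ) ≤ p) :
    (σ ^ 2 * G / a / θ ^ 2) ^ p ≤ Real.exp (-(t ^ γ / 4)) := by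
  have e1 := exp_sub_one_le (x := δ / 4) (by linarith only [hδ0]) (by linarith only [hδ1])
  have e2 : 1 + δ / 2 ≤ (1 + δ) * θ ^ 2 := by
    rw [hθ]
    exact prm_aux_theta hδ0 hδ1
  have h0 : 0 ≤ σ ^ 2 * G / a / θ ^ 2 := by
    rw [hq]
    have : 0 < 1 + δ := by linarith only [hδ0]
    positivity
  have hθq : σ ^ 2 * G / a / θ ^ 2 ≤ Real.exp (-(δ / 4)) := by
    rw [hq, div_div, Real.exp_neg, ← one_div]
    apply one_div_le_one_div_of_le (Real.exp_pos _)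
    linarith only [e1, e2]
  have hpδ : t ^ γ / 4 ≤ p * (δ / 4) := by
    have e1 : t ^ γ = t ^ (2 * γ) * δ := by
      have e3 : t * τ = 1 := by rw [ht]; exact inv_mul_cancel₀ hτ.ne'
      rw [hδ, show (2 * γ) = γ + γ by ring, Real.rpow_add ht0, mul_assoc,
        ← Real.mul_rpow ht0.le hτ.le, e3, Real.one_rpow, mul_one]
    have := mul_le_mul_of_nonneg_right hpge hδ0.le
    rw [e1]
    linarith only [this]
  calc (σ ^ 2 * G / a / θ ^ 2) ^ p ≤ (Real.exp (-(δ / 4))) ^ p := pow_le_pow_left₀ h0 hθq p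
    _ = Real.exp (-(p * (δ / 4))) := by
        rw [← Real.exp_nat_mul]; congr 1; ring
    _ ≤ Real.exp (-(t ^ γ / 4)) := Real.exp_le_exp.2 (by linarith only [hpδ])

/-- The initial scale estimate for weak disorder. -/
theorem regime_small (hd : 1 ≤ d) {G C₅ η : ℝ} (hG : 0 < G) (hC₅ : 0 < C₅) (hη : 0 < η)
    (hη1 : η ≤ 1)
    (hD3 : ∀ (Λ : Finset (Site d)) (a : ℝ) (x : Site d), 0 < a → gr 0 Λ (2 * d + a) x x ≤ G)
    (hD5 : ∀ (Λ : Finset (Site d)) (a : ℝ) (x : Site d), 0 < a → a ≤ 1 →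
      ∑ y ∈ Λ, gr 0 Λ (2 * d + a) x y ^ 2 ≤ C₅ * a ^ (-1 + η)) :
    ∃ σ₀ : ℝ, 0 < σ₀ ∧ ∀ σ : ℝ, σ ≠ 0 → |σ| < σ₀ → ∃ (L : ℕ) (ε : ℝ), 0 ≤ ε ∧
      (∀ E : ℝ, 2 * d + (G * σ ^ 2 + G * |σ| ^ (2 + η / 12)) ≤ |E| →
        InitScale d (gl σ) L ε E) ∧
      2 * d * ((2 * L + 5) ^ d) ^ 4 * (ε * (2 * √(6 * (1 / |σ|)))) ≤ Real.exp (-1) := by
  obtain ⟨γ, hγdef⟩ : ∃ γ : ℝ, γ = η / 12 := ⟨_, rfl⟩
  have hγ : 0 < γ := by rw [hγdef]; linarith only [hη]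
  have hγ1 : γ ≤ 1 / 12 := by rw [hγdef]; linarith only [hη1]
  have hd0 : (0:ℝ) < d := by exact_mod_cast hd
  have hd1 : (1:ℝ) ≤ d := by exact_mod_cast hd
  obtain ⟨c, hcdef⟩ : ∃ c : ℝ, c = min (G / (128 * d)) (1 / 8) := ⟨_, rfl⟩
  have hc : 0 < c := by rw [hcdef]; positivity
  obtain ⟨K, hK⟩ : ∃ K : ℝ, K = 2 * d * 9 ^ (d * 4) *
    ((√(16 / G) + 2 * √(24 * 5 ^ d)) * (2 * √6)) := ⟨_, rfl⟩
  obtain ⟨m, hm⟩ : ∃ m : ℕ, m = 3 * (d * 4) + (3 * d + 2) + 1 := ⟨_, rfl⟩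
  obtain ⟨Q, hQ⟩ : ∃ Q : ℝ, Q = 1440 * 27 * √(C₅ * G ^ (-1 + η)) := ⟨_, rfl⟩
  obtain ⟨σ₀, hσ₀, hall⟩ := prm_ev_small (Q := Q) (K := K) m hG hη hc hγ
  refine ⟨σ₀, hσ₀, fun σ hσ hσσ => ?_⟩
  rw [← hγdef]
  have hσ2' : σ ^ 2 = |σ| ^ 2 := (sq_abs σ).symm
  have hτ' : 0 < |σ| := abs_pos.2 hσ
  generalize hτdef : |σ| = τ at hσ2' hτ' hσσ ⊢
  have hτ : 0 < τ := hτ'
  have hσ2 : σ ^ 2 = τ ^ 2 := hσ2'
  obtain ⟨h1, h2, h3, h4⟩ := hall τ hτ hσσ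
  clear hall
  obtain ⟨t, htdef⟩ : ∃ t : ℝ, t = τ⁻¹ := ⟨_, rfl⟩
  rw [← htdef] at h4
  have ht1 : 1 ≤ t := by rw [htdef]; exact (one_le_inv₀ hτ).2 h1.le
  have ht0 : 0 < t := by linarith only [ht1]
  obtain ⟨δ, hδdef⟩ : ∃ δ : ℝ, δ = τ ^ γ := ⟨_, rfl⟩
  have hδ0 : 0 < δ := by rw [hδdef]; exact Real.rpow_pos_of_pos hτ _
  have hδ1 : δ ≤ 1 := by rw [hδdef]; exact Real.rpow_le_one hτ.le h1.le hγ.le
  have h1δ : 0 < 1 + δ := by linarith only [hδ0]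
  have hGτ : 0 < G * τ ^ 2 := mul_pos hG (pow_pos hτ 2)
  obtain ⟨a, hadef⟩ : ∃ a : ℝ, a = G * τ ^ 2 * (1 + δ) := ⟨_, rfl⟩
  have ha : 0 < a := by rw [hadef]; exact mul_pos hGτ h1δ
  have haeq : G * σ ^ 2 + G * τ ^ (2 + γ) = a := by
    rw [hσ2, Real.rpow_add hτ, Real.rpow_two, hadef, hδdef]
    ring
  have ha2 : a ≤ 2 * G * τ ^ 2 := by
    rw [hadef]
    calc G * τ ^ 2 * (1 + δ) ≤ G * τ ^ 2 * 2 :=
          mul_le_mul_of_nonneg_left (by linarith only [hδ1]) hGτ.le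
      _ = 2 * G * τ ^ 2 := by ring
  have ha1 : a ≤ 1 := ha2.trans (h2.le.trans (min_le_left _ _))
  have hag : a * G ≤ 1 := by
    have : a ≤ 1 / G := ha2.trans (h2.le.trans (min_le_right _ _))
    rwa [le_div_iff₀ hG] at this
  have hageq : G * τ ^ 2 ≤ a := by
    rw [hadef]
    exact le_mul_of_one_le_right hGτ.le (by linarith only [hδ0])
  have hq : σ ^ 2 * G / a = 1 / (1 + δ) := by
    rw [hσ2, hadef]
    field_simp
  -- the parameters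
  obtain ⟨θ, hθ⟩ : ∃ θ : ℝ, θ = 1 - δ / 8 := ⟨_, rfl⟩
  have hθ0 : 0 < θ := by rw [hθ]; linarith only [hδ1]
  have hθ1 : θ < 1 := by rw [hθ]; linarith only [hδ0]
  have hg₀eq : (1 - θ) * a = δ / 8 * a := by rw [hθ]; ring
  have hδa : 0 < δ / 8 * a := mul_pos (by linarith only [hδ0]) ha
  obtain ⟨κ, hκdef⟩ : ∃ κ : ℝ, κ = δ / 8 * a / (8 * d) := ⟨_, rfl⟩
  have hκ : 0 < κ := by rw [hκdef]; exact div_pos hδa (by linarith only [hd0])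
  have hκ1 : κ ≤ 1 := by
    rw [hκdef, div_le_one (by linarith only [hd0])]
    have : δ / 8 * a ≤ 1 / 8 * 1 :=
      mul_le_mul (by linarith only [hδ1]) ha1 ha.le (by norm_num)
    linarith only [this, hd1]
  have hκg : 2 * d * (Real.exp κ - 1) ≤ (1 - θ) * a / 2 := by
    have e1 := exp_sub_one_le hκ.le hκ1
    calc 2 * d * (Real.exp κ - 1) ≤ 2 * d * (2 * κ) :=
          mul_le_mul_of_nonneg_left e1 (by linarith only [hd0])
      _ = (1 - θ) * a / 2 := by rw [hg₀eq, hκdef]; field_simp; ring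
  obtain ⟨L, hL⟩ : ∃ L : ℕ, L = ⌈t ^ 3⌉₊ := ⟨_, rfl⟩
  have hLge : t ^ 3 ≤ L := by rw [hL]; exact Nat.le_ceil _
  have ht3 : 1 ≤ t ^ 3 := one_le_pow₀ ht1
  have hLle : (L:ℝ) ≤ 2 * t ^ 3 := by
    have := (Nat.ceil_lt_add_one (show 0 ≤ t ^ 3 by linarith only [ht3])).le
    rw [← hL] at this
    linarith only [this, ht3]
  obtain ⟨p, hp⟩ : ∃ p : ℕ, p = ⌈t ^ (2 * γ)⌉₊ + 1 := ⟨_, rfl⟩
  have htγ : 1 ≤ t ^ (2 * γ) := Real.one_le_rpow ht1 (by linarith only [hγ])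
  have hpge : t ^ (2 * γ) ≤ p := by
    rw [hp]
    push_cast
    have := Nat.le_ceil (t ^ (2 * γ))
    linarith only [this]
  have hp2 : 2 ≤ p := by
    rw [hp]
    have : 0 < ⌈t ^ (2 * γ)⌉₊ := Nat.ceil_pos.2 (by linarith only [htγ])
    omega
  have hple : (p:ℝ) ≤ 3 * t ^ (2 * γ) := by
    rw [hp]
    push_cast
    have := (Nat.ceil_lt_add_one (show 0 ≤ t ^ (2 * γ) by linarith only [htγ])).le
    linarith only [this, htγ]
  have hθqp := prm_decay_pow (σ := σ) (G := G) hτ htdef ht0 hδdef hδ0 hδ1 hθ hθ0 hq hpge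
  obtain ⟨p₀, hp₀⟩ : ∃ p₀ : ℝ, p₀ = 4 * (5 * t ^ 3) ^ d * Real.exp (-(t ^ γ / 4)) := ⟨_, rfl⟩
  have hp₀pos : 0 < p₀ := by rw [hp₀]; positivity
  have hsmall : 1440 * (p : ℝ) ^ 3 * √(σ ^ 2 * (C₅ * a ^ (-1 + η))) ≤ 1 := by
    rw [hσ2]
    exact prm_small_le_one hG hC₅ hη1 hγdef hτ htdef hageq hQ h3 hple
  have hbad : ∀ (x : Site d) (W : Finset (Site d)), W ⊆ box x L →
      PL (gl σ) W {V | ¬ GE V W a θ} ≤ ENNReal.ofReal p₀ := by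
    intro x W hW
    refine (bad_prob (g := G) (κ₂ := C₅ * a ^ (-1 + η)) ha hG
      (mul_pos hC₅ (Real.rpow_pos_of_pos ha _))
      (fun x => hD3 W a x ha) (fun x => hD5 W a x ha ha1) hσ hag ?_ ?_ hp2 hsmall hθ0).trans ?_
    · rw [hq]
      apply one_div_le_one_div_of_le h1δ
      linarith only [hδ1]
    · rw [hq, div_le_one h1δ]
      linarith only [hδ0]
    · apply ENNReal.ofReal_le_ofReal
      have e1 : (W.card : ℝ) ≤ (5 * t ^ 3) ^ d := by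
        have e2 := card_le_of_subset_box hW
        calc (W.card : ℝ) ≤ (((2 * L + 1) ^ d : ℕ) : ℝ) := by exact_mod_cast e2
          _ = (2 * (L:ℝ) + 1) ^ d := by push_cast; rfl
          _ ≤ (5 * t ^ 3) ^ d := by
              apply pow_le_pow_left₀ (by positivity)
              linarith only [hLle, ht3]
      rw [hp₀]
      exact mul_le_mul (mul_le_mul_of_nonneg_left e1 (by norm_num)) hθqp
        (pow_nonneg (by rw [hq]; positivity) _) (by positivity)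
  refine ⟨L, √(2 / ((1 - θ) * a)) * Real.exp (-κ * L / 2) + 2 * √(6 * (1 / τ) * p₀),
    by positivity, ?_, ?_⟩
  · intro E hE
    rw [haeq] at hE
    rw [← hτdef]
    exact initScale_of_tail (bddDens_gl hσ) ha hθ1 hκ.le hκg hp₀pos hbad hE
  · exact prm_num_cond (G := G) ht1 hLle hK hm h4 (Real.sqrt_nonneg _)
      (prm_sqrt_two_div hG hτ h1 htdef ht1 hγ1 hδdef hageq hg₀eq) (Real.exp_pos _).le
      (prm_exp_kappa_le hd0 hG hτ htdef ht1 hγ1 hδdef hageq hκdef hLge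
        (by rw [hcdef]; exact min_le_left _ _)) (Real.sqrt_nonneg _)
      (prm_sqrt_six_le htdef ht1 hp₀ (by rw [hcdef]; exact min_le_right _ _)) (Real.sqrt_nonneg _)
      (prm_sqrt_six_inv_le htdef ht1)

/-- The initial scale estimate for strong disorder. -/
theorem regime_large (hd : 1 ≤ d) {σ₀ : ℝ} (hσ₀ : 0 < σ₀) :
    ∃ C : ℝ, 0 < C ∧ ∀ σ : ℝ, σ₀ ≤ |σ| → ∃ (L : ℕ) (ε : ℝ), 0 ≤ ε ∧
      (∀ E : ℝ, 2 * d + C * σ ^ 2 ≤ |E| → InitScale d (gl σ) L ε E) ∧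
      2 * d * ((2 * L + 5) ^ d) ^ 4 * (ε * (2 * √(6 * (1 / |σ|)))) ≤ Real.exp (-1) := by
  have hd0 : (0:ℝ) < d := by exact_mod_cast hd
  set K : ℝ := 2 * d * (5 ^ d) ^ 4 with hK
  have hK0 : 0 < K := by positivity
  have ev : ∀ᶠ C : ℝ in atTop, K * (2 * √(24 / (C * σ₀ ^ 3)) +
      24 / σ₀ * √(2 * Real.exp (-(C * σ₀ / 2) ^ 2 / 2))) < Real.exp (-1) := by
    have h1 : Tendsto (fun C : ℝ => √(24 / (C * σ₀ ^ 3))) atTop (𝓝 0) := by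
      rw [← Real.sqrt_zero]
      apply (Real.continuous_sqrt.tendsto 0).comp
      exact Tendsto.const_div_atTop (tendsto_id.atTop_mul_const (by positivity)) 24
    have h2 : Tendsto (fun C : ℝ => √(2 * Real.exp (-(C * σ₀ / 2) ^ 2 / 2))) atTop (𝓝 0) := by
      have h3 : Tendsto (fun C : ℝ => -(C * σ₀ / 2) ^ 2 / 2) atTop atBot := by
        have h4 : Tendsto (fun C : ℝ => C * σ₀ / 2) atTop atTop :=
          (tendsto_id.atTop_mul_const hσ₀).atTop_div_const (by norm_num)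
        have h5 : Tendsto (fun C : ℝ => (C * σ₀ / 2) ^ 2) atTop atTop :=
          (tendsto_pow_atTop (two_ne_zero)).comp h4
        have h6 : Tendsto (fun C : ℝ => -(C * σ₀ / 2) ^ 2) atTop atBot :=
          tendsto_neg_atTop_atBot.comp h5
        exact h6.atBot_div_const (by norm_num)
      have h4 : Tendsto (fun C : ℝ => 2 * Real.exp (-(C * σ₀ / 2) ^ 2 / 2)) atTop (𝓝 0) := by
        have := (Real.tendsto_exp_atBot.comp h3).const_mul 2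
        rwa [mul_zero] at this
      rw [← Real.sqrt_zero]
      exact (Real.continuous_sqrt.tendsto 0).comp h4
    have h3 := ((h1.const_mul 2).add (h2.const_mul (24 / σ₀))).const_mul K
    rw [mul_zero, mul_zero, add_zero, mul_zero] at h3
    exact h3.eventually_lt_const (Real.exp_pos _)
  obtain ⟨C, hC1, hC2⟩ := ((eventually_gt_atTop (0:ℝ)).and ev).exists
  refine ⟨C, hC1, fun σ hσ => ?_⟩
  set τ : ℝ := |σ| with hτdef
  have hτ : 0 < τ := by linarith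
  have hσ0 : σ ≠ 0 := abs_pos.1 hτ
  have hσ2 : σ ^ 2 = τ ^ 2 := by rw [hτdef, sq_abs]
  set a : ℝ := C * σ ^ 2 with hadef
  have ha : 0 < a := by rw [hadef, hσ2]; positivity
  set p₀ : ℝ := 2 * Real.exp (-(a / (2 * τ)) ^ 2 / 2) with hp₀
  have hp₀pos : 0 < p₀ := by positivity
  have haτ : a / (2 * τ) = C * τ / 2 := by
    rw [hadef, hσ2]; field_simp
  refine ⟨0, √(2 / ((1 - 1 / 2) * a)) * Real.exp (-0 * (0:ℕ) / 2) + 2 * √(6 * (1 / τ) * p₀),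
    by positivity, ?_, ?_⟩
  · intro E hE
    refine initScale_of_tail (bddDens_gl hσ0) ha (by norm_num) le_rfl ?_ hp₀pos ?_ hE
    · rw [Real.exp_zero, sub_self, mul_zero]
      positivity
    · intro x W hW
      refine (bad_prob_large (Λ := W) ha hσ0).trans ?_
      apply ENNReal.ofReal_le_ofReal
      have h1 : W.card ≤ 1 := by
        have := card_le_of_subset_box hW
        simpa using this
      have h2 : (W.card : ℝ) ≤ 1 := by exact_mod_cast h1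
      calc 2 * (W.card : ℝ) * Real.exp (-(a / (2 * |σ|)) ^ 2 / 2)
          ≤ 2 * 1 * Real.exp (-(a / (2 * |σ|)) ^ 2 / 2) := by gcongr
        _ = p₀ := by rw [hp₀, hτdef]; ring
  · have e1 : √(2 / ((1 - 1 / 2) * a)) * √(6 * (1 / τ)) ≤ √(24 / (C * σ₀ ^ 3)) := by
      rw [← Real.sqrt_mul (by positivity)]
      apply Real.sqrt_le_sqrt
      rw [hadef, hσ2]
      calc 2 / ((1 - 1 / 2) * (C * τ ^ 2)) * (6 * (1 / τ)) = 24 / (C * τ ^ 3) := by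
            field_simp; norm_num
        _ ≤ 24 / (C * σ₀ ^ 3) := by gcongr
    have e2 : √(6 * (1 / τ) * p₀) * √(6 * (1 / τ)) ≤
        6 / σ₀ * √(2 * Real.exp (-(C * σ₀ / 2) ^ 2 / 2)) := by
      rw [Real.sqrt_mul (by positivity), mul_right_comm, Real.mul_self_sqrt (by positivity)]
      have f1 : 6 * (1 / τ) ≤ 6 / σ₀ := by
        rw [mul_one_div]
        gcongr
      have f2 : √p₀ ≤ √(2 * Real.exp (-(C * σ₀ / 2) ^ 2 / 2)) := by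
        apply Real.sqrt_le_sqrt
        rw [hp₀, haτ]
        gcongr
      gcongr
    have e3 : (2 * ((0:ℕ):ℝ) + 5) = 5 := by norm_num
    rw [e3]
    have e4 : Real.exp (-0 * ((0:ℕ):ℝ) / 2) = 1 := by simp
    rw [e4, mul_one]
    calc 2 * d * (5 ^ d) ^ 4 *
          ((√(2 / ((1 - 1 / 2) * a)) + 2 * √(6 * (1 / τ) * p₀)) * (2 * √(6 * (1 / τ))))
        = K * (2 * (√(2 / ((1 - 1 / 2) * a)) * √(6 * (1 / τ))) +
          4 * (√(6 * (1 / τ) * p₀) * √(6 * (1 / τ)))) := by rw [hK]; ring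
      _ ≤ K * (2 * √(24 / (C * σ₀ ^ 3)) +
          4 * (6 / σ₀ * √(2 * Real.exp (-(C * σ₀ / 2) ^ 2 / 2)))) := by gcongr
      _ = K * (2 * √(24 / (C * σ₀ ^ 3)) +
          24 / σ₀ * √(2 * Real.exp (-(C * σ₀ / 2) ^ 2 / 2))) := by ring
      _ ≤ Real.exp (-1) := hC2.le

/-- Smaller thresholds are stronger. -/
theorem init_all (hd : 1 ≤ d) {G C₅ η : ℝ} (hG : 0 < G) (hC₅ : 0 < C₅) (hη : 0 < η)
    (hη1 : η ≤ 1)
    (hD3 : ∀ (Λ : Finset (Site d)) (a : ℝ) (x : Site d), 0 < a → gr 0 Λ (2 * d + a) x x ≤ G)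
    (hD5 : ∀ (Λ : Finset (Site d)) (a : ℝ) (x : Site d), 0 < a → a ≤ 1 →
      ∑ y ∈ Λ, gr 0 Λ (2 * d + a) x y ^ 2 ≤ C₅ * a ^ (-1 + η)) :
    ∃ C : ℝ, 0 < C ∧ ∀ σ : ℝ, σ ≠ 0 → ∃ (L : ℕ) (ε : ℝ), 0 ≤ ε ∧
      (∀ E : ℝ, 2 * d + G * σ ^ 2 + C * |σ| ^ (2 + η / 12) ≤ |E| →
        InitScale d (gl σ) L ε E) ∧
      2 * d * ((2 * L + 5) ^ d) ^ 4 * (ε * (2 * √(6 * (1 / |σ|)))) ≤ Real.exp (-1) := by
  obtain ⟨σ₀, hσ₀, h1⟩ := regime_small hd hG hC₅ hη hη1 hD3 hD5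
  obtain ⟨C₂, hC₂, h2⟩ := regime_large hd hσ₀
  refine ⟨max G (C₂ / σ₀ ^ (η / 12)), by positivity, fun σ hσ => ?_⟩
  have hτ : 0 < |σ| := abs_pos.2 hσ
  rcases lt_or_ge |σ| σ₀ with h | h
  · obtain ⟨L, ε, hε, hi, hn⟩ := h1 σ hσ h
    refine ⟨L, ε, hε, fun E hE => hi E ?_, hn⟩
    have : G * |σ| ^ (2 + η / 12) ≤ max G (C₂ / σ₀ ^ (η / 12)) * |σ| ^ (2 + η / 12) := by
      gcongr
      exact le_max_left _ _
    linarith
  · obtain ⟨L, ε, hε, hi, hn⟩ := h2 σ h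
    refine ⟨L, ε, hε, fun E hE => hi E ?_, hn⟩
    have h3 : C₂ * σ ^ 2 ≤ max G (C₂ / σ₀ ^ (η / 12)) * |σ| ^ (2 + η / 12) := by
      calc C₂ * σ ^ 2 = C₂ / σ₀ ^ (η / 12) * (σ ^ 2 * σ₀ ^ (η / 12)) := by
            have : σ₀ ^ (η / 12) ≠ 0 := (Real.rpow_pos_of_pos hσ₀ _).ne'
            field_simp
        _ ≤ max G (C₂ / σ₀ ^ (η / 12)) * (|σ| ^ 2 * |σ| ^ (η / 12)) := by
            rw [sq_abs]
            gcongr
            exact le_max_right _ _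
        _ = _ := by rw [Real.rpow_add hτ, Real.rpow_two]
    have h4 : 0 ≤ G * σ ^ 2 := by positivity
    linarith

end Pool.Agent.Loc
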