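import Pool.Agent.Helper48_Loc.Terms
import Pool.Agent.Helper48_Loc.GMom

/-!
# The second moment matrix `Q = σ² C diag(K_xx) C`, and the moments of `c2`
-/

set_option autoImplicit false
set_option linter.unusedSectionVars false

open MeasureTheory ProbabilityTheory Function Filter

open scoped ENNReal BigOperators Topology NNReal

noncomputable section

namespace Pool.Agent.Loc

variable {n : Type*} [Fintype n] [DecidableEq n]

/-- `Q = σ² C diag(K_xx) C` -/
def QM (C : Matrix n n ℝ) (σ : ℝ) : Matrix n n ℝ :=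
  σ ^ 2 • (C * Matrix.diagonal (fun x => (C * C) x x) * C)

variable {C : Matrix n n ℝ} {a g κ₂ σ : ℝ}

theorem Hyp.diag_nonneg (hC : Hyp C a g κ₂) (x : n) : 0 ≤ (C * C) x x := by
  rw [Matrix.mul_apply]
  apply Finset.sum_nonneg
  intro y _
  have : C y x = C x y := by
    conv_lhs => rw [← hC.symm]
    rfl
  rw [this]
  exact mul_self_nonneg _

theorem QM_symm (hC : Hyp C a g κ₂) (σ : ℝ) : (QM C σ).transpose = QM C σ := by
  unfold QM
  rw [Matrix.transpose_smul, Matrix.transpose_mul, Matrix.transpose_mul,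
    Matrix.diagonal_transpose, hC.symm, mul_assoc]

theorem form_C (hC : Hyp C a g κ₂) (v : n → ℝ) :
    v ⬝ᵥ (C * C).mulVec v = (C.mulVec v) ⬝ᵥ (C.mulVec v) := by
  rw [← Matrix.mulVec_mulVec, Matrix.dotProduct_mulVec, ← Matrix.mulVec_transpose, hC.symm]

theorem form_Q (hC : Hyp C a g κ₂) (σ : ℝ) (v : n → ℝ) :
    v ⬝ᵥ (QM C σ).mulVec v = σ ^ 2 * ∑ x, (C * C) x x * (C.mulVec v x) ^ 2 := by
  unfold QM
  rw [Matrix.smul_mulVec, dotProduct_smul, smul_eq_mul]
  congr 1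
  rw [mul_assoc, ← Matrix.mulVec_mulVec, Matrix.dotProduct_mulVec, ← Matrix.mulVec_transpose,
    hC.symm, ← Matrix.mulVec_mulVec]
  unfold dotProduct
  apply Finset.sum_congr rfl
  intro x _
  rw [Matrix.mulVec_diagonal]
  ring

theorem form_Q_nonneg (hC : Hyp C a g κ₂) (σ : ℝ) (v : n → ℝ) :
    0 ≤ v ⬝ᵥ (QM C σ).mulVec v := by
  rw [form_Q hC]
  apply mul_nonneg (sq_nonneg _)
  exact Finset.sum_nonneg fun x _ => mul_nonneg (hC.diag_nonneg x) (sq_nonneg _)

theorem form_Q_le (hC : Hyp C a g κ₂) (σ : ℝ) (v : n → ℝ) :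
    v ⬝ᵥ (QM C σ).mulVec v ≤ σ ^ 2 * g / a * (v ⬝ᵥ v) := by
  rw [form_Q hC]
  have h1 : ∑ x, (C * C) x x * (C.mulVec v x) ^ 2 ≤ g * (v ⬝ᵥ (C * C).mulVec v) := by
    rw [form_C hC]
    unfold dotProduct
    rw [Finset.mul_sum]
    apply Finset.sum_le_sum
    intro x _
    rw [← pow_two (C.mulVec v x)]
    exact mul_le_mul_of_nonneg_right (hC.diag x) (sq_nonneg _)
  have h2 := hC.norm v
  have hg := hC.hg
  calc σ ^ 2 * ∑ x, (C * C) x x * (C.mulVec v x) ^ 2
      ≤ σ ^ 2 * (g * (1 / a * (v ⬝ᵥ v))) := by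
        apply mul_le_mul_of_nonneg_left _ (sq_nonneg _)
        exact h1.trans (mul_le_mul_of_nonneg_left h2 hg.le)
    _ = _ := by ring

/-- spectral data of `Q` -/
theorem QM_diag (hC : Hyp C a g κ₂) (σ : ℝ) :
    ∃ (O : Matrix n n ℝ) (κ : n → ℝ), O.transpose * O = 1 ∧ O * O.transpose = 1 ∧
      (∀ m : ℕ, QM C σ ^ m = O * Matrix.diagonal (fun l => κ l ^ m) * O.transpose) ∧
      (∀ l, 0 ≤ κ l) ∧ ∀ l, κ l ≤ σ ^ 2 * g / a := by
  obtain ⟨O, κ, h1, h2, h3⟩ := exists_diag_real (QM_symm hC σ)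
  have h4 : ∀ l, κ l = (fun i => O i l) ⬝ᵥ (QM C σ).mulVec (fun i => O i l) := by
    intro l
    rw [← col_form]
    have h5 := h3 1
    simp only [pow_one] at h5
    have h6 : O.transpose * QM C σ * O = Matrix.diagonal κ := by
      rw [h5, show O.transpose * (O * Matrix.diagonal (fun l => κ l) * O.transpose) * O =
        (O.transpose * O) * Matrix.diagonal (fun l => κ l) * (O.transpose * O) by
          simp only [mul_assoc], h1, one_mul, mul_one]
    rw [h6, Matrix.diagonal_apply_eq]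
  refine ⟨O, κ, h1, h2, h3, fun l => ?_, fun l => ?_⟩
  · rw [h4]; exact form_Q_nonneg hC σ _
  · rw [h4]
    refine (form_Q_le hC σ _).trans (le_of_eq ?_)
    rw [col_norm h1, mul_one]

theorem trace_QM_le (hC : Hyp C a g κ₂) (σ : ℝ) (p : ℕ) :
    (QM C σ ^ p).trace ≤ Fintype.card n * (σ ^ 2 * g / a) ^ p := by
  obtain ⟨O, κ, h1, h2, h3, h4, h5⟩ := QM_diag hC σ
  rw [h3 p, trace_diag h1]
  calc ∑ l, κ l ^ p ≤ ∑ _l : n, (σ ^ 2 * g / a) ^ p :=
        Finset.sum_le_sum fun l _ => pow_le_pow_left₀ (h4 l) (h5 l) p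
    _ = _ := by simp

theorem QM_pow_symm (hC : Hyp C a g κ₂) (σ : ℝ) (m : ℕ) :
    (QM C σ ^ m).transpose = QM C σ ^ m := by
  rw [Matrix.transpose_pow, QM_symm hC]

theorem QM_contr (hC : Hyp C a g κ₂) {σ : ℝ} (hq : σ ^ 2 * g / a ≤ 1) (m : ℕ) :
    Contr (QM C σ ^ m) := by
  refine ⟨QM_pow_symm hC σ m, fun v => ?_⟩
  obtain ⟨O, κ, h1, h2, h3, h4, h5⟩ := QM_diag hC σ
  have e1 : ∀ w : n → ℝ, (O.mulVec w) ⬝ᵥ (O.mulVec w) = w ⬝ᵥ w := by
    intro w
    rw [Matrix.dotProduct_mulVec, ← Matrix.mulVec_transpose, Matrix.mulVec_mulVec, h1,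
      Matrix.one_mulVec]
  have e2 : ∀ w : n → ℝ, (O.transpose.mulVec w) ⬝ᵥ (O.transpose.mulVec w) = w ⬝ᵥ w := by
    intro w
    rw [Matrix.dotProduct_mulVec, ← Matrix.mulVec_transpose, Matrix.mulVec_mulVec,
      Matrix.transpose_transpose, h2, Matrix.one_mulVec]
  rw [h3 m, mul_assoc, ← Matrix.mulVec_mulVec, e1, ← Matrix.mulVec_mulVec]
  rw [← e2 v]
  unfold dotProduct
  apply Finset.sum_le_sum
  intro l _
  rw [Matrix.mulVec_diagonal]
  have h6 : κ l ^ m ≤ 1 := pow_le_one₀ (h4 l) ((h5 l).trans hq)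
  have h7 : 0 ≤ κ l ^ m := pow_nonneg (h4 l) m
  set z := O.transpose.mulVec v l
  have h8 : (κ l ^ m) * (κ l ^ m) ≤ 1 := by nlinarith
  nlinarith [mul_self_nonneg z]

theorem QM_diag_bound (hC : Hyp C a g κ₂) {σ : ℝ} (hq : σ ^ 2 * g / a ≤ 1) (m : ℕ) (x : n) :
    (C * (QM C σ ^ m * QM C σ ^ m) * C) x x ≤ g := by
  obtain ⟨O, κ, h1, h2, h3, h4, h5⟩ := QM_diag hC σ
  have e1 := form_diag O C C (fun l => κ l ^ (m + m)) x x
  rw [hC.symm, ← h3] at e1
  rw [← pow_add, e1]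
  calc _ ≤ ∑ l, (O.transpose * C) l x ^ 2 := by
        apply Finset.sum_le_sum
        intro l _
        have h6 : κ l ^ (m + m) ≤ 1 := pow_le_one₀ (h4 l) ((h5 l).trans hq)
        have h7 : 0 ≤ κ l ^ (m + m) := pow_nonneg (h4 l) _
        nlinarith [mul_self_nonneg ((O.transpose * C) l x)]
    _ = (C * C) x x := by rw [sum_l h2, hC.symm]
    _ ≤ g := hC.diag x

/-- the small quantity `‖Q k_x‖²` -/
theorem QQ_bound (hC : Hyp C a g κ₂) (σ : ℝ) (x : n) :
    (C * (QM C σ * QM C σ) * C) x x ≤ σ ^ 4 * g ^ 2 * κ₂ / a := by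
  have hg := hC.hg
  have ha := hC.ha
  set w : n → ℝ := fun y => σ ^ 2 * ((C * C) y y * (C * C) y x) with hw
  have e1 : C * (QM C σ * QM C σ) * C = (QM C σ * C).transpose * (QM C σ * C) := by
    rw [Matrix.transpose_mul, hC.symm, QM_symm hC]
    simp only [mul_assoc]
  have e2 : (QM C σ * C).mulVec (Pi.single x 1) = C.mulVec w := by
    unfold QM
    rw [Matrix.smul_mul, Matrix.smul_mulVec, mul_assoc, mul_assoc, ← Matrix.mulVec_mulVec,
      ← Matrix.mulVec_smul]
    congr 1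
    funext y
    rw [Pi.smul_apply, smul_eq_mul, ← Matrix.mulVec_mulVec, Matrix.mulVec_diagonal,
      Matrix.mulVec_single_one]
    rfl
  have e3 : (C * (QM C σ * QM C σ) * C) x x = w ⬝ᵥ (C * C).mulVec w := by
    rw [e1, form_C hC, ← e2, Matrix.mul_apply]
    unfold dotProduct
    apply Finset.sum_congr rfl
    intro y _
    rw [Matrix.mulVec_single_one]
    rfl
  rw [e3]
  refine (hC.norm w).trans ?_
  have h1 : w ⬝ᵥ w ≤ σ ^ 4 * g ^ 2 * κ₂ := by
    unfold dotProduct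
    calc ∑ y, w y * w y ≤ ∑ y, σ ^ 4 * g ^ 2 * (C * C) x y ^ 2 := by
          apply Finset.sum_le_sum
          intro y _
          have hsym : (C * C) y x = (C * C) x y := by
            have : (C * C).transpose = C * C := by rw [Matrix.transpose_mul, hC.symm]
            conv_lhs => rw [← this]
            rfl
          have h2 := hC.diag y
          have h3 := hC.diag_nonneg y
          have h4 : (C * C) y y ^ 2 ≤ g ^ 2 := pow_le_pow_left₀ h3 h2 2
          calc w y * w y = σ ^ 4 * ((C * C) y y ^ 2) * (C * C) x y ^ 2 := by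
                rw [hw]; simp only; rw [hsym]; ring
            _ ≤ _ := by gcongr
      _ = σ ^ 4 * g ^ 2 * ∑ y, (C * C) x y ^ 2 := by rw [Finset.mul_sum]
      _ ≤ _ := by
          gcongr
          exact hC.sq x
  calc 1 / a * (w ⬝ᵥ w) ≤ 1 / a * (σ ^ 4 * g ^ 2 * κ₂) := by gcongr
    _ = _ := by ring

theorem QM_pow_bound (hC : Hyp C a g κ₂) {σ : ℝ} (hq : σ ^ 2 * g / a ≤ 1) {m : ℕ} (hm : 1 ≤ m)
    (x : n) : (C * (QM C σ ^ m * QM C σ ^ m) * C) x x ≤ σ ^ 4 * g ^ 2 * κ₂ / a := by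
  refine le_trans ?_ (QQ_bound hC σ x)
  obtain ⟨O, κ, h1, h2, h3, h4, h5⟩ := QM_diag hC σ
  have e1 := form_diag O C C (fun l => κ l ^ (m + m)) x x
  have e2 := form_diag O C C (fun l => κ l ^ (1 + 1)) x x
  rw [hC.symm, ← h3] at e1 e2
  rw [pow_add, pow_one] at e2
  rw [← pow_add, e1, e2]
  apply Finset.sum_le_sum
  intro l _
  have h6 : κ l ^ (m + m) ≤ κ l ^ (1 + 1) :=
    pow_le_pow_of_le_one (h4 l) ((h5 l).trans hq) (by omega)
  exact mul_le_mul_of_nonneg_left h6 (mul_self_nonneg _)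

/-- moments of `c2` -/
theorem moment_c2 (hC : Hyp C a g κ₂) (σ : ℝ) (x : n) {p : ℕ} (hp : 1 ≤ p) :
    ∫ ξ, (c2 C σ x ξ) ^ p ∂(γn n) ≤ (4 * Real.exp 1 * p * (σ ^ 2 * g * κ₂)) ^ p := by
  have hg := hC.hg
  have e1 : ∀ ξ : n → ℝ, c2 C σ x ξ = ∑ w, (∑ y, (σ * C w y * (C * C) y x) * ξ y) ^ 2 := by
    intro ξ
    have h1 : C * MM C σ ξ ^ 2 * C = (MM C σ ξ * C).transpose * (MM C σ ξ * C) := by
      rw [Matrix.transpose_mul, hC.symm, MM_symm hC.symm, pow_two]
      simp only [mul_assoc]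
    unfold c2
    rw [h1, Matrix.mul_apply]
    apply Finset.sum_congr rfl
    intro w _
    have h2 : (MM C σ ξ * C) w x = ∑ y, (σ * C w y * (C * C) y x) * ξ y := by
      unfold MM
      rw [mul_assoc, Matrix.mul_apply]
      apply Finset.sum_congr rfl
      intro y _
      rw [Matrix.mul_diagonal]
      ring
    rw [Matrix.transpose_apply, h2]
    ring
  simp_rw [e1]
  refine (moment_quad (fun w y => σ * C w y * (C * C) y x) hp).trans ?_
  have hp0 : (0:ℝ) < p := by exact_mod_cast hp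
  apply pow_le_pow_left₀ (by positivity)
  apply mul_le_mul_of_nonneg_left _ (by positivity)
  calc ∑ w, ∑ y, (σ * C w y * (C * C) y x) ^ 2 = ∑ y, σ ^ 2 * ((C * C) y y * (C * C) x y ^ 2) := by
        rw [Finset.sum_comm]
        apply Finset.sum_congr rfl
        intro y _
        have hsym : (C * C) y x = (C * C) x y := by
          have : (C * C).transpose = C * C := by rw [Matrix.transpose_mul, hC.symm]
          conv_lhs => rw [← this]
          rfl
        have h3 : (C * C) y y = ∑ w, C w y ^ 2 := by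
          rw [Matrix.mul_apply]
          apply Finset.sum_congr rfl
          intro w _
          have : C y w = C w y := by
            conv_lhs => rw [← hC.symm]
            rfl
          rw [this]; ring
        rw [h3, hsym, Finset.sum_mul, Finset.mul_sum]
        apply Finset.sum_congr rfl
        intro w _
        ring
    _ ≤ ∑ y, σ ^ 2 * (g * (C * C) x y ^ 2) := by
        apply Finset.sum_le_sum
        intro y _
        have := hC.diag y
        gcongr
    _ = σ ^ 2 * g * ∑ y, (C * C) x y ^ 2 := by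
        rw [Finset.mul_sum]
        apply Finset.sum_congr rfl
        intro y _
        ring
    _ ≤ _ := by
        gcongr
        exact hC.sq x

end Pool.Agent.Loc
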