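import Mathlib

/-!
# Scalar inequalities for moment sequences
-/

set_option autoImplicit false
set_option linter.unusedSectionVars false

open scoped BigOperators

noncomputable section

namespace Pool.Agent.Loc

variable {ι : Type*} [Fintype ι]

/-- absolute moments of the weights `a²` -/
def cm (a lam : ι → ℝ) (j : ℕ) : ℝ := ∑ l, a l ^ 2 * |lam l| ^ j

theorem cm_nonneg (a lam : ι → ℝ) (j : ℕ) : 0 ≤ cm a lam j :=
  Finset.sum_nonneg fun _ _ => by positivity

theorem pow_rearr {x y : ℝ} (hx : 0 ≤ x) (hy : 0 ≤ y) (s t : ℕ) :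
    x ^ s * y ^ t + x ^ t * y ^ s ≤ x ^ (s + t) + y ^ (s + t) := by
  have h : 0 ≤ (x ^ s - y ^ s) * (x ^ t - y ^ t) := by
    rcases le_total x y with h | h
    · have h1 := pow_le_pow_left₀ hx h s
      have h2 := pow_le_pow_left₀ hx h t
      exact mul_nonneg_of_nonpos_of_nonpos (by linarith) (by linarith)
    · have h1 := pow_le_pow_left₀ hy h s
      have h2 := pow_le_pow_left₀ hy h t
      exact mul_nonneg (by linarith) (by linarith)
  rw [pow_add, pow_add]
  nlinarith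

/-- log-convexity in the form of a majorization inequality -/
theorem cm_major (a lam : ι → ℝ) {j i j' i' : ℕ} (h1 : j' ≤ j) (h2 : j' ≤ i)
    (h3 : j + i = j' + i') : cm a lam j * cm a lam i ≤ cm a lam j' * cm a lam i' := by
  obtain ⟨s, rfl⟩ := Nat.exists_eq_add_of_le h1
  obtain ⟨t, rfl⟩ := Nat.exists_eq_add_of_le h2
  have hi' : i' = j' + (s + t) := by omega
  subst hi'
  have e1 : ∀ p q : ℕ, cm a lam p * cm a lam q =
      ∑ l, ∑ m, (a l ^ 2 * a m ^ 2) * (|lam l| ^ p * |lam m| ^ q) := by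
    intro p q
    unfold cm
    rw [Finset.sum_mul_sum]
    apply Finset.sum_congr rfl
    intro l _
    apply Finset.sum_congr rfl
    intro m _
    ring
  have e2 : ∀ p q : ℕ, 2 * (cm a lam p * cm a lam q) =
      ∑ l, ∑ m, (a l ^ 2 * a m ^ 2) * (|lam l| ^ p * |lam m| ^ q + |lam l| ^ q * |lam m| ^ p) := by
    intro p q
    have h4 : cm a lam p * cm a lam q = cm a lam q * cm a lam p := mul_comm _ _
    calc 2 * (cm a lam p * cm a lam q) = cm a lam p * cm a lam q + cm a lam q * cm a lam p := by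
          rw [← h4]; ring
      _ = _ := by
          rw [e1, e1, ← Finset.sum_add_distrib]
          apply Finset.sum_congr rfl
          intro l _
          rw [← Finset.sum_add_distrib]
          apply Finset.sum_congr rfl
          intro m _
          ring
  have key : 2 * (cm a lam (j' + s) * cm a lam (j' + t)) ≤
      2 * (cm a lam j' * cm a lam (j' + (s + t))) := by
    rw [e2, e2]
    apply Finset.sum_le_sum
    intro l _
    apply Finset.sum_le_sum
    intro m _
    apply mul_le_mul_of_nonneg_left _ (by positivity)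
    have h5 := pow_rearr (abs_nonneg (lam l)) (abs_nonneg (lam m)) s t
    have h6 : 0 ≤ |lam l| ^ j' * |lam m| ^ j' := by positivity
    have h7 := mul_le_mul_of_nonneg_left h5 h6
    calc _ = |lam l| ^ j' * |lam m| ^ j' * (|lam l| ^ s * |lam m| ^ t + |lam l| ^ t * |lam m| ^ s) := by
          ring
      _ ≤ _ := h7
      _ = _ := by ring
  linarith

theorem cm_eq_zero {a lam : ι → ℝ} {m : ℕ} (hm : m ≠ 0) (h : cm a lam m = 0) {j : ℕ}
    (hj : j ≠ 0) : cm a lam j = 0 := by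
  unfold cm at h ⊢
  rw [Finset.sum_eq_zero_iff_of_nonneg (fun _ _ => by positivity)] at h
  apply Finset.sum_eq_zero
  intro l _
  have h1 := h l (Finset.mem_univ l)
  rcases mul_eq_zero.1 h1 with h2 | h2
  · rw [h2, zero_mul]
  · rw [pow_eq_zero_iff hm] at h2
    rw [h2, zero_pow hj, mul_zero]

theorem cm_A (a lam : ι → ℝ) {i j : ℕ} (hij : i ≤ j) :
    cm a lam j ^ 2 * cm a lam (2 * i) ≤ cm a lam 0 * cm a lam (i + j) ^ 2 := by
  rcases Nat.eq_zero_or_pos i with hi | hi
  · subst hi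
    simp only [Nat.mul_zero, Nat.zero_add]
    exact le_of_eq (mul_comm _ _)
  have h1 := cm_major a lam (j := j) (i := 2 * i) (j' := i) (i' := i + j) hij (by omega) (by omega)
  have h2 := cm_major a lam (j := j) (i := i) (j' := 0) (i' := i + j) (by omega) (by omega) (by omega)
  rcases (cm_nonneg a lam i).eq_or_lt with h0 | h0
  · have hj := cm_eq_zero (by omega) h0.symm (j := j) (by omega)
    rw [hj]
    have := cm_nonneg a lam 0
    have : 0 ≤ cm a lam 0 * cm a lam (i + j) ^ 2 := by positivity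
    simpa using this
  · have h3 := mul_le_mul h1 h2 (mul_nonneg (cm_nonneg _ _ _) (cm_nonneg _ _ _))
      (mul_nonneg (cm_nonneg _ _ _) (cm_nonneg _ _ _))
    have h4 : (cm a lam j ^ 2 * cm a lam (2 * i)) * cm a lam i ≤
        (cm a lam 0 * cm a lam (i + j) ^ 2) * cm a lam i := by
      calc _ = cm a lam j * cm a lam (2 * i) * (cm a lam j * cm a lam i) := by ring
        _ ≤ _ := h3
        _ = _ := by ring
    exact le_of_mul_le_mul_right h4 h0

theorem cm_B (a lam : ι → ℝ) {j i h : ℕ} (hj : 2 ≤ j) (hi : 1 ≤ i) (hh : j + i = h + 2) :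
    cm a lam j ^ 2 * cm a lam (2 * i) ≤ cm a lam 2 ^ 2 * cm a lam (2 * h) := by
  have h1 := cm_major a lam (j := j) (i := 2 * i) (j' := 2) (i' := j + 2 * i - 2) hj (by omega)
    (by omega)
  have h2 := cm_major a lam (j := j) (i := j + 2 * i - 2) (j' := 2) (i' := 2 * h) hj (by omega)
    (by omega)
  rcases (cm_nonneg a lam (j + 2 * i - 2)).eq_or_lt with h0 | h0
  · have hj := cm_eq_zero (by omega) h0.symm (j := j) (by omega)
    rw [hj]
    have := cm_nonneg a lam (2 * h)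
    have : 0 ≤ cm a lam 2 ^ 2 * cm a lam (2 * h) := by positivity
    simpa using this
  · have h3 := mul_le_mul h1 h2 (mul_nonneg (cm_nonneg _ _ _) (cm_nonneg _ _ _))
      (mul_nonneg (cm_nonneg _ _ _) (cm_nonneg _ _ _))
    have h4 : (cm a lam j ^ 2 * cm a lam (2 * i)) * cm a lam (j + 2 * i - 2) ≤
        (cm a lam 2 ^ 2 * cm a lam (2 * h)) * cm a lam (j + 2 * i - 2) := by
      calc _ = cm a lam j * cm a lam (2 * i) * (cm a lam j * cm a lam (j + 2 * i - 2)) := by ring
        _ ≤ _ := h3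
        _ = _ := by ring
    exact le_of_mul_le_mul_right h4 h0

theorem abs_sum_sq_le (a lam : ι → ℝ) (j : ℕ) : |∑ l, a l ^ 2 * lam l ^ j| ≤ cm a lam j := by
  refine (Finset.abs_sum_le_sum_abs _ _).trans (le_of_eq ?_)
  apply Finset.sum_congr rfl
  intro l _
  rw [abs_mul, abs_of_nonneg (sq_nonneg (a l)), abs_pow]

theorem cs_sum (a b lam : ι → ℝ) {i i₁ i₂ : ℕ} (hi : i = i₁ + i₂) :
    |∑ l, a l * b l * lam l ^ i| ≤ √(cm a lam (2 * i₁) * cm b lam (2 * i₂)) := by
  apply Real.abs_le_sqrt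
  have h1 : ∑ l, a l * b l * lam l ^ i = ∑ l, (a l * lam l ^ i₁) * (b l * lam l ^ i₂) := by
    apply Finset.sum_congr rfl
    intro l _
    rw [hi, pow_add]; ring
  rw [h1]
  refine (Finset.sum_mul_sq_le_sq_mul_sq _ _ _).trans (le_of_eq ?_)
  unfold cm
  congr 1
  · apply Finset.sum_congr rfl
    intro l _
    rw [mul_pow, pow_mul, sq_abs, ← pow_mul, ← pow_mul, mul_comm i₁ 2]
  · apply Finset.sum_congr rfl
    intro l _
    rw [mul_pow, pow_mul, sq_abs, ← pow_mul, ← pow_mul, mul_comm i₂ 2]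

/-- case `i ≤ j` -/
theorem bound_A (a b lam : ι → ℝ) {i j : ℕ} (hij : i ≤ j) :
    |∑ l, a l ^ 2 * lam l ^ j| * |∑ l, a l * b l * lam l ^ i| ≤
      √(cm a lam 0 * cm b lam 0) * cm a lam (i + j) := by
  have h1 := abs_sum_sq_le a lam j
  have h2 := cs_sum a b lam (i := i) (i₁ := i) (i₂ := 0) (by omega)
  rw [Nat.mul_zero] at h2
  have c0 := cm_nonneg a lam 0
  have cj := cm_nonneg a lam j
  have c2i := cm_nonneg a lam (2 * i)
  have cij := cm_nonneg a lam (i + j)
  have e0 := cm_nonneg b lam 0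
  calc _ ≤ cm a lam j * √(cm a lam (2 * i) * cm b lam 0) :=
        mul_le_mul h1 h2 (abs_nonneg _) cj
    _ = √(cm a lam j ^ 2 * cm a lam (2 * i) * cm b lam 0) := by
        rw [mul_assoc, Real.sqrt_mul (sq_nonneg _), Real.sqrt_sq cj]
    _ ≤ √(cm a lam 0 * cm a lam (i + j) ^ 2 * cm b lam 0) := by
        apply Real.sqrt_le_sqrt
        exact mul_le_mul_of_nonneg_right (cm_A a lam hij) e0
    _ = √(cm a lam (i + j) ^ 2 * (cm a lam 0 * cm b lam 0)) := by ring_nf
    _ = _ := by rw [Real.sqrt_mul (sq_nonneg _), Real.sqrt_sq cij, mul_comm]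

/-- case `2 ≤ j ≤ i` -/
theorem bound_B2 (a b lam : ι → ℝ) {i j h : ℕ} (hj : 2 ≤ j) (hji : j ≤ i)
    (hh : i + j = 2 * h + 2) :
    |∑ l, a l ^ 2 * lam l ^ j| * |∑ l, a l * b l * lam l ^ i| ≤
      cm a lam 2 * ((cm a lam (2 * h) + cm b lam (2 * h)) / 2) := by
  have h1 := abs_sum_sq_le a lam j
  have h2 := cs_sum a b lam (i := i) (i₁ := i - h) (i₂ := h) (by omega)
  have cj := cm_nonneg a lam j
  have c2 := cm_nonneg a lam 2
  have c2h := cm_nonneg a lam (2 * h)
  have e2h := cm_nonneg b lam (2 * h)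
  calc _ ≤ cm a lam j * √(cm a lam (2 * (i - h)) * cm b lam (2 * h)) :=
        mul_le_mul h1 h2 (abs_nonneg _) cj
    _ = √(cm a lam j ^ 2 * cm a lam (2 * (i - h)) * cm b lam (2 * h)) := by
        rw [mul_assoc, Real.sqrt_mul (sq_nonneg _), Real.sqrt_sq cj]
    _ ≤ √(cm a lam 2 ^ 2 * cm a lam (2 * h) * cm b lam (2 * h)) := by
        apply Real.sqrt_le_sqrt
        exact mul_le_mul_of_nonneg_right (cm_B a lam hj (by omega) (by omega)) e2h
    _ = cm a lam 2 * √(cm a lam (2 * h) * cm b lam (2 * h)) := by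
        rw [mul_assoc, Real.sqrt_mul (sq_nonneg _), Real.sqrt_sq c2]
    _ ≤ _ := by
        apply mul_le_mul_of_nonneg_left _ c2
        rw [Real.sqrt_le_left (by positivity)]
        nlinarith [sq_nonneg (cm a lam (2 * h) - cm b lam (2 * h))]

/-- case `j = 1` -/
theorem bound_B1 (a b lam : ι → ℝ) {i h : ℕ} (hh : i = 2 * h + 1) :
    |∑ l, a l ^ 2 * lam l ^ 1| * |∑ l, a l * b l * lam l ^ i| ≤
      √(cm a lam 0 * cm a lam 2) * ((cm a lam (2 * (h + 1)) + cm b lam (2 * h)) / 2) := by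
  have h1 : |∑ l, a l ^ 2 * lam l ^ 1| ≤ √(cm a lam 0 * cm a lam 2) := by
    have h3 := cs_sum a a lam (i := 1) (i₁ := 0) (i₂ := 1) (by omega)
    simp only [Nat.mul_zero, Nat.mul_one] at h3
    have h4 : ∑ l, a l ^ 2 * lam l ^ 1 = ∑ l, a l * a l * lam l ^ 1 := by
      apply Finset.sum_congr rfl
      intro l _
      ring
    rw [h4]
    exact h3
  have h2 := cs_sum a b lam (i := i) (i₁ := h + 1) (i₂ := h) (by omega)
  have c2h := cm_nonneg a lam (2 * (h + 1))
  have e2h := cm_nonneg b lam (2 * h)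
  refine mul_le_mul h1 (h2.trans ?_) (abs_nonneg _) (Real.sqrt_nonneg _)
  rw [Real.sqrt_le_left (by positivity)]
  nlinarith [sq_nonneg (cm a lam (2 * (h + 1)) - cm b lam (2 * h))]

/-- `u λ^{2m} ≤ 1 + λ^{2p} + u^p` for `m < p` -/
theorem young1 {u x : ℝ} (hu : 0 ≤ u) {m p : ℕ} (hmp : m < p) :
    u * x ^ (2 * m) ≤ 1 + x ^ (2 * p) + u ^ p := by
  have hy : 0 ≤ x ^ 2 := sq_nonneg x
  rw [pow_mul, pow_mul]
  set y := x ^ 2
  rcases le_total u 1 with h | h
  · rcases le_total y 1 with h' | h'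
    · have h1 : y ^ m ≤ 1 := pow_le_one₀ hy h'
      have h2 : 0 ≤ y ^ m := pow_nonneg hy m
      have h3 : 0 ≤ y ^ p := pow_nonneg hy p
      have h4 : 0 ≤ u ^ p := pow_nonneg hu p
      nlinarith
    · have h1 : y ^ m ≤ y ^ p := pow_le_pow_right₀ h' hmp.le
      have h2 : 0 ≤ y ^ m := pow_nonneg hy m
      have h4 : 0 ≤ u ^ p := pow_nonneg hu p
      nlinarith
  · rcases le_total y u with h' | h'
    · have h1 : u * y ^ m ≤ u * u ^ m := mul_le_mul_of_nonneg_left (pow_le_pow_left₀ hy h' m) hu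
      have h2 : u * u ^ m = u ^ (m + 1) := by rw [pow_succ]; ring
      have h3 : u ^ (m + 1) ≤ u ^ p := pow_le_pow_right₀ h hmp
      have h4 : 0 ≤ y ^ p := pow_nonneg hy p
      linarith
    · have h0 : 1 ≤ y := h.trans h'
      have h1 : u * y ^ m ≤ y * y ^ m := mul_le_mul_of_nonneg_right h' (pow_nonneg hy m)
      have h2 : y * y ^ m = y ^ (m + 1) := by rw [pow_succ]; ring
      have h3 : y ^ (m + 1) ≤ y ^ p := pow_le_pow_right₀ h0 hmp
      have h4 : 0 ≤ u ^ p := pow_nonneg hu p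
      linarith

theorem young2 {u x : ℝ} (hu : 0 ≤ u) {m p : ℕ} (hmp : m < p) :
    √u * x ^ (2 * m) ≤ 1 + x ^ (2 * p) + u ^ p := by
  rcases le_total u 1 with h | h
  · have h1 : √u ≤ 1 := by rw [Real.sqrt_le_one]; exact h
    have h2 := young1 (u := √u) (x := x) (Real.sqrt_nonneg u) hmp
    have hy : 0 ≤ x ^ 2 := sq_nonneg x
    rw [pow_mul, pow_mul] at *
    set y := x ^ 2
    have h4 : 0 ≤ u ^ p := pow_nonneg hu p
    rcases le_total y 1 with h' | h'
    · have h1' : y ^ m ≤ 1 := pow_le_one₀ hy h'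
      have h2 : 0 ≤ y ^ m := pow_nonneg hy m
      have h3 : 0 ≤ y ^ p := pow_nonneg hy p
      have h5 := Real.sqrt_nonneg u
      nlinarith
    · have h1' : y ^ m ≤ y ^ p := pow_le_pow_right₀ h' hmp.le
      have h2 : 0 ≤ y ^ m := pow_nonneg hy m
      have h5 := Real.sqrt_nonneg u
      nlinarith
  · have h1 : √u ≤ u := by
      rw [Real.sqrt_le_left hu]
      nlinarith
    have h2 := young1 (u := u) (x := x) hu hmp
    have h3 : √u * x ^ (2 * m) ≤ u * x ^ (2 * m) := by
      apply mul_le_mul_of_nonneg_right h1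
      rw [pow_mul]; positivity
    linarith

theorem young0 {x : ℝ} {m p : ℕ} (hmp : m ≤ p) : x ^ (2 * m) ≤ 1 + x ^ (2 * p) := by
  have hy : 0 ≤ x ^ 2 := sq_nonneg x
  rw [pow_mul, pow_mul]
  set y := x ^ 2
  rcases le_total y 1 with h' | h'
  · have h1 : y ^ m ≤ 1 := pow_le_one₀ hy h'
    have h3 : 0 ≤ y ^ p := pow_nonneg hy p
    linarith
  · have h1 : y ^ m ≤ y ^ p := pow_le_pow_right₀ h' hmp
    linarith

end Pool.Agent.Loc
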