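import Pool.Agent.Helper48_Loc.MatrixIBP
import Pool.Agent.Helper48_Loc.Scal
import Pool.Agent.Helper48_Loc.Diag

/-!
# Bounds for the terms of the integration by parts expansion
-/

set_option autoImplicit false
set_option linter.unusedSectionVars false

open MeasureTheory ProbabilityTheory Function Filter

open scoped ENNReal BigOperators Topology NNReal

noncomputable section

namespace Pool.Agent.Loc

variable {n : Type*} [Fintype n] [DecidableEq n]

/-- Hypotheses on the square root `C` of the free resolvent `K = C * C`. -/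
structure Hyp (C : Matrix n n ℝ) (a g κ₂ : ℝ) : Prop where
  symm : C.transpose = C
  ha : 0 < a
  hg : 0 < g
  hκ : 0 ≤ κ₂
  diag : ∀ x, (C * C) x x ≤ g
  norm : ∀ v : n → ℝ, v ⬝ᵥ (C * C).mulVec v ≤ 1 / a * (v ⬝ᵥ v)
  sq : ∀ x, ∑ y, (C * C) x y ^ 2 ≤ κ₂

/-- symmetric contractions -/
structure Contr (Y : Matrix n n ℝ) : Prop where
  symm : Y.transpose = Y
  contr : ∀ v : n → ℝ, (Y.mulVec v) ⬝ᵥ (Y.mulVec v) ≤ v ⬝ᵥ v

/-- a term of the expansion -/
def TT (C : Matrix n n ℝ) (σ : ℝ) (Y : Matrix n n ℝ) (j i : ℕ) (ξ : n → ℝ) : ℝ :=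
  σ ^ 2 * ∑ x, (C * MM C σ ξ ^ j * C) x x * (C * (MM C σ ξ ^ i * Y) * C) x x

theorem PB_TT (C : Matrix n n ℝ) (σ : ℝ) (Y : Matrix n n ℝ) (j i : ℕ) : PB (TT C σ Y j i) := by
  have hpb : ∀ (l : ℕ) (Z : Matrix n n ℝ) (x : n),
      PB (fun ξ : n → ℝ => (C * (MM C σ ξ ^ l * Z) * C) x x) := fun l Z x =>
    (((PBM.const C).mul (((PBM_MM C σ).pow l).mul (PBM.const Z))).mul (PBM.const C)) x x
  have hpb' : ∀ (l : ℕ) (x : n),
      PB (fun ξ : n → ℝ => (C * MM C σ ξ ^ l * C) x x) := fun l x =>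
    (((PBM.const C).mul ((PBM_MM C σ).pow l)).mul (PBM.const C)) x x
  exact (PB.sum _ fun x _ => (hpb' j x).mul (hpb i Y x)).const_mul _

section Det

variable {C : Matrix n n ℝ} {a g κ₂ σ : ℝ} {Y : Matrix n n ℝ}

/-- everything in the eigenbasis of `M` -/
theorem spectral_data (hC : Hyp C a g κ₂) (hY : Contr Y) (σ : ℝ) (ξ : n → ℝ) :
    ∃ (av bv : n → n → ℝ) (lam : n → ℝ),
      (∀ j x, (C * MM C σ ξ ^ j * C) x x = ∑ l, av x l ^ 2 * lam l ^ j) ∧
      (∀ i x, (C * (MM C σ ξ ^ i * Y) * C) x x = ∑ l, av x l * bv x l * lam l ^ i) ∧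
      (∀ m, (MM C σ ξ ^ m).trace = ∑ l, lam l ^ m) ∧
      (∀ x, ∑ l, av x l ^ 2 ≤ g) ∧ (∀ l, ∑ x, av x l ^ 2 ≤ 1 / a) ∧
      (∀ x, ∑ l, bv x l ^ 2 = (C * (Y * Y) * C) x x) ∧ (∀ l, ∑ x, bv x l ^ 2 ≤ 1 / a) := by
  obtain ⟨U, lam, hU1, hU2, hM⟩ := exists_diag_real (MM_symm hC.symm σ ξ)
  have ha := hC.ha
  refine ⟨fun x l => (U.transpose * C) l x, fun x l => (U.transpose * (Y * C)) l x, lam,
    ?_, ?_, ?_, ?_, ?_, ?_, ?_⟩
  · intro j x
    have h1 := form_diag U C C (fun l => lam l ^ j) x x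
    rw [hC.symm, ← hM j] at h1
    rw [h1]
    apply Finset.sum_congr rfl
    intro l _
    ring
  · intro i x
    have h1 := form_diag U C (Y * C) (fun l => lam l ^ i) x x
    rw [hC.symm, ← hM i] at h1
    rw [show C * (MM C σ ξ ^ i * Y) * C = C * MM C σ ξ ^ i * (Y * C) by simp only [mul_assoc], h1]
  · intro m
    rw [hM m, trace_diag hU1]
  · intro x
    rw [sum_l hU2, hC.symm]
    exact hC.diag x
  · intro l
    rw [sum_x, hC.symm, col_form]
    refine (hC.norm _).trans ?_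
    rw [col_norm hU1, mul_one]
  · intro x
    rw [sum_l hU2, Matrix.transpose_mul, hC.symm, hY.symm]
    simp only [mul_assoc]
  · intro l
    rw [sum_x, Matrix.transpose_mul, hC.symm, hY.symm, col_form]
    have h1 : (fun i => U i l) ⬝ᵥ (Y * C * (C * Y)).mulVec (fun i => U i l) =
        (Y.mulVec fun i => U i l) ⬝ᵥ (C * C).mulVec (Y.mulVec fun i => U i l) := by
      rw [show Y * C * (C * Y) = Y * ((C * C) * Y) by simp only [mul_assoc],
        ← Matrix.mulVec_mulVec, ← Matrix.mulVec_mulVec, Matrix.dotProduct_mulVec,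
        ← Matrix.mulVec_transpose, hY.symm]
    rw [h1]
    refine (hC.norm _).trans ?_
    have h2 := hY.contr (fun i => U i l)
    rw [col_norm hU1] at h2
    calc 1 / a * ((Y.mulVec fun i => U i l) ⬝ᵥ (Y.mulVec fun i => U i l)) ≤ 1 / a * 1 := by gcongr
      _ = 1 / a := mul_one _

/-- the summation lemma -/
theorem sum_weights {w : n → n → ℝ} {lam u : n → ℝ} {p : ℕ} (hw : ∀ x l, 0 ≤ w x l)
    (hu : ∀ x, 0 ≤ u x) (h1 : ∀ x, ∑ l, w x l ≤ g) (h2 : ∀ l, ∑ x, w x l ≤ 1 / a) {φ : n → n → ℝ}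
    (hφ : ∀ x l, φ x l ≤ 1 + lam l ^ (2 * p) + u x ^ p) :
    ∑ x, ∑ l, w x l * φ x l ≤
      1 / a * (Fintype.card n + ∑ l, lam l ^ (2 * p)) + g * ∑ x, u x ^ p := by
  calc ∑ x, ∑ l, w x l * φ x l ≤ ∑ x, ∑ l, (w x l * (1 + lam l ^ (2 * p)) + w x l * u x ^ p) := by
        apply Finset.sum_le_sum
        intro x _
        apply Finset.sum_le_sum
        intro l _
        rw [← mul_add]
        exact mul_le_mul_of_nonneg_left (hφ x l) (hw x l)
    _ = ∑ l, (∑ x, w x l) * (1 + lam l ^ (2 * p)) + ∑ x, (∑ l, w x l) * u x ^ p := by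
        simp_rw [Finset.sum_add_distrib]
        congr 1
        · rw [Finset.sum_comm]
          apply Finset.sum_congr rfl
          intro l _
          rw [Finset.sum_mul]
        · apply Finset.sum_congr rfl
          intro x _
          rw [Finset.sum_mul]
    _ ≤ ∑ l, (1 / a) * (1 + lam l ^ (2 * p)) + ∑ x, g * u x ^ p := by
        apply add_le_add
        · apply Finset.sum_le_sum
          intro l _
          apply mul_le_mul_of_nonneg_right (h2 l)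
          have : 0 ≤ lam l ^ (2 * p) := by rw [pow_mul]; positivity
          linarith
        · apply Finset.sum_le_sum
          intro x _
          exact mul_le_mul_of_nonneg_right (h1 x) (pow_nonneg (hu x) p)
    _ = _ := by
        rw [← Finset.mul_sum, ← Finset.mul_sum, Finset.sum_add_distrib]
        simp

theorem abs_TT_le (σ : ℝ) (Y : Matrix n n ℝ) (j i : ℕ) (ξ : n → ℝ) :
    |TT C σ Y j i ξ| ≤ σ ^ 2 * ∑ x, |(C * MM C σ ξ ^ j * C) x x| *
      |(C * (MM C σ ξ ^ i * Y) * C) x x| := by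
  unfold TT
  rw [abs_mul, abs_of_nonneg (sq_nonneg σ)]
  apply mul_le_mul_of_nonneg_left _ (sq_nonneg σ)
  refine (Finset.abs_sum_le_sum_abs _ _).trans (le_of_eq ?_)
  apply Finset.sum_congr rfl
  intro x _
  rw [abs_mul]

/-- case A -/
theorem TT_A (hC : Hyp C a g κ₂) (hY : Contr Y) {lamY : ℝ} (hlam : 0 ≤ lamY)
    (hYC : ∀ x, (C * (Y * Y) * C) x x ≤ lamY ^ 2) {i j h p : ℕ} (hij : i ≤ j)
    (hh : i + j = 2 * h) (hp : h ≤ p) (hp0 : 0 < p) (ξ : n → ℝ) :
    |TT C σ Y j i ξ| ≤ σ ^ 2 * (√g * lamY) *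
      (1 / a * (Fintype.card n + (MM C σ ξ ^ (2 * p)).trace)) := by
  obtain ⟨av, bv, lam, e1, e2, e3, h1, h2, h3, h4⟩ := spectral_data hC hY σ ξ
  have ha := hC.ha
  refine (abs_TT_le σ Y j i ξ).trans ?_
  rw [mul_assoc (σ ^ 2)]
  apply mul_le_mul_of_nonneg_left _ (sq_nonneg σ)
  have key : ∀ x, |(C * MM C σ ξ ^ j * C) x x| * |(C * (MM C σ ξ ^ i * Y) * C) x x| ≤
      (√g * lamY) * cm (av x) lam (i + j) := by
    intro x
    rw [e1, e2]
    refine (bound_A (av x) (bv x) lam hij).trans ?_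
    apply mul_le_mul_of_nonneg_right _ (cm_nonneg _ _ _)
    have c0 : cm (av x) lam 0 ≤ g := by
      unfold cm; simp only [pow_zero, mul_one]; exact h1 x
    have c1 : cm (bv x) lam 0 ≤ lamY ^ 2 := by
      unfold cm; simp only [pow_zero, mul_one]; rw [h3 x]; exact hYC x
    calc √(cm (av x) lam 0 * cm (bv x) lam 0) ≤ √(g * lamY ^ 2) := by
          apply Real.sqrt_le_sqrt
          exact mul_le_mul c0 c1 (cm_nonneg _ _ _) hC.hg.le
      _ = √g * lamY := by rw [Real.sqrt_mul hC.hg.le, Real.sqrt_sq hlam]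
  refine (Finset.sum_le_sum fun x _ => key x).trans ?_
  rw [← Finset.mul_sum]
  apply mul_le_mul_of_nonneg_left _ (by positivity)
  have h5 := sum_weights (w := fun x l => av x l ^ 2) (lam := lam) (u := fun _ => 0) (p := p)
    (g := g) (a := a) (fun x l => sq_nonneg _) (fun _ => le_rfl) h1 h2
    (φ := fun x l => |lam l| ^ (i + j)) ?_
  · rw [e3]
    unfold cm
    refine h5.trans ?_
    simp [zero_pow (by omega : p ≠ 0)]
  · intro x l
    beta_reduce
    rw [hh, pow_mul, sq_abs, ← pow_mul]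
    have := young0 (x := lam l) hp
    have h6 : (0:ℝ) ≤ 0 ^ p := by positivity
    linarith

/-- the second moment `k_x M² k_x` -/
def c2 (C : Matrix n n ℝ) (σ : ℝ) (x : n) (ξ : n → ℝ) : ℝ := (C * MM C σ ξ ^ 2 * C) x x

/-- the common bound of the cases B -/
theorem TT_B_sum (hC : Hyp C a g κ₂) {av bv : n → n → ℝ} {lam : n → ℝ}
    (h1 : ∀ x, ∑ l, av x l ^ 2 ≤ g) (h2 : ∀ l, ∑ x, av x l ^ 2 ≤ 1 / a)
    (h3 : ∀ x, ∑ l, bv x l ^ 2 ≤ g) (h4 : ∀ l, ∑ x, bv x l ^ 2 ≤ 1 / a)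
    {u s : n → ℝ} (hu : ∀ x, 0 ≤ u x) {p m₁ m₂ : ℕ}
    (hs1 : ∀ x l, s x * |lam l| ^ (2 * m₁) ≤ 1 + lam l ^ (2 * p) + u x ^ p)
    (hs2 : ∀ x l, s x * |lam l| ^ (2 * m₂) ≤ 1 + lam l ^ (2 * p) + u x ^ p) :
    ∑ x, s x * ((cm (av x) lam (2 * m₁) + cm (bv x) lam (2 * m₂)) / 2) ≤
      1 / a * (Fintype.card n + ∑ l, lam l ^ (2 * p)) + g * ∑ x, u x ^ p := by
  have k1 := sum_weights (w := fun x l => av x l ^ 2) (lam := lam) (u := u) (p := p)
    (g := g) (a := a) (fun x l => sq_nonneg _) hu h1 h2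
    (φ := fun x l => s x * |lam l| ^ (2 * m₁)) hs1
  have k2 := sum_weights (w := fun x l => bv x l ^ 2) (lam := lam) (u := u) (p := p)
    (g := g) (a := a) (fun x l => sq_nonneg _) hu h3 h4
    (φ := fun x l => s x * |lam l| ^ (2 * m₂)) hs2
  have e : ∑ x, s x * ((cm (av x) lam (2 * m₁) + cm (bv x) lam (2 * m₂)) / 2) =
      ((∑ x, ∑ l, av x l ^ 2 * (s x * |lam l| ^ (2 * m₁))) +
        ∑ x, ∑ l, bv x l ^ 2 * (s x * |lam l| ^ (2 * m₂))) / 2 := by
    rw [← Finset.sum_add_distrib, Finset.sum_div]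
    apply Finset.sum_congr rfl
    intro x _
    unfold cm
    rw [← Finset.sum_add_distrib, ← Finset.sum_add_distrib, Finset.sum_div, Finset.sum_div,
      Finset.mul_sum]
    apply Finset.sum_congr rfl
    intro l _
    ring
  rw [e]
  linarith

/-- case B2 -/
theorem TT_B2 (hC : Hyp C a g κ₂) (hY : Contr Y) (hYC : ∀ x, (C * (Y * Y) * C) x x ≤ g)
    {A₀ : ℝ} (hA : 0 < A₀) {i j h p : ℕ} (hj : 2 ≤ j) (hji : j ≤ i)
    (hh : i + j = 2 * h + 2) (hp : h < p) (ξ : n → ℝ) :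
    |TT C σ Y j i ξ| ≤ σ ^ 2 * A₀ *
      (1 / a * (Fintype.card n + (MM C σ ξ ^ (2 * p)).trace) + g * ∑ x, (c2 C σ x ξ / A₀) ^ p) := by
  obtain ⟨av, bv, lam, e1, e2, e3, h1, h2, h3, h4⟩ := spectral_data hC hY σ ξ
  refine (abs_TT_le σ Y j i ξ).trans ?_
  rw [mul_assoc (σ ^ 2)]
  apply mul_le_mul_of_nonneg_left _ (sq_nonneg σ)
  have hc2 : ∀ x, c2 C σ x ξ = cm (av x) lam 2 := by
    intro x
    unfold c2 cm
    rw [e1]
    apply Finset.sum_congr rfl
    intro l _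
    rw [sq_abs]
  have hc2n : ∀ x, 0 ≤ c2 C σ x ξ := fun x => by rw [hc2]; exact cm_nonneg _ _ _
  have key : ∀ x, |(C * MM C σ ξ ^ j * C) x x| * |(C * (MM C σ ξ ^ i * Y) * C) x x| ≤
      A₀ * (c2 C σ x ξ / A₀ * ((cm (av x) lam (2 * h) + cm (bv x) lam (2 * h)) / 2)) := by
    intro x
    rw [e1, e2]
    refine (bound_B2 (av x) (bv x) lam hj hji hh).trans (le_of_eq ?_)
    rw [hc2]
    field_simp
  refine (Finset.sum_le_sum fun x _ => key x).trans ?_
  rw [← Finset.mul_sum, e3]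
  apply mul_le_mul_of_nonneg_left _ hA.le
  refine TT_B_sum hC h1 h2 (fun x => by rw [h3 x]; exact hYC x) h4
    (u := fun x => c2 C σ x ξ / A₀) (s := fun x => c2 C σ x ξ / A₀)
    (fun x => div_nonneg (hc2n x) hA.le) (fun x l => ?_) (fun x l => ?_)
  all_goals
    rw [pow_mul, sq_abs, ← pow_mul]
    exact young1 (div_nonneg (hc2n x) hA.le) hp

/-- case B1 -/
theorem TT_B1 (hC : Hyp C a g κ₂) (hY : Contr Y) (hYC : ∀ x, (C * (Y * Y) * C) x x ≤ g)
    {A₀ : ℝ} (hA : 0 < A₀) {i h p : ℕ} (hh : i = 2 * h + 1) (hp : h + 1 < p) (ξ : n → ℝ) :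
    |TT C σ Y 1 i ξ| ≤ σ ^ 2 * √(g * A₀) *
      (1 / a * (Fintype.card n + (MM C σ ξ ^ (2 * p)).trace) + g * ∑ x, (c2 C σ x ξ / A₀) ^ p) := by
  obtain ⟨av, bv, lam, e1, e2, e3, h1, h2, h3, h4⟩ := spectral_data hC hY σ ξ
  refine (abs_TT_le σ Y 1 i ξ).trans ?_
  rw [mul_assoc (σ ^ 2)]
  apply mul_le_mul_of_nonneg_left _ (sq_nonneg σ)
  have hc2 : ∀ x, c2 C σ x ξ = cm (av x) lam 2 := by
    intro x
    unfold c2 cm
    rw [e1]
    apply Finset.sum_congr rfl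
    intro l _
    rw [sq_abs]
  have hc2n : ∀ x, 0 ≤ c2 C σ x ξ := fun x => by rw [hc2]; exact cm_nonneg _ _ _
  have hg := hC.hg
  have key : ∀ x, |(C * MM C σ ξ ^ 1 * C) x x| * |(C * (MM C σ ξ ^ i * Y) * C) x x| ≤
      √(g * A₀) * (√(c2 C σ x ξ / A₀) *
        ((cm (av x) lam (2 * (h + 1)) + cm (bv x) lam (2 * h)) / 2)) := by
    intro x
    rw [e1, e2]
    refine (bound_B1 (av x) (bv x) lam hh).trans ?_
    rw [← mul_assoc]
    apply mul_le_mul_of_nonneg_right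
    · rw [← Real.sqrt_mul (by positivity)]
      apply Real.sqrt_le_sqrt
      have c0 : cm (av x) lam 0 ≤ g := by
        unfold cm; simp only [pow_zero, mul_one]; exact h1 x
      have e : g * A₀ * (c2 C σ x ξ / A₀) = g * cm (av x) lam 2 := by
        rw [← hc2]; field_simp
      rw [e]
      exact mul_le_mul_of_nonneg_right c0 (cm_nonneg _ _ _)
    · have := cm_nonneg (av x) lam (2 * (h + 1))
      have := cm_nonneg (bv x) lam (2 * h)
      positivity
  refine (Finset.sum_le_sum fun x _ => key x).trans ?_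
  rw [← Finset.mul_sum, e3]
  apply mul_le_mul_of_nonneg_left _ (Real.sqrt_nonneg _)
  refine TT_B_sum hC h1 h2 (fun x => by rw [h3 x]; exact hYC x) h4
    (u := fun x => c2 C σ x ξ / A₀) (s := fun x => √(c2 C σ x ξ / A₀))
    (fun x => div_nonneg (hc2n x) hA.le) (fun x l => ?_) (fun x l => ?_)
  · rw [pow_mul, sq_abs, ← pow_mul]
    exact young2 (div_nonneg (hc2n x) hA.le) hp
  · rw [pow_mul, sq_abs, ← pow_mul]
    exact young2 (div_nonneg (hc2n x) hA.le) (by omega)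

end Det

end Pool.Agent.Loc
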