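import Pool.Agent.Helper48_Loc.CT

/-!
# The free Green function: maximum principle, walks, supersolutions
-/

set_option autoImplicit false
set_option linter.unusedSectionVars false

open MeasureTheory ProbabilityTheory Function Filter

open scoped ENNReal BigOperators Topology

noncomputable section

namespace Pool.Agent.Loc

open Pool.Agent.Anderson

variable {d : ℕ}

/-- the number of nearest neighbour walks on `ℤ^d` with `n` steps from `0` to `x` -/
def walks : ℕ → Site d → ℕ
  | 0, x => if x = 0 then 1 else 0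
  | n + 1, x => ∑ i : Fin d, (walks n (x + Pi.single i 1) + walks n (x - Pi.single i 1))

/-- the Green function `(2d - Δ)⁻¹(0, 0) = ∑ₙ walks n 0 / (2d)^(n+1)` of the lattice -/
def watson (d : ℕ) : ℝ := ∑' n : ℕ, (walks n (0 : Site d) : ℝ) / (2 * d) ^ (n + 1)

/-- the real lattice Laplacian (sum over the nearest neighbours) -/
def nb (f : Site d → ℝ) (x : Site d) : ℝ :=
  ∑ i : Fin d, (f (x + Pi.single i 1) + f (x - Pi.single i 1))

theorem walks_zero (x : Site d) : (walks 0 x : ℝ) = if x = 0 then 1 else 0 := by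
  unfold walks
  split_ifs <;> simp

theorem walks_succ (n : ℕ) (x : Site d) : (walks (n + 1) x : ℝ) = nb (fun y => (walks n y : ℝ)) x := by
  rw [walks]
  unfold nb
  push_cast
  rfl

theorem walks_le (n : ℕ) (x : Site d) : (walks n x : ℝ) ≤ (2 * d) ^ n := by
  induction n generalizing x with
  | zero =>
    rw [walks_zero]
    split_ifs <;> norm_num
  | succ n ih =>
    rw [walks_succ]
    unfold nb
    calc ∑ i : Fin d, ((walks n (x + Pi.single i 1) : ℝ) + walks n (x - Pi.single i 1))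
        ≤ ∑ _i : Fin d, ((2 * (d:ℝ)) ^ n + (2 * (d:ℝ)) ^ n) :=
          Finset.sum_le_sum fun i _ => add_le_add (ih _) (ih _)
      _ = (2 * d) ^ (n + 1) := by
          rw [Finset.sum_const, Finset.card_univ, Fintype.card_fin, nsmul_eq_mul]
          ring

/-- `nb` of a nonnegative function dominates the sum over a finite set -/
theorem sum_hop_le_nb (Λ : Finset (Site d)) {f : Site d → ℝ} (hf : ∀ y, 0 ≤ f y) (x : Site d) :
    ∑ y ∈ Λ, hop x y * f y ≤ nb f x := by
  have h1 := sum_hop x (box x 1 ∪ Λ) Finset.subset_union_left f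
  simp only [smul_eq_mul] at h1
  have h2 : ∑ y ∈ box x 1 ∪ Λ, hop x y * f y = nb f x := h1
  rw [← h2]
  exact Finset.sum_le_sum_of_subset_of_nonneg Finset.subset_union_right
    fun y _ _ => mul_nonneg (hop_nonneg x y) (hf y)

/-- the maximum principle -/
theorem max_principle {Λ : Finset (Site d)} {E : ℝ} (hE : 2 * d < E) {v : Site d → ℝ}
    (h : ∀ y ∈ Λ, 0 ≤ E * v y - ∑ z ∈ Λ, hop y z * v z) : ∀ y ∈ Λ, 0 ≤ v y := by
  by_contra hcon
  push Not at hcon
  obtain ⟨y₁, hy₁, hv₁⟩ := hcon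
  obtain ⟨y₀, hy₀, hmin⟩ := Λ.exists_min_image v ⟨y₁, hy₁⟩
  have hv₀ : v y₀ < 0 := lt_of_le_of_lt (hmin y₁ hy₁) hv₁
  have h1 := h y₀ hy₀
  have h2 : (∑ z ∈ Λ, hop y₀ z) * v y₀ ≤ ∑ z ∈ Λ, hop y₀ z * v z := by
    rw [Finset.sum_mul]
    exact Finset.sum_le_sum fun z hz => mul_le_mul_of_nonneg_left (hmin z hz) (hop_nonneg _ _)
  have h3 := sum_hop_le y₀ Λ
  have h4 : 2 * d * v y₀ ≤ (∑ z ∈ Λ, hop y₀ z) * v y₀ := mul_le_mul_of_nonpos_right h3 hv₀.le
  nlinarith

theorem det_zero_ne {Λ : Finset (Site d)} {E : ℝ} (hE : 2 * d < E) : (RM 0 Λ E).det ≠ 0 := by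
  intro hd
  obtain ⟨v, hv, hv0⟩ := Matrix.exists_mulVec_eq_zero_iff.2 hd
  apply hv
  have key : ∀ w : Λ → ℝ, (RM 0 Λ E).mulVec w = 0 → ∀ y : Λ, 0 ≤ w y := by
    intro w hw y
    set u : Site d → ℝ := fun z => if hz : z ∈ Λ then w ⟨z, hz⟩ else 0 with hu
    have huw : ∀ z : Λ, u z = w z := by
      intro z
      simp [hu]
    have := max_principle hE (Λ := Λ) (v := u) ?_ y y.2
    · rwa [huw] at this
    · intro z hz
      have h1 := congrFun hw ⟨z, hz⟩
      rw [Matrix.mulVec, dotProduct] at h1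
      have h2 : ∑ z' : Λ, RM 0 Λ E ⟨z, hz⟩ z' * w z' = E * u z - ∑ z' ∈ Λ, hop z z' * u z' := by
        simp_rw [RM_apply]
        rw [← Finset.sum_coe_sort Λ (fun z' => hop z z' * u z')]
        have h3 : ∀ z' : Λ, rm 0 E z z' * w z' =
            (if z' = ⟨z, hz⟩ then E * u z else 0) - hop z z' * u z' := by
          intro z'
          unfold rm
          rw [← huw]
          by_cases h : z' = ⟨z, hz⟩
          · subst h
            simp only [if_true, Pi.zero_apply]
            ring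
          · have h' : z ≠ (z' : Site d) := fun e => h (Subtype.ext e.symm)
            rw [if_neg h, if_neg h']
            ring
        simp_rw [h3]
        rw [Finset.sum_sub_distrib, Finset.sum_ite_eq', if_pos (Finset.mem_univ _)]
      rw [h2] at h1
      rw [h1]
      exact le_rfl
  funext y
  have h1 := key v hv0 y
  have h2 := key (-v) (by rw [Matrix.mulVec_neg, hv0, neg_zero]) y
  simp only [Pi.neg_apply, Pi.zero_apply] at h2 ⊢
  linarith

/-- the equation satisfied by the free Green function -/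
theorem gr_zero_eq {Λ : Finset (Site d)} {E : ℝ} (hE : 2 * d < E) {x y : Site d} (hx : x ∈ Λ)
    (hy : y ∈ Λ) : E * gr 0 Λ E x y - ∑ z ∈ Λ, hop y z * gr 0 Λ E x z = if x = y then 1 else 0 := by
  have h1 := gr_mul_rm (det_zero_ne hE) hx hy
  rw [← h1]
  have h2 : ∀ z, gr 0 Λ E x z * rm 0 E z y = (if z = y then E * gr 0 Λ E x y else 0) -
      hop y z * gr 0 Λ E x z := by
    intro z
    unfold rm
    rw [hop_comm z y]
    by_cases h : z = y
    · subst h; simp only [if_true, Pi.zero_apply]; ring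
    · rw [if_neg h, if_neg h]; ring
  simp_rw [h2]
  rw [Finset.sum_sub_distrib, Finset.sum_ite_eq', if_pos hy]

/-- comparison: supersolutions dominate the Green function -/
theorem gr_le_of_super {Λ : Finset (Site d)} {E : ℝ} (hE : 2 * d < E) {x : Site d} (hx : x ∈ Λ)
    {v : Site d → ℝ}
    (h : ∀ y ∈ Λ, (if x = y then 1 else 0) ≤ E * v y - ∑ z ∈ Λ, hop y z * v z) :
    ∀ y ∈ Λ, gr 0 Λ E x y ≤ v y := by
  intro y hy
  have h1 := max_principle hE (Λ := Λ) (v := fun z => v z - gr 0 Λ E x z) ?_ y hy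
  · linarith
  · intro z hz
    have h2 := h z hz
    rw [← gr_zero_eq hE hx hz] at h2
    simp_rw [mul_sub]
    rw [Finset.sum_sub_distrib]
    linarith

theorem gr_zero_nonneg (Λ : Finset (Site d)) {E : ℝ} (hE : 2 * d < E) (x y : Site d) :
    0 ≤ gr 0 Λ E x y := by
  by_cases hxy : x ∈ Λ ∧ y ∈ Λ
  · refine max_principle hE (Λ := Λ) (v := fun z => gr 0 Λ E x z) ?_ y hxy.2
    intro z hz
    rw [gr_zero_eq hE hxy.1 hz]
    split_ifs <;> norm_num
  · unfold gr
    rw [dif_neg hxy]

/-- the row sums of the free Green function -/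
theorem sum_gr_zero_le (Λ : Finset (Site d)) {a : ℝ} (ha : 0 < a) (x : Site d) :
    ∑ y ∈ Λ, gr 0 Λ (2 * d + a) x y ≤ 1 / a := by
  have hE : 2 * (d:ℝ) < 2 * d + a := by linarith
  by_cases hx : x ∈ Λ
  swap
  · have : ∀ y ∈ Λ, gr 0 Λ (2 * d + a) x y = 0 := by
      intro y _
      unfold gr
      rw [dif_neg (fun h => hx h.1)]
    rw [Finset.sum_eq_zero this]
    positivity
  have h1 := max_principle hE (Λ := Λ)
    (v := fun z => 1 / a - ∑ y ∈ Λ, gr 0 Λ (2 * d + a) y z) ?_ x hx
  · have h2 : ∑ y ∈ Λ, gr 0 Λ (2 * d + a) x y = ∑ y ∈ Λ, gr 0 Λ (2 * d + a) y x :=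
      Finset.sum_congr rfl fun y _ => gr_symm _ _ _ _ _
    rw [h2]
    linarith
  · intro z hz
    have h2 : ∑ y ∈ Λ, ((2 * d + a) * gr 0 Λ (2 * d + a) y z -
        ∑ z' ∈ Λ, hop z z' * gr 0 Λ (2 * d + a) y z') = 1 := by
      rw [Finset.sum_congr rfl fun y hy => gr_zero_eq hE hy hz, Finset.sum_ite_eq', if_pos hz]
    rw [Finset.sum_sub_distrib, ← Finset.mul_sum, Finset.sum_comm] at h2
    simp_rw [mul_sub]
    rw [Finset.sum_sub_distrib]
    have h3 : ∀ z' ∈ Λ, hop z z' * ∑ y ∈ Λ, gr 0 Λ (2 * d + a) y z' =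
        ∑ y ∈ Λ, hop z z' * gr 0 Λ (2 * d + a) y z' := fun z' _ => Finset.mul_sum _ _ _
    rw [Finset.sum_congr rfl h3]
    have h4 : ∑ z' ∈ Λ, hop z z' * (1 / a) ≤ 2 * d * (1 / a) := by
      rw [← Finset.sum_mul]
      exact mul_le_mul_of_nonneg_right (sum_hop_le z Λ) (by positivity)
    have h5 : a * (1 / a) = 1 := by field_simp
    nlinarith

/-- partial sums of the walk expansion -/
def SW (E : ℝ) (x : Site d) (N : ℕ) (y : Site d) : ℝ :=
  ∑ n ∈ Finset.range N, (walks n (y - x) : ℝ) / E ^ (n + 1)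

theorem SW_nonneg {E : ℝ} (hE : 0 < E) (x : Site d) (N : ℕ) (y : Site d) : 0 ≤ SW E x N y := by
  unfold SW
  positivity

theorem nb_shift (f : Site d → ℝ) (x y : Site d) : nb (fun z => f (z - x)) y = nb f (y - x) := by
  unfold nb
  apply Finset.sum_congr rfl
  intro i _
  beta_reduce
  rw [add_sub_right_comm, sub_right_comm]

theorem nb_add (f g : Site d → ℝ) (y : Site d) : nb (fun z => f z + g z) y = nb f y + nb g y := by
  unfold nb
  rw [← Finset.sum_add_distrib]
  apply Finset.sum_congr rfl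
  intro i _
  ring

theorem nb_const_mul (c : ℝ) (f : Site d → ℝ) (y : Site d) :
    nb (fun z => c * f z) y = c * nb f y := by
  unfold nb
  rw [Finset.mul_sum]
  apply Finset.sum_congr rfl
  intro i _
  ring

theorem SW_eq {E : ℝ} (hE : 0 < E) (x : Site d) (N : ℕ) (y : Site d) :
    E * SW E x N y - nb (SW E x N) y =
      (if x = y then 1 else 0) - (walks N (y - x) : ℝ) / E ^ N := by
  have hxy : (y - x = 0) ↔ (x = y) := by rw [sub_eq_zero, eq_comm]
  induction N with
  | zero =>
    have h0 : (SW E x 0 : Site d → ℝ) = fun _ => 0 := by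
      funext z
      simp [SW]
    rw [h0]
    simp only [mul_zero, nb, add_zero, Finset.sum_const_zero, pow_zero, div_one,
      walks_zero, hxy, sub_self]
  | succ N ih =>
    have h1 : (SW E x (N + 1) : Site d → ℝ) =
        fun z => SW E x N z + E⁻¹ ^ (N + 1) * (walks N (z - x) : ℝ) := by
      funext z
      unfold SW
      rw [Finset.sum_range_succ]
      rw [inv_pow, inv_mul_eq_div]
    rw [h1, nb_add, nb_const_mul, nb_shift (fun z => (walks N z : ℝ)) x y, ← walks_succ]
    have h2 : E * (E⁻¹ ^ (N + 1) * (walks N (y - x) : ℝ)) = (walks N (y - x) : ℝ) / E ^ N := by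
      rw [inv_pow, pow_succ]
      field_simp
    have h3 : E⁻¹ ^ (N + 1) * (walks (N + 1) (y - x) : ℝ) =
        (walks (N + 1) (y - x) : ℝ) / E ^ (N + 1) := by
      rw [inv_pow, inv_mul_eq_div]
    rw [mul_add, h2, h3]
    linarith

/-- The Green function is dominated by the partial sums of the walk expansion. -/
theorem gr_le_SW (Λ : Finset (Site d)) {a : ℝ} (ha : 0 < a) {x y : Site d} (hx : x ∈ Λ)
    (hy : y ∈ Λ) (N : ℕ) :
    gr 0 Λ (2 * d + a) x y ≤ SW (2 * d + a) x N y + (2 * d / (2 * d + a)) ^ N / a := by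
  have hd0 : (0:ℝ) ≤ d := by positivity
  have hE : 2 * (d:ℝ) < 2 * d + a := by linarith
  have hE0 : 0 < 2 * (d:ℝ) + a := by linarith
  refine gr_le_of_super hE hx
    (v := fun z => SW (2 * d + a) x N z + (2 * d / (2 * d + a)) ^ N / a) ?_ y hy
  intro z hz
  have h1 := SW_eq hE0 x N z
  have h2 := sum_hop_le_nb Λ (SW_nonneg hE0 x N) z
  have h3 : (walks N (z - x) : ℝ) / (2 * d + a) ^ N ≤ (2 * d / (2 * d + a)) ^ N := by
    rw [div_pow]
    gcongr
    exact walks_le N _
  have h4 : ∑ z' ∈ Λ, hop z z' * ((2 * d / (2 * d + a)) ^ N / a) ≤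
      2 * d * ((2 * d / (2 * d + a)) ^ N / a) := by
    rw [← Finset.sum_mul]
    exact mul_le_mul_of_nonneg_right (sum_hop_le z Λ) (by positivity)
  have h5 : a * ((2 * d / (2 * d + a)) ^ N / a) = (2 * d / (2 * d + a)) ^ N := by field_simp
  simp_rw [mul_add]
  rw [Finset.sum_add_distrib]
  nlinarith

/-- a strict supersolution on the lattice gives a bound for the Green function -/
theorem gr_le_of_lattice_super (Λ : Finset (Site d)) {a : ℝ} (ha : 0 < a) {f : Site d → ℝ}
    (hf : ∀ y, 0 ≤ f y) (hsup : ∀ y, (if y = 0 then 1 else 0) ≤ 2 * d * f y - nb f y)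
    (x y : Site d) : gr 0 Λ (2 * d + a) x y ≤ f (y - x) := by
  by_cases hxy : x ∈ Λ ∧ y ∈ Λ
  swap
  · unfold gr
    rw [dif_neg hxy]
    exact hf _
  have hE : 2 * (d:ℝ) < 2 * d + a := by linarith
  refine gr_le_of_super hE hxy.1 (v := fun z => f (z - x)) ?_ y hxy.2
  intro z hz
  have h1 := hsup (z - x)
  have h2 := sum_hop_le_nb Λ (f := fun z => f (z - x)) (fun _ => hf _) z
  rw [nb_shift] at h2
  have h3 : (z - x = 0) ↔ (x = z) := by rw [sub_eq_zero, eq_comm]
  simp only [h3] at h1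
  have h4 := mul_nonneg ha.le (hf (z - x))
  linarith

/-- the same comparison for the partial sums of the walk expansion -/
theorem SW_le_of_lattice_super {a : ℝ} (ha : 0 < a) {f : Site d → ℝ}
    (hf : ∀ y, 0 ≤ f y) (hsup : ∀ y, (if y = 0 then 1 else 0) ≤ 2 * d * f y - nb f y) (N : ℕ) :
    SW (2 * d + a) 0 N (0 : Site d) ≤ f 0 := by
  have hd0 : (0:ℝ) ≤ d := by positivity
  have hE : 2 * (d:ℝ) < 2 * d + a := by linarith
  have hE0 : 0 < 2 * (d:ℝ) + a := by linarith
  -- the walks live in a box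
  have hsupp : ∀ n : ℕ, ∀ y : Site d, n < sd 0 y → walks n y = 0 := by
    intro n
    induction n with
    | zero =>
      intro y hy
      rw [walks, if_neg]
      rintro rfl
      rw [sd_self] at hy
      omega
    | succ n ih =>
      intro y hy
      rw [walks]
      apply Finset.sum_eq_zero
      intro i _
      have t1 := sd_triangle 0 (y + Pi.single i 1) y
      have t2 := sd_triangle 0 (y - Pi.single i 1) y
      have t3 := sd_add_single_le y i
      have t4 := sd_sub_single_le y i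
      rw [sd_comm] at t3 t4
      rw [ih _ (by omega), ih _ (by omega), add_zero]
  have hSW : ∀ y : Site d, N ≤ sd 0 y → SW (2 * d + a) 0 N y = 0 := by
    intro y hy
    unfold SW
    apply Finset.sum_eq_zero
    intro n hn
    rw [Finset.mem_range] at hn
    rw [sub_zero, hsupp n y (by omega), Nat.cast_zero, zero_div]
  have h1 := max_principle hE (Λ := box 0 N) (v := fun z => f z - SW (2 * d + a) 0 N z) ?_ 0
    (by rw [mem_box, sd_self]; omega)
  · linarith
  · intro z hz
    have h2 := SW_eq hE0 0 N z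
    have h3 : ∑ z' ∈ box 0 N, hop z z' * SW (2 * d + a) 0 N z' = nb (SW (2 * d + a) 0 N) z := by
      have h4 := sum_hop z (box z 1 ∪ box 0 N) Finset.subset_union_left (SW (2 * d + a) 0 N)
      simp only [smul_eq_mul] at h4
      have h5 : ∑ z' ∈ box z 1 ∪ box 0 N, hop z z' * SW (2 * d + a) 0 N z' =
        nb (SW (2 * d + a) 0 N) z := h4
      rw [← h5]
      apply Finset.sum_subset Finset.subset_union_right
      intro z' _ hz'
      rw [mem_box] at hz'
      rw [hSW z' (by omega), mul_zero]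
    have h6 := sum_hop_le_nb (box 0 N) hf z
    have h7 := hsup z
    have h8 := mul_nonneg ha.le (hf z)
    have h9 : (0:ℝ) ≤ (walks N (z - 0) : ℝ) / (2 * d + a) ^ N := by positivity
    simp_rw [mul_sub]
    rw [Finset.sum_sub_distrib, h3]
    have h10 : (if (0 : Site d) = z then (1:ℝ) else 0) = if z = 0 then 1 else 0 := by
      simp only [eq_comm]
    rw [h10] at h2
    linarith

end Pool.Agent.Loc
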