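import Pool.Agent.Helper48_Loc.Assembly
import Pool.Agent.Helper48_Loc.Decay
import Pool.Agent.Helper48_Loc.Complete2

/-!
# MP_1906c1_mp, part (2a): localization for `|E| ≥ 2d + G_d σ² + C |σ|^(2 + 1/(24 d))`

For the Anderson Hamiltonian `H_σ = Δ + σ ξ` on `ℤ^d`, `d ≥ 3`, with independent standard Gaussian
`ξ(x)`, exponential localization holds almost surely, for all `σ ≠ 0`, in the two intervals
`|E| ≥ E₀(σ)`, where `E₀(σ) = 2d + G_d σ² + C |σ|^(2 + 1/(24 d))` and
`G_d = (2d - Δ)⁻¹(0, 0) = ∑ₙ walks n 0 / (2d)^(n+1)` is the lattice Green function at the edge of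
the spectrum of `Δ` (the series converges: `Pool.Agent.Loc.summable_walks`).

The proof: a recursion for the mixed moments of `M = (E - Δ_Λ)^(-1/2) σ ξ (E - Δ_Λ)^(-1/2)`
(Gaussian integration by parts, with the diagonal part of the self-energy resummed) shows that
`‖M‖ < 1` in boxes of side `|σ|^(-3)`, with overwhelming probability; the Combes-Thomas bound and
an a-priori fractional moment bound give the initial estimate of the fractional moment method; the
finite-volume criterion gives decay at fixed energy, uniformly in the volume; a polynomial argument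
gives the two-box property simultaneously for all energies; this implies the decay of all
polynomially bounded solutions and the completeness of the eigenfunctions.
-/

set_option autoImplicit false

open MeasureTheory ProbabilityTheory

open scoped ENNReal ComplexInnerProductSpace

namespace Pool.Agent.Helper48_Loc.WeakDisorderLocalizationOld

open Pool.Agent.Anderson Pool.Agent.Loc

universe u

/-- the threshold `E₀(σ) = 2d + G_d σ² + C |σ|^(2 + 1/(24 d))` -/
noncomputable def thr (d : ℕ) (C σ : ℝ) : ℝ :=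
  2 * d + watson d * σ ^ 2 + C * |σ| ^ (2 + 1 / (24 * d : ℝ))

/-- Let `d ≥ 3` and let `ξ(y)`, `y ∈ ℤ^d`, be independent standard Gaussians, `H_σ = Δ + σ ξ`. There
is `C > 0` such that for all `σ ≠ 0` there is `m > 0` such that almost surely, with
`E₀ = 2d + G_d σ² + C |σ|^(2 + 1/(24 d))`:

* every polynomially bounded solution `ψ` of `H_σ ψ = E ψ`, `|E| ≥ E₀`, decays exponentially with
  the rate `m`;
* the spectrum in `|E| ≥ E₀` is pure point: a vector `u ∈ ℓ²` with `w = H_σ u ∈ ℓ²` which is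
  orthogonal to all the eigenfunctions with eigenvalues `|E| ≥ E₀` satisfies `‖H_σ u‖ ≤ E₀ ‖u‖`. -/
theorem result (d : ℕ) (hd : 3 ≤ d) :
    ∃ C : ℝ, 0 < C ∧ ∀ σ : ℝ, σ ≠ 0 → ∃ m : ℝ, 0 < m ∧
      ∀ (Ω : Type u) [MeasurableSpace Ω] (P : Measure Ω) [IsProbabilityMeasure P]
        (ξ : Site d → Ω → ℝ), (∀ y, Measurable (ξ y)) →
        (∀ y, P.map (ξ y) = gaussianReal 0 1) → iIndepFun ξ P →
        ∀ᵐ ω ∂P,
          (∀ E : ℝ, thr d C σ ≤ |E| → ∀ ψ : Site d → ℂ,
            (∃ (K : ℝ) (k : ℕ), ∀ x, ‖ψ x‖ ≤ K * (1 + (sd 0 x : ℝ)) ^ k) →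
            (∀ x, lap ψ x + ((σ * ξ x ω : ℝ) : ℂ) * ψ x = (E : ℂ) * ψ x) →
            ∃ K : ℝ, ∀ x, ‖ψ x‖ ≤ K * Real.exp (-m * sd 0 x)) ∧
          (∀ u w : L2 d, (∀ x, w x = lap u x + ((σ * ξ x ω : ℝ) : ℂ) * u x) →
            (∀ (E : ℝ) (ψ : L2 d), thr d C σ ≤ |E| → IsEigen (fun x => σ * ξ x ω) E ψ →
              ⟪ψ, u⟫ = 0) →
            ‖w‖ ≤ thr d C σ * ‖u‖) := by
  obtain ⟨C, hC, h⟩ := fixedDecay_gauss.{u} hd
  refine ⟨C, hC, fun σ hσ => ?_⟩
  obtain ⟨K, μ, hμ, hfd⟩ := h σ hσ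
  refine ⟨μ / 4, by positivity, fun Ω _ P _ ξ hm hlaw hind => ?_⟩
  have hd0 : (0:ℝ) < d := by
    have : 0 < d := by omega
    exact_mod_cast this
  have hE₀ : 0 < thr d C σ := by
    unfold thr
    have := watson_pos hd
    have : 0 < |σ| := abs_pos.2 hσ
    positivity
  have h1 := twoBox_of_fixedDecay (V := fun y ω => σ * ξ y ω) (fun z => (hm z).const_mul σ)
    (hind.comp (fun _ t => σ * t) fun _ => by fun_prop) hE₀ hμ (hfd P ξ hm hlaw hind)
  filter_upwards [h1] with ω hω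
  obtain ⟨L₀, hL₀⟩ := hω
  refine ⟨fun E hE ψ hpoly hψ => decay_of_twoBox hμ hL₀ hE hpoly hψ, fun u w hw horth => ?_⟩
  exact complete_of_twoBox hE₀.le hμ hL₀ hw fun E ψ hE hψ _ => horth E ψ hE hψ

end Pool.Agent.Helper48_Loc.WeakDisorderLocalizationOld
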